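import Pool.Agent.Helper79.DN.StW

/-!
# Assembly of block W: the local theorem for all maps of degree not a power of `p`
-/

set_option autoImplicit false
set_option linter.unusedSectionVars false

namespace Pool.Agent.Helper79.DN

open Polynomial Pool.Agent.Helper79.DM Pool.Agent.Helper11.SP

theorem IsPhi.mono {L : Type*} [NormedField L] {d : ℕ} {f : L[X]} {φ : L → L} {R c R' c' : ℝ}
    (h : IsPhi d f φ R c) (hd : 1 ≤ d) (hR : R ≤ R') (hc' : 0 < c') (hc : c' ≤ c) :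
    IsPhi d f φ R' c' := by
  obtain ⟨h1, h2, h3, h4⟩ := h
  refine ⟨h1.trans_le hR, hc', fun x hx => ?_, fun x hx => ?_⟩
  · obtain ⟨e1, e2, e3⟩ := h3 x (hR.trans_lt hx)
    refine ⟨e1, e2, e3.trans ?_⟩
    exact Real.rpow_le_rpow_of_exponent_le (by linarith) (by linarith)
  · rcases le_or_gt ‖x‖ R with h5 | h5
    · exact (h4 x h5).trans (pow_le_pow_left₀ (by linarith) hR d)
    · rw [(h3 x h5).1]
      exact pow_le_pow_left₀ (norm_nonneg _) hx d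

/-- The irreducible case, after normalization. -/
theorem wild_irred (H0 : St_W0) (H2 : St_W2) (H3 : St_W3) (H4 : St_W4) (H5 : St_W5)
    (H13 : St_W13) (H15 : St_W15) (H18 : St_W18) (p : ℕ) [Fact p.Prime] (L : Type)
    [NormedField L] [IsUltrametricDist L] [CompleteSpace L] [IsAlgClosed L] [CharP L p] (e m : ℕ)
    (he : 1 ≤ e) (hm : 2 ≤ m) (hpm : ¬ p ∣ m) (f g : L[X]) (hf : f.Monic)
    (hfd : f.natDegree = p ^ e * m) (hg : g.Monic) (hgd : g.natDegree = p ^ e * m)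
    (φ ψ : L → L) (R c : ℝ) (hφ : IsPhi (p ^ e * m) f φ R c) (hψ : IsPhi (p ^ e * m) g ψ R c)
    (h : MvPolynomial (Fin 2) L) (hirr : Irreducible h) (hder : derivative (toP L h) ≠ 0)
    (x y : L) (hx : R < ‖x‖) (hy : R < ‖y‖) : EP (ret f g x y h) := by
  classical
  have hpp : p.Prime := Fact.out
  have hd2 : 2 ≤ p ^ e * m := by
    have : 1 ≤ p ^ e := Nat.one_le_pow _ _ hpp.pos
    nlinarith
  set d := p ^ e * m with hd
  have hR1 : 1 < R := hφ.1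
  by_cases hfin : (ret f g x y h).Finite
  · exact EP.of_finite hfin
  have hinf : (ret f g x y h).Infinite := hfin
  obtain ⟨a₀, b₀, w, C₀, θ, S₀, ha₀, hb₀, hθ0, hθ1, hnn, hS₀, hw⟩ :=
    H4 L d hd2 f g φ ψ R c hφ hψ x y hx hy h hirr.ne_zero hinf
  obtain ⟨hφ1, -⟩ := H2 L d (by omega) f φ R c hφ
  obtain ⟨hψ1, -⟩ := H2 L d (by omega) g ψ R c hψ
  have hφ0 : ∀ z, R < ‖z‖ → φ z ≠ 0 := by
    intro z hz
    rw [← norm_pos_iff, (hφ1 z hz).1]
    linarith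
  have hψ0 : ∀ z, R < ‖z‖ → ψ z ≠ 0 := by
    intro z hz
    rw [← norm_pos_iff, (hψ1 z hz).1]
    linarith
  have hu : ‖ψ y ^ a₀ / φ x ^ b₀‖ = 1 := by
    rw [norm_div, norm_pow, norm_pow, hnn]
    exact div_self (pow_ne_zero _ (norm_ne_zero_iff.2 (hφ0 x hx)))
  obtain ⟨D, hD, huD⟩ := H5 p L e m he hm hpm _ w hu C₀ θ hθ0 hθ1 S₀ hS₀ hw
  have hrel : ψ y ^ (a₀ * D) = φ x ^ (b₀ * D) := by
    rw [div_pow, ← pow_mul, ← pow_mul, div_eq_one_iff_eq (pow_ne_zero _ (hφ0 x hx))] at huD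
    exact huD
  obtain ⟨a, ha, haD⟩ : ∃ a, 0 < a ∧ a = a₀ * D := ⟨_, Nat.mul_pos ha₀ hD, rfl⟩
  obtain ⟨b, hb, hbD⟩ : ∃ b, 0 < b ∧ b = b₀ * D := ⟨_, Nat.mul_pos hb₀ hD, rfl⟩
  rw [← haD, ← hbD] at hrel
  -- the curve
  set P : L[X][X] := toP L h with hP
  have hPirr : Irreducible P := (MulEquiv.irreducible_iff (toP L)).2 hirr
  have hP0 : P ≠ 0 := hPirr.ne_zero
  have hPd : 0 < P.natDegree := by
    by_contra hcon
    have h1 : P.natDegree = 0 := by omega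
    apply hder
    rw [Polynomial.eq_C_of_natDegree_eq_zero h1, derivative_C]
  have hPdvd : ¬ P ∣ derivative P := by
    intro hdvd
    have h1 := Polynomial.natDegree_le_of_dvd hdvd hder
    have h2 := Polynomial.natDegree_derivative_lt hPd.ne'
    omega
  -- the orbits
  have hxn : ∀ n, ‖orb f x n‖ = ‖x‖ ^ d ^ n := fun n => ((hφ1 x hx).2 n).1
  have hyn : ∀ n, ‖orb g y n‖ = ‖y‖ ^ d ^ n := fun n => ((hψ1 y hy).2 n).1
  have hx1 : 1 < ‖x‖ := hR1.trans hx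
  have hy1 : 1 < ‖y‖ := hR1.trans hy
  have hlt : ∀ n, n < d ^ n := fun n => Nat.lt_pow_self (by omega)
  have large : ∀ t : ℝ, 1 < t → ∀ B : ℝ, ∃ n₀, ∀ n, n₀ ≤ n → B < t ^ d ^ n := by
    intro t ht B
    obtain ⟨n₀, hn₀⟩ := pow_unbounded_of_one_lt B ht
    exact ⟨n₀, fun n hn => hn₀.trans_le (pow_le_pow_right₀ ht.le (hn.trans (hlt n).le))⟩
  have hxR : ∀ n, R < ‖orb f x n‖ := fun n => by
    rw [hxn]
    exact hx.trans_le (le_self_pow₀ hx1.le (by positivity))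
  have hyR : ∀ n, R < ‖orb g y n‖ := fun n => by
    rw [hyn]
    exact hy.trans_le (le_self_pow₀ hy1.le (by positivity))
  have hreln : ∀ n, ψ (orb g y n) ^ a = φ (orb f x n) ^ b := by
    intro n
    rw [((hψ1 y hy).2 n).2.1, ((hφ1 x hx).2 n).2.1, ← pow_mul, ← pow_mul, mul_comm, pow_mul, hrel,
      ← pow_mul, mul_comm]
  have hinj : Function.Injective (orb f x) := by
    intro i j hij
    have h1 : ‖x‖ ^ d ^ i = ‖x‖ ^ d ^ j := by rw [← hxn, ← hxn, hij]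
    have h2 := (pow_right_injective₀ (by linarith) hx1.ne') h1
    exact Nat.pow_right_injective hd2 h2
  have hunb : ∀ B : ℝ, ∃ z : L, B < ‖z‖ := by
    intro B
    obtain ⟨n, hn⟩ := large ‖x‖ hx1 B
    exact ⟨orb f x n, by rw [hxn]; exact hn n le_rfl⟩
  -- the number of flat roots
  obtain ⟨N₀, R₀, hcount⟩ := H13 p L hunb e m hm hpm f g hf hfd hg hgd φ ψ R c hφ hψ a b ha hb P hP0
  set F : L → ℕ := fc P φ ψ R (a * (p ^ e * m) ^ N₀) (b * (p ^ e * m) ^ N₀) with hF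
  have hFle : ∀ z, F z ≤ P.natDegree := by
    intro z
    rw [hF]
    unfold fc rts
    refine (Multiset.countP_le_card _ _).trans ?_
    exact (Polynomial.card_roots' _).trans Polynomial.natDegree_map_le
  have hev : ∀ n, n ∈ ret f g x y h ↔ ev (orb f x n) (orb g y n) P = 0 := by
    intro n
    rw [hP, ev_toP]
    rfl
  obtain ⟨r, -, hr⟩ := pigeon (Finset.range (P.natDegree + 1)) (ret f g x y h) hinf
    (fun n i => F (orb f x n) = i)
    (fun n _ => ⟨_, Finset.mem_range.2 (by have := hFle (orb f x n); omega), rfl⟩)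
  have hcount' := hcount r (fun B => by
    obtain ⟨n₀, hn₀⟩ := large ‖x‖ hx1 B
    obtain ⟨n, hn, hn'⟩ := hr.exists_gt n₀
    exact ⟨orb f x n, by rw [hxn]; exact hn₀ n hn'.le, hn.2.ge⟩)
  -- the bad points
  obtain ⟨ρ, A', B', hρ, hAB⟩ := H0 L P (derivative P) hPirr hPd hPdvd
  have hbad : {n | (P.leadingCoeff * ρ).eval (orb f x n) = 0}.Finite := by
    have h1 : P.leadingCoeff * ρ ≠ 0 := mul_ne_zero (leadingCoeff_ne_zero.2 hP0) hρ
    have h2 := (Finset.finite_toSet (P.leadingCoeff * ρ).roots.toFinset).preimage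
      (f := orb f x) hinj.injOn
    refine h2.subset fun n hn => ?_
    simp only [Set.mem_preimage, Finset.mem_coe, Multiset.mem_toFinset]
    exact (mem_roots h1).2 hn
  obtain ⟨R₁, hH18⟩ := H18 p L e m hm hpm f g hf hfd hg hgd φ ψ R c hφ hψ a b ha hb
  obtain ⟨n₁, hn₁⟩ := hbad.bddAbove
  obtain ⟨n₂, hn₂⟩ := large ‖x‖ hx1 (max R₀ R₁)
  obtain ⟨n₃, hn₃⟩ := large ‖y‖ hy1 R₁
  have good : ∀ n, n ∈ {n ∈ ret f g x y h | F (orb f x n) = r} → n₁ < n → n₂ ≤ n →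
      ev (orb f x n) (orb g y n) P = 0 ∧ ev (orb f x n) (orb g y n) (derivative P) ≠ 0 ∧
      LocFlat P φ ψ a b (orb f x n) (orb g y n) := by
    intro n hn h1 h2
    have e1 := (hev n).1 hn.1
    have e2 : (P.leadingCoeff * ρ).eval (orb f x n) ≠ 0 := by
      intro h3
      have := hn₁ h3
      omega
    rw [eval_mul] at e2
    have e3 : ∀ z, ev (orb f x n) z P = 0 → ev (orb f x n) z (derivative P) ≠ 0 := by
      intro z hz hz'
      apply right_ne_zero_of_mul e2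
      rw [← ev_C (orb f x n) z ρ, ← hAB, ev_add, ev_mul, ev_mul, hz, hz']
      simp
    have hbig : max R₀ R₁ < ‖orb f x n‖ := by
      rw [hxn]
      exact hn₂ n h2
    refine ⟨e1, e3 _ e1, ?_⟩
    refine H15 L φ ψ R hR1 (fun z hz => ⟨H3 p L e m hm hpm f φ R c hφ z hz, hφ0 z hz⟩)
      (fun z hz => ⟨H3 p L e m hm hpm g ψ R c hψ z hz, hψ0 z hz⟩) a b ((p ^ e * m) ^ N₀) ha hb
      (by positivity) P _ _ (hxR n) (hyR n) (left_ne_zero_of_mul e2) e3
      ⟨1, one_pos, fun z hz => ?_⟩ e1 (hreln n)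
    have hzn : ‖z‖ = ‖orb f x n‖ := norm_eq_of_close (hz.trans (hx1.trans_le (by
      rw [hxn]
      exact le_self_pow₀ hx1.le (by positivity))))
    show F (orb f x n) ≤ F z
    rw [hn.2]
    exact hcount' z (by
      rw [hzn]
      exact (le_max_left _ _).trans_lt hbig)
  obtain ⟨k₁, hk₁, hk₁'⟩ := hr.exists_gt (max n₁ (max n₂ n₃))
  obtain ⟨k₂, hk₂, hk₂'⟩ := hr.exists_gt k₁
  have l1 : n₁ < k₁ := (le_max_left _ _).trans_lt hk₁'
  have l2 : n₂ < k₁ := ((le_max_left _ _).trans (le_max_right _ _)).trans_lt hk₁'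
  have l3 : n₃ < k₁ := ((le_max_right _ _).trans (le_max_right _ _)).trans_lt hk₁'
  obtain ⟨g1, g2, g3⟩ := good k₁ hk₁ l1 l2.le
  obtain ⟨g1', g2', g3'⟩ := good k₂ hk₂ (by omega) (by omega)
  have hk : k₂ = (k₂ - k₁) + k₁ := by omega
  have ox : orb f x k₂ = orb f (orb f x k₁) (k₂ - k₁) := by
    conv_lhs => rw [hk, orb_add]
  have oy : orb g y k₂ = orb g (orb g y k₁) (k₂ - k₁) := by
    conv_lhs => rw [hk, orb_add]
  rw [ox, oy] at g1' g2' g3'
  have hdvd : P ∣ tw f g P (k₂ - k₁) := by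
    refine hH18 P hPirr (orb f x k₁) (orb g y k₁) (k₂ - k₁) (by omega) ?_ ?_ g1 g2 g1' g2' g3 g3'
    · rw [hxn]
      exact (le_max_right _ _).trans_lt (hn₂ k₁ l2.le)
    · rw [hyn]
      exact hn₃ k₁ l3.le
  refine ep_of_add (k₂ - k₁) (by omega) fun n hn => ?_
  obtain ⟨Q, hQ⟩ := hdvd
  rw [hev] at hn ⊢
  have h1 : ev (orb f x n) (orb g y n) (tw f g P (k₂ - k₁)) = 0 := by
    rw [hQ, ev_mul, hn, zero_mul]
  rw [ev_tw] at h1
  rw [add_comm n, orb_add, orb_add]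
  exact h1

/-- Homothety to a monic polynomial. -/
theorem exists_monic {L : Type*} [Field L] [IsAlgClosed L] (f : L[X]) (h2 : 2 ≤ f.natDegree) :
    ∃ c : L, c ≠ 0 ∧ (C c * f.comp (C c⁻¹ * X)).Monic ∧
      (C c * f.comp (C c⁻¹ * X)).natDegree = f.natDegree := by
  have hlc : f.leadingCoeff ≠ 0 := by
    rw [Ne, leadingCoeff_eq_zero]
    rintro rfl
    simp at h2
  obtain ⟨c, hc⟩ := IsAlgClosed.exists_pow_nat_eq f.leadingCoeff
    (show 0 < f.natDegree - 1 by omega)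
  have hc0 : c ≠ 0 := by
    rintro rfl
    rw [zero_pow (by omega)] at hc
    exact hlc hc.symm
  have hlin : (C c⁻¹ * X : L[X]).natDegree = 1 := natDegree_C_mul_X _ (inv_ne_zero hc0)
  refine ⟨c, hc0, ?_, ?_⟩
  · rw [Monic, leadingCoeff_mul, leadingCoeff_C, leadingCoeff_comp (by
      rw [hlin]
      exact one_ne_zero), leadingCoeff_mul, leadingCoeff_C, leadingCoeff_X, mul_one, ← hc]
    have h3 : f.natDegree = (f.natDegree - 1) + 1 := by omega
    conv_lhs => rw [h3]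
    simp only [Nat.add_sub_cancel, pow_succ, inv_pow]
    field_simp
  · rw [natDegree_C_mul hc0, natDegree_comp, hlin, mul_one]

theorem escape_phi (H2 : St_W2) {L : Type} [NormedField L] [IsUltrametricDist L] (d : ℕ)
    (hd : 1 ≤ d) (f : L[X]) (φ : L → L) (R c : ℝ) (hφ : IsPhi d f φ R c) (x : L)
    (hx : ∀ M : ℝ, ∃ n, M < ‖orb f x n‖) : ∃ n₀, ∀ n, n₀ ≤ n → R < ‖orb f x n‖ := by
  obtain ⟨n₀, hn₀⟩ := hx R
  refine ⟨n₀, fun n hn => ?_⟩
  obtain ⟨k, rfl⟩ := Nat.exists_eq_add_of_le' hn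
  have h1 := (((H2 L d hd f φ R c hφ).1 _ hn₀).2 k).1
  rw [orb_add, h1]
  exact hn₀.trans_le (le_self_pow₀ (hφ.1.trans hn₀).le (by positivity))

theorem thm_Loc (H0 : St_W0) (H1 : St_W1) (H2 : St_W2) (H3 : St_W3) (H4 : St_W4) (H5 : St_W5)
    (H13 : St_W13) (H15 : St_W15) (H18 : St_W18) (H19 : St_W19) : St_Loc := by
  intro p _ L _ _ _ _ _ f g hd h2 hpd x y hx hy h h0
  have hpp : p.Prime := Fact.out
  obtain ⟨e, m, hm, hdm⟩ := Nat.exists_eq_pow_mul_and_not_dvd (show f.natDegree ≠ 0 by omega) p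
    hpp.ne_one
  rcases Nat.eq_zero_or_pos e with he | he
  · have ht : ∀ f : L[X], f.natDegree = p ^ e * m → Tame p f := by
      intro f hf
      refine ⟨0, f, ?_, ?_⟩
      · rw [pow_zero, expand_one]
      · rw [hf, he, pow_zero, one_mul]
        exact hm
    exact local_ep (p := p) f g hd h2 hpd (ht f hdm) (ht g (hd ▸ hdm)) x y hx hy h h0
  have hm2 : 2 ≤ m := by
    by_contra hcon
    have h3 : m = 0 ∨ m = 1 := by omega
    rcases h3 with h3 | h3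
    · exact hm (h3 ▸ dvd_zero p)
    · exact hpd e (by rw [hdm, h3, mul_one])
  obtain ⟨c, hc, hcm, hcd⟩ := exists_monic f h2
  obtain ⟨c', hc', hcm', hcd'⟩ := exists_monic g (hd ▸ h2)
  set f₁ := C c * f.comp (C c⁻¹ * X) with hf₁
  set g₁ := C c' * g.comp (C c'⁻¹ * X) with hg₁
  set h' : MvPolynomial (Fin 2) L :=
    MvPolynomial.aeval ![MvPolynomial.C c⁻¹ * MvPolynomial.X 0,
      MvPolynomial.C c'⁻¹ * MvPolynomial.X 1] h with hh'
  have hev : ∀ a b : L, MvPolynomial.eval ![a, b] h' =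
      MvPolynomial.eval ![c⁻¹ * a, c'⁻¹ * b] h := by
    intro a b
    rw [hh', MvPolynomial.aeval_def, MvPolynomial.eval_eval₂, ← MvPolynomial.coe_eval₂Hom,
      MvPolynomial.eval]
    congr 2
    · ext
      simp
    · funext i
      fin_cases i <;> simp
  have h0' : h' ≠ 0 := by
    intro hz
    apply h0
    apply MvPolynomial.funext
    intro v
    have h1 := hev (c * v 0) (c' * v 1)
    rw [hz, map_zero, inv_mul_cancel_left₀ hc, inv_mul_cancel_left₀ hc'] at h1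
    rw [map_zero, h1]
    congr 2
    funext i
    fin_cases i <;> rfl
  have heq : ret f g x y h = ret f₁ g₁ (c * x) (c' * y) h' := by
    ext n
    show MvPolynomial.eval ![orb f x n, orb g y n] h = 0 ↔
      MvPolynomial.eval ![orb f₁ (c * x) n, orb g₁ (c' * y) n] h' = 0
    rw [hev, orb_conj c hc, orb_conj c' hc', inv_mul_cancel_left₀ hc, inv_mul_cancel_left₀ hc']
  rw [heq]
  have hd1 : 1 ≤ p ^ e * m := by omega
  have hfd : f₁.natDegree = p ^ e * m := by rw [hcd, hdm]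
  have hgd : g₁.natDegree = p ^ e * m := by rw [hcd', ← hd, hdm]
  obtain ⟨φ, R₁, c₁, hφ₁⟩ := H1 p L e m hm2 hm f₁ hcm hfd
  obtain ⟨ψ, R₂, c₂, hψ₁⟩ := H1 p L e m hm2 hm g₁ hcm' hgd
  have hφ : IsPhi (p ^ e * m) f₁ φ (max R₁ R₂) (min c₁ c₂) :=
    hφ₁.mono hd1 (le_max_left _ _) (lt_min hφ₁.2.1 hψ₁.2.1) (min_le_left _ _)
  have hψ : IsPhi (p ^ e * m) g₁ ψ (max R₁ R₂) (min c₁ c₂) :=
    hψ₁.mono hd1 (le_max_right _ _) (lt_min hφ₁.2.1 hψ₁.2.1) (min_le_right _ _)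
  have hX : ∀ M : ℝ, ∃ n, M < ‖orb f₁ (c * x) n‖ := by
    intro M
    have hcn : 0 < ‖c‖ := norm_pos_iff.2 hc
    obtain ⟨n, hn⟩ := hx (M / ‖c‖)
    refine ⟨n, ?_⟩
    rw [orb_conj c hc, norm_mul]
    rw [div_lt_iff₀ hcn] at hn
    linarith
  have hY : ∀ M : ℝ, ∃ n, M < ‖orb g₁ (c' * y) n‖ := by
    intro M
    have hcn : 0 < ‖c'‖ := norm_pos_iff.2 hc'
    obtain ⟨n, hn⟩ := hy (M / ‖c'‖)
    refine ⟨n, ?_⟩
    rw [orb_conj c' hc', norm_mul]
    rw [div_lt_iff₀ hcn] at hn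
    linarith
  obtain ⟨n₁, hn₁⟩ := escape_phi H2 _ hd1 f₁ φ _ _ hφ _ hX
  obtain ⟨n₂, hn₂⟩ := escape_phi H2 _ hd1 g₁ ψ _ _ hψ _ hY
  refine EP.of_tail (max n₁ n₂) ?_
  rw [ret_tail]
  have hX' := hn₁ _ (le_max_left n₁ n₂)
  have hY' := hn₂ _ (le_max_right n₁ n₂)
  generalize orb f₁ (c * x) (max n₁ n₂) = X' at hX' ⊢
  generalize orb g₁ (c' * y) (max n₁ n₂) = Y' at hY' ⊢
  refine ret_of_factors _ _ _ _ _ h0' fun k hk _ => ?_
  rcases H19 p L k hk with h3 | h3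
  · exact wild_irred H0 H2 H3 H4 H5 H13 H15 H18 p L e m he hm2 hm f₁ g₁ hcm hfd hcm' hgd φ ψ _ _
      hφ hψ k hk h3 X' Y' hX' hY'
  · rw [ret_swap]
    have hk' : Irreducible (MvPolynomial.rename (Equiv.swap (0 : Fin 2) 1) k) :=
      (MulEquiv.irreducible_iff (MvPolynomial.renameEquiv L (Equiv.swap (0 : Fin 2) 1))).2 hk
    exact wild_irred H0 H2 H3 H4 H5 H13 H15 H18 p L e m he hm2 hm g₁ f₁ hcm' hgd hcm hfd ψ φ _ _
      hψ hφ _ hk' h3 Y' X' hY' hX'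

end Pool.Agent.Helper79.DN
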