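import Pool.Agent.Helper79.DN.StC

/-!
# [C1] Multiplicities of iterated preimages
-/

set_option autoImplicit false

namespace Pool.Agent.Helper79.DN

open Polynomial Pool.Agent.Helper79.DM Pool.Agent.Helper11.SP

/-- The ramification index of `g` at `β`. -/
noncomputable def ramC1 {M : Type*} [Field M] (g : M[X]) (β : M) : ℕ :=
  rootMultiplicity β (g - C (g.eval β))

theorem C1_sub_ne {M : Type*} [Field M] (g : M[X]) (hd : 2 ≤ g.natDegree) (γ : M) :
    g - C γ ≠ 0 := by
  intro h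
  have h1 : g.natDegree = 0 := by
    rw [sub_eq_zero.1 h]; exact natDegree_C _
  omega

theorem C1_pow {M : Type*} [Field M] (q : M[X]) (hq : q ≠ 0) (β : M) (m : ℕ) :
    rootMultiplicity β (q ^ m) = m * rootMultiplicity β q := by
  induction m with
  | zero =>
    rw [pow_zero, zero_mul]
    exact rootMultiplicity_eq_zero (by simp)
  | succ m ih =>
    rw [pow_succ, rootMultiplicity_mul (mul_ne_zero (pow_ne_zero _ hq) hq), ih, Nat.succ_mul]

theorem C1_deg {M : Type*} [Field M] (q : M[X]) (hq : q ≠ 0) (β : M) :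
    rootMultiplicity β q ≤ q.natDegree := by
  have h := natDegree_le_of_dvd (pow_rootMultiplicity_dvd q β) hq
  rwa [natDegree_pow, natDegree_X_sub_C, mul_one] at h

theorem C1_comp {M : Type*} [Field M] (g q : M[X]) (hd : 2 ≤ g.natDegree) (hq : q ≠ 0) (β : M) :
    rootMultiplicity β (q.comp g) = rootMultiplicity (g.eval β) q * ramC1 g β := by
  obtain ⟨q₁, h1, h2⟩ := exists_eq_pow_rootMultiplicity_mul_and_not_dvd q hq (g.eval β)
  set m := rootMultiplicity (g.eval β) q with hm
  have h3 : q.comp g = (g - C (g.eval β)) ^ m * q₁.comp g := by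
    conv_lhs => rw [h1]
    simp
  have h4 : (q₁.comp g).eval β ≠ 0 := by
    rw [eval_comp]
    intro h
    exact h2 (dvd_iff_isRoot.2 h)
  have h5 : q₁.comp g ≠ 0 := by
    intro h
    rw [h] at h4
    simp at h4
  have h6 := C1_sub_ne g hd (g.eval β)
  rw [h3, rootMultiplicity_mul (mul_ne_zero (pow_ne_zero _ h6) h5), C1_pow _ h6,
    rootMultiplicity_eq_zero h4, add_zero]
  rfl

theorem C1_ram_le {M : Type*} [Field M] (g : M[X]) (hd : 2 ≤ g.natDegree) (β : M) :
    ramC1 g β ≤ g.natDegree := by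
  have h := C1_deg (g - C (g.eval β)) (C1_sub_ne g hd _) β
  rwa [natDegree_sub_C] at h

theorem C1_full {M : Type*} [Field M] (g : M[X]) (hd : 2 ≤ g.natDegree) (β : M)
    (h : ramC1 g β = g.natDegree) :
    g = C (g.eval β) + C g.leadingCoeff * (X - C β) ^ g.natDegree := by
  have h1 := pow_rootMultiplicity_dvd (g - C (g.eval β)) β
  unfold ramC1 at h
  rw [h] at h1
  obtain ⟨r, hr⟩ := h1
  have h6 := C1_sub_ne g hd (g.eval β)
  have hr0 : r ≠ 0 := by
    rintro rfl
    rw [mul_zero] at hr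
    exact h6 hr
  have h7 : r.natDegree = 0 := by
    have h8 := congrArg natDegree hr
    rw [natDegree_sub_C, natDegree_mul (pow_ne_zero _ (X_sub_C_ne_zero β)) hr0,
      natDegree_pow, natDegree_X_sub_C] at h8
    omega
  obtain ⟨c, rfl⟩ := natDegree_eq_zero.1 h7
  have h9 : g = C (g.eval β) + C c * (X - C β) ^ g.natDegree := by
    rw [mul_comm (C c), ← hr]; ring
  have h10 : g.leadingCoeff = c := by
    have h11 := congrArg (fun q => coeff q g.natDegree) h9
    simp only [coeff_add, coeff_C_mul, coeff_C] at h11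
    rw [if_neg (by omega), zero_add] at h11
    have h12 : ((X - C β) ^ g.natDegree).coeff g.natDegree = 1 := by
      have h13 := (monic_X_sub_C β).pow g.natDegree
      have h14 : ((X - C β) ^ g.natDegree).natDegree = g.natDegree := by
        rw [natDegree_pow, natDegree_X_sub_C, mul_one]
      have h15 := h13.coeff_natDegree
      rwa [h14] at h15
    rw [h12, mul_one] at h11
    exact h11
  rw [h10]
  exact h9

theorem C1_unique (p : ℕ) [Fact p.Prime] {M : Type*} [Field M] [CharP M p] (d : ℕ)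
    (h2 : 2 ≤ d) (hd : ∀ k, d ≠ p ^ k) (a b c : M) (hc : c ≠ 0) (γ δ : M)
    (h : C γ + C c * (X - C a) ^ d = C δ + C c * (X - C b) ^ d) : a = b := by
  have hp : p.Prime := Fact.out
  obtain ⟨k, n, hn, hdn⟩ := Nat.exists_eq_pow_mul_and_not_dvd (n := d) (by omega) p hp.ne_one
  have hn2 : 2 ≤ n := by
    rcases n with _ | _ | n
    · simp at hn
    · exact absurd (by simpa using hdn) (hd k)
    · omega
  have hex : ∀ β : M, (X - C β) ^ d = expand M (p ^ k) ((X - C (β ^ p ^ k)) ^ n) := by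
    intro β
    rw [hdn, pow_mul, map_pow, map_sub, expand_X, expand_C, sub_pow_char_pow, C_pow]
  have hpk : 0 < p ^ k := pow_pos hp.pos k
  have hco : ∀ β : M, ((X - C β) ^ d).coeff ((n - 1) * p ^ k) = - (β ^ p ^ k) * n := by
    intro β
    rw [hex, coeff_expand_mul hpk, sub_eq_add_neg, ← C_neg, coeff_X_add_C_pow]
    have h1 : n - (n - 1) = 1 := by omega
    have h2 : n.choose (n - 1) = n := by
      rw [Nat.choose_symm (by omega : 1 ≤ n)]
      exact Nat.choose_one_right n
    rw [h1, h2, pow_one]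
  have h5 := congrArg (fun q => coeff q ((n - 1) * p ^ k)) h
  have h6 : (n - 1) * p ^ k ≠ 0 := Nat.mul_ne_zero (by omega) hpk.ne'
  simp only [coeff_add, coeff_C_mul, coeff_C, if_neg h6, zero_add, hco] at h5
  have h7 := mul_left_cancel₀ hc h5
  have h8 : (n : M) ≠ 0 := by
    intro h
    exact hn ((CharP.cast_eq_zero_iff M p n).1 h)
  have h9 := mul_right_cancel₀ h8 h7
  have h10 : a ^ p ^ k = b ^ p ^ k := neg_injective h9
  have h11 : (a - b) ^ p ^ k = 0 := by rw [sub_pow_char_pow, h10, sub_self]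
  exact sub_eq_zero.1 (eq_zero_of_pow_eq_zero h11)

theorem C1_pair (p : ℕ) [Fact p.Prime] {M : Type} [Field M] [CharP M p] (g : M[X]) (d : ℕ)
    (hg : g.natDegree = d) (h2 : 2 ≤ d) (hd : ∀ k, d ≠ p ^ k) (hPL : ¬ PL g) (β : M) :
    ramC1 g β * ramC1 g (g.eval β) ≤ d * (d - 1) := by
  have hg2 : 2 ≤ g.natDegree := by omega
  have hA := C1_ram_le g hg2 β
  have hB := C1_ram_le g hg2 (g.eval β)
  by_cases h : ramC1 g β = g.natDegree
  · have h3 : ramC1 g (g.eval β) ≠ g.natDegree := by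
      intro h4
      have h5 := C1_full g hg2 β h
      have h6 := C1_full g hg2 (g.eval β) h4
      have h7 : β = g.eval β := by
        refine C1_unique p g.natDegree hg2 (by intro k; rw [hg]; exact hd k) β (g.eval β)
          g.leadingCoeff ?_ (g.eval β) (g.eval (g.eval β)) (h5.symm.trans h6)
        intro h8
        rw [leadingCoeff_eq_zero] at h8
        rw [h8] at hg2
        simp at hg2
      apply hPL
      refine ⟨β, g.leadingCoeff, ?_⟩
      rw [← h7] at h5
      exact h5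
    have h4 : ramC1 g (g.eval β) ≤ d - 1 := by omega
    exact Nat.mul_le_mul (by omega) h4
  · have h4 : ramC1 g β ≤ d - 1 := by omega
    rw [mul_comm d]
    exact Nat.mul_le_mul h4 (by omega)

theorem C1_itc_succ {A : Type*} [CommRing A] (f : A[X]) (j : ℕ) :
    itc f (j + 1) = (itc f j).comp f := by
  induction j with
  | zero => simp [itc]
  | succ j ih => rw [itc_succ f (j + 1), ih, ← comp_assoc, ← itc_succ, ih]

theorem C1_bound (p : ℕ) [Fact p.Prime] {M : Type} [Field M] [CharP M p] (g ℓ : M[X]) (d : ℕ)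
    (hg : g.natDegree = d) (h2 : 2 ≤ d) (hd : ∀ k, d ≠ p ^ k) (hPL : ¬ PL g) (hℓ : ℓ ≠ 0)
    (j : ℕ) : ∀ β : M, rootMultiplicity β (ℓ.comp (itc g (2 * j))) ≤
      ℓ.natDegree * (d * (d - 1)) ^ j := by
  have hg2 : 2 ≤ g.natDegree := by omega
  have hne : ∀ q : M[X], q ≠ 0 → q.comp g ≠ 0 := by
    intro q hq h
    rcases comp_eq_zero_iff.1 h with h | ⟨_, h⟩
    · exact hq h
    · rw [h] at hg2
      simp at hg2
  induction j with
  | zero =>
    intro β
    have h : itc g (2 * 0) = X := rfl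
    rw [h, comp_X, pow_zero, mul_one]
    exact C1_deg ℓ hℓ β
  | succ j ih =>
    intro β
    have h1 : itc g (2 * (j + 1)) = ((itc g (2 * j)).comp g).comp g := by
      rw [show 2 * (j + 1) = 2 * j + 1 + 1 by ring, C1_itc_succ, C1_itc_succ]
    have h3 : ∀ k, ℓ.comp (itc g k) ≠ 0 := by
      intro k
      induction k with
      | zero => simpa [itc] using hℓ
      | succ k ihk =>
        rw [C1_itc_succ, ← comp_assoc]
        exact hne _ ihk
    rw [h1, ← comp_assoc, ← comp_assoc, C1_comp g _ hg2 (hne _ (h3 _)), C1_comp g _ hg2 (h3 _),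
      mul_assoc, pow_succ, ← mul_assoc ℓ.natDegree]
    refine Nat.mul_le_mul (ih _) ?_
    rw [mul_comm]
    exact C1_pair p g d hg h2 hd hPL β

theorem thm_C1 : St_C1 := by
  intro p _ M _ _ g ℓ d D hg h2 hd hPL hℓ
  have hd0 : (0 : ℝ) < d := by positivity
  have ha : Filter.Tendsto (fun j : ℕ => (D : ℝ) * ℓ.natDegree * ((((d : ℝ) - 1) / d) ^ j)
      + D * ((1 / (d : ℝ) ^ 2) ^ j)) Filter.atTop (nhds ((D : ℝ) * ℓ.natDegree * 0 + D * 0)) := by
    have h2' : (2 : ℝ) ≤ d := by exact_mod_cast h2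
    refine Filter.Tendsto.add (Filter.Tendsto.const_mul _ ?_) (Filter.Tendsto.const_mul _ ?_)
    · refine tendsto_pow_atTop_nhds_zero_of_lt_one (by apply div_nonneg <;> linarith) ?_
      rw [div_lt_one hd0]; linarith
    · refine tendsto_pow_atTop_nhds_zero_of_lt_one (by positivity) ?_
      rw [div_lt_one (by positivity)]; nlinarith
  rw [mul_zero, mul_zero, add_zero] at ha
  obtain ⟨j, hj⟩ := (ha.eventually (gt_mem_nhds (zero_lt_one))).exists
  refine ⟨2 * j, fun β => ?_⟩
  have hb := C1_bound p g ℓ d hg h2 hd hPL hℓ j β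
  have h3 : D * (rootMultiplicity β (ℓ.comp (itc g (2 * j))) + 1) ≤
      D * (ℓ.natDegree * (d * (d - 1)) ^ j + 1) := Nat.mul_le_mul le_rfl (by omega)
  refine lt_of_le_of_lt h3 ?_
  have h4 : ((D * (ℓ.natDegree * (d * (d - 1)) ^ j + 1) : ℕ) : ℝ) < ((d ^ (2 * j) : ℕ) : ℝ) := by
    have h5 : ((d - 1 : ℕ) : ℝ) = (d : ℝ) - 1 := by
      rw [Nat.cast_sub (by omega)]; simp
    push_cast
    rw [h5]
    have h6 : (0 : ℝ) < (d : ℝ) ^ (2 * j) := by positivity
    have h7 : (D : ℝ) * (ℓ.natDegree * ((d : ℝ) * ((d : ℝ) - 1)) ^ j + 1) =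
        (d : ℝ) ^ (2 * j) * ((D : ℝ) * ℓ.natDegree * ((((d : ℝ) - 1) / d) ^ j)
      + D * ((1 / (d : ℝ) ^ 2) ^ j)) := by
      have h8 : ((d : ℝ) ^ 2) ^ j = (d : ℝ) ^ j * (d : ℝ) ^ j := by
        rw [← pow_mul, two_mul, pow_add]
      have h9 : (d : ℝ) ^ j ≠ 0 := by positivity
      rw [div_pow, div_pow, one_pow, mul_pow, pow_mul (d : ℝ) 2 j, h8]
      field_simp
    rw [h7]
    calc _ < (d : ℝ) ^ (2 * j) * 1 := mul_lt_mul_of_pos_left hj h6
      _ = _ := mul_one _
  exact_mod_cast h4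

end Pool.Agent.Helper79.DN
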