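import Pool.Agent.Helper79.DN.StC

/-!
# Block C: escape to infinity (helper57)
-/

set_option autoImplicit false

namespace Pool.Agent.Helper79.DN

open Polynomial Pool.Agent.Helper79.DM Pool.Agent.Helper11.SP

theorem C2_dom {K : Type} [Field K] (v : AbsoluteValue K ℝ) (hna : ∀ x y, v (x + y) ≤ max (v x) (v y)) {a b : K}
    (h : v a < v b) : v (a + b) = v b := by
  refine le_antisymm ((hna a b).trans (max_le h.le le_rfl)) ?_
  by_contra hlt
  have hlt' := not_le.1 hlt
  have h1 := hna (a + b) (-a)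
  rw [show a + b + -a = b by ring, v.map_neg] at h1
  exact absurd h1 (not_le.2 (max_lt hlt' h))

theorem C2_big {K : Type} [Field K] (v : AbsoluteValue K ℝ) (hna : ∀ x y, v (x + y) ≤ max (v x) (v y)) (g : K[X])
    (hd : 2 ≤ g.natDegree) : ∃ R : ℝ, 1 ≤ R ∧ ∀ z, R < v z →
      v (g.eval z) = v g.leadingCoeff * v z ^ g.natDegree ∧ 2 * v z ≤ v (g.eval z) := by
  have hg : g ≠ 0 := by
    rintro rfl
    simp at hd
  have hlc : 0 < v g.leadingCoeff := v.pos (leadingCoeff_ne_zero.2 hg)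
  set S : ℝ := ∑ i ∈ Finset.range g.natDegree, v (g.coeff i) with hS
  have hS0 : 0 ≤ S := Finset.sum_nonneg fun i _ => v.nonneg _
  refine ⟨max 1 (max (S / v g.leadingCoeff) (2 / v g.leadingCoeff)), le_max_left _ _, fun z hz => ?_⟩
  have hz1 : 1 < v z := (le_max_left _ _).trans_lt hz
  have hz0 : 0 < v z := one_pos.trans hz1
  have hz2 : S / v g.leadingCoeff < v z := ((le_max_left _ _).trans (le_max_right _ _)).trans_lt hz
  have hz3 : 2 / v g.leadingCoeff < v z := ((le_max_right _ _).trans (le_max_right _ _)).trans_lt hz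
  rw [div_lt_iff₀ hlc] at hz2 hz3
  obtain ⟨e, he⟩ : ∃ e, g.natDegree = e + 1 := ⟨g.natDegree - 1, by omega⟩
  have he1 : 1 ≤ e := by omega
  have e1 : g.eval z = (∑ i ∈ Finset.range g.natDegree, g.coeff i * z ^ i) + g.leadingCoeff * z ^ g.natDegree := by
    rw [eval_eq_sum_range, Finset.sum_range_succ]
    rfl
  have e2 : v (∑ i ∈ Finset.range g.natDegree, g.coeff i * z ^ i) ≤ S * v z ^ e := by
    refine (v.sum_le _ _).trans ?_
    rw [hS, Finset.sum_mul]
    refine Finset.sum_le_sum fun i hi => ?_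
    rw [map_mul, map_pow]
    refine mul_le_mul_of_nonneg_left ?_ (v.nonneg _)
    refine pow_le_pow_right₀ hz1.le ?_
    have := Finset.mem_range.1 hi
    omega
  have e3 : v (g.leadingCoeff * z ^ g.natDegree) = v g.leadingCoeff * v z ^ g.natDegree := by
    rw [map_mul, map_pow]
  have e4 : v (∑ i ∈ Finset.range g.natDegree, g.coeff i * z ^ i) < v (g.leadingCoeff * z ^ g.natDegree) := by
    refine e2.trans_lt ?_
    rw [e3, he, pow_succ]
    have h1 : 0 < v z ^ e := pow_pos hz0 e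
    nlinarith
  have e5 : v (g.eval z) = v g.leadingCoeff * v z ^ g.natDegree := by
    rw [e1, C2_dom v hna e4, e3]
  refine ⟨e5, ?_⟩
  rw [e5, he, pow_succ]
  have h1 : v z ≤ v z ^ e := by
    calc v z = v z ^ 1 := (pow_one _).symm
      _ ≤ v z ^ e := pow_le_pow_right₀ hz1.le he1
  nlinarith [mul_le_mul_of_nonneg_left h1 hlc.le]

theorem thm_C2 : St_C2 := by
  intro K _ v hna g hd y hunb
  obtain ⟨R, hR1, hR⟩ := C2_big v hna g hd
  obtain ⟨n₀, hn₀⟩ := hunb R
  have hstep : ∀ n, v (orb g y (n + 1)) = v (g.eval (orb g y n)) := by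
    intro n
    rw [orb_succ]
  have h1 : ∀ j : ℕ, R < v (orb g y (n₀ + j)) ∧ 2 ^ j * R ≤ v (orb g y (n₀ + j)) := by
    intro j
    induction j with
    | zero =>
      rw [add_zero, pow_zero, one_mul]
      exact ⟨hn₀, hn₀.le⟩
    | succ j ih =>
      obtain ⟨h2, h3⟩ := ih
      obtain ⟨-, h4⟩ := hR _ h2
      rw [← add_assoc, hstep]
      refine ⟨?_, ?_⟩
      · linarith
      · rw [pow_succ]
        linarith
  refine ⟨n₀, fun n hn => ?_, fun M => ?_⟩
  · obtain ⟨j, rfl⟩ := Nat.exists_eq_add_of_le hn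
    rw [hstep]
    exact (hR _ (h1 j).1).1
  · obtain ⟨k, hk⟩ := pow_unbounded_of_one_lt M (one_lt_two : (1 : ℝ) < 2)
    refine ⟨n₀ + k, fun n hn => ?_⟩
    obtain ⟨j, rfl⟩ := Nat.exists_eq_add_of_le hn
    have h2 := (h1 (k + j)).2
    rw [← add_assoc] at h2
    refine hk.trans_le (le_trans ?_ h2)
    have h3 : (2 : ℝ) ^ k ≤ 2 ^ (k + j) := pow_le_pow_right₀ one_le_two (by omega)
    have h4 : (0 : ℝ) < 2 ^ (k + j) := by positivity
    nlinarith

end Pool.Agent.Helper79.DN
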