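import Pool.Agent.Helper79.DN.StC

set_option autoImplicit false

namespace Pool.Agent.Helper79.DN

open Polynomial

theorem thm_C3 : St_C3 := by
  intro K _ _ v hv s c hc E hE hcount R
  have hvc : 0 < v c := v.pos hc
  -- lower bound for the distances of different roots
  obtain ⟨σ, hσ0, hσ1, hσ⟩ : ∃ σ : ℝ, 0 < σ ∧ σ ≤ 1 ∧
      ∀ a ∈ s, ∀ b ∈ s, a ≠ b → σ ≤ v (a - b) := by
    let Q : Finset ℝ := insert (1 : ℝ) ((s.toFinset.offDiag).image (fun ab => v (ab.1 - ab.2)))
    have hQ1 : (1 : ℝ) ∈ Q := Finset.mem_insert_self _ _
    have hQn : Q.Nonempty := ⟨1, hQ1⟩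
    refine ⟨Q.min' hQn, ?_, Finset.min'_le _ _ hQ1, ?_⟩
    · apply (Finset.lt_min'_iff Q hQn).2
      intro x hx
      rcases Finset.mem_insert.1 hx with h | h
      · rw [h]; exact one_pos
      · obtain ⟨ab, hab, rfl⟩ := Finset.mem_image.1 h
        exact v.pos (sub_ne_zero.2 (Finset.mem_offDiag.1 hab).2.2)
    · intro a ha b hb hab
      apply Finset.min'_le
      apply Finset.mem_insert_of_mem
      exact Finset.mem_image.2 ⟨(a, b), Finset.mem_offDiag.2
        ⟨Multiset.mem_toFinset.2 ha, Multiset.mem_toFinset.2 hb, hab⟩, rfl⟩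
  -- upper bound
  obtain ⟨B, hB0, hBR, hB⟩ : ∃ B : ℝ, 0 ≤ B ∧ R ≤ B ∧ ∀ a ∈ s, v a ≤ B := by
    let Q : Finset ℝ := insert (0 : ℝ) (insert R (s.toFinset.image v))
    have hQ0 : (0 : ℝ) ∈ Q := Finset.mem_insert_self _ _
    have hQn : Q.Nonempty := ⟨0, hQ0⟩
    refine ⟨Q.max' hQn, Finset.le_max' _ _ hQ0, Finset.le_max' _ _ ?_, ?_⟩
    · exact Finset.mem_insert_of_mem (Finset.mem_insert_self _ _)
    · intro a ha
      apply Finset.le_max'
      apply Finset.mem_insert_of_mem
      apply Finset.mem_insert_of_mem
      exact Finset.mem_image.2 ⟨a, Multiset.mem_toFinset.2 ha, rfl⟩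
  have hσc : 0 < v c * σ ^ (Multiset.card s) := mul_pos hvc (pow_pos hσ0 _)
  have hBE : 0 ≤ B ^ E := pow_nonneg hB0 E
  have heval : ∀ y : K, v ((Polynomial.C c * (s.map fun β => X - Polynomial.C β).prod).eval y) =
      v c * (s.map fun β => v (y - β)).prod := by
    intro y
    rw [eval_mul, eval_C, map_mul, eval_multiset_prod, Multiset.map_map,
      map_multiset_prod, Multiset.map_map]
    congr 2
    apply Multiset.map_congr rfl
    intro b _
    simp
  refine ⟨(1 + B ^ E) / (v c * σ ^ (Multiset.card s)), by positivity, ?_⟩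
  intro y hy
  have hyB : v y ≤ B := hy.trans hBR
  -- a sufficient condition
  have key : ∀ β : K, v (y - β) ^ E * σ ^ (Multiset.card s) ≤
      (1 + B ^ E) * (s.map fun β => v (y - β)).prod →
      v (y - β) ^ E ≤ (1 + B ^ E) / (v c * σ ^ (Multiset.card s)) *
        v ((Polynomial.C c * (s.map fun β => X - Polynomial.C β).prod).eval y) := by
    intro β hβ
    rw [heval, div_mul_eq_mul_div, le_div_iff₀ hσc]
    calc v (y - β) ^ E * (v c * σ ^ (Multiset.card s))
        = v c * (v (y - β) ^ E * σ ^ (Multiset.card s)) := by ring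
      _ ≤ v c * ((1 + B ^ E) * (s.map fun β => v (y - β)).prod) :=
          mul_le_mul_of_nonneg_left hβ hvc.le
      _ = _ := by ring
  rcases s.empty_or_exists_mem with hs | ⟨a0, ha0⟩
  · refine ⟨0, Finset.mem_insert_self _ _, key 0 ?_⟩
    subst hs
    simp only [sub_zero, Multiset.card_zero, pow_zero, mul_one, Multiset.map_zero,
      Multiset.prod_zero]
    have : v y ^ E ≤ B ^ E := pow_le_pow_left₀ (v.nonneg y) hyB E
    linarith
  · obtain ⟨β, hβ, hmin⟩ := Finset.exists_min_image s.toFinset (fun b => v (y - b))
      ⟨a0, Multiset.mem_toFinset.2 ha0⟩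
    have hβs : β ∈ s := Multiset.mem_toFinset.1 hβ
    refine ⟨β, Finset.mem_insert_of_mem hβ, key β ?_⟩
    set a := v (y - β) with ha
    have ha0' : 0 ≤ a := v.nonneg _
    have hprod0 : 0 ≤ (s.map fun β => v (y - β)).prod := by
      apply Multiset.prod_nonneg
      intro x hx
      obtain ⟨b, _, rfl⟩ := Multiset.mem_map.1 hx
      exact v.nonneg _
    by_cases h : a < σ
    · -- close to a root
      have hlow : ∀ b ∈ s, (if b = β then a else σ) ≤ v (y - b) := by
        intro b hb
        by_cases hbβ : b = β
        · rw [if_pos hbβ, hbβ]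
        · rw [if_neg hbβ]
          have h1 := hσ β hβs b hb (Ne.symm hbβ)
          have h2 : v (β - b) ≤ max (v (β - y)) (v (y - b)) := by
            have := hv (β - y) (y - b)
            rwa [sub_add_sub_cancel] at this
          rw [v.map_sub β y] at h2
          rcases le_max_iff.1 h2 with h3 | h3
          · exact absurd (lt_of_le_of_lt (h1.trans h3) h) (lt_irrefl _)
          · exact h1.trans h3
      have hmul : (s.map fun b => (if b = β then a else σ)).prod ≤
          (s.map fun β => v (y - β)).prod := by
        apply Multiset.prod_map_le_prod_map₀ _ _ _ hlow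
        intro b _
        split
        · exact ha0'
        · exact hσ0.le
      have hcalc : a ^ E * σ ^ (Multiset.card s) ≤
          (s.map fun b => (if b = β then a else σ)).prod := by
        have h1 : (s.map fun b => (if b = β then a else σ)).prod =
            a ^ (s.count β) * σ ^ (Multiset.card s - s.count β) := by
          rw [← Multiset.filter_add_not (fun b => b = β) s, Multiset.map_add,
            Multiset.prod_add]
          have e1 : (Multiset.map (fun b => if b = β then a else σ)
              (Multiset.filter (fun b => b = β) s)) =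
              Multiset.replicate (s.count β) a := by
            rw [Multiset.filter_eq', Multiset.map_replicate, if_pos rfl]
          have e2 : (Multiset.map (fun b => if b = β then a else σ)
              (Multiset.filter (fun b => ¬ b = β) s)) =
              Multiset.replicate (Multiset.card s - s.count β) σ := by
            rw [Multiset.eq_replicate]
            refine ⟨?_, ?_⟩
            · rw [Multiset.card_map]
              have h3 := congrArg Multiset.card (Multiset.filter_add_not (fun b => b = β) s)
              rw [Multiset.card_add, Multiset.filter_eq', Multiset.card_replicate] at h3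
              omega
            · intro x hx
              obtain ⟨b, hb, rfl⟩ := Multiset.mem_map.1 hx
              rw [if_neg (Multiset.mem_filter.1 hb).2]
          rw [e1, e2, Multiset.prod_replicate, Multiset.prod_replicate,
            Multiset.filter_add_not]
        rw [h1]
        apply mul_le_mul
        · exact pow_le_pow_of_le_one ha0' (h.le.trans hσ1) (hcount β)
        · exact pow_le_pow_of_le_one hσ0.le hσ1 (Nat.sub_le _ _)
        · exact pow_nonneg hσ0.le _
        · exact pow_nonneg ha0' _
      have hP : a ^ E * σ ^ (Multiset.card s) ≤ (s.map fun β => v (y - β)).prod := hcalc.trans hmul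
      nlinarith [mul_nonneg hBE hprod0]
    · -- far away
      rw [not_lt] at h
      have hlow : ∀ b ∈ s, σ ≤ v (y - b) := fun b hb =>
        h.trans (hmin b (Multiset.mem_toFinset.2 hb))
      have hmul : (s.map fun _ => σ).prod ≤ (s.map fun β => v (y - β)).prod := by
        apply Multiset.prod_map_le_prod_map₀ _ _ (fun _ _ => hσ0.le) hlow
      rw [Multiset.map_const', Multiset.prod_replicate] at hmul
      have haB : a ≤ B := by
        have h1 := hv y (-β)
        rw [← sub_eq_add_neg, v.map_neg] at h1
        exact h1.trans (max_le hyB (hB β hβs))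
      have haE : a ^ E ≤ B ^ E := pow_le_pow_left₀ ha0' haB E
      calc a ^ E * σ ^ (Multiset.card s) ≤ (1 + B ^ E) * σ ^ (Multiset.card s) :=
            mul_le_mul_of_nonneg_right (by linarith) (pow_nonneg hσ0.le _)
        _ ≤ _ := mul_le_mul_of_nonneg_left hmul (by linarith)

end Pool.Agent.Helper79.DN
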