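import Pool.Agent.Helper79.DN.StC

/-!
# Module C4: heights on the curve `h = 0`
-/

set_option autoImplicit false

namespace Pool.Agent.Helper79.DN

open Polynomial Pool.Agent.Helper79.DM Pool.Agent.Helper11.SP

/-- The leading coefficient is bounded by the second variable (absolute values). -/
theorem abv_leadY_le {K : Type*} [Field K] (v : AbsoluteValue K ℝ)
    (h : MvPolynomial (Fin 2) K) (y : K) (Y : ℝ) (hY : 1 ≤ Y) (hy : v y ≤ Y) :
    v ((leadY h).eval y) ≤
      (∑ m ∈ h.support, v (h.coeff m)) * Y ^ (h.support.sup fun m => m 1) := by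
  rw [leadY, Polynomial.eval_finsetSum]
  calc v (∑ m ∈ h.support with m 0 = h.support.sup (fun m => m 0),
        (Polynomial.C (h.coeff m) * X ^ (m 1)).eval y)
      ≤ ∑ m ∈ h.support with m 0 = h.support.sup (fun m => m 0),
        v ((Polynomial.C (h.coeff m) * X ^ (m 1)).eval y) := v.sum_le _ _
    _ ≤ ∑ m ∈ h.support, v ((Polynomial.C (h.coeff m) * X ^ (m 1)).eval y) :=
        Finset.sum_le_sum_of_subset_of_nonneg (Finset.filter_subset _ _)
          fun _ _ _ => v.nonneg _
    _ ≤ ∑ m ∈ h.support, v (h.coeff m) * Y ^ (h.support.sup fun m => m 1) := by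
        refine Finset.sum_le_sum fun m hm => ?_
        rw [eval_mul, eval_C, eval_pow, eval_X, v.map_mul, v.map_pow]
        refine mul_le_mul_of_nonneg_left ?_ (v.nonneg _)
        exact (pow_le_pow_left₀ (v.nonneg _) hy _).trans
          (pow_le_pow_right₀ hY (Finset.le_sup (f := fun m : Fin 2 →₀ ℕ => m 1) hm))
    _ = _ := by rw [Finset.sum_mul]

/-- The bound for the leading coefficient at a point of the curve (absolute values). -/
theorem abv_leadY_le_of_zero {K : Type*} [Field K] (v : AbsoluteValue K ℝ)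
    (h : MvPolynomial (Fin 2) K) (x y : K) (Y : ℝ) (hY : 1 ≤ Y) (hy : v y ≤ Y)
    (hx : 1 ≤ v x) (hz : MvPolynomial.eval ![x, y] h = 0) :
    v x * v ((leadY h).eval y) ≤
      (∑ m ∈ h.support, v (h.coeff m)) * Y ^ (h.support.sup fun m => m 1) := by
  have hxp : 0 < v x := by linarith
  have hY0 : 0 ≤ Y := by linarith
  rw [eval_split] at hz
  have h1 : x ^ (h.support.sup fun m => m 0) * (leadY h).eval y =
      -∑ m ∈ h.support with ¬ m 0 = h.support.sup (fun m => m 0),
        h.coeff m * (x ^ (m 0) * y ^ (m 1)) := eq_neg_of_add_eq_zero_left hz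
  have h3 : v x ^ (h.support.sup fun m => m 0) * v ((leadY h).eval y) ≤
      ∑ m ∈ h.support with ¬ m 0 = h.support.sup (fun m => m 0),
        v (h.coeff m) * (v x ^ (m 0) * v y ^ (m 1)) := by
    have h4 := congrArg v h1
    rw [v.map_mul, v.map_pow, v.map_neg] at h4
    rw [h4]
    refine (v.sum_le _ _).trans (le_of_eq ?_)
    refine Finset.sum_congr rfl fun m _ => ?_
    rw [v.map_mul, v.map_mul, v.map_pow, v.map_pow]
  have h5 : v x * (v x ^ (h.support.sup fun m => m 0) * v ((leadY h).eval y)) ≤
      v x ^ (h.support.sup fun m => m 0) *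
        ((∑ m ∈ h.support, v (h.coeff m)) * Y ^ (h.support.sup fun m => m 1)) := by
    calc v x * (v x ^ (h.support.sup fun m => m 0) * v ((leadY h).eval y))
        ≤ v x * ∑ m ∈ h.support with ¬ m 0 = h.support.sup (fun m => m 0),
          v (h.coeff m) * (v x ^ (m 0) * v y ^ (m 1)) :=
          mul_le_mul_of_nonneg_left h3 hxp.le
      _ = ∑ m ∈ h.support with ¬ m 0 = h.support.sup (fun m => m 0),
          v (h.coeff m) * (v x ^ (m 0 + 1) * v y ^ (m 1)) := by
          rw [Finset.mul_sum]
          refine Finset.sum_congr rfl fun m _ => ?_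
          ring
      _ ≤ ∑ m ∈ h.support with ¬ m 0 = h.support.sup (fun m => m 0),
          v (h.coeff m) * (v x ^ (h.support.sup fun m => m 0) *
            Y ^ (h.support.sup fun m => m 1)) := by
          refine Finset.sum_le_sum fun m hm => ?_
          rw [Finset.mem_filter] at hm
          have h6 : m 0 ≤ h.support.sup (fun m => m 0) :=
            Finset.le_sup (f := fun m : Fin 2 →₀ ℕ => m 0) hm.1
          have h7 : m 1 ≤ h.support.sup (fun m => m 1) :=
            Finset.le_sup (f := fun m : Fin 2 →₀ ℕ => m 1) hm.1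
          have h8 : m 0 + 1 ≤ h.support.sup (fun m => m 0) := by
            have := hm.2
            omega
          refine mul_le_mul_of_nonneg_left ?_ (v.nonneg _)
          refine mul_le_mul (pow_le_pow_right₀ hx h8) ?_ (pow_nonneg (v.nonneg _) _)
            (pow_nonneg (v.nonneg _) _)
          exact (pow_le_pow_left₀ (v.nonneg _) hy _).trans (pow_le_pow_right₀ hY h7)
      _ ≤ ∑ m ∈ h.support, v (h.coeff m) * (v x ^ (h.support.sup fun m => m 0) *
            Y ^ (h.support.sup fun m => m 1)) :=
          Finset.sum_le_sum_of_subset_of_nonneg (Finset.filter_subset _ _)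
            fun _ _ _ => mul_nonneg (v.nonneg _)
              (mul_nonneg (pow_nonneg (v.nonneg _) _) (pow_nonneg hY0 _))
      _ = _ := by
          rw [← Finset.sum_mul]
          ring
  have h9 : 0 < v x ^ (h.support.sup fun m => m 0) := pow_pos hxp _
  refine le_of_mul_le_mul_left ?_ h9
  calc _ = v x * (v x ^ (h.support.sup fun m => m 0) * v ((leadY h).eval y)) := by ring
    _ ≤ _ := h5

/-- Both variables exchanged: at a point of the curve the leading coefficient with respect to
the second variable times `max 1 |y|` is bounded in terms of `x`. -/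
theorem abv_leadX_le {K : Type*} [Field K] (v : AbsoluteValue K ℝ)
    (h : MvPolynomial (Fin 2) K) (x y : K) (hz : MvPolynomial.eval ![x, y] h = 0) :
    v ((leadX h).eval x) * max 1 (v y) ≤
      (∑ m ∈ (MvPolynomial.rename (Equiv.swap (0 : Fin 2) 1) h).support,
        v ((MvPolynomial.rename (Equiv.swap (0 : Fin 2) 1) h).coeff m)) *
        max 1 (v x) ^ h.degreeOf 0 := by
  have hD : (MvPolynomial.rename (Equiv.swap (0 : Fin 2) 1) h).support.sup (fun m => m 1) =
      h.degreeOf 0 := by
    rw [← MvPolynomial.degreeOf_eq_sup]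
    have h1 := MvPolynomial.degreeOf_rename_of_injective (p := h)
      (Equiv.swap (0 : Fin 2) 1).injective 0
    rw [Equiv.swap_apply_left] at h1
    exact h1
  have hz' : MvPolynomial.eval ![y, x] (MvPolynomial.rename (Equiv.swap (0 : Fin 2) 1) h) = 0 := by
    rw [MvPolynomial.eval_rename]
    have h2 : (![y, x] ∘ (Equiv.swap (0 : Fin 2) 1)) = ![x, y] := by
      funext i
      fin_cases i <;> rfl
    rw [h2]
    exact hz
  rw [← hD]
  rcases le_total (v y) 1 with hy | hy
  · rw [max_eq_left hy, mul_one]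
    exact abv_leadY_le v _ x _ (le_max_left _ _) (le_max_right _ _)
  · rw [max_eq_right hy, mul_comm]
    exact abv_leadY_le_of_zero v _ y x _ (le_max_left _ _) (le_max_right _ _) hy hz'

theorem thm_C4 : St_C4 := by
  intro p _ K _ Fr h hh
  set g := MvPolynomial.rename (Equiv.swap (0 : Fin 2) 1) h with hg
  -- the coefficients of the leading coefficient are integral
  have hcO : ∀ m, g.coeff m ∈ Fr.O := by
    intro m
    by_cases h0 : g.coeff m = 0
    · rw [h0]; exact Fr.O.zero_mem
    · obtain ⟨m', hm', _⟩ := MvPolynomial.coeff_rename_ne_zero _ _ _ h0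
      have h1 : g.coeff m = h.coeff m' := by
        rw [← hm', hg, MvPolynomial.coeff_rename_mapDomain _ (Equiv.injective _)]
      rw [h1]
      exact hh m'
  have hlO : ∀ x ∈ Fr.O, (leadX h).eval x ∈ Fr.O := by
    intro x hx
    rw [leadX, leadY, Polynomial.eval_finsetSum]
    refine Fr.O.sum_mem fun m _ => ?_
    rw [eval_mul, eval_C, eval_pow, eval_X]
    exact Fr.O.mul_mem (hcO m) (Fr.O.pow_mem hx _)
  refine ⟨∏ τ, (1 + ∑ m ∈ g.support, Fr.abs τ (g.coeff m)), ?_, ?_⟩
  · refine Finset.prod_pos fun τ _ => ?_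
    have : 0 ≤ ∑ m ∈ g.support, Fr.abs τ (g.coeff m) :=
      Finset.sum_nonneg fun m _ => (Fr.abs τ).nonneg _
    linarith
  · intro x hx y _ hz hne
    have h1 : 1 ≤ ∏ τ, Fr.abs τ ((leadX h).eval x) := Fr.prod _ (hlO x hx) hne
    have h2 : ∏ τ, (Fr.abs τ ((leadX h).eval x) * max 1 (Fr.abs τ y)) ≤
        ∏ τ, ((1 + ∑ m ∈ g.support, Fr.abs τ (g.coeff m)) *
          max 1 (Fr.abs τ x) ^ h.degreeOf 0) := by
      refine Finset.prod_le_prod (fun τ _ => mul_nonneg ((Fr.abs τ).nonneg _)
        (le_trans zero_le_one (le_max_left _ _))) fun τ _ => ?_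
      refine (abv_leadX_le (Fr.abs τ) h x y hz).trans ?_
      refine mul_le_mul_of_nonneg_right ?_ (pow_nonneg (le_trans zero_le_one (le_max_left _ _)) _)
      show ∑ m ∈ g.support, Fr.abs τ (g.coeff m) ≤ _
      linarith
    rw [Finset.prod_mul_distrib, Finset.prod_mul_distrib, Finset.prod_pow] at h2
    have h3 : 0 ≤ Fr.H y := Finset.prod_nonneg fun τ _ =>
      le_trans zero_le_one (le_max_left _ _)
    calc Fr.H y = 1 * Fr.H y := (one_mul _).symm
      _ ≤ (∏ τ, Fr.abs τ ((leadX h).eval x)) * Fr.H y := mul_le_mul_of_nonneg_right h1 h3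
      _ ≤ _ := h2

end Pool.Agent.Helper79.DN
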