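import Pool.Agent.Helper79.DN.StC

/-!
# The main case: no place where both orbits escape
-/

set_option autoImplicit false

namespace Pool.Agent.Helper79.DN

open Polynomial Pool.Agent.Helper79.DM Pool.Agent.Helper11.SP

private theorem C5_mem {K : Type} [Field K] (O : Subring K) (f : K[X]) (hf : ∀ i, f.coeff i ∈ O)
    (x : K) (hx : x ∈ O) (n : ℕ) : orb f x n ∈ O := by
  induction n with
  | zero => exact hx
  | succ n ih =>
    rw [orb_succ, eval_eq_sum_range]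
    exact O.sum_mem fun i _ => O.mul_mem (hf i) (O.pow_mem ih i)

private theorem C5_leadY {K : Type} [Field K] (v : AbsoluteValue K ℝ)
    (h : MvPolynomial (Fin 2) K) (x y : K) (Y : ℝ) (hY : 1 ≤ Y) (hy : v y ≤ Y) (hx : 1 ≤ v x)
    (hz : MvPolynomial.eval ![x, y] h = 0) :
    v x * v ((leadY h).eval y) ≤
      (∑ m ∈ h.support, v (h.coeff m)) * Y ^ (h.support.sup fun m => m 1) := by
  let _ := v.toNormedField
  exact norm_leadY_le_of_zero (RingHom.id K) h x y Y hY hy hx hz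

private theorem C5_grow (a : ℕ → ℝ) (κ : ℝ) (hκ : 0 < κ) (d n₀ : ℕ)
    (ha : ∀ n, n₀ ≤ n → a (n + 1) = κ * a n ^ d) (k : ℕ) :
    ∃ c : ℝ, 0 < c ∧ ∀ m, n₀ ≤ m → a (m + k) = c * a m ^ (d ^ k) := by
  induction k with
  | zero => exact ⟨1, one_pos, fun m _ => by rw [pow_zero, pow_one, one_mul, add_zero]⟩
  | succ k ih =>
    obtain ⟨c, hc, h⟩ := ih
    refine ⟨κ * c ^ d, by positivity, fun m hm => ?_⟩
    rw [← add_assoc, ha _ (by omega), h m hm, mul_pow, ← pow_mul, ← pow_succ, mul_assoc]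

private theorem C5_log (a : ℕ → ℝ) (κ : ℝ) (hκ : 0 < κ) (d n₀ : ℕ) (hd : 2 ≤ d)
    (ha : ∀ n, n₀ ≤ n → a (n + 1) = κ * a n ^ d)
    (hinf : ∀ M : ℝ, ∃ n₁, ∀ n, n₁ ≤ n → M < a n) :
    ∃ (A B : ℝ) (N : ℕ), 0 < A ∧ ∀ m, N ≤ m → Real.log (a m) = A * (d : ℝ) ^ m + B := by
  obtain ⟨n₁, hn₁⟩ := hinf 0
  set N := max n₀ n₁ with hN
  have hpos : ∀ m, N ≤ m → 0 < a m := fun m hm => hn₁ m (le_trans (le_max_right _ _) hm)
  have hd1 : (1 : ℝ) < d := by
    have : (2 : ℝ) ≤ d := by exact_mod_cast hd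
    linarith
  have hd0 : (0 : ℝ) < d := by linarith
  set B : ℝ := -(Real.log κ / ((d : ℝ) - 1)) with hB
  have hBe : Real.log κ + d * B = B := by
    have h1 : (d : ℝ) - 1 ≠ 0 := by linarith
    rw [hB]
    field_simp
    ring
  set A : ℝ := (Real.log (a N) - B) / (d : ℝ) ^ N with hA
  have key : ∀ j, Real.log (a (N + j)) = A * (d : ℝ) ^ (N + j) + B := by
    intro j
    induction j with
    | zero =>
      rw [add_zero, hA]
      field_simp
      ring
    | succ j ih =>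
      have h1 : a (N + (j + 1)) = κ * a (N + j) ^ d :=
        ha (N + j) (le_trans (le_max_left _ _) (Nat.le_add_right _ _))
      rw [h1, Real.log_mul hκ.ne' (pow_pos (hpos _ (Nat.le_add_right _ _)) _).ne', Real.log_pow,
        ih]
      calc Real.log κ + (d : ℝ) * (A * (d : ℝ) ^ (N + j) + B)
          = A * (d : ℝ) ^ (N + (j + 1)) + (Real.log κ + d * B) := by
            rw [← add_assoc N j 1, pow_succ]
            ring
        _ = _ := by rw [hBe]
  refine ⟨A, B, N, ?_, fun m hm => ?_⟩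
  · by_contra hcon
    push Not at hcon
    obtain ⟨n₂, hn₂⟩ := hinf (Real.exp B)
    have h1 := hn₂ (N + n₂) (Nat.le_add_left _ _)
    have h2 := key n₂
    have h3 : Real.log (a (N + n₂)) ≤ B := by
      rw [h2]
      have : A * (d : ℝ) ^ (N + n₂) ≤ 0 := mul_nonpos_of_nonpos_of_nonneg hcon (by positivity)
      linarith
    have h4 : a (N + n₂) ≤ Real.exp B := by
      rw [← Real.log_le_iff_le_exp (hpos _ (Nat.le_add_right _ _))]
      exact h3
    linarith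
  · obtain ⟨j, rfl⟩ := Nat.exists_eq_add_of_le hm
    exact key j

/-- growth of the height of an orbit at one place -/
private theorem C5_place (h2 : St_C2) {K : Type} [Field K] (v : AbsoluteValue K ℝ)
    (hv : ∀ x y, v (x + y) ≤ max (v x) (v y)) (g : K[X]) (d : ℕ) (hgd : g.natDegree = d)
    (hd : 2 ≤ d) (y : K) (k : ℕ) :
    ∃ (c : ℝ) (n₀ : ℕ), 0 < c ∧ ∀ m, n₀ ≤ m →
      c * max 1 (v (orb g y m)) ^ (d ^ k) ≤ max 1 (v (orb g y (m + k))) := by
  by_cases hy : ∀ M : ℝ, ∃ n, M < v (orb g y n)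
  · obtain ⟨n₀, h1, h3⟩ := h2 K v hv g (by omega) y hy
    obtain ⟨n₁, hn₁⟩ := h3 1
    have hg0 : g ≠ 0 := by
      rintro rfl
      rw [natDegree_zero] at hgd
      omega
    have hκ : 0 < v g.leadingCoeff := v.pos (leadingCoeff_ne_zero.2 hg0)
    rw [hgd] at h1
    obtain ⟨c, hc, h4⟩ := C5_grow (fun n => v (orb g y n)) _ hκ d n₀ h1 k
    refine ⟨c, max n₀ n₁, hc, fun m hm => ?_⟩
    have h5 : v (orb g y (m + k)) = c * v (orb g y m) ^ (d ^ k) :=
      h4 m (le_trans (le_max_left _ _) hm)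
    have h6 : 1 < v (orb g y m) := hn₁ m (le_trans (le_max_right _ _) hm)
    rw [max_eq_right h6.le, ← h5]
    exact le_max_right _ _
  · push Not at hy
    obtain ⟨M, hM⟩ := hy
    refine ⟨(max 1 M ^ (d ^ k))⁻¹, 0, by positivity, fun m _ => ?_⟩
    have h1 : max 1 (v (orb g y m)) ^ (d ^ k) ≤ max 1 M ^ (d ^ k) :=
      pow_le_pow_left₀ (by positivity) (max_le_max le_rfl (hM m)) _
    calc (max 1 M ^ (d ^ k))⁻¹ * max 1 (v (orb g y m)) ^ (d ^ k)
        ≤ (max 1 M ^ (d ^ k))⁻¹ * max 1 M ^ (d ^ k) :=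
          mul_le_mul_of_nonneg_left h1 (by positivity)
      _ = 1 := inv_mul_cancel₀ (by positivity)
      _ ≤ _ := le_max_left _ _

private theorem C5_le_max (t K : ℝ) (n : ℕ) (hn : n ≠ 0) (h : t ^ n ≤ K) : t ≤ max 1 K := by
  rcases le_or_gt t 1 with h1 | h1
  · exact h1.trans (le_max_left _ _)
  · exact ((le_self_pow₀ h1.le hn).trans h).trans (le_max_right _ _)

private theorem C5_H_one {p : ℕ} {K : Type} [Field K] (Fr : Frame p K) (y : K) : 1 ≤ Fr.H y := by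
  unfold Frame.H
  exact Finset.one_le_prod (fun τ _ => le_max_left _ _)

private theorem C5_H_le {p : ℕ} {K : Type} [Field K] (Fr : Frame p K) (y : K) (τ : Fr.Γ) :
    Fr.abs τ y ≤ Fr.H y := by
  classical
  unfold Frame.H
  rw [← Finset.mul_prod_erase Finset.univ _ (Finset.mem_univ τ)]
  calc Fr.abs τ y ≤ max 1 (Fr.abs τ y) * 1 := by
        rw [mul_one]
        exact le_max_right _ _
    _ ≤ _ := mul_le_mul_of_nonneg_left (Finset.one_le_prod (fun τ _ => le_max_left _ _))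
        (by positivity)

theorem thm_C5 (h9 : St_T9) (h2 : St_C2) (h3 : St_C3) (h4 : St_C4) : St_C5 := by
  intro p _ K _ _ _ Fr f g hfO hgO d hfd hgd hd2 hpd x y hxO hyO h h0 hhO hxinf hyunb hnb k s hsO
    c hc hL E hE1 hE hDE
  obtain ⟨τ₀, hτ₀⟩ := hyunb
  set D := h.degreeOf 0 with hD
  have hxm : ∀ n, orb f x n ∈ Fr.O := C5_mem Fr.O f hfO x hxO
  have hym : ∀ n, orb g y n ∈ Fr.O := C5_mem Fr.O g hgO y hyO
  -- it is enough to show this
  suffices hmain : ∀ᶠ m in Filter.atTop, m + k ∉ ret f g x y h by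
    obtain ⟨N, hN⟩ := Filter.eventually_atTop.1 hmain
    refine (Set.finite_Iio (N + k)).subset fun n hn => ?_
    by_contra hcon
    rw [Set.mem_Iio, not_lt] at hcon
    have h1 := hN (n - k) (by omega)
    have h5 : n - k + k = n := by omega
    rw [h5] at h1
    exact h1 hn
  have hshift : ∀ P : ℕ → Prop, (∀ᶠ n in Filter.atTop, P n) → ∀ᶠ m in Filter.atTop, P (m + k) :=
    fun P hP => (Filter.tendsto_add_atTop_nat k).eventually hP
  -- the leading coefficient with respect to the second variable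
  have hlX : leadX h ≠ 0 := by
    unfold leadX
    refine leadY_ne_zero fun hz => h0 ?_
    exact MvPolynomial.rename_injective _ (Equiv.injective _) (by rw [hz, map_zero])
  have e1 : ∀ᶠ n in Filter.atTop, (leadX h).eval (orb f x n) ≠ 0 := by
    have hfin : {n | (leadX h).eval (orb f x n) = 0}.Finite := by
      have h5 : ({z : K | (leadX h).eval z = 0}).Finite := by
        refine ((leadX h).roots.toFinset.finite_toSet).subset fun z hz => ?_
        rw [Finset.mem_coe, Multiset.mem_toFinset, mem_roots hlX]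
        exact hz
      exact h5.preimage (orb_injective f x hxinf).injOn
    rw [← Nat.cofinite_eq_atTop]
    exact hfin.compl_mem_cofinite
  -- heights on the curve
  obtain ⟨C, hC, hC4⟩ := h4 p K Fr h hhO
  -- escape at the place `τ₀`
  obtain ⟨n₀, hn₀, hesc⟩ := h2 K (Fr.abs τ₀) (Fr.na τ₀) g (by omega) y hτ₀
  have e3 : ∀ M : ℝ, ∀ᶠ n in Filter.atTop, M < Fr.abs τ₀ (orb g y n) := fun M =>
    Filter.eventually_atTop.2 (hesc M)
  have hg0 : g ≠ 0 := by
    rintro rfl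
    rw [natDegree_zero] at hgd
    omega
  rw [hgd] at hn₀
  obtain ⟨A₁, B₁, N₁, hA₁, hlog⟩ := C5_log (fun n => Fr.abs τ₀ (orb g y n)) _
    ((Fr.abs τ₀).pos (leadingCoeff_ne_zero.2 hg0)) d n₀ hd2 hn₀ hesc
  by_cases hD0 : D = 0
  · filter_upwards [hshift _ e1, hshift _ (e3 C)] with m h5 h6 h7
    have h8 := hC4 _ (hxm (m + k)) _ (hym (m + k)) h7 h5
    rw [← hD, hD0, pow_zero, mul_one] at h8
    exact absurd (h6.trans_le ((C5_H_le Fr _ τ₀).trans h8)) (lt_irrefl _)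
  -- growth of the heights
  have hgr : ∃ c' : ℝ, 0 < c' ∧ ∀ᶠ m in Filter.atTop,
      c' * Fr.H (orb g y m) ^ (d ^ k) ≤ Fr.H (orb g y (m + k)) := by
    choose cc nn hcc hnn using fun τ => C5_place h2 (Fr.abs τ) (Fr.na τ) g d hgd hd2 y k
    refine ⟨∏ τ, cc τ, Finset.prod_pos fun τ _ => hcc τ, ?_⟩
    have h5 : ∀ᶠ m in Filter.atTop, ∀ τ, nn τ ≤ m :=
      Filter.eventually_all.2 fun τ => Filter.eventually_ge_atTop (nn τ)
    filter_upwards [h5] with m hm
    unfold Frame.H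
    rw [← Finset.prod_pow, ← Finset.prod_mul_distrib]
    refine Finset.prod_le_prod (fun τ _ => ?_) fun τ _ => hnn τ m (hm τ)
    have := hcc τ
    positivity
  obtain ⟨c', hc', e4⟩ := hgr
  -- the places where the first orbit escapes
  classical
  let T : Fr.Γ → Prop := fun τ => ∀ M : ℝ, ∃ n, M < Fr.abs τ (orb f x n)
  have e2 : ∀ᶠ n in Filter.atTop, ∀ τ, T τ → 1 ≤ Fr.abs τ (orb f x n) := by
    refine Filter.eventually_all.2 fun τ => ?_
    by_cases hτ : T τ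
    · obtain ⟨-, -, h5⟩ := h2 K (Fr.abs τ) (Fr.na τ) f (by omega) x hτ
      obtain ⟨n₁, hn₁⟩ := h5 1
      exact Filter.eventually_atTop.2 ⟨n₁, fun n hn _ => (hn₁ n hn).le⟩
    · exact Filter.Eventually.of_forall fun n hτ' => absurd hτ' hτ
  have hB : ∃ B : ℝ, 1 ≤ B ∧ (∀ τ, ¬ T τ → ∀ n, Fr.abs τ (orb f x n) ≤ B) ∧
      ∀ τ, T τ → ∀ n, Fr.abs τ (orb g y n) ≤ B := by
    have h5 : ∀ τ, ∃ M : ℝ, (¬ T τ → ∀ n, Fr.abs τ (orb f x n) ≤ M) ∧
        (T τ → ∀ n, Fr.abs τ (orb g y n) ≤ M) := by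
      intro τ
      by_cases hτ : T τ
      · have h6 : ¬ ∀ M : ℝ, ∃ n, M < Fr.abs τ (orb g y n) := fun h7 => hnb τ ⟨hτ, h7⟩
        push Not at h6
        obtain ⟨M, hM⟩ := h6
        exact ⟨M, fun h7 => absurd hτ h7, fun _ => hM⟩
      · have h6 : ¬ ∀ M : ℝ, ∃ n, M < Fr.abs τ (orb f x n) := hτ
        push Not at h6
        obtain ⟨M, hM⟩ := h6
        exact ⟨M, fun _ => hM, fun h7 => absurd h7 hτ⟩
    choose M hM1 hM2 using h5
    have h6 : ∀ τ, M τ ≤ 1 + ∑ τ, |M τ| := fun τ => by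
      have := Finset.single_le_sum (f := fun τ => |M τ|) (fun _ _ => abs_nonneg _)
        (Finset.mem_univ τ)
      have h7 := le_abs_self (M τ)
      linarith
    refine ⟨1 + ∑ τ, |M τ|, ?_, fun τ hτ n => (hM1 τ hτ n).trans (h6 τ),
      fun τ hτ n => (hM2 τ hτ n).trans (h6 τ)⟩
    have : 0 ≤ ∑ τ, |M τ| := Finset.sum_nonneg fun _ _ => abs_nonneg _
    linarith
  obtain ⟨B, hB1, hBx, hBy⟩ := hB
  have hB0 : 0 ≤ B := by linarith
  -- closeness
  choose C₃ hC₃ hclose using fun τ => h3 K (Fr.abs τ) (Fr.na τ) s c hc E hE1 hE B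
  let Cτ : Fr.Γ → ℝ := fun τ => C₃ τ *
    ((∑ m ∈ h.support, Fr.abs τ (h.coeff m)) * B ^ (h.support.sup fun m => m 1))
  have hCτ : ∀ τ, 0 ≤ Cτ τ := fun τ => by
    have h5 : 0 ≤ ∑ m ∈ h.support, Fr.abs τ (h.coeff m) :=
      Finset.sum_nonneg fun _ _ => (Fr.abs τ).nonneg _
    have := hC₃ τ
    positivity
  let δ : ℕ → Fr.Γ → ℝ := fun n τ =>
    if T τ then (Cτ τ / Fr.abs τ (orb f x n)) ^ ((E : ℝ)⁻¹) else 1
  have hE0 : E ≠ 0 := by omega
  have hδ0 : ∀ n τ, 0 ≤ δ n τ := by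
    intro n τ
    by_cases hτ : T τ
    · simp only [δ, if_pos hτ]
      exact Real.rpow_nonneg (div_nonneg (hCτ τ) ((Fr.abs τ).nonneg _)) _
    · simp only [δ, if_neg hτ]
      exact zero_le_one
  have hCl : ∀ᶠ m in Filter.atTop, m + k ∈ ret f g x y h →
      Close Fr (insert 0 s.toFinset) (orb g y m) (δ (m + k)) := by
    filter_upwards [hshift _ e2] with m hm hret τ
    by_cases hτ : T τ
    · have hx1 := hm τ hτ
      have hxp : 0 < Fr.abs τ (orb f x (m + k)) := lt_of_lt_of_le one_pos hx1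
      obtain ⟨β, hβ, h5⟩ := hclose τ (orb g y m) (hBy τ hτ m)
      refine ⟨β, hβ, ?_⟩
      have h6 : (leadY h).eval (orb g y (m + k)) =
          (Polynomial.C c * (s.map fun β => X - Polynomial.C β).prod).eval (orb g y m) := by
        rw [← hL, eval_comp, itc_eval]
        congr 1
        rw [add_comm m k]
        exact orb_add g y m k
      rw [← h6] at h5
      have h7 := C5_leadY (Fr.abs τ) h _ _ B hB1 (hBy τ hτ (m + k)) hx1 hret
      have h8 : Fr.abs τ (orb g y m - β) ^ E ≤ Cτ τ / Fr.abs τ (orb f x (m + k)) := by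
        rw [le_div_iff₀ hxp]
        calc Fr.abs τ (orb g y m - β) ^ E * Fr.abs τ (orb f x (m + k))
            ≤ C₃ τ * Fr.abs τ ((leadY h).eval (orb g y (m + k))) *
                Fr.abs τ (orb f x (m + k)) := mul_le_mul_of_nonneg_right h5 hxp.le
          _ = C₃ τ * (Fr.abs τ (orb f x (m + k)) *
                Fr.abs τ ((leadY h).eval (orb g y (m + k)))) := by ring
          _ ≤ _ := mul_le_mul_of_nonneg_left h7 (hC₃ τ)
      have h9' : Fr.abs τ (orb g y m - β) ≤ δ (m + k) τ := by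
        simp only [δ, if_pos hτ]
        rw [← Real.pow_rpow_inv_natCast ((Fr.abs τ).nonneg (orb g y m - β)) hE0]
        exact Real.rpow_le_rpow (pow_nonneg ((Fr.abs τ).nonneg _) _) h8 (by positivity)
      exact h9'.trans (le_mul_of_one_le_right (hδ0 _ _) (le_max_left _ _))
    · refine ⟨0, Finset.mem_insert_self _ _, ?_⟩
      simp only [δ, if_neg hτ]
      rw [sub_zero, one_mul]
      exact le_max_right _ _
  -- the size of the product of the `δ`
  let Q : ℝ := ∏ τ, if T τ then Cτ τ else 1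
  let P : ℕ → ℝ := fun n => ∏ τ, if T τ then Fr.abs τ (orb f x n) else 1
  have hP0 : ∀ n, 0 ≤ P n := fun n => Finset.prod_nonneg fun τ _ => by
    split_ifs
    · exact (Fr.abs τ).nonneg _
    · exact zero_le_one
  have hδP : ∀ n, (∀ τ, T τ → 1 ≤ Fr.abs τ (orb f x n)) → (∏ τ, δ n τ) ^ E * P n = Q := by
    intro n hn
    rw [← Finset.prod_pow, ← Finset.prod_mul_distrib]
    refine Finset.prod_congr rfl fun τ _ => ?_
    by_cases hτ : T τ
    · simp only [δ, if_pos hτ]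
      have hxp : 0 < Fr.abs τ (orb f x n) := lt_of_lt_of_le one_pos (hn τ hτ)
      rw [Real.rpow_inv_natCast_pow (div_nonneg (hCτ τ) hxp.le) hE0, div_mul_cancel₀ _ hxp.ne']
    · simp only [δ, if_neg hτ]
      rw [one_pow, one_mul]
  let BN : ℝ := ∏ τ : Fr.Γ, B
  have hHx : ∀ n, (∀ τ, T τ → 1 ≤ Fr.abs τ (orb f x n)) → Fr.H (orb f x n) ≤ BN * P n := by
    intro n hn
    unfold Frame.H
    show _ ≤ (∏ τ : Fr.Γ, B) * ∏ τ, if T τ then Fr.abs τ (orb f x n) else 1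
    rw [← Finset.prod_mul_distrib]
    refine Finset.prod_le_prod (fun τ _ => by positivity) fun τ _ => ?_
    by_cases hτ : T τ
    · rw [if_pos hτ, max_eq_right (hn τ hτ)]
      exact le_mul_of_one_le_left ((Fr.abs τ).nonneg _) hB1
    · rw [if_neg hτ, mul_one]
      exact max_le hB1 (hBx τ hτ n)
  have hBN0 : 0 ≤ BN := Finset.prod_nonneg fun _ _ => hB0
  -- the exponent
  have hDpos : 0 < D := Nat.pos_of_ne_zero hD0
  have hDER : (0 : ℝ) < (D : ℝ) * E := by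
    have h5 : (0 : ℝ) < D := by exact_mod_cast hDpos
    have h6 : (0 : ℝ) < E := by exact_mod_cast hE1
    positivity
  set Θ : ℝ := (d : ℝ) ^ k / ((D : ℝ) * E) with hΘ
  have hΘ1 : 1 < Θ := by
    rw [hΘ, lt_div_iff₀ hDER, one_mul]
    exact_mod_cast hDE
  set K₀ : ℝ := C * (BN ^ D * Q ^ D) / c' with hK₀
  have hsize : ∀ᶠ m in Filter.atTop, m + k ∈ ret f g x y h →
      (∏ τ, δ (m + k) τ) * Fr.H (orb g y m) ^ Θ ≤ max 1 K₀ := by
    filter_upwards [hshift _ e1, hshift _ e2, e4] with m hm1 hm2 hm4 hret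
    have h5 := hC4 _ (hxm (m + k)) _ (hym (m + k)) hret hm1
    have hH0 : 0 < Fr.H (orb g y m) := lt_of_lt_of_le one_pos (C5_H_one Fr _)
    refine C5_le_max _ _ (D * E) (by positivity) ?_
    have h6 : (Fr.H (orb g y m) ^ Θ) ^ (D * E) = Fr.H (orb g y m) ^ (d ^ k) := by
      rw [← Real.rpow_natCast, ← Real.rpow_mul hH0.le, ← Real.rpow_natCast]
      congr 1
      rw [hΘ]
      push_cast
      field_simp
    have hδp : 0 ≤ ∏ τ, δ (m + k) τ := Finset.prod_nonneg fun τ _ => hδ0 _ _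
    rw [mul_pow, h6, hK₀, le_div_iff₀ hc']
    calc (∏ τ, δ (m + k) τ) ^ (D * E) * Fr.H (orb g y m) ^ (d ^ k) * c'
        = (∏ τ, δ (m + k) τ) ^ (D * E) * (c' * Fr.H (orb g y m) ^ (d ^ k)) := by ring
      _ ≤ (∏ τ, δ (m + k) τ) ^ (D * E) * (C * (BN * P (m + k)) ^ D) := by
          refine mul_le_mul_of_nonneg_left ?_ (pow_nonneg hδp _)
          refine (hm4.trans h5).trans ?_
          refine mul_le_mul_of_nonneg_left ?_ hC.le
          exact pow_le_pow_left₀ (le_trans zero_le_one (C5_H_one Fr _)) (hHx _ hm2) _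
      _ = C * (BN ^ D * ((∏ τ, δ (m + k) τ) ^ E * P (m + k)) ^ D) := by
          rw [mul_comm D E, pow_mul, mul_pow, mul_pow]
          ring
      _ = _ := by rw [hδP _ hm2]
  -- the theorem of Roth type
  have hBO : ∀ β ∈ insert 0 s.toFinset, β ∈ Fr.O := by
    intro β hβ
    rcases Finset.mem_insert.1 hβ with h5 | h5
    · rw [h5]
      exact Fr.O.zero_mem
    · exact hsO β (Multiset.mem_toFinset.1 h5)
  obtain ⟨C₁, A, hA, h9'⟩ := h9 p K Fr (insert 0 s.toFinset) hBO Θ (max 1 K₀) hΘ1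
  have hρ : 0 < Real.log Fr.ρ := Real.log_pos Fr.one_lt
  have hpp : p.Prime := Fact.out
  have hfinq : ∀ q ∈ A, ∀ᶠ m in Filter.atTop, ¬ ∃ s : ℕ,
      ((q.1 : ℝ) * Real.log Fr.ρ) * (p : ℝ) ^ s =
        A₁ * (d : ℝ) ^ m + (B₁ - q.2 * Real.log Fr.ρ) := by
    intro q hq
    have hq1 : (0 : ℝ) < (q.1 : ℝ) := by exact_mod_cast hA q hq
    have hfin : {m : ℕ | ∃ s : ℕ, ((q.1 : ℝ) * Real.log Fr.ρ) * (p : ℝ) ^ s =
        A₁ * (d : ℝ) ^ m + (B₁ - q.2 * Real.log Fr.ρ)}.Finite := by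
      have h5 : ∀ m : ℕ, ∃ s : ℕ, m ∈ {m : ℕ | ∃ s : ℕ, ((q.1 : ℝ) * Real.log Fr.ρ) * (p : ℝ) ^ s =
        A₁ * (d : ℝ) ^ m + (B₁ - q.2 * Real.log Fr.ρ)} →
          ((q.1 : ℝ) * Real.log Fr.ρ) * (p : ℝ) ^ s =
            A₁ * (d : ℝ) ^ m + (B₁ - q.2 * Real.log Fr.ρ) := by
        intro m
        by_cases hm : ∃ s : ℕ, ((q.1 : ℝ) * Real.log Fr.ρ) * (p : ℝ) ^ s =
            A₁ * (d : ℝ) ^ m + (B₁ - q.2 * Real.log Fr.ρ)
        · obtain ⟨s, hs⟩ := hm
          exact ⟨s, fun _ => hs⟩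
        · exact ⟨0, fun h6 => absurd h6 hm⟩
      choose r hr using h5
      exact expo_finite p d hpp hd2 hpd _ A₁ _ (mul_pos hq1 hρ) hA₁ _ r hr
    rw [← Nat.cofinite_eq_atTop]
    exact hfin.compl_mem_cofinite
  have hfinA : ∀ᶠ m in Filter.atTop, ∀ q ∈ A, ¬ ∃ s : ℕ,
      ((q.1 : ℝ) * Real.log Fr.ρ) * (p : ℝ) ^ s =
        A₁ * (d : ℝ) ^ m + (B₁ - q.2 * Real.log Fr.ρ) :=
    (Filter.eventually_all_finset A).2 hfinq
  filter_upwards [hCl, hsize, e3 C₁, hfinA, Filter.eventually_ge_atTop N₁] with m h5 h6 h7 h8 hN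
    hret
  rcases h9' _ (hym m) _ (h5 hret) (h6 hret) with h10 | h10
  · exact absurd (h7.trans_le ((C5_H_le Fr _ τ₀).trans h10)) (lt_irrefl _)
  · rcases h10 τ₀ with h11 | ⟨s', q, hq, h11⟩
    · exact absurd (h7.trans_le h11) (lt_irrefl _)
    · refine h8 q hq ⟨s', ?_⟩
      have h12 : Real.log (Fr.abs τ₀ (orb g y m)) = A₁ * (d : ℝ) ^ m + B₁ := hlog m hN
      rw [h11, Real.log_zpow] at h12
      push_cast at h12
      linear_combination h12

end Pool.Agent.Helper79.DN
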