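import Pool.Agent.Helper79.DN.StF

/-!
# [F1] Decomposition of a polynomial over `F_p` with respect to `q = p ^ s`
-/

set_option autoImplicit false

namespace Pool.Agent.Helper79.DN

open MvPolynomial

/-- the class of an exponent -/
private def F1cl (q r : ℕ) (hq : 0 < q) (m : Fin r →₀ ℕ) : Fin r → Fin q :=
  fun i => ⟨m i % q, Nat.mod_lt _ hq⟩

/-- division of an exponent -/
private noncomputable def F1dv (q r : ℕ) (m : Fin r →₀ ℕ) : Fin r →₀ ℕ :=
  m.mapRange (fun n => n / q) (Nat.zero_div q)

private theorem F1_prod (p r : ℕ) (n : Fin r → ℕ) :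
    (∏ i, (MvPolynomial.X i : MvPolynomial (Fin r) (ZMod p)) ^ n i) =
      monomial (Finsupp.equivFunOnFinite.symm n) 1 := by
  rw [MvPolynomial.monomial_eq, map_one, one_mul, Finsupp.prod_fintype]
  · rfl
  · intro i
    exact pow_zero _

theorem thm_F1 : St_F1 := by
  intro p hp r s f
  obtain ⟨q, hq⟩ : ∃ q, q = p ^ s := ⟨_, rfl⟩
  have hq0 : 0 < q := by rw [hq]; exact pow_pos hp.out.pos s
  rw [← hq]
  obtain ⟨b, hb⟩ : ∃ b : (Fin r → Fin q) → PR p r, b = fun I =>
      ∑ m ∈ f.support.filter (fun m => F1cl q r hq0 m = I),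
        monomial (F1dv q r m) (coeff m f) := ⟨_, rfl⟩
  have hpow : ∀ (S : Finset (Fin r →₀ ℕ)) (g : (Fin r →₀ ℕ) → PR p r),
      (∑ m ∈ S, g m) ^ q = ∑ m ∈ S, g m ^ q := by
    intro S g
    rw [hq]
    exact sum_pow_char_pow p s _ _
  refine ⟨b, ?_, ?_⟩
  · have hterm : ∀ I, b I ^ q * ∏ i, MvPolynomial.X i ^ (I i : ℕ) =
        ∑ m ∈ f.support.filter (fun m => F1cl q r hq0 m = I), monomial m (coeff m f) := by
      intro I
      rw [F1_prod p r (fun i => (I i : ℕ)), hb]
      have h1 : (∑ m ∈ f.support.filter (fun m => F1cl q r hq0 m = I),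
          (monomial (F1dv q r m) (coeff m f) : PR p r)) ^ q =
          ∑ m ∈ f.support.filter (fun m => F1cl q r hq0 m = I),
          (monomial (F1dv q r m) (coeff m f) : PR p r) ^ q := by
        exact hpow _ _
      rw [h1, Finset.sum_mul]
      apply Finset.sum_congr rfl
      intro m hm
      rw [Finset.mem_filter] at hm
      rw [MvPolynomial.monomial_pow, MvPolynomial.monomial_mul, mul_one]
      have h2 : coeff m f ^ q = coeff m f := by
        rw [hq]
        exact ZMod.pow_card_pow _
      rw [h2]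
      have hexp : q • F1dv q r m + Finsupp.equivFunOnFinite.symm (fun i => (I i : ℕ)) = m := by
       ext i
       have h3 : (F1cl q r hq0 m i : ℕ) = (I i : ℕ) := by rw [hm.2]
       have h4 : (F1cl q r hq0 m i : ℕ) = m i % q := rfl
       have h5 : F1dv q r m i = m i / q := rfl
       have h6 : (Finsupp.equivFunOnFinite.symm (fun i => (I i : ℕ))) i = (I i : ℕ) := rfl
       rw [Finsupp.add_apply, Finsupp.smul_apply, h5, h6, ← h3, h4, smul_eq_mul]
       exact Nat.div_add_mod (m i) q
      rw [hexp]
    calc f = ∑ m ∈ f.support, monomial m (coeff m f) := f.as_sum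
      _ = ∑ I, ∑ m ∈ f.support.filter (fun m => F1cl q r hq0 m = I),
            monomial m (coeff m f) := (Finset.sum_fiberwise _ _ _).symm
      _ = _ := by
        apply Finset.sum_congr rfl
        intro I _
        exact (hterm I).symm
  · intro I
    have h1 : (b I).totalDegree ≤ f.totalDegree / q := by
      rw [hb]
      apply MvPolynomial.totalDegree_finsetSum_le
      intro m hm
      rw [Finset.mem_filter] at hm
      refine (MvPolynomial.totalDegree_monomial_le _ _).trans ?_
      rw [Nat.le_div_iff_mul_le hq0]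
      refine le_trans ?_ (MvPolynomial.le_totalDegree hm.1)
      rw [Finsupp.sum_fintype _ _ (fun _ => rfl), Finsupp.sum_fintype _ _ (fun _ => rfl),
        Finset.sum_mul]
      apply Finset.sum_le_sum
      intro i _
      have h5 : F1dv q r m i = m i / q := rfl
      simp only [id_eq]
      rw [h5]
      exact Nat.div_mul_le_self _ _
    calc q * (b I).totalDegree ≤ q * (f.totalDegree / q) := Nat.mul_le_mul_left _ h1
      _ ≤ f.totalDegree := Nat.mul_div_le _ _

end Pool.Agent.Helper79.DN
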