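import Pool.Agent.Helper79.DN.StF

/-!
# [F10] Existence of frames
-/

set_option autoImplicit false

namespace Pool.Agent.Helper79.DN

open Polynomial

/-- The integral elements as a subring. -/
noncomputable def F10_O (p r : ℕ) [Fact p.Prime] (G : Type) [Field G] [Algebra (PF p r) G] :
    Subring G where
  carrier := {u | Int' p r u}
  mul_mem' := fun ha hb => RingHom.IsIntegralElem.mul (inc p r G) ha hb
  one_mem' := RingHom.isIntegralElem_one (inc p r G)
  add_mem' := fun ha hb => RingHom.IsIntegralElem.add (inc p r G) ha hb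
  zero_mem' := RingHom.isIntegralElem_zero (inc p r G)
  neg_mem' := fun ha => RingHom.IsIntegralElem.neg (inc p r G) ha

theorem F10_root (p r : ℕ) [Fact p.Prime] (G : Type) [Field G] [Algebra (PF p r) G] (u : G)
    (h : Int' p r (u ^ p)) : Int' p r u := by
  letI : Algebra (PR p r) G := (inc p r G).toAlgebra
  have h1 : IsIntegral (PR p r) (u ^ p) := h
  exact h1.of_pow (Fact.out : p.Prime).pos

theorem F10_char (p r : ℕ) [Fact p.Prime] (G : Type) [Field G] [Algebra (PF p r) G] :
    CharP G p := by
  haveI h1 : CharP (PR p r) p := inferInstance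
  haveI h2 : CharP (PF p r) p :=
    charP_of_injective_algebraMap (IsFractionRing.injective (PR p r) (PF p r)) p
  exact charP_of_injective_algebraMap (algebraMap (PF p r) G).injective p

theorem thm_F10 (h4 : St_F4) (h5 : St_F5) (h6 : St_F6) (h7 : St_F7) (h8 : St_F8) (h9 : St_F9) :
    St_F10 := by
  intro p hp R _ _ _ _
  obtain ⟨r, hr, G, iG, iA, B, ψ, hinj, hint⟩ := h9 p R
  haveI := B.fd
  haveI := B.gal
  obtain ⟨ρ, hρ, hdisc⟩ := h6 p r G B
  refine ⟨G, iG, F10_char p r G,
    { Γ := G ≃ₐ[PF p r] G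
      fin := inferInstance
      abs := fun τ => B.v.comp (f := (τ : G ≃ₐ[PF p r] G).toRingEquiv.toRingHom) τ.injective
      na := fun τ x y => ?_
      O := F10_O p r G
      prod := fun u hu h0 => h7 p r G B u hu h0
      root := fun u hu => F10_root p r G u hu
      ρ := ρ
      one_lt := hρ
      disc := fun τ u hu => hdisc τ u hu
      bd := fun s φ hφ => ?_
      fd := fun s => h5 p r G B s }, ψ, hinj, fun u => hint u, ?_⟩
  · have h := B.na (τ x) (τ y)
    rw [← map_add] at h
    exact h
  · obtain ⟨⟨C, hC⟩, c, hc, hc0, hcu⟩ := h4 p r hr G B s φ hφ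
    exact ⟨⟨C, fun τ u => hC τ u⟩, c, hc, hc0, fun u hu => hcu u hu⟩
  · intro M
    have hfin := h8 p r G B M
    refine Set.Finite.subset (hfin.preimage (f := ψ) hinj.injOn) ?_
    intro u hu
    exact ⟨hint u, fun τ => hu τ⟩

end Pool.Agent.Helper79.DN
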