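import Pool.Agent.Helper79.DN.StF

/-!
# [F2] Weak approximation for finitely many absolute values
-/

set_option autoImplicit false

namespace Pool.Agent.Helper79.DN

private theorem F2_gt {K : Type} [Field K] (v : AbsoluteValue K ℝ)
    (hv : ∀ x y, v (x + y) ≤ max (v x) (v y)) (a : K) (ha : 1 < v a) : v (1 + a) = v a := by
  apply le_antisymm
  · have h := hv 1 a
    rw [map_one, max_eq_right ha.le] at h
    exact h
  · have h := hv (1 + a) (-1)
    have e : 1 + a + -1 = a := by ring
    rw [e, v.map_neg, map_one] at h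
    rcases le_max_iff.mp h with h1 | h1
    · exact h1
    · exact absurd h1 (not_le.mpr ha)

private theorem F2_lt {K : Type} [Field K] (v : AbsoluteValue K ℝ)
    (hv : ∀ x y, v (x + y) ≤ max (v x) (v y)) (a : K) (ha : v a < 1) : v (1 + a) = 1 := by
  apply le_antisymm
  · have h := hv 1 a
    rw [map_one, max_eq_left ha.le] at h
    exact h
  · have h := hv (1 + a) (-a)
    have e : 1 + a + -a = 1 := by ring
    rw [e, v.map_neg, map_one] at h
    rcases le_max_iff.mp h with h1 | h1
    · exact h1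
    · exact absurd h1 (not_le.mpr ha)

theorem thm_F2 : St_F2 := by
  intro K Γ _ _ v hna t ht τ
  have hfin : Finite (Set.range v) := Set.finite_range v
  obtain ⟨w, hw⟩ : ∃ w : Set.range v → AbsoluteValue K ℝ, w = Subtype.val := ⟨_, rfl⟩
  have hwt : ∀ i, w i t = 2 := by
    intro i
    obtain ⟨τ', hτ'⟩ := i.2
    rw [hw, ← hτ']
    exact ht τ'
  have ht0 : t ≠ 0 := by
    rintro rfl
    have h1 := ht τ
    rw [map_zero] at h1
    norm_num at h1
  have hnt : ∀ i, (w i).IsNontrivial := by
    intro i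
    refine ⟨t, ht0, ?_⟩
    rw [hwt i]
    norm_num
  have hneq : Pairwise fun i j ↦ ¬(w i).IsEquiv (w j) := by
    intro i j hij heq
    apply hij
    obtain ⟨c, hc, hcw⟩ := AbsoluteValue.isEquiv_iff_exists_rpow_eq.mp heq
    have h1 : (w i t) ^ c = w j t := congrFun hcw t
    rw [hwt i, hwt j] at h1
    have hc1 : c = 1 := by
      have h2 := congrArg Real.log h1
      rw [Real.log_rpow (by norm_num)] at h2
      have h3 : Real.log 2 ≠ 0 := by
        have := Real.log_pos (by norm_num : (1 : ℝ) < 2)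
        exact this.ne'
      exact mul_right_cancel₀ h3 (by rw [h2, one_mul])
    have h4 : w i = w j := by
      ext x
      have h5 : (w i x) ^ c = w j x := congrFun hcw x
      rw [hc1, Real.rpow_one] at h5
      exact h5
    rw [hw] at h4
    exact Subtype.ext h4
  obtain ⟨a, ha1, ha2⟩ := AbsoluteValue.exists_one_lt_lt_one_pi_of_not_isEquiv hnt hneq
    ⟨v τ, τ, rfl⟩
  have ha1' : 1 < v τ a := by
    rw [hw] at ha1
    exact ha1
  have ha2' : ∀ τ', v τ' ≠ v τ → v τ' a < 1 := by
    intro τ' hτ'
    have h1 := ha2 ⟨v τ', τ', rfl⟩ (fun h => hτ' (congrArg Subtype.val h))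
    rw [hw] at h1
    exact h1
  refine ⟨a / (1 + a), ?_, ?_⟩
  · rw [map_div₀, F2_gt (v τ) (hna τ) a ha1']
    exact div_self (by linarith)
  · intro τ' hτ'
    have h1 := ha2' τ' hτ'
    rw [map_div₀, F2_lt (v τ') (hna τ') a h1, div_one]
    exact h1

end Pool.Agent.Helper79.DN
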