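import Pool.Agent.Helper79.DN.StF

/-!
# [F3] Integral elements have bounded coordinates
-/

set_option autoImplicit false

namespace Pool.Agent.Helper79.DN

open MvPolynomial

private theorem F3_sum_le {G ι : Type} [Field G] (v : AbsoluteValue G ℝ)
    (hv : ∀ x y, v (x + y) ≤ max (v x) (v y)) (T : ℝ) (hT : 0 ≤ T) (x : ι → G) :
    ∀ S : Finset ι, (∀ i ∈ S, v (x i) ≤ T) → v (∑ i ∈ S, x i) ≤ T := by
  classical
  intro S
  induction S using Finset.induction_on with
  | empty => intro _; simpa using hT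
  | insert a S ha ih =>
    intro h
    rw [Finset.sum_insert ha]
    refine (hv _ _).trans (max_le (h a (Finset.mem_insert_self a S)) (ih ?_))
    intro i hi
    exact h i (Finset.mem_insert_of_mem hi)

theorem thm_F3 : St_F3 := by
  intro p r hp G _ _ B
  classical
  let iA : Algebra (PR p r) G := (inc p r G).toAlgebra
  have htower : IsScalarTower (PR p r) (PF p r) G := IsScalarTower.of_algebraMap_eq' rfl
  have hfd : FiniteDimensional (PF p r) G := B.fd
  have hgal : IsGalois (PF p r) G := B.gal
  obtain ⟨s, b0, hb0⟩ := FiniteDimensional.exists_is_basis_integral (L := G) (PR p r) (PF p r)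
  obtain ⟨n, hn⟩ : ∃ n, n = Fintype.card s := ⟨_, rfl⟩
  obtain ⟨b, hb⟩ : ∃ b : Module.Basis (Fin n) (PF p r) G, ∀ j, IsIntegral (PR p r) (b j) := by
    subst hn
    refine ⟨b0.reindex (Fintype.equivFin s), ?_⟩
    intro j
    rw [Module.Basis.reindex_apply]
    exact hb0 _
  obtain ⟨d, hd0, hd⟩ := exists_integral_multiples (PR p r) (PF p r)
    (Finset.univ.image (fun j => b.traceDual j))
  have hd' : ∀ j, IsIntegral (PR p r) (d • b.traceDual j) := by
    intro j
    exact hd _ (Finset.mem_image.mpr ⟨j, Finset.mem_univ _, rfl⟩)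
  have hrepr : ∀ (u : G) (j : Fin n), b.repr u j =
      Algebra.trace (PF p r) G (u * b.traceDual j) := by
    intro u j
    have h1 := Module.Basis.traceDual_repr_apply (b := b.traceDual) u j
    rw [Module.Basis.traceDual_traceDual] at h1
    rw [h1, Algebra.traceForm_apply]
  obtain ⟨C, hC⟩ : ∃ C : ℝ, C = ∑ τ : G ≃ₐ[PF p r] G, ∑ j, B.v (τ (d • b.traceDual j)) :=
    ⟨_, rfl⟩
  have hCle : ∀ (τ : G ≃ₐ[PF p r] G) (j : Fin n), B.v (τ (d • b.traceDual j)) ≤ C := by
    intro τ j
    rw [hC]
    refine le_trans ?_ (Finset.single_le_sum (f := fun τ : G ≃ₐ[PF p r] G =>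
      ∑ j, B.v (τ (d • b.traceDual j))) (fun _ _ => Finset.sum_nonneg (fun _ _ => B.v.nonneg _))
      (Finset.mem_univ τ))
    exact Finset.single_le_sum (f := fun j => B.v (τ (d • b.traceDual j)))
      (fun _ _ => B.v.nonneg _) (Finset.mem_univ j)
  have hC0 : 0 ≤ C := by
    rw [hC]
    exact Finset.sum_nonneg (fun _ _ => Finset.sum_nonneg (fun _ _ => B.v.nonneg _))
  refine ⟨n, b, d, C, hd0, hb, ?_⟩
  intro u hu
  have hu' : IsIntegral (PR p r) u := hu
  have hint : ∀ j, IsIntegral (PR p r)
      (Algebra.trace (PF p r) G (u * (d • b.traceDual j))) := by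
    intro j
    exact Algebra.isIntegral_trace (hu'.mul (hd' j))
  have hex : ∀ j, ∃ a : PR p r, algebraMap (PR p r) (PF p r) a =
      Algebra.trace (PF p r) G (u * (d • b.traceDual j)) := by
    intro j
    exact IsIntegrallyClosed.isIntegral_iff.mp (hint j)
  choose a ha using hex
  refine ⟨a, ?_, ?_⟩
  · have h1 : ∀ j, algebraMap (PR p r) (PF p r) (a j) =
        algebraMap (PR p r) (PF p r) d * b.repr u j := by
      intro j
      rw [ha j, hrepr u j]
      have h2 : u * (d • b.traceDual j) =
          (algebraMap (PR p r) (PF p r) d) • (u * b.traceDual j) := by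
        rw [algebraMap_smul, mul_smul_comm]
      rw [h2, map_smul, smul_eq_mul]
    have h3 : u = ∑ j, b.repr u j • b j := (b.sum_repr u).symm
    conv_lhs => rw [h3]
    rw [Finset.mul_sum]
    apply Finset.sum_congr rfl
    intro j _
    have h4 : ∀ c : PR p r, inc p r G c =
        algebraMap (PF p r) G (algebraMap (PR p r) (PF p r) c) := fun c => rfl
    rw [h4, h4, h1 j, map_mul, Algebra.smul_def, mul_assoc]
  · intro M hM j
    have h4 : inc p r G (a j) =
        algebraMap (PF p r) G (algebraMap (PR p r) (PF p r) (a j)) := rfl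
    rw [h4, ha j, trace_eq_sum_automorphisms]
    have hM0 : 0 ≤ M := (B.v.nonneg _).trans (hM 1)
    apply F3_sum_le B.v B.na (C * M) (mul_nonneg hC0 hM0)
    intro τ _
    rw [map_mul, map_mul, mul_comm C M]
    exact mul_le_mul (hM τ) (hCle τ j) (B.v.nonneg _) hM0

end Pool.Agent.Helper79.DN
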