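import Pool.Agent.Helper79.DN.StF

/-!
# F4: `G ^ q`-linear maps are bounded at every place and almost preserve integrality
-/

set_option autoImplicit false

namespace Pool.Agent.Helper79.DN

open Finset

section F4

variable {p r : ℕ} [Fact p.Prime] {G : Type} [Field G] [Algebra (PF p r) G]

private theorem F4_int_add {x y : G} (hx : Int' p r x) (hy : Int' p r y) : Int' p r (x + y) :=
  RingHom.IsIntegralElem.add _ hx hy

private theorem F4_int_mul {x y : G} (hx : Int' p r x) (hy : Int' p r y) : Int' p r (x * y) :=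
  RingHom.IsIntegralElem.mul _ hx hy

private theorem F4_int_inc (b : PR p r) : Int' p r (inc p r G b) :=
  RingHom.isIntegralElem_map _

private theorem F4_int_pow {x : G} (hx : Int' p r x) (n : ℕ) : Int' p r (x ^ n) := by
  induction n with
  | zero =>
    rw [pow_zero]
    exact RingHom.isIntegralElem_one _
  | succ n ih =>
    rw [pow_succ]
    exact F4_int_mul ih hx

private theorem F4_int_sum {ι : Type} (S : Finset ι) (f : ι → G)
    (h : ∀ i ∈ S, Int' p r (f i)) : Int' p r (∑ i ∈ S, f i) := by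
  classical
  induction S using Finset.induction_on with
  | empty =>
    rw [sum_empty]
    exact RingHom.isIntegralElem_zero _
  | insert i S hi ih =>
    rw [sum_insert hi]
    exact F4_int_add (h i (mem_insert_self _ _))
      (ih (fun k hk => h k (mem_insert_of_mem hk)))

/-- common denominators -/
private theorem F4_mult (B : Base p r G) (S : Finset G) :
    ∃ c : PR p r, c ≠ 0 ∧ ∀ x ∈ S, Int' p r (inc p r G c * x) := by
  letI : Algebra (PR p r) G := (inc p r G).toAlgebra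
  haveI : IsScalarTower (PR p r) (PF p r) G := IsScalarTower.of_algebraMap_eq (fun _ => rfl)
  haveI := B.fd
  obtain ⟨y, hy0, hy⟩ := exists_integral_multiples (PR p r) (PF p r) S
  refine ⟨y, hy0, fun x hx => ?_⟩
  have h1 := hy x hx
  rw [Algebra.smul_def] at h1
  exact h1

private theorem F4_fix (τ : G ≃ₐ[PF p r] G) (b : PR p r) : τ (inc p r G b) = inc p r G b :=
  τ.commutes _

private theorem F4_deg (B : Base p r G) (b : PR p r) (hb : b ≠ 0) :
    B.v (inc p r G b) = 2 ^ b.totalDegree := B.deg b hb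

private theorem F4_pos (B : Base p r G) (b : PR p r) (hb : b ≠ 0) : 0 < B.v (inc p r G b) := by
  rw [F4_deg B b hb]
  positivity

private theorem F4_dec (h1 : St_F1) (B : Base p r G) (s : ℕ) (f : PR p r) :
    ∃ b : (Fin r → Fin (p ^ s)) → PR p r,
      f = ∑ I, b I ^ p ^ s * ∏ i, MvPolynomial.X i ^ (I i : ℕ) ∧
      ∀ I, B.v (inc p r G (b I)) ^ p ^ s ≤ B.v (inc p r G f) := by
  have hq : 0 < p ^ s := pow_pos (Fact.out : p.Prime).pos s
  by_cases hf : f = 0
  · refine ⟨fun _ => 0, ?_, ?_⟩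
    · rw [hf]
      symm
      apply sum_eq_zero
      intro I _
      rw [zero_pow hq.ne', zero_mul]
    · intro I
      rw [map_zero, map_zero, zero_pow hq.ne']
      exact B.v.nonneg _
  · obtain ⟨b, hb, hd⟩ := h1 p r s f
    refine ⟨b, hb, fun I => ?_⟩
    by_cases hI : b I = 0
    · rw [hI, map_zero, map_zero, zero_pow hq.ne']
      exact B.v.nonneg _
    · rw [F4_deg B _ hI, F4_deg B _ hf, ← pow_mul]
      apply pow_le_pow_right₀ (by norm_num)
      rw [mul_comm]
      exact hd I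

private theorem F4_expand (h1 : St_F1) (B : Base p r G) (s : ℕ) {n : ℕ} (θ : Fin n → G)
    (d : PR p r) (q' : ℕ) (hq' : p ^ s = q' + 1) (u : G) (a : Fin n → PR p r)
    (ha : inc p r G d * u = ∑ j, inc p r G (a j) * θ j) :
    ∃ b : Fin n → (Fin r → Fin (p ^ s)) → PR p r,
      inc p r G d ^ p ^ s * u = ∑ j, ∑ I, inc p r G (b j I) ^ p ^ s *
        (inc p r G (∏ i, MvPolynomial.X i ^ (I i : ℕ)) * θ j) ∧
      ∀ j I, B.v (inc p r G (b j I)) ^ p ^ s ≤
        B.v (inc p r G d) ^ q' * B.v (inc p r G (a j)) := by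
  choose b hb1 hb2 using fun j => F4_dec h1 B s (d ^ q' * a j)
  refine ⟨b, ?_, ?_⟩
  · calc inc p r G d ^ p ^ s * u = inc p r G d ^ q' * (inc p r G d * u) := by
          rw [hq', pow_succ]
          ring
      _ = ∑ j, inc p r G (d ^ q' * a j) * θ j := by
          rw [ha, mul_sum]
          refine sum_congr rfl fun j _ => ?_
          rw [map_mul, map_pow]
          ring
      _ = _ := by
          refine sum_congr rfl fun j _ => ?_
          have h2 : inc p r G (d ^ q' * a j) = ∑ I, inc p r G (b j I) ^ p ^ s *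
              inc p r G (∏ i, MvPolynomial.X i ^ (I i : ℕ)) := by
            have h3 := congrArg (inc p r G) (hb1 j)
            rw [map_sum] at h3
            rw [h3]
            refine sum_congr rfl fun I _ => ?_
            rw [map_mul, map_pow]
          rw [h2, sum_mul]
          refine sum_congr rfl fun I _ => ?_
          ring
  · intro j I
    have h2 := hb2 j I
    rwa [map_mul, map_pow, map_mul, map_pow] at h2

private theorem F4_phi {s : ℕ} (φ : G →+ G) (hφ : Lin p s φ) {n : ℕ} (d : PR p r) (u : G)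
    (b : Fin n → (Fin r → Fin (p ^ s)) → PR p r) (θ : Fin n → G)
    (h : inc p r G d ^ p ^ s * u = ∑ j, ∑ I, inc p r G (b j I) ^ p ^ s *
        (inc p r G (∏ i, MvPolynomial.X i ^ (I i : ℕ)) * θ j)) :
    inc p r G d ^ p ^ s * φ u = ∑ j, ∑ I, inc p r G (b j I) ^ p ^ s *
        φ (inc p r G (∏ i, MvPolynomial.X i ^ (I i : ℕ)) * θ j) := by
  have h1 := congrArg φ h
  rw [hφ, map_sum] at h1
  rw [h1]
  refine sum_congr rfl fun j _ => ?_
  rw [map_sum]
  refine sum_congr rfl fun I _ => ?_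
  rw [hφ]

private theorem F4_vsum (B : Base p r G) {ι : Type} (S : Finset ι) (f : ι → G) :
    B.v (∑ i ∈ S, f i) ≤ ∑ i ∈ S, B.v (f i) := by
  classical
  induction S using Finset.induction_on with
  | empty => simp
  | insert i S hi ih =>
    rw [sum_insert hi, sum_insert hi]
    exact (B.v.add_le _ _).trans (by linarith)

end F4

theorem thm_F4 (h1 : St_F1) (h2 : St_F2) (h3 : St_F3) : St_F4 := by
  intro p r _ hr G _ _ B s φ hφ
  have hp : p.Prime := Fact.out
  have hq : 0 < p ^ s := pow_pos hp.pos s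
  obtain ⟨q', hq'⟩ : ∃ q', p ^ s = q' + 1 := ⟨p ^ s - 1, by omega⟩
  obtain ⟨n, θ, d, C, hd0, hθ, hF3⟩ := h3 p r G B
  haveI := B.fd
  haveI : Fintype (G ≃ₐ[PF p r] G) := Fintype.ofFinite _
  obtain ⟨Θ, hΘ⟩ : ∃ Θ : Fin n → (Fin r → Fin (p ^ s)) → G,
    Θ = fun j I => φ (inc p r G (∏ i, MvPolynomial.X i ^ (I i : ℕ)) * θ j) := ⟨_, rfl⟩
  have hvd : 0 < B.v (inc p r G d) := F4_pos B d hd0
  -- (a) integrality
  have hint : ∃ c : G, Int' p r c ∧ c ≠ 0 ∧ ∀ u, Int' p r u → Int' p r (c * φ u) := by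
    classical
    obtain ⟨c', hc0, hc⟩ := F4_mult B
      ((univ : Finset (Fin n × (Fin r → Fin (p ^ s)))).image (fun x => Θ x.1 x.2))
    refine ⟨inc p r G c' * inc p r G d ^ p ^ s, ?_, ?_, ?_⟩
    · exact F4_int_mul (F4_int_inc _) (F4_int_pow (F4_int_inc _) _)
    · have e1 : inc p r G c' ≠ 0 := fun h => (F4_pos B c' hc0).ne' (by rw [h, map_zero])
      have e2 : inc p r G d ≠ 0 := fun h => hvd.ne' (by rw [h, map_zero])
      exact mul_ne_zero e1 (pow_ne_zero _ e2)
    · intro u hu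
      obtain ⟨a, ha, -⟩ := hF3 u hu
      obtain ⟨b, hb, -⟩ := F4_expand h1 B s θ d q' hq' u a ha
      have hb' := F4_phi φ hφ d u b θ hb
      rw [mul_assoc, hb', mul_sum]
      apply F4_int_sum
      intro j _
      rw [mul_sum]
      apply F4_int_sum
      intro I _
      have e1 := hc (Θ j I) (mem_image.2 ⟨(j, I), mem_univ _, rfl⟩)
      rw [hΘ] at e1
      have e2 := F4_int_mul (F4_int_pow (F4_int_inc (G := G) (b j I)) (p ^ s)) e1
      have e3 : inc p r G (b j I) ^ p ^ s * (inc p r G c' *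
          φ (inc p r G (∏ i, MvPolynomial.X i ^ (I i : ℕ)) * θ j)) =
          inc p r G c' * (inc p r G (b j I) ^ p ^ s *
            φ (inc p r G (∏ i, MvPolynomial.X i ^ (I i : ℕ)) * θ j)) := by ring
      rw [← e3]
      exact e2
  refine ⟨?_, hint⟩
  -- (b) bound for integral elements
  obtain ⟨K, hK⟩ : ∃ K : ℝ, K = (∑ τ : G ≃ₐ[PF p r] G, ∑ j, ∑ I, B.v (τ (Θ j I))) *
    (B.v (inc p r G d) ^ q' * |C|) / B.v (inc p r G d) ^ p ^ s := ⟨_, rfl⟩
  have hb : ∀ (u : G), Int' p r u → ∀ M : ℝ, (∀ τ : G ≃ₐ[PF p r] G, B.v (τ u) ≤ M) →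
      ∀ τ : G ≃ₐ[PF p r] G, B.v (τ (φ u)) ≤ K * M := by
    intro u hu M hM τ
    obtain ⟨a, ha, haM⟩ := hF3 u hu
    obtain ⟨b, hb, hbM⟩ := F4_expand h1 B s θ d q' hq' u a ha
    have hM0 : 0 ≤ M := (B.v.nonneg _).trans (hM τ)
    have hb' := F4_phi φ hφ d u b θ hb
    have e1 := congrArg (fun x => B.v (τ x)) hb'
    simp only [map_mul, map_pow, F4_fix] at e1
    have e2 : B.v (inc p r G d) ^ p ^ s * B.v (τ (φ u)) ≤
        ∑ j, ∑ I, (B.v (inc p r G d) ^ q' * |C|) * M * B.v (τ (Θ j I)) := by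
      rw [e1, map_sum]
      refine (F4_vsum B _ _).trans (sum_le_sum fun j _ => ?_)
      rw [map_sum]
      refine (F4_vsum B _ _).trans (sum_le_sum fun I _ => ?_)
      rw [map_mul, map_mul, map_pow, map_pow, F4_fix]
      have e3 : B.v (inc p r G (b j I)) ^ p ^ s ≤ B.v (inc p r G d) ^ q' * |C| * M := by
        refine (hbM j I).trans ?_
        rw [mul_assoc]
        apply mul_le_mul_of_nonneg_left _ (by positivity)
        refine (haM M hM j).trans ?_
        exact mul_le_mul_of_nonneg_right (le_abs_self C) hM0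
      have e4 : B.v (τ (φ (inc p r G (∏ i, MvPolynomial.X i ^ (I i : ℕ)) * θ j))) =
          B.v (τ (Θ j I)) := by rw [hΘ]
      have e5 := mul_le_mul_of_nonneg_right e3 (B.v.nonneg (τ (Θ j I)))
      rw [← e4] at e5
      rw [← e4]
      exact e5
    have e6 : ∑ j, ∑ I, (B.v (inc p r G d) ^ q' * |C|) * M * B.v (τ (Θ j I)) ≤
        (B.v (inc p r G d) ^ q' * |C|) * M *
          ∑ τ : G ≃ₐ[PF p r] G, ∑ j, ∑ I, B.v (τ (Θ j I)) := by
      have e7 : ∑ j, ∑ I, (B.v (inc p r G d) ^ q' * |C|) * M * B.v (τ (Θ j I)) =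
          (B.v (inc p r G d) ^ q' * |C|) * M * ∑ j, ∑ I, B.v (τ (Θ j I)) := by
        rw [mul_sum]
        refine sum_congr rfl fun j _ => ?_
        rw [mul_sum]
      rw [e7]
      apply mul_le_mul_of_nonneg_left
      · exact single_le_sum (f := fun τ : G ≃ₐ[PF p r] G => ∑ j, ∑ I, B.v (τ (Θ j I)))
          (fun τ _ => sum_nonneg fun j _ => sum_nonneg fun I _ => B.v.nonneg _) (mem_univ τ)
      · positivity
    have hpos : 0 < B.v (inc p r G d) ^ p ^ s := pow_pos hvd _
    rw [hK, div_mul_eq_mul_div, le_div_iff₀ hpos]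
    calc B.v (τ (φ u)) * B.v (inc p r G d) ^ p ^ s
        = B.v (inc p r G d) ^ p ^ s * B.v (τ (φ u)) := mul_comm _ _
      _ ≤ _ := e2.trans e6
      _ = _ := by ring
  -- (c) all elements
  have hc : ∀ (u : G) (M : ℝ), (∀ τ : G ≃ₐ[PF p r] G, B.v (τ u) ≤ M) →
      ∀ τ : G ≃ₐ[PF p r] G, B.v (τ (φ u)) ≤ K * M := by
    intro u M hM τ
    obtain ⟨b, hb0, hbu⟩ := F4_mult B {u}
    have e1 := hbu u (mem_singleton_self u)
    have e2 : Int' p r (inc p r G b ^ p ^ s * u) := by
      have e3 : inc p r G b ^ p ^ s * u = inc p r G b ^ q' * (inc p r G b * u) := by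
        rw [hq', pow_succ]
        ring
      rw [e3]
      exact F4_int_mul (F4_int_pow (F4_int_inc _) _) e1
    have hpos : 0 < B.v (inc p r G b) ^ p ^ s := pow_pos (F4_pos B b hb0) _
    have e4 := hb _ e2 (B.v (inc p r G b) ^ p ^ s * M) (by
      intro τ'
      rw [map_mul, map_mul, map_pow, map_pow, F4_fix]
      exact mul_le_mul_of_nonneg_left (hM τ') hpos.le) τ
    rw [hφ, map_mul, map_mul, map_pow, map_pow, F4_fix] at e4
    have e5 : B.v (inc p r G b) ^ p ^ s * B.v (τ (φ u)) ≤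
        B.v (inc p r G b) ^ p ^ s * (K * M) := by
      refine e4.trans (le_of_eq ?_)
      ring
    exact le_of_mul_le_mul_left e5 hpos
  -- (d) one place
  refine ⟨K, ?_⟩
  intro τ u
  by_cases hu : u = 0
  · rw [hu]
    simp
  obtain ⟨w, hw⟩ : ∃ w : (G ≃ₐ[PF p r] G) → AbsoluteValue G ℝ,
      ∀ τ x, w τ x = B.v (τ x) :=
    ⟨fun τ => B.v.comp (f := (τ : G →+* G)) τ.injective, fun τ x => rfl⟩
  obtain ⟨t, ht⟩ : ∃ t : G, t = inc p r G (MvPolynomial.X ⟨0, hr⟩) := ⟨_, rfl⟩
  have hwt : ∀ τ, w τ t = 2 := by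
    intro τ
    rw [hw, ht, F4_fix, F4_deg B _ (MvPolynomial.X_ne_zero _), MvPolynomial.totalDegree_X, pow_one]
  obtain ⟨e, he1, he2⟩ := h2 G (G ≃ₐ[PF p r] G) w (fun τ x y => by
    rw [hw, hw, hw, map_add]
    exact B.na _ _) t hwt τ
  have huτ : 0 < w τ u := (w τ).pos hu
  have hN : ∃ N : ℕ, ∀ τ' : G ≃ₐ[PF p r] G, w τ' (e ^ (p ^ s * N) * u) ≤ w τ u := by
    have h4 : ∀ τ' : G ≃ₐ[PF p r] G, ∃ N : ℕ, ∀ N' ≥ N, w τ' (e ^ N' * u) ≤ w τ u := by
      intro τ'
      by_cases h5 : w τ' = w τ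
      · refine ⟨0, fun N' _ => ?_⟩
        rw [h5, map_mul, map_pow, he1, one_pow, one_mul]
      · have h6 := he2 τ' h5
        have h7 : Filter.Tendsto (fun N : ℕ => w τ' e ^ N * w τ' u) Filter.atTop
            (nhds (0 * w τ' u)) :=
          (tendsto_pow_atTop_nhds_zero_of_lt_one ((w τ').nonneg _) h6).mul_const _
        rw [zero_mul] at h7
        have h8 := h7.eventually (gt_mem_nhds huτ)
        obtain ⟨N, hN⟩ := Filter.eventually_atTop.1 h8
        refine ⟨N, fun N' hN' => ?_⟩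
        rw [map_mul, map_pow]
        exact (hN N' hN').le
    choose N hN using h4
    refine ⟨∑ τ', N τ', fun τ' => hN τ' _ ?_⟩
    calc N τ' ≤ ∑ τ', N τ' := single_le_sum (fun _ _ => Nat.zero_le _) (mem_univ τ')
      _ = 1 * ∑ τ', N τ' := (one_mul _).symm
      _ ≤ p ^ s * ∑ τ', N τ' := Nat.mul_le_mul_right _ hq
  obtain ⟨N, hN⟩ := hN
  have h9 := hc (e ^ (p ^ s * N) * u) (w τ u) (fun τ' => by
    rw [← hw]
    exact hN τ') τ
  have h10 : e ^ (p ^ s * N) = (e ^ N) ^ p ^ s := by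
    rw [← pow_mul, mul_comm]
  rw [h10, hφ, ← hw, map_mul, map_pow, map_pow, he1, one_pow, one_pow, one_mul, hw, hw] at h9
  exact h9

end Pool.Agent.Helper79.DN
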