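import Pool.Agent.Helper79.DN.StF

/-!
# `G` is finite over `G ^ q`
-/

set_option autoImplicit false

namespace Pool.Agent.Helper79.DN

open Polynomial

private theorem F5_inj (p r : ℕ) [Fact p.Prime] (G : Type) [Field G] [Algebra (PF p r) G] :
    Function.Injective (inc p r G) := by
  unfold inc
  rw [RingHom.coe_comp]
  exact (algebraMap (PF p r) G).injective.comp (IsFractionRing.injective (PR p r) (PF p r))

private theorem F5_mult (p r : ℕ) [Fact p.Prime] (G : Type) [Field G] [Algebra (PF p r) G]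
    (_hfd : FiniteDimensional (PF p r) G) (u : G) :
    ∃ b : PR p r, b ≠ 0 ∧ Int' p r (inc p r G b * u) := by
  let _alg : Algebra (PR p r) G := (inc p r G).toAlgebra
  have _i : IsScalarTower (PR p r) (PF p r) G := IsScalarTower.of_algebraMap_eq (fun x => rfl)
  have h1 : IsAlgebraic (PF p r) u := Algebra.IsAlgebraic.isAlgebraic u
  have h2 : IsAlgebraic (PR p r) u := (IsFractionRing.isAlgebraic_iff (PR p r) (PF p r) G).mpr h1
  obtain ⟨y, hy, hint⟩ := h2.exists_integral_multiple
  refine ⟨y, hy, ?_⟩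
  have h3 : y • u = inc p r G y * u := by
    rw [Algebra.smul_def]
    rfl
  rw [h3] at hint
  exact hint

private theorem F5_int_mul (p r : ℕ) [Fact p.Prime] (G : Type) [Field G] [Algebra (PF p r) G]
    (b : PR p r) (u : G) (h : Int' p r u) : Int' p r (inc p r G b * u) := by
  unfold Int' at h ⊢
  exact RingHom.IsIntegralElem.mul (inc p r G) (RingHom.isIntegralElem_map (inc p r G)) h

theorem thm_F5 (h1 : St_F1) (h3 : St_F3) : St_F5 := by
  intro p r _ G _ _ B s
  obtain ⟨n, θ, d, C, hd, _, hu⟩ := h3 p r G B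
  have hq : 1 ≤ p ^ s := Nat.one_le_pow _ _ (Fact.out : p.Prime).pos
  let J : Type := Fin n × (Fin r → Fin (p ^ s))
  let E : J → G := fun x =>
    inc p r G (∏ i, MvPolynomial.X i ^ (x.2 i : ℕ)) * θ x.1
  have key : ∀ u : G, ∃ a : J → G, u = ∑ x, a x ^ p ^ s * E x := by
    intro u
    obtain ⟨b, hb, hbu⟩ := F5_mult p r G B.fd u
    have hb' : inc p r G b ≠ 0 := fun h => hb (F5_inj p r G (by rw [h, map_zero]))
    have hd' : inc p r G d ≠ 0 := fun h => hd (F5_inj p r G (by rw [h, map_zero]))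
    have hw : Int' p r (inc p r G (b ^ (p ^ s - 1)) * (inc p r G b * u)) :=
      F5_int_mul p r G _ _ hbu
    obtain ⟨a, ha, _⟩ := hu _ hw
    choose c hc _ using fun j : Fin n => h1 p r s (d ^ (p ^ s - 1) * a j)
    refine ⟨fun x => inc p r G (c x.1 x.2) / (inc p r G d * inc p r G b), ?_⟩
    have hpow : ∀ z : PR p r, inc p r G z ^ p ^ s =
        inc p r G (z ^ (p ^ s - 1)) * inc p r G z := by
      intro z
      rw [map_pow, ← pow_succ, Nat.sub_add_cancel hq]
    have e1 : (inc p r G d * inc p r G b) ^ p ^ s * u =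
        ∑ j, inc p r G (d ^ (p ^ s - 1) * a j) * θ j := by
      have e2 : (inc p r G d * inc p r G b) ^ p ^ s * u =
          inc p r G (d ^ (p ^ s - 1)) *
            (inc p r G d * (inc p r G (b ^ (p ^ s - 1)) * (inc p r G b * u))) := by
        rw [mul_pow, hpow d, hpow b]
        ring
      rw [e2, ha, Finset.mul_sum]
      refine Finset.sum_congr rfl fun j _ => ?_
      rw [map_mul]
      ring
    have e3 : ∀ j, inc p r G (d ^ (p ^ s - 1) * a j) * θ j =
        ∑ I, inc p r G (c j I) ^ p ^ s * E (j, I) := by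
      intro j
      rw [hc j, map_sum, Finset.sum_mul]
      refine Finset.sum_congr rfl fun I _ => ?_
      change _ = inc p r G (c j I) ^ p ^ s *
        (inc p r G (∏ i, MvPolynomial.X i ^ (I i : ℕ)) * θ j)
      rw [map_mul, map_pow, mul_assoc]
    have hne : (inc p r G d * inc p r G b) ^ p ^ s ≠ 0 := pow_ne_zero _ (mul_ne_zero hd' hb')
    have e4 : u = ((inc p r G d * inc p r G b) ^ p ^ s)⁻¹ *
        ∑ j, ∑ I, inc p r G (c j I) ^ p ^ s * E (j, I) := by
      rw [← Finset.sum_congr rfl fun j _ => e3 j, ← e1, inv_mul_cancel_left₀ hne]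
    rw [Fintype.sum_prod_type]
    conv_lhs => rw [e4]
    rw [Finset.mul_sum]
    refine Finset.sum_congr rfl fun j _ => ?_
    rw [Finset.mul_sum]
    refine Finset.sum_congr rfl fun I _ => ?_
    rw [div_pow, div_eq_mul_inv]
    ring
  let φ : J ≃ Fin (Fintype.card J) := Fintype.equivFin J
  refine ⟨Fintype.card J, fun i => E (φ.symm i), fun u => ?_⟩
  obtain ⟨a, ha⟩ := key u
  refine ⟨fun i => a (φ.symm i), ?_⟩
  rw [ha]
  exact (Equiv.sum_comp φ.symm (fun x => a x ^ p ^ s * E x)).symm

end Pool.Agent.Helper79.DN
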