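import Pool.Agent.Helper79.DN.StF

/-!
# Block F, module F6: discreteness
-/

set_option autoImplicit false

namespace Pool.Agent.Helper79.DN

open Polynomial

private theorem F6_sum_lt {K ι : Type*} [Field K] (v : AbsoluteValue K ℝ)
    (na : ∀ x y, v (x + y) ≤ max (v x) (v y)) (t : ι → K) {c : ℝ} (hc : 0 < c) (s : Finset ι) :
    (∀ j ∈ s, v (t j) < c) → v (∑ j ∈ s, t j) < c := by
  classical
  induction s using Finset.induction_on with
  | empty => intro _; simpa using hc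
  | insert a s ha ih =>
    intro h
    rw [Finset.sum_insert ha]
    exact lt_of_le_of_lt (na _ _) (max_lt (h a (Finset.mem_insert_self _ _))
      (ih fun j hj => h j (Finset.mem_insert_of_mem hj)))

private theorem F6_two_max {K ι : Type*} [Field K] (v : AbsoluteValue K ℝ)
    (na : ∀ x y, v (x + y) ≤ max (v x) (v y)) (s : Finset ι) (t : ι → K)
    (h0 : ∑ i ∈ s, t i = 0) {i₀ : ι} (hi₀ : i₀ ∈ s) (hne : t i₀ ≠ 0) :
    ∃ i ∈ s, ∃ j ∈ s, i ≠ j ∧ t i ≠ 0 ∧ t j ≠ 0 ∧ v (t i) = v (t j) := by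
  classical
  obtain ⟨i, hi, hmax⟩ := s.exists_max_image (fun i => v (t i)) ⟨i₀, hi₀⟩
  have hti : 0 < v (t i) := (v.pos hne).trans_le (hmax i₀ hi₀)
  by_contra hcon
  push Not at hcon
  have hi0 : t i ≠ 0 := by
    intro h; rw [h, map_zero] at hti; exact lt_irrefl _ hti
  have hlt : ∀ j ∈ s.erase i, v (t j) < v (t i) := by
    intro j hj
    obtain ⟨hji, hjs⟩ := Finset.mem_erase.mp hj
    refine lt_of_le_of_ne (hmax j hjs) fun he => ?_
    have hj0 : t j ≠ 0 := by
      intro h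
      rw [h, map_zero] at he
      rw [← he] at hti
      exact lt_irrefl _ hti
    exact hcon i hi j hjs hji.symm hi0 hj0 he.symm
  have h1 := F6_sum_lt v na t hti (s.erase i) hlt
  have h2 : t i = -∑ j ∈ s.erase i, t j := by
    rw [← Finset.add_sum_erase s t hi] at h0
    exact eq_neg_of_add_eq_zero_left h0
  rw [← v.map_neg, ← h2] at h1
  exact lt_irrefl _ h1

private theorem F6_base (p r : ℕ) [Fact p.Prime] (G : Type) [Field G] [Algebra (PF p r) G]
    (B : Base p r G) (b : PF p r) (hb : b ≠ 0) :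
    ∃ z : ℤ, B.v (algebraMap (PF p r) G b) = 2 ^ z := by
  obtain ⟨a, c, hc, rfl⟩ := IsFractionRing.div_surjective (A := PR p r) b
  have hc0 : c ≠ 0 := nonZeroDivisors.ne_zero hc
  have ha0 : a ≠ 0 := by
    rintro rfl
    simp at hb
  refine ⟨(a.totalDegree : ℤ) - (c.totalDegree : ℤ), ?_⟩
  rw [map_div₀, map_div₀, B.deg a ha0, B.deg c hc0, zpow_sub₀ (by norm_num), zpow_natCast,
    zpow_natCast]

private theorem F6_lt (p r : ℕ) [Fact p.Prime] (G : Type) [Field G] [Algebra (PF p r) G]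
    (B : Base p r G) (u : G) (hu : u ≠ 0) (ci cj : PF p r) (i j : ℕ)
    (hi : ci ≠ 0) (hj : cj ≠ 0) (hij : i < j)
    (he : B.v (algebraMap (PF p r) G ci * u ^ i) = B.v (algebraMap (PF p r) G cj * u ^ j)) :
    ∃ z : ℤ, B.v u ^ (j - i) = 2 ^ z := by
  obtain ⟨z1, h1⟩ := F6_base p r G B ci hi
  obtain ⟨z2, h2⟩ := F6_base p r G B cj hj
  have hv : 0 < B.v u := B.v.pos hu
  rw [map_mul, map_mul, map_pow, map_pow, h1, h2] at he
  refine ⟨z1 - z2, ?_⟩
  rw [zpow_sub₀ (by norm_num : (2 : ℝ) ≠ 0), eq_div_iff (by positivity)]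
  have h3 : B.v u ^ j = B.v u ^ (j - i) * B.v u ^ i := by
    rw [← pow_add]; congr 1; omega
  rw [h3] at he
  have h4 : B.v u ^ i ≠ 0 := by positivity
  apply mul_right_cancel₀ h4
  rw [he]; ring

theorem thm_F6 : St_F6 := by
  intro p r _ G _ _ B
  have := B.fd
  set n := Module.finrank (PF p r) G with hn
  have hf : (n.factorial : ℝ) ≠ 0 := by exact_mod_cast n.factorial_ne_zero
  have hρ0 : (0 : ℝ) ≤ 2 := by norm_num
  set ρ : ℝ := (2 : ℝ) ^ ((n.factorial : ℝ)⁻¹) with hρ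
  have hρpow : ρ ^ n.factorial = 2 := by
    rw [hρ]; exact Real.rpow_inv_natCast_pow hρ0 n.factorial_ne_zero
  have hρ1 : 1 < ρ := by
    rw [hρ]
    exact Real.one_lt_rpow (by norm_num) (by positivity)
  refine ⟨ρ, hρ1, ?_⟩
  have key : ∀ u : G, u ≠ 0 → ∃ z : ℤ, B.v u = ρ ^ z := by
    intro u hu
    have hint : IsIntegral (PF p r) u := Algebra.IsIntegral.isIntegral u
    have hm : minpoly (PF p r) u ≠ 0 := minpoly.ne_zero hint
    have hdeg : (minpoly (PF p r) u).natDegree ≤ n := minpoly.natDegree_le u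
    have h0 : ∑ i ∈ Finset.range ((minpoly (PF p r) u).natDegree + 1),
        algebraMap (PF p r) G ((minpoly (PF p r) u).coeff i) * u ^ i = 0 := by
      have h := minpoly.aeval (PF p r) u
      rw [Polynomial.aeval_eq_sum_range] at h
      simpa [Algebra.smul_def] using h
    have htop : algebraMap (PF p r) G ((minpoly (PF p r) u).coeff
        (minpoly (PF p r) u).natDegree) * u ^ (minpoly (PF p r) u).natDegree ≠ 0 := by
      refine mul_ne_zero ?_ (pow_ne_zero _ hu)
      rw [Ne, map_eq_zero]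
      exact Polynomial.leadingCoeff_ne_zero.mpr hm
    obtain ⟨i, hi, j, hj, hij, hti, htj, he⟩ := F6_two_max B.v B.na _ _ h0
      (Finset.mem_range.mpr (Nat.lt_succ_self _)) htop
    have hci : (minpoly (PF p r) u).coeff i ≠ 0 := by
      intro h; rw [h, map_zero, zero_mul] at hti; exact hti rfl
    have hcj : (minpoly (PF p r) u).coeff j ≠ 0 := by
      intro h; rw [h, map_zero, zero_mul] at htj; exact htj rfl
    rw [Finset.mem_range] at hi hj
    have hex : ∃ (k : ℕ) (z : ℤ), 0 < k ∧ k ≤ n ∧ B.v u ^ k = 2 ^ z := by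
      rcases lt_or_gt_of_ne hij with hlt | hlt
      · obtain ⟨z, hz⟩ := F6_lt p r G B u hu _ _ i j hci hcj hlt he
        exact ⟨j - i, z, by omega, by omega, hz⟩
      · obtain ⟨z, hz⟩ := F6_lt p r G B u hu _ _ j i hcj hci hlt he.symm
        exact ⟨i - j, z, by omega, by omega, hz⟩
    obtain ⟨k, z, hk0, hkn, hz⟩ := hex
    obtain ⟨q, hq⟩ := Nat.dvd_factorial hk0 hkn
    refine ⟨z * q, ?_⟩
    have hv : 0 ≤ B.v u := B.v.nonneg u
    have hρp : 0 < ρ := by linarith
    have hr : 0 ≤ ρ ^ (z * (q : ℤ)) := by positivity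
    apply (pow_left_inj₀ hv hr n.factorial_ne_zero).mp
    rw [hq, pow_mul, hz, ← hq, ← zpow_natCast (ρ ^ (z * (q : ℤ))), ← zpow_mul, mul_comm (z * (q : ℤ)),
      zpow_mul, zpow_natCast, hρpow, zpow_mul, zpow_natCast]
  intro τ u hu
  exact key (τ u) (by simpa using hu)

end Pool.Agent.Helper79.DN
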