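import Pool.Agent.Helper79.DN.StF

/-!
# Block F, module F7: product formula
-/

set_option autoImplicit false

namespace Pool.Agent.Helper79.DN

open Polynomial

theorem thm_F7 : St_F7 := by
  intro p r _ G _ _ B instF u hu hu0
  have := B.fd
  have := B.gal
  obtain rfl : instF = AlgEquiv.fintype (PF p r) G := Subsingleton.elim _ _
  let : Algebra (PR p r) G := (inc p r G).toAlgebra
  have : IsScalarTower (PR p r) (PF p r) G := IsScalarTower.of_algebraMap_eq (fun x => rfl)
  have hint : IsIntegral (PR p r) u := hu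
  have hN : IsIntegral (PR p r) (Algebra.norm (PF p r) u) := Algebra.isIntegral_norm _ hint
  obtain ⟨b, hb⟩ := IsIntegrallyClosed.isIntegral_iff.1 hN
  have hN0 : Algebra.norm (PF p r) u ≠ 0 := Algebra.norm_ne_zero_iff.2 hu0
  have hb0 : b ≠ 0 := by
    intro h
    apply hN0
    rw [← hb, h, map_zero]
  have h1 : ∏ τ : G ≃ₐ[PF p r] G, B.v (τ u) = B.v (∏ τ : G ≃ₐ[PF p r] G, τ u) :=
    (map_prod B.v _ _).symm
  have h2 : algebraMap (PF p r) G (Algebra.norm (PF p r) u) = ∏ τ : G ≃ₐ[PF p r] G, τ u :=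
    Algebra.norm_eq_prod_automorphisms (PF p r) u
  rw [h1, ← h2, ← hb, B.deg b hb0]
  exact one_le_pow₀ (by norm_num)

end Pool.Agent.Helper79.DN
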