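import Pool.Agent.Helper79.DN.StF

/-!
# Block F, module F8: Northcott
-/

set_option autoImplicit false

namespace Pool.Agent.Helper79.DN

theorem thm_F8 (h3 : St_F3) : St_F8 := by
  classical
  intro p r hp G _ _ B M
  obtain ⟨n, θ, d, C, hd, hθ, hmain⟩ := h3 p r G B
  have hinj1 : Function.Injective (algebraMap (PR p r) (PF p r)) :=
    IsFractionRing.injective (PR p r) (PF p r)
  have hinj : Function.Injective (inc p r G) := by
    have h2 : Function.Injective (algebraMap (PF p r) G) := (algebraMap (PF p r) G).injective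
    exact h2.comp hinj1
  have hdne : inc p r G d ≠ 0 := by
    intro h
    exact hd (hinj (by rw [h, map_zero]))
  obtain ⟨N, hN⟩ := pow_unbounded_of_one_lt (C * M) (by norm_num : (1 : ℝ) < 2)
  have hfin : Set.Finite {a : PR p r | a.totalDegree ≤ N} :=
    Pool.Agent.Helper79.DM.finite_totalDegree_le p r N
  have hfin2 : Set.Finite {a : Fin n → PR p r | ∀ j, (a j).totalDegree ≤ N} := by
    have := Set.Finite.pi' (fun _ : Fin n => hfin)
    exact this
  refine Set.Finite.subset
    (hfin2.image (fun a => (inc p r G d)⁻¹ * ∑ j, inc p r G (a j) * θ j)) ?_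
  rintro u ⟨hu, hτ⟩
  obtain ⟨a, ha, hab⟩ := hmain u hu
  refine ⟨a, ?_, ?_⟩
  · intro j
    by_contra hlt
    push Not at hlt
    have hane : a j ≠ 0 := by
      intro h
      rw [h, MvPolynomial.totalDegree_zero] at hlt
      omega
    have h1 := hab M hτ j
    have h2 : B.v (inc p r G (a j)) = 2 ^ (a j).totalDegree := B.deg (a j) hane
    rw [h2] at h1
    have h3 : (2 : ℝ) ^ N ≤ 2 ^ (a j).totalDegree := pow_le_pow_right₀ (by norm_num) hlt.le
    linarith
  · simp only
    rw [← ha]
    field_simp

end Pool.Agent.Helper79.DN
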