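import Pool.Agent.Helper79.DN.StF

/-!
# Module F9: existence of a base containing a Frobenius twist of a finitely generated domain
-/

set_option autoImplicit false

namespace Pool.Agent.Helper79.DN

open Polynomial nonZeroDivisors

private theorem f9_abs (p r : ℕ) [Fact p.Prime] (G : Type) [Field G] [Algebra (PF p r) G]
    [Algebra.IsAlgebraic (PF p r) G] :
    ∃ v : AbsoluteValue G ℝ, (∀ x y, v (x + y) ≤ max (v x) (v y)) ∧
      ∀ b : PR p r, b ≠ 0 →
        v (algebraMap (PF p r) G (algebraMap (PR p r) (PF p r) b)) = 2 ^ b.totalDegree := by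
  obtain ⟨L, h1, h2, h3, h4, h5, φ, hφ⟩ := Pool.Agent.Helper79.DM.exists_degField p r
  have hφ0 : Function.Injective φ := by
    rw [injective_iff_map_eq_zero]
    intro f hf
    by_contra h
    have h6 := hφ f h
    rw [hf, norm_zero] at h6
    exact pow_ne_zero _ two_ne_zero h6.symm
  let Φ : PF p r →+* L := IsFractionRing.lift (A := PR p r) hφ0
  have hΦ : ∀ b, Φ (algebraMap (PR p r) (PF p r) b) = φ b :=
    fun b => IsFractionRing.lift_algebraMap hφ0 b
  let aL : Algebra (PF p r) L := Φ.toAlgebra
  let σ : G →ₐ[PF p r] L := IsAlgClosed.lift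
  refine ⟨{ toFun := fun x => ‖σ x‖
            map_mul' := fun x y => by rw [map_mul, norm_mul]
            nonneg' := fun x => norm_nonneg _
            eq_zero' := fun x => by rw [norm_eq_zero, map_eq_zero_iff σ σ.injective]
            add_le' := fun x y => by rw [map_add]; exact norm_add_le _ _ }, ?_, ?_⟩
  · intro x y
    change ‖σ (x + y)‖ ≤ max ‖σ x‖ ‖σ y‖
    rw [map_add]
    exact IsUltrametricDist.norm_add_le_max _ _
  · intro b hb
    change ‖σ (algebraMap (PF p r) G (algebraMap (PR p r) (PF p r) b))‖ = _
    rw [σ.commutes]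
    change ‖Φ (algebraMap (PR p r) (PF p r) b)‖ = _
    rw [hΦ, hφ b hb]

private theorem f9_loc (P A : Type) [CommRing P] [IsDomain P] [CommRing A] [IsDomain A]
    [Algebra P A] [Module.Finite P A] [FaithfulSMul P A] :
    IsLocalization (Algebra.algebraMapSubmonoid A P⁰) (FractionRing A) := by
  have hinj : Function.Injective (algebraMap P A) :=
    (faithfulSMul_iff_algebraMap_injective P A).1 inferInstance
  rw [isLocalization_iff]
  refine ⟨?_, ?_, ?_⟩
  · rintro ⟨y, x, hx, rfl⟩
    have h1 : algebraMap P A x ≠ 0 := by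
      rw [Ne, map_eq_zero_iff _ hinj]
      exact nonZeroDivisors.ne_zero hx
    have h2 : algebraMap A (FractionRing A) (algebraMap P A x) ≠ 0 := by
      rwa [Ne, map_eq_zero_iff _ (IsFractionRing.injective A (FractionRing A))]
    exact h2.isUnit
  · intro z
    obtain ⟨a, b, hb, rfl⟩ := IsFractionRing.div_surjective (A := A) z
    have hb0 : b ≠ 0 := nonZeroDivisors.ne_zero hb
    have h1 : IsIntegral P b := Algebra.IsIntegral.isIntegral b
    obtain ⟨t, ht, c, hc⟩ := h1.isAlgebraic.exists_nonzero_dvd hb
    refine ⟨⟨a * c, ⟨algebraMap P A t, t, mem_nonZeroDivisors_of_ne_zero ht, rfl⟩⟩, ?_⟩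
    have h2 : algebraMap A (FractionRing A) b ≠ 0 := by
      rwa [Ne, map_eq_zero_iff _ (IsFractionRing.injective A (FractionRing A))]
    change algebraMap A (FractionRing A) a / algebraMap A (FractionRing A) b *
      algebraMap A (FractionRing A) (algebraMap P A t) = algebraMap A (FractionRing A) (a * c)
    rw [hc, map_mul, map_mul]
    field_simp
  · intro x y hxy
    exact ⟨1, by rw [IsFractionRing.injective A (FractionRing A) hxy]⟩

private theorem f9_field (p r : ℕ) [Fact p.Prime] (A : Type) [CommRing A] [IsDomain A]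
    (g : PR p r →+* A) (hg : Function.Injective g) (hgf : g.Finite) :
    ∃ (G : Type) (_ : Field G) (_ : Algebra (PF p r) G) (_ : FiniteDimensional (PF p r) G)
      (_ : IsGalois (PF p r) G) (ψ : A →+* G),
      Function.Injective ψ ∧ ∀ u, Int' p r (ψ u) := by
  let aA : Algebra (PR p r) A := g.toAlgebra
  have f1 : Module.Finite (PR p r) A := hgf
  have f2 : FaithfulSMul (PR p r) A := (faithfulSMul_iff_algebraMap_injective _ _).2 hg
  have f3 : IsLocalization (Algebra.algebraMapSubmonoid A (PR p r)⁰) (FractionRing A) :=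
    f9_loc (PR p r) A
  have hgE : Function.Injective (algebraMap (PR p r) (FractionRing A)) := by
    rw [IsScalarTower.algebraMap_eq (PR p r) A (FractionRing A)]
    exact (IsFractionRing.injective A (FractionRing A)).comp hg
  have f4 : FaithfulSMul (PR p r) (FractionRing A) :=
    (faithfulSMul_iff_algebraMap_injective _ _).2 hgE
  let aE : Algebra (PF p r) (FractionRing A) := FractionRing.liftAlgebra (PR p r) (FractionRing A)
  have f5 : IsScalarTower (PR p r) (PF p r) (FractionRing A) :=
    FractionRing.isScalarTower_liftAlgebra (PR p r) (FractionRing A)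
  have f6 : FiniteDimensional (PF p r) (FractionRing A) :=
    Module.Finite.of_isLocalization (PR p r) A (PR p r)⁰
  have f7 : CharP (PF p r) p := charP_of_injective_algebraMap
    (IsFractionRing.injective (PR p r) (PF p r)) p
  let S := separableClosure (PF p r) (FractionRing A)
  have f8 : CharP S p := charP_of_injective_algebraMap (algebraMap (PF p r) S).injective p
  have f9 : ExpChar S p := ExpChar.prime Fact.out
  have f10 : IsPurelyInseparable S (FractionRing A) :=
    separableClosure.isPurelyInseparable (PF p r) (FractionRing A)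
  have f11 : FiniteDimensional S (FractionRing A) := inferInstance
  let e := IsPurelyInseparable.exponent S (FractionRing A)
  let fr : FractionRing A →+* S :=
    IsPurelyInseparable.iterateFrobenius S (FractionRing A) p (n := e) le_rfl
  have hfr : ∀ x, algebraMap S (FractionRing A) (fr x) = x ^ p ^ e := fun x =>
    IsPurelyInseparable.algebraMap_iterateFrobenius S p (n := e) le_rfl x
  let L := SeparableClosure (PF p r)
  let f : S →ₐ[PF p r] L := IsSepClosed.lift
  let G := IntermediateField.normalClosure (PF p r) S L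
  let f' : S →ₐ[PF p r] G :=
    f.codRestrict G.toSubalgebra fun x => f.fieldRange_le_normalClosure ⟨x, rfl⟩
  have g1 : FiniteDimensional (PF p r) S := inferInstance
  have g2 : FiniteDimensional (PF p r) G := normalClosure.is_finiteDimensional (PF p r) S L
  have g3 : Normal (PF p r) G := normalClosure.normal (PF p r) S L
  have g4 : Algebra.IsSeparable (PF p r) G :=
    Algebra.isSeparable_tower_bot_of_isSeparable (PF p r) G L
  have g5 : IsGalois (PF p r) G := ⟨⟩
  refine ⟨G, inferInstance, inferInstance, g2, g5,
    (f' : S →+* G).comp (fr.comp (algebraMap A (FractionRing A))), ?_, ?_⟩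
  · exact (f' : S →+* G).injective.comp
      (fr.injective.comp (IsFractionRing.injective A (FractionRing A)))
  · intro u
    have h1 : IsIntegral (PR p r) (u ^ p ^ e) := (Algebra.IsIntegral.isIntegral u).pow _
    obtain ⟨m, hm, hm0⟩ := h1
    refine ⟨m, hm, ?_⟩
    have h2 : Polynomial.eval₂ (algebraMap (PR p r) (FractionRing A))
        ((algebraMap A (FractionRing A) u) ^ p ^ e) m = 0 := by
      rw [IsScalarTower.algebraMap_eq (PR p r) A (FractionRing A), ← map_pow,
        ← Polynomial.hom_eval₂, hm0, map_zero]
    have h3 : Polynomial.eval₂ ((algebraMap (PF p r) S).comp (algebraMap (PR p r) (PF p r)))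
        (fr (algebraMap A (FractionRing A) u)) m = 0 := by
      apply (algebraMap S (FractionRing A)).injective
      rw [Polynomial.hom_eval₂, map_zero, hfr, ← RingHom.comp_assoc,
        ← IsScalarTower.algebraMap_eq (PF p r) S (FractionRing A),
        ← IsScalarTower.algebraMap_eq (PR p r) (PF p r) (FractionRing A), h2]
    have h4 : inc p r G = (f' : S →+* G).comp
        ((algebraMap (PF p r) S).comp (algebraMap (PR p r) (PF p r))) := by
      rw [← RingHom.comp_assoc]
      unfold inc
      congr 1
      exact RingHom.ext fun x => (f'.commutes x).symm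
    rw [h4]
    change Polynomial.eval₂ _ ((f' : S →+* G) (fr (algebraMap A (FractionRing A) u))) m = 0
    rw [← Polynomial.hom_eval₂, h3, map_zero]

theorem thm_F9 : St_F9 := by
  intro p _ R _ _ _ _
  have k1 : Algebra.FiniteType (ZMod p) R[X] :=
    Algebra.FiniteType.trans (S := R) inferInstance inferInstance
  obtain ⟨r, g, hg, hgf⟩ := exists_finite_inj_algHom_of_fg (ZMod p) R[X]
  have hr : 0 < r := by
    rcases Nat.eq_zero_or_pos r with rfl | h
    · exfalso
      have h1 : Finite (MvPolynomial (Fin 0) (ZMod p)) :=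
        Finite.of_equiv _ (MvPolynomial.isEmptyAlgEquiv (ZMod p) (Fin 0)).symm.toEquiv
      let aR : Algebra (MvPolynomial (Fin 0) (ZMod p)) R[X] := g.toRingHom.toAlgebra
      have h2 : Module.Finite (MvPolynomial (Fin 0) (ZMod p)) R[X] := hgf
      have h3 : Finite R[X] := Module.finite_of_finite (MvPolynomial (Fin 0) (ZMod p))
      exact not_finite R[X]
    · exact h
  obtain ⟨G, i1, i2, i3, i4, ψ, h1, h2⟩ := f9_field p r R[X] g.toRingHom hg hgf
  obtain ⟨v, hv1, hv2⟩ := f9_abs p r G
  exact ⟨r, hr, G, i1, i2, ⟨i3, i4, v, hv1, hv2⟩, ψ.comp Polynomial.C,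
    h1.comp Polynomial.C_injective, fun u => h2 _⟩

end Pool.Agent.Helper79.DN
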