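import Pool.Agent.Helper79.DN.StC

/-!
# Exponential sums with a common unit (helper95)
-/

set_option autoImplicit false
set_option linter.unusedSectionVars false

namespace Pool.Agent.Helper79.DN

open Polynomial Pool.Agent.Helper79.DM Filter Topology

section

variable {L : Type*} [NormedField L]

/-- the coefficient of the largest term of a vanishing sum is small -/
private theorem P1_dom {ι : Type*} [Fintype ι] (T : ι → L) (hT : ∀ i, T i ≠ 0)
    (hinj : ∀ i j, ‖T i‖ = ‖T j‖ → i = j) (d : ℕ) (hd : 2 ≤ d) (I : Finset ι) (i₀ : ι)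
    (hmax : ∀ i ∈ I, ‖T i‖ ≤ ‖T i₀‖) (B : ι → ℝ) (ε : ℝ) (hε : 0 < ε) :
    ∃ n₀, ∀ n, n₀ ≤ n → ∀ c : ι → L, (∀ i, i ∉ I → i ≠ i₀ → c i = 0) → (∀ i, ‖c i‖ ≤ B i) →
      ∑ i, T i ^ d ^ n * c i = 0 → ‖c i₀‖ < ε := by
  classical
  have hT0 : 0 < ‖T i₀‖ := norm_pos_iff.2 (hT i₀)
  have hlim : Tendsto (fun n : ℕ => ∑ i ∈ I.erase i₀, (‖T i‖ / ‖T i₀‖) ^ d ^ n * B i) atTop (𝓝 0) := by
    have h1 : ∀ i ∈ I.erase i₀, Tendsto (fun n : ℕ => (‖T i‖ / ‖T i₀‖) ^ d ^ n * B i) atTop (𝓝 0) := by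
      intro i hi
      have hi2 := Finset.mem_erase.1 hi
      have h2 : ‖T i‖ / ‖T i₀‖ < 1 := by
        rw [div_lt_one hT0]
        exact lt_of_le_of_ne (hmax i hi2.2) fun h => hi2.1 (hinj _ _ h)
      have h3 := (tendsto_pow_atTop_nhds_zero_of_lt_one (by positivity) h2).comp
        (tendsto_pow_atTop_atTop_of_one_lt (r := d) (by omega))
      have h4 := h3.mul_const (B i)
      rw [zero_mul] at h4
      exact h4
    have h5 := tendsto_finsetSum (I.erase i₀) h1
    simpa using h5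
  obtain ⟨n₀, hn₀⟩ := eventually_atTop.1 (hlim.eventually (gt_mem_nhds hε))
  refine ⟨n₀, fun n hn c hc hB hsum => ?_⟩
  refine lt_of_le_of_lt ?_ (hn₀ n hn)
  have h1 : T i₀ ^ d ^ n * c i₀ = -∑ i ∈ Finset.univ.erase i₀, T i ^ d ^ n * c i := by
    rw [← Finset.add_sum_erase _ _ (Finset.mem_univ i₀)] at hsum
    exact eq_neg_of_add_eq_zero_left hsum
  have h2 : ∑ i ∈ Finset.univ.erase i₀, T i ^ d ^ n * c i = ∑ i ∈ I.erase i₀, T i ^ d ^ n * c i := by
    symm
    refine Finset.sum_subset (Finset.erase_subset_erase _ (Finset.subset_univ _)) fun i hi hi' => ?_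
    have hi2 := Finset.mem_erase.1 hi
    rw [hc i (fun h => hi' (Finset.mem_erase.2 ⟨hi2.1, h⟩)) hi2.1, mul_zero]
  have h3 : ‖T i₀‖ ^ d ^ n * ‖c i₀‖ ≤ ∑ i ∈ I.erase i₀, ‖T i‖ ^ d ^ n * B i := by
    rw [← norm_pow, ← norm_mul, h1, h2, norm_neg]
    refine (norm_sum_le _ _).trans (Finset.sum_le_sum fun i _ => ?_)
    rw [norm_mul, norm_pow]
    exact mul_le_mul_of_nonneg_left (hB i) (by positivity)
  have h4 : 0 < ‖T i₀‖ ^ d ^ n := by positivity
  have h5 : ‖c i₀‖ ≤ (∑ i ∈ I.erase i₀, ‖T i‖ ^ d ^ n * B i) / ‖T i₀‖ ^ d ^ n := by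
    rw [le_div_iff₀ h4]
    linarith
  refine h5.trans (le_of_eq ?_)
  rw [Finset.sum_div]
  refine Finset.sum_congr rfl fun i _ => ?_
  rw [div_pow]
  ring

/-- bound of a polynomial on the unit sphere -/
private theorem P1_bd (q : L[X]) (z : L) (hz : ‖z‖ = 1) :
    ‖q.eval z‖ ≤ ∑ j ∈ Finset.range (q.natDegree + 1), ‖q.coeff j‖ := by
  rw [eval_eq_sum_range]
  refine (norm_sum_le _ _).trans (Finset.sum_le_sum fun j _ => ?_)
  rw [norm_mul, norm_pow, hz, one_pow, mul_one]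

end

theorem thm_P1 : St_P1 := by
  intro p _ L _ _ _ _ d hd hpd ι _ T hT hinj H u hu
  classical
  have hp : p.Prime := Fact.out
  set R : Set ℕ := {n | ∑ i, T i ^ d ^ n * (H i).eval (u ^ d ^ n) = 0} with hR
  set w : ℕ → L := fun n => u ^ d ^ n with hw
  have hw1 : ∀ n, ‖w n‖ = 1 := fun n => by
    rw [hw]
    simp [hu]
  by_cases hroot : ∃ N, 0 < N ∧ u ^ N = 1
  · -- root of unity
    obtain ⟨N, hN, huN⟩ := hroot
    obtain ⟨n₁, P, hP, hper⟩ := iterate_pow_root u d N hN huN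
    have hwfin : (Set.range w).Finite := by
      have : Set.range w ⊆ (Finset.range (n₁ + P)).image w := by
        rintro _ ⟨n, rfl⟩
        induction n using Nat.strong_induction_on with
        | _ n ih =>
          by_cases hn : n < n₁ + P
          · exact Finset.mem_coe.2 (Finset.mem_image_of_mem _ (Finset.mem_range.2 hn))
          · have h1 := hper (n - P) (by omega)
            have h2 : n - P + P = n := by omega
            rw [h2] at h1
            have h3 : w n = w (n - P) := h1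
            rw [h3]
            exact ih (n - P) (by omega)
      exact (Finset.finite_toSet _).subset this
    have hz : ∀ z : L, ∃ n₂, ∀ n, n₂ ≤ n →
        (∑ i, T i ^ d ^ n * (H i).eval z = 0 ↔ ∀ i, (H i).eval z = 0) := by
      intro z
      by_cases hall : ∀ i, (H i).eval z = 0
      · exact ⟨0, fun n _ => ⟨fun _ => hall, fun _ => Finset.sum_eq_zero fun i _ => by rw [hall i, mul_zero]⟩⟩
      · push Not at hall
        obtain ⟨i₁, hi₁⟩ := hall
        obtain ⟨i₀, hi₀, hmax⟩ := (Finset.univ.filter fun i => (H i).eval z ≠ 0).exists_max_image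
          (fun i => ‖T i‖) ⟨i₁, Finset.mem_filter.2 ⟨Finset.mem_univ _, hi₁⟩⟩
        have hi₀' := (Finset.mem_filter.1 hi₀).2
        obtain ⟨n₂, hn₂⟩ := P1_dom T hT hinj d hd (Finset.univ.filter fun i => (H i).eval z ≠ 0) i₀ hmax
          (fun i => ‖(H i).eval z‖) ‖(H i₀).eval z‖ (norm_pos_iff.2 hi₀')
        refine ⟨n₂, fun n hn => ⟨fun h => ?_, fun h => absurd (h i₀) hi₀'⟩⟩
        exact absurd (hn₂ n hn (fun i => (H i).eval z) (fun i hi _ => by
          by_contra hne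
          exact hi (Finset.mem_filter.2 ⟨Finset.mem_univ _, hne⟩)) (fun _ => le_rfl) h) (lt_irrefl _)
    choose n₂ hn₂ using hz
    obtain ⟨n₃, hn₃⟩ := (hwfin.image n₂).bddAbove
    refine ⟨max n₁ n₃, P, hP, fun n hn => ?_⟩
    have hn1 : n₁ ≤ n := (le_max_left _ _).trans hn
    have hn2 : n₃ ≤ n := (le_max_right _ _).trans hn
    have hwn : w (n + P) = w n := hper n hn1
    have hle : n₂ (w n) ≤ n₃ := hn₃ ⟨w n, ⟨n, rfl⟩, rfl⟩
    have e1 : n ∈ R ↔ ∀ i, (H i).eval (w n) = 0 := hn₂ (w n) n (hle.trans hn2)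
    have e2 : n + P ∈ R ↔ ∀ i, (H i).eval (w n) = 0 := by
      have h1 : n + P ∈ R ↔ ∑ i, T i ^ d ^ (n + P) * (H i).eval (w (n + P)) = 0 := Iff.rfl
      rw [h1, hwn]
      exact hn₂ (w n) (n + P) (by omega)
    rw [e1, e2]
  · have hnr : ∀ N : ℕ, 0 < N → u ^ N ≠ 1 := fun N hN h1 => hroot ⟨N, hN, h1⟩
    by_cases hH : ∀ i, H i = 0
    · refine ⟨0, 1, one_pos, fun n _ => ?_⟩
      have h1 : ∀ n, n ∈ R := fun n => by
        show ∑ i, T i ^ d ^ n * (H i).eval (u ^ d ^ n) = 0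
        exact Finset.sum_eq_zero fun i _ => by rw [hH i, eval_zero, mul_zero]
      exact ⟨fun _ => h1 _, fun _ => h1 _⟩
    push Not at hH
    obtain ⟨i₁, hi₁⟩ := hH
    by_cases hfin : R.Finite
    · exact EP.of_finite hfin
    have hinf : R.Infinite := hfin
    exfalso
    obtain ⟨i₀, hi₀, hmax⟩ := (Finset.univ.filter fun i => H i ≠ 0).exists_max_image
      (fun i => ‖T i‖) ⟨i₁, Finset.mem_filter.2 ⟨Finset.mem_univ _, hi₁⟩⟩
    have hi₀' := (Finset.mem_filter.1 hi₀).2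
    obtain ⟨r, S', hS'R, hS'inf, hlim⟩ := root_limit (H i₀) hi₀' R hinf w (by
      intro ε hε
      obtain ⟨n₀, hn₀⟩ := P1_dom T hT hinj d hd (Finset.univ.filter fun i => H i ≠ 0) i₀ hmax
        (fun i => ∑ j ∈ Finset.range ((H i).natDegree + 1), ‖(H i).coeff j‖) ε hε
      refine ⟨n₀, fun n hn hnn => ?_⟩
      exact hn₀ n hnn (fun i => (H i).eval (w n)) (fun i hi _ => by
        have h1 : H i = 0 := by
          by_contra hne
          exact hi (Finset.mem_filter.2 ⟨Finset.mem_univ _, hne⟩)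
        show (H i).eval (w n) = 0
        rw [h1, eval_zero]) (fun i => P1_bd (H i) (w n) (hw1 n)) hn)
    obtain ⟨e, rr, n₃, he0, he1, hdist⟩ := power_dist p d hd u r hu hnr S' hS'inf hlim
    set N := ∑ i, (H i).natDegree with hN
    have hNi : ∀ i, (H i).natDegree ≤ N := fun i =>
      Finset.single_le_sum (f := fun i => (H i).natDegree) (fun _ _ => Nat.zero_le _) (Finset.mem_univ i)
    set Hc : ι → ℕ → L := fun i j => (taylor r (H i)).coeff j with hHc
    have htay : ∀ i n, (H i).eval (w n) = ∑ j ∈ Finset.range (N + 1), Hc i j * (w n - r) ^ j := by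
      intro i n
      have h1 : (taylor r (H i)).eval (w n - r) = (H i).eval (w n) := by
        rw [taylor_eval, sub_add_cancel]
      rw [← h1]
      exact eval_eq_sum_range' (by
        rw [natDegree_taylor]
        have := hNi i
        omega) _
    have hstep : ∀ n ∈ {n | n ∈ S' ∧ n₃ ≤ n},
        ∃ q ∈ ((Finset.univ : Finset ι) ×ˢ Finset.range (N + 1)) ×ˢ
            ((Finset.univ : Finset ι) ×ˢ Finset.range (N + 1)),
        q.1 ≠ q.2 ∧ q.1.2 ≤ q.2.2 ∧ 0 < ‖Hc q.1.1 q.1.2‖ ∧ 0 < ‖Hc q.2.1 q.2.2‖ ∧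
        ‖T q.1.1‖ ^ d ^ n * ‖Hc q.1.1 q.1.2‖ * ‖w n - r‖ ^ q.1.2 =
          ‖T q.2.1‖ ^ d ^ n * ‖Hc q.2.1 q.2.2‖ * ‖w n - r‖ ^ q.2.2 := by
      rintro n ⟨hn, hnn⟩
      have hδ0 : w n - r ≠ 0 := by
        rw [← norm_pos_iff]
        have h1 : ‖w n - r‖ = e ^ p ^ rr n := hdist n hn hnn
        rw [h1]
        positivity
      have hsum : ∑ q ∈ (Finset.univ : Finset ι) ×ˢ Finset.range (N + 1),
          T q.1 ^ d ^ n * Hc q.1 q.2 * (w n - r) ^ q.2 = 0 := by
        rw [Finset.sum_product]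
        have h1 : n ∈ R := hS'R hn
        have h2 : ∑ i, T i ^ d ^ n * (H i).eval (w n) = 0 := h1
        rw [← h2]
        refine Finset.sum_congr rfl fun i _ => ?_
        rw [htay, Finset.mul_sum]
        exact Finset.sum_congr rfl fun j _ => by ring
      have htop : T i₀ ^ d ^ n * Hc i₀ (H i₀).natDegree * (w n - r) ^ (H i₀).natDegree ≠ 0 := by
        refine mul_ne_zero (mul_ne_zero (pow_ne_zero _ (hT i₀)) ?_) (pow_ne_zero _ hδ0)
        have h1 : Hc i₀ (H i₀).natDegree = (taylor r (H i₀)).leadingCoeff := by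
          rw [leadingCoeff, natDegree_taylor]
        rw [h1, leadingCoeff_ne_zero]
        intro h2
        exact hi₀' ((taylor_injective r) (by rw [h2, map_zero]))
      obtain ⟨q, hq, q', hq', hqq, hne1, hne2, heq⟩ := two_max _ _ hsum (i₀ := (i₀, (H i₀).natDegree))
        (Finset.mem_product.2 ⟨Finset.mem_univ _, Finset.mem_range.2 (by
          have := hNi i₀
          omega)⟩) htop
      have hval : ∀ q : ι × ℕ, T q.1 ^ d ^ n * Hc q.1 q.2 * (w n - r) ^ q.2 ≠ 0 → 0 < ‖Hc q.1 q.2‖ := by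
        intro q h1
        rw [norm_pos_iff]
        intro h2
        apply h1
        rw [h2]
        ring
      rw [norm_mul, norm_mul, norm_pow, norm_pow, norm_mul, norm_mul, norm_pow, norm_pow] at heq
      rcases le_total q.2 q'.2 with h1 | h1
      · exact ⟨(q, q'), Finset.mem_product.2 ⟨hq, hq'⟩, hqq, h1, hval _ hne1, hval _ hne2, heq⟩
      · exact ⟨(q', q), Finset.mem_product.2 ⟨hq', hq⟩, hqq.symm, h1, hval _ hne2, hval _ hne1, heq.symm⟩
    have hS₂ : {n | n ∈ S' ∧ n₃ ≤ n}.Infinite := by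
      intro hf
      apply hS'inf
      refine (hf.union (Set.finite_lt_nat n₃)).subset fun n hn => ?_
      rcases lt_or_ge n n₃ with h1 | h1
      · exact Or.inr h1
      · exact Or.inl ⟨hn, h1⟩
    obtain ⟨⟨⟨i, j⟩, ⟨i', j'⟩⟩, -, hinf2⟩ := pigeon _ _ hS₂ _ hstep
    simp only at hinf2
    set S₃ := {n | n ∈ {n | n ∈ S' ∧ n₃ ≤ n} ∧ (i, j) ≠ (i', j') ∧ j ≤ j' ∧ 0 < ‖Hc i j‖ ∧
      0 < ‖Hc i' j'‖ ∧ ‖T i‖ ^ d ^ n * ‖Hc i j‖ * ‖w n - r‖ ^ j =
        ‖T i'‖ ^ d ^ n * ‖Hc i' j'‖ * ‖w n - r‖ ^ j'} with hS₃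
    obtain ⟨nn, hnn⟩ := hinf2.nonempty
    obtain ⟨-, hqq, hjj, hc1, hc2, -⟩ := hnn
    set lam := Real.log e with hlam
    have hlam0 : lam < 0 := Real.log_neg he0 he1
    set A := -(((j' : ℝ) - j) * lam) with hA
    set B := Real.log ‖T i'‖ - Real.log ‖T i‖ with hB
    set C := Real.log ‖Hc i' j'‖ - Real.log ‖Hc i j‖ with hC
    have hTi : 0 < ‖T i‖ := norm_pos_iff.2 (hT i)
    have hTi' : 0 < ‖T i'‖ := norm_pos_iff.2 (hT i')
    have heqn : ∀ n ∈ S₃, A * (p : ℝ) ^ rr n = B * (d : ℝ) ^ n + C := by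
      rintro n ⟨⟨hn, hnn⟩, -, -, -, -, heq⟩
      have hd1 : ‖w n - r‖ = e ^ p ^ rr n := hdist n hn hnn
      have hlogδ : Real.log ‖w n - r‖ = (p : ℝ) ^ rr n * lam := by
        rw [hd1, Real.log_pow]
        push_cast
        rfl
      have hδpos : 0 < ‖w n - r‖ := by
        rw [hd1]
        positivity
      have hL : ∀ (t h : ℝ) (k : ℕ), 0 < t → 0 < h → Real.log (t ^ d ^ n * h * ‖w n - r‖ ^ k) =
          (d : ℝ) ^ n * Real.log t + Real.log h + k * ((p : ℝ) ^ rr n * lam) := by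
        intro t h k ht hh
        rw [Real.log_mul (by positivity) (by positivity), Real.log_mul (by positivity) hh.ne',
          Real.log_pow, Real.log_pow, hlogδ]
        push_cast
        ring
      have h5 := congrArg Real.log heq
      rw [hL _ _ _ hTi hc1, hL _ _ _ hTi' hc2] at h5
      rw [hA, hB, hC]
      linear_combination h5
    rcases hjj.eq_or_lt with hj | hj
    · -- the same power of the small quantity
      have hii : i ≠ i' := fun h => hqq (by rw [h, hj])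
      have hA0 : A = 0 := by
        rw [hA, hj]
        ring
      have hB0 : B ≠ 0 := by
        rw [hB, sub_ne_zero]
        intro h
        exact hii (hinj _ _ (Real.log_injOn_pos (Set.mem_Ioi.2 hTi) (Set.mem_Ioi.2 hTi') h.symm))
      obtain ⟨n, hn⟩ := hinf2.nonempty
      obtain ⟨m, hm, hnm⟩ := hinf2.exists_gt n
      have e1 := heqn n hn
      have e2 := heqn m hm
      rw [hA0, zero_mul] at e1 e2
      have e3 : B * ((d : ℝ) ^ m - (d : ℝ) ^ n) = 0 := by linarith
      rcases mul_eq_zero.1 e3 with h | h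
      · exact hB0 h
      · have h1 : (d : ℝ) ^ n < (d : ℝ) ^ m :=
          pow_lt_pow_right₀ (by exact_mod_cast (by omega : 1 < d)) hnm
        linarith
    · have hjR : (0 : ℝ) < (j' : ℝ) - j := by
        have : (j : ℝ) < j' := by exact_mod_cast hj
        linarith
      have hA0 : 0 < A := by
        rw [hA]
        have := mul_neg_of_pos_of_neg hjR hlam0
        linarith
      have hB0 : 0 < B := by
        by_contra hcon
        push Not at hcon
        obtain ⟨N₀, hN₀⟩ := exists_nat_ge (C / A)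
        obtain ⟨n₇, hn₇⟩ := hlim (e ^ N₀) (by positivity)
        obtain ⟨n, hn, hnn⟩ := hinf2.exists_gt n₇
        have h6 := heqn n hn
        have h7 : A * (p : ℝ) ^ rr n ≤ C := by
          have : B * (d : ℝ) ^ n ≤ 0 := mul_nonpos_of_nonpos_of_nonneg hcon (by positivity)
          linarith
        have h8 : (p : ℝ) ^ rr n ≤ N₀ := by
          refine le_trans ?_ hN₀
          rw [le_div_iff₀ hA0]
          linarith
        have h9 : p ^ rr n ≤ N₀ := by exact_mod_cast h8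
        have h10 := hn₇ n hn.1.1 hnn.le
        have h11 : ‖w n - r‖ = e ^ p ^ rr n := hdist n hn.1.1 hn.1.2
        rw [h11] at h10
        have h12 : e ^ N₀ ≤ e ^ p ^ rr n := pow_le_pow_of_le_one he0.le he1.le h9
        linarith
      exact hinf2 (expo_finite p d hp hd hpd A B C hA0 hB0 _ rr heqn)

end Pool.Agent.Helper79.DN
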