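import Pool.Agent.Helper79.DN.StC

/-!
# Power maps (helper95)
-/

set_option autoImplicit false
set_option linter.unusedSectionVars false

namespace Pool.Agent.Helper79.DN

open Polynomial Pool.Agent.Helper79.DM

/-- the monomials of norm one in `a`, `b` are powers of one element -/
private theorem P2_gen {L : Type*} [NormedField L] (a b : L) (ha : 1 < ‖a‖) (hb : b ≠ 0) :
    ∃ u : L, ‖u‖ = 1 ∧ ∀ i j : ℤ, ‖a‖ ^ i * ‖b‖ ^ j = 1 → ∃ k : ℤ, a ^ i * b ^ j = u ^ k := by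
  have ha0 : ‖a‖ ≠ 0 := by positivity
  have hb0 : ‖b‖ ≠ 0 := norm_ne_zero_iff.2 hb
  have haL : a ≠ 0 := norm_ne_zero_iff.1 ha0
  let J : AddSubgroup ℤ :=
    { carrier := {j | ∃ i : ℤ, ‖a‖ ^ i * ‖b‖ ^ j = 1}
      zero_mem' := ⟨0, by simp⟩
      add_mem' := by
        rintro j j' ⟨i, hi⟩ ⟨i', hi'⟩
        refine ⟨i + i', ?_⟩
        rw [zpow_add₀ ha0, zpow_add₀ hb0]
        calc ‖a‖ ^ i * ‖a‖ ^ i' * (‖b‖ ^ j * ‖b‖ ^ j') = (‖a‖ ^ i * ‖b‖ ^ j) * (‖a‖ ^ i' * ‖b‖ ^ j') := by ring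
          _ = 1 := by rw [hi, hi', one_mul]
      neg_mem' := by
        rintro j ⟨i, hi⟩
        refine ⟨-i, ?_⟩
        rw [zpow_neg, zpow_neg, ← mul_inv, hi, inv_one] }
  obtain ⟨s, hs⟩ := Int.subgroup_cyclic J
  have hsJ : s ∈ J := by
    rw [hs]
    exact AddSubgroup.subset_closure (Set.mem_singleton s)
  obtain ⟨r, hr⟩ : ∃ i : ℤ, ‖a‖ ^ i * ‖b‖ ^ s = 1 := hsJ
  refine ⟨a ^ r * b ^ s, ?_, fun i j hij => ?_⟩
  · rw [norm_mul, norm_zpow, norm_zpow, hr]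
  · have hj : j ∈ J := ⟨i, hij⟩
    rw [hs, AddSubgroup.mem_closure_singleton] at hj
    obtain ⟨k, hk⟩ := hj
    rw [smul_eq_mul] at hk
    have h1 : ‖a‖ ^ (r * k) * ‖b‖ ^ (s * k) = 1 := by
      rw [zpow_mul, zpow_mul, ← mul_zpow, hr, one_zpow]
    have h2 : ‖a‖ ^ i = ‖a‖ ^ (r * k) := by
      have h3 : s * k = j := by rw [mul_comm]; exact hk
      rw [h3] at h1
      exact mul_right_cancel₀ (zpow_ne_zero j hb0) (hij.trans h1.symm)
    have h4 : i = r * k := zpow_right_injective₀ (by linarith) ha.ne' h2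
    refine ⟨k, ?_⟩
    rw [mul_zpow, ← zpow_mul, ← zpow_mul, h4, ← hk, mul_comm k s]

theorem thm_P2 (h1 : St_P1) : St_P2 := by
  intro p _ L _ _ _ _ d hd hpd a b ha hb h
  classical
  obtain ⟨u, hu, hgen⟩ := P2_gen a b ha hb
  have ha0 : a ≠ 0 := norm_ne_zero_iff.1 (by positivity)
  have hu0 : u ≠ 0 := norm_ne_zero_iff.1 (by rw [hu]; exact one_ne_zero)
  set t : (Fin 2 →₀ ℕ) → L := fun m => a ^ m 0 * b ^ m 1 with ht
  have ht0 : ∀ m, t m ≠ 0 := fun m => mul_ne_zero (pow_ne_zero _ ha0) (pow_ne_zero _ hb)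
  have hrel : ∀ m m', ‖t m‖ = ‖t m'‖ → ∃ k : ℤ, t m = t m' * u ^ k := by
    intro m m' hmm
    have hna : ‖a‖ ≠ 0 := norm_ne_zero_iff.2 ha0
    have hnb : ‖b‖ ≠ 0 := norm_ne_zero_iff.2 hb
    obtain ⟨k, hk⟩ := hgen ((m 0 : ℤ) - m' 0) ((m 1 : ℤ) - m' 1) (by
      rw [zpow_sub₀ hna, zpow_sub₀ hnb, zpow_natCast, zpow_natCast, zpow_natCast, zpow_natCast]
      simp only [ht, norm_mul, norm_pow] at hmm
      field_simp
      linarith)
    refine ⟨k, ?_⟩
    rw [← hk, zpow_sub₀ ha0, zpow_sub₀ hb, zpow_natCast, zpow_natCast, zpow_natCast, zpow_natCast]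
    simp only [ht]
    field_simp
  set F : Finset ℝ := h.support.image fun m => ‖t m‖ with hF
  have hrep : ∀ c : F, ∃ m, ‖t m‖ = c := fun c => by
    obtain ⟨m, -, hm⟩ := Finset.mem_image.1 c.2
    exact ⟨m, hm⟩
  choose rep hrep using hrep
  have hmem : ∀ m ∈ h.support, ‖t m‖ ∈ F := fun m hm => Finset.mem_image_of_mem _ hm
  have hk : ∀ m, ∃ k : ℤ, ∀ hm : m ∈ h.support, t m = t (rep ⟨‖t m‖, hmem m hm⟩) * u ^ k := by
    intro m
    by_cases hm : m ∈ h.support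
    · obtain ⟨k, hk⟩ := hrel m (rep ⟨‖t m‖, hmem m hm⟩) (hrep ⟨‖t m‖, hmem m hm⟩).symm
      exact ⟨k, fun _ => hk⟩
    · exact ⟨0, fun h => absurd h hm⟩
  choose k hk using hk
  set N : ℕ := ∑ m ∈ h.support, (k m).natAbs with hN
  have hkN : ∀ m ∈ h.support, 0 ≤ k m + N := by
    intro m hm
    have h2 : (k m).natAbs ≤ N := Finset.single_le_sum (f := fun m => (k m).natAbs)
      (fun _ _ => Nat.zero_le _) hm
    omega
  have key := h1 p L d hd hpd F (fun c => t (rep c) * u ^ (-(N : ℤ)))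
    (fun c => mul_ne_zero (ht0 _) (zpow_ne_zero _ hu0))
    (fun c c' hcc => by
      simp only [norm_mul, norm_zpow, hu, one_zpow, mul_one] at hcc
      rw [hrep, hrep] at hcc
      exact Subtype.ext hcc)
    (fun c => ∑ m ∈ h.support.filter (fun m => ‖t m‖ = c), C (h.coeff m) * X ^ (k m + N).toNat) u hu
  have hset : {n | MvPolynomial.eval ![a ^ d ^ n, b ^ d ^ n] h = 0} =
      {n | ∑ c : F, (t (rep c) * u ^ (-(N : ℤ))) ^ d ^ n *
        (∑ m ∈ h.support.filter (fun m => ‖t m‖ = (c : ℝ)), C (h.coeff m) * X ^ (k m + N).toNat).eval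
          (u ^ d ^ n) = 0} := by
    ext n
    have he : MvPolynomial.eval ![a ^ d ^ n, b ^ d ^ n] h =
        ∑ c : F, (t (rep c) * u ^ (-(N : ℤ))) ^ d ^ n *
        (∑ m ∈ h.support.filter (fun m => ‖t m‖ = (c : ℝ)), C (h.coeff m) * X ^ (k m + N).toNat).eval
          (u ^ d ^ n) := by
      have h2 : MvPolynomial.eval ![a ^ d ^ n, b ^ d ^ n] h = ∑ m ∈ h.support, h.coeff m * t m ^ d ^ n := by
        rw [MvPolynomial.eval_eq']
        refine Finset.sum_congr rfl fun m _ => ?_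
        rw [Fin.prod_univ_two]
        simp only [Matrix.cons_val_zero, Matrix.cons_val_one, ht]
        rw [mul_pow, ← pow_mul, ← pow_mul, ← pow_mul, ← pow_mul, mul_comm (d ^ n) (m 0),
          mul_comm (d ^ n) (m 1)]
      rw [h2, ← Finset.sum_fiberwise_of_maps_to (t := F) (g := fun m => ‖t m‖) hmem,
        ← Finset.sum_coe_sort F]
      refine Finset.sum_congr rfl fun c _ => ?_
      rw [eval_finsetSum, Finset.mul_sum]
      refine Finset.sum_congr rfl fun m hm => ?_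
      obtain ⟨hm1, hm2⟩ := Finset.mem_filter.1 hm
      have h3 := hk m hm1
      have h4 : (⟨‖t m‖, hmem m hm1⟩ : F) = c := Subtype.ext hm2
      rw [h4] at h3
      have h5 : u ^ (k m) = u ^ (-(N : ℤ)) * u ^ (k m + N).toNat := by
        rw [← zpow_natCast, Int.toNat_of_nonneg (hkN m hm1), ← zpow_add₀ hu0]
        congr 1
        ring
      rw [eval_mul, eval_C, eval_pow, eval_X, h3, h5, ← mul_assoc, mul_pow (t (rep c) * u ^ (-(N : ℤ)))]
      rw [← pow_mul, ← pow_mul, mul_comm (d ^ n)]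
      ring
    show MvPolynomial.eval ![a ^ d ^ n, b ^ d ^ n] h = 0 ↔ _
    rw [he]
    rfl
  rw [hset]
  exact key

end Pool.Agent.Helper79.DN
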