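import Pool.Agent.Helper79.DN.StC

/-!
# P3: both maps conjugate to the power map
-/

set_option autoImplicit false

namespace Pool.Agent.Helper79.DN

open Polynomial Pool.Agent.Helper79.DM Pool.Agent.Helper11.SP

/-- the orbit of a map conjugate to a power map -/
theorem orb_PL {L : Type} [Field L] [IsAlgClosed L] (f : L[X]) (d : ℕ) (hd : 2 ≤ d)
    (hf : f.natDegree = d) (hPL : PL f) : ∃ β κ : L, κ ≠ 0 ∧ ∀ x n,
      orb f x n = β + κ⁻¹ * (κ * (x - β)) ^ d ^ n := by
  obtain ⟨β, c, hc⟩ := hPL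
  rw [hf] at hc
  have hc0 : c ≠ 0 := by
    rintro rfl
    rw [C_0, zero_mul, add_zero] at hc
    rw [hc, natDegree_C] at hf
    omega
  obtain ⟨κ, hκ⟩ := IsAlgClosed.exists_pow_nat_eq c (show 0 < d - 1 by omega)
  have hκ0 : κ ≠ 0 := by
    rintro rfl
    rw [zero_pow (by omega)] at hκ
    exact hc0 hκ.symm
  refine ⟨β, κ, hκ0, fun x n => ?_⟩
  induction n with
  | zero =>
    rw [orb_zero, pow_zero, pow_one, inv_mul_cancel_left₀ hκ0]
    ring
  | succ n ih =>
    have h1 : ∀ z : L, f.eval z = β + c * (z - β) ^ d := by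
      intro z
      conv_lhs => rw [hc]
      simp
    have h2 : κ⁻¹ * κ ^ d = c := by
      have h3 : d = (d - 1) + 1 := by omega
      rw [← hκ]
      conv_lhs => rw [h3]
      rw [pow_succ]
      field_simp
    rw [orb_succ, h1, ih, add_sub_cancel_left, mul_pow, pow_succ d n, pow_mul]
    have h4 : c * (κ⁻¹) ^ d = κ⁻¹ := by
      rw [← h2, mul_assoc, ← mul_pow, mul_inv_cancel₀ hκ0, one_pow, mul_one]
    rw [← mul_assoc, h4]

theorem thm_P3 (h2 : St_P2) : St_P3 := by
  intro p _ L _ _ _ _ d hd hpd f g hf hg hPf hPg x y hx h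
  obtain ⟨β, κ, hκ, hX⟩ := orb_PL f d hd hf hPf
  obtain ⟨β', κ', hκ', hY⟩ := orb_PL g d hd hg hPg
  have ha : 1 < ‖κ * (x - β)‖ := by
    by_contra hcon
    push Not at hcon
    obtain ⟨n, hn⟩ := hx (‖β‖ + ‖κ⁻¹‖)
    rw [hX] at hn
    have h3 : ‖β + κ⁻¹ * (κ * (x - β)) ^ d ^ n‖ ≤ ‖β‖ + ‖κ⁻¹‖ := by
      refine (norm_add_le _ _).trans ?_
      gcongr
      rw [norm_mul, norm_pow]
      exact mul_le_of_le_one_right (norm_nonneg _) (pow_le_one₀ (norm_nonneg _) hcon)
    exact absurd hn (not_lt.2 h3)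
  by_cases hb : κ' * (y - β') = 0
  · rw [ret_swap]
    refine ret_ep_of_finite g f y x _ ?_
    refine (Set.finite_singleton β').subset ?_
    rintro z ⟨n, rfl⟩
    rw [hY, hb, zero_pow (pow_pos (by omega : 0 < d) n).ne', mul_zero, add_zero]
    rfl
  · set h' : MvPolynomial (Fin 2) L :=
      MvPolynomial.aeval ![MvPolynomial.C β + MvPolynomial.C κ⁻¹ * MvPolynomial.X 0,
        MvPolynomial.C β' + MvPolynomial.C κ'⁻¹ * MvPolynomial.X 1] h with hh'
    have hev : ∀ a b : L, MvPolynomial.eval ![a, b] h' =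
        MvPolynomial.eval ![β + κ⁻¹ * a, β' + κ'⁻¹ * b] h := by
      intro a b
      rw [hh', MvPolynomial.aeval_def, MvPolynomial.eval_eval₂, ← MvPolynomial.coe_eval₂Hom,
        MvPolynomial.eval]
      congr 2
      · ext
        simp
      · funext i
        fin_cases i <;> simp
    have h3 := h2 p L d hd hpd (κ * (x - β)) (κ' * (y - β')) ha hb h'
    have heq : ret f g x y h = {n | MvPolynomial.eval ![(κ * (x - β)) ^ d ^ n,
        (κ' * (y - β')) ^ d ^ n] h' = 0} := by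
      ext n
      simp only [Set.mem_ofPred_eq, ret]
      rw [hev, ← hX, ← hY]
    rw [heq]
    exact h3

end Pool.Agent.Helper79.DN
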