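import Pool.Agent.Helper79.DN.StT

/-!
# T1: a family which is independent over the core is independent over some `K ^ (p ^ s)` (helper59)
-/

set_option autoImplicit false

namespace Pool.Agent.Helper79.DN

open Polynomial

theorem Ind.mono {p : ℕ} {K : Type} [Field K] {n : ℕ} {ω : Fin n → K} {s t : ℕ} (h : Ind p s ω) (hst : s ≤ t)
    (hp : p ≠ 0) : Ind p t ω := by
  intro a ha i
  have h1 := h (fun i => a i ^ p ^ (t - s)) (by
    rw [← ha]
    refine Finset.sum_congr rfl fun i _ => ?_
    show (a i ^ p ^ (t - s)) ^ p ^ s * ω i = a i ^ p ^ t * ω i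
    rw [← pow_mul, ← pow_add, Nat.sub_add_cancel hst]) i
  exact pow_eq_zero_iff (pow_ne_zero _ hp) |>.1 h1

theorem thm_T1 : St_T1 := by
  intro p hp K _ _ n
  have hp0 : p ≠ 0 := hp.out.ne_zero
  induction n with
  | zero => exact fun ω _ => ⟨0, fun _ _ i => i.elim0⟩
  | succ n ih =>
    intro ω hω
    have h0 : Core p (0 : K) := fun s => ⟨0, by rw [zero_pow (pow_ne_zero _ hp0)]⟩
    have h1 : Core p (1 : K) := fun s => ⟨1, by rw [one_pow]⟩
    obtain ⟨s₀, hs₀⟩ := ih (fun i => ω i.castSucc) (by
      intro a ha hs i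
      have h2 := hω (Fin.snoc (α := fun _ => K) a 0) (by
        intro j
        refine Fin.lastCases ?_ (fun i => ?_) j
        · rw [Fin.snoc_last]
          exact h0
        · rw [Fin.snoc_castSucc]
          exact ha i) (by
        rw [Fin.sum_univ_castSucc, Fin.snoc_last, zero_mul, add_zero]
        simpa only [Fin.snoc_castSucc] using hs) i.castSucc
      rwa [Fin.snoc_castSucc] at h2)
    by_contra hcon
    rw [not_exists] at hcon
    -- relations of all levels
    have hrel : ∀ s, s₀ ≤ s → ∃ c : Fin n → K, ω (Fin.last n) + ∑ i, c i ^ p ^ s * ω i.castSucc = 0 := by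
      intro s hs
      have h2 := hcon s
      unfold Ind at h2
      simp only [not_forall] at h2
      obtain ⟨a, ha, i, hi⟩ := h2
      rw [Fin.sum_univ_castSucc] at ha
      by_cases hl : a (Fin.last n) = 0
      · exfalso
        rw [hl, zero_pow (pow_ne_zero _ hp0), zero_mul, add_zero] at ha
        have h3 := (hs₀.mono hs hp0) (fun i => a i.castSucc) ha
        refine hi ?_
        refine Fin.lastCases (motive := fun i => a i = 0) hl (fun j => h3 j) i
      · refine ⟨fun i => a i.castSucc / a (Fin.last n), ?_⟩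
        have h4 : a (Fin.last n) ^ p ^ s ≠ 0 := pow_ne_zero _ hl
        have h5 : a (Fin.last n) ^ p ^ s *
            (ω (Fin.last n) + ∑ i : Fin n, (a i.castSucc / a (Fin.last n)) ^ p ^ s * ω i.castSucc) = 0 := by
          rw [mul_add, Finset.mul_sum]
          have h6 : ∑ i : Fin n, a (Fin.last n) ^ p ^ s * ((a (Fin.castSucc i) / a (Fin.last n)) ^ p ^ s * ω i.castSucc) =
              ∑ i : Fin n, a i.castSucc ^ p ^ s * ω i.castSucc := by
            refine Finset.sum_congr rfl fun i _ => ?_
            rw [div_pow]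
            field_simp
          rw [h6, add_comm]
          exact ha
        exact (mul_eq_zero.1 h5).resolve_left h4
    choose! c hc using hrel
    have heq : ∀ s t, s₀ ≤ s → s₀ ≤ t → ∀ i, c s i ^ p ^ s = c t i ^ p ^ t := by
      intro s t hs ht i
      have h2 : ∑ i, (c s i ^ p ^ (s - s₀) - c t i ^ p ^ (t - s₀)) ^ p ^ s₀ * ω i.castSucc = 0 := by
        have h3 := (hc s hs).trans (hc t ht).symm
        have h4 := add_left_cancel h3
        rw [← sub_eq_zero, ← Finset.sum_sub_distrib] at h4
        rw [← h4]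
        refine Finset.sum_congr rfl fun i _ => ?_
        rw [sub_pow_char_pow, ← pow_mul, ← pow_mul, ← pow_add, ← pow_add, Nat.sub_add_cancel hs,
          Nat.sub_add_cancel ht, sub_mul]
      have h5 := hs₀ _ h2 i
      rw [sub_eq_zero] at h5
      have h6 : (c s i ^ p ^ (s - s₀)) ^ p ^ s₀ = (c t i ^ p ^ (t - s₀)) ^ p ^ s₀ := by rw [h5]
      rwa [← pow_mul, ← pow_mul, ← pow_add, ← pow_add, Nat.sub_add_cancel hs,
          Nat.sub_add_cancel ht] at h6
    have hcore : ∀ i, Core p (c s₀ i ^ p ^ s₀) := by
      intro i s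
      rcases le_total s₀ s with h2 | h2
      · exact ⟨c s i, heq s₀ s le_rfl h2 i⟩
      · refine ⟨c s₀ i ^ p ^ (s₀ - s), ?_⟩
        rw [← pow_mul, ← pow_add, Nat.sub_add_cancel h2]
    have h7 := hω (Fin.snoc (α := fun _ => K) (fun i => c s₀ i ^ p ^ s₀) 1) (by
        intro j
        refine Fin.lastCases ?_ (fun i => ?_) j
        · rw [Fin.snoc_last]
          exact h1
        · rw [Fin.snoc_castSucc]
          exact hcore i) (by
        rw [Fin.sum_univ_castSucc, Fin.snoc_last, one_mul, add_comm]
        simpa only [Fin.snoc_castSucc] using hc s₀ le_rfl) (Fin.last n)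
    rw [Fin.snoc_last] at h7
    exact one_ne_zero h7

end Pool.Agent.Helper79.DN
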