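import Pool.Agent.Helper79.DN.StT

/-!
# Module T2: coordinates over the field of `p ^ s`-th powers
-/

set_option autoImplicit false

namespace Pool.Agent.Helper79.DN

open Polynomial

theorem thm_T2 : St_T2 := by
  intro p _ K _ _ s n ω hω hfd
  classical
  let k : Subfield K := (iterateFrobenius K p s).fieldRange
  have hk : ∀ w : K, w ^ p ^ s ∈ k := fun w => ⟨w, iterateFrobenius_def p s w⟩
  have hk' : ∀ c : k, ∃ w : K, (c : K) = w ^ p ^ s := by
    rintro ⟨c, w, hw⟩
    exact ⟨w, hw.symm.trans (iterateFrobenius_def p s w)⟩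
  obtain ⟨m, e, he⟩ := hfd
  have hfin : Module.Finite k K := by
    refine ⟨⟨Finset.univ.image e, ?_⟩⟩
    rw [eq_top_iff]
    intro u _
    obtain ⟨a, rfl⟩ := he u
    refine Submodule.sum_mem _ fun i _ => ?_
    have h1 : a i ^ p ^ s * e i = (⟨a i ^ p ^ s, hk _⟩ : k) • e i := rfl
    rw [h1]
    exact Submodule.smul_mem _ _ (Submodule.subset_span (by simp))
  have hps : p ^ s ≠ 0 := pow_ne_zero _ (Fact.out : p.Prime).ne_zero
  have hli : LinearIndependent k ω := by
    rw [Fintype.linearIndependent_iff]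
    intro g hg i
    choose w hw using fun i => hk' (g i)
    have h1 := hω w (by
      rw [← hg]
      refine Finset.sum_congr rfl fun i _ => ?_
      rw [← hw i]
      rfl) i
    apply Subtype.ext
    rw [hw i, h1, zero_pow hps]
    rfl
  let W : Submodule k K := Submodule.span k (Set.range ω)
  let bW : Module.Basis (Fin n) k W := Module.Basis.span hli
  let bQ := Module.finBasis k (K ⧸ W)
  choose φ hφ using fun i => LinearMap.exists_extend (bW.coord i)
  have hbW : ∀ i, ((bW i : W) : K) = ω i := fun i => by rw [Module.Basis.span_apply hli i]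
  have hφW : ∀ i (u : W), φ i (u : K) = bW.coord i u := fun i u =>
    LinearMap.congr_fun (hφ i) u
  refine ⟨Module.finrank k (K ⧸ W),
    fun i => (k.subtype : k →+* K).toAddMonoidHom.comp (φ i).toAddMonoidHom,
    fun j => (k.subtype : k →+* K).toAddMonoidHom.comp ((bQ.coord j).comp W.mkQ).toAddMonoidHom,
    ?_, ?_, ?_, ?_, ?_, ?_⟩
  · intro i w u
    have h1 : w ^ p ^ s * u = (⟨w ^ p ^ s, hk _⟩ : k) • u := rfl
    show ((φ i (w ^ p ^ s * u) : k) : K) = w ^ p ^ s * ((φ i u : k) : K)
    rw [h1, map_smul]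
    rfl
  · intro j w u
    have h1 : w ^ p ^ s * u = (⟨w ^ p ^ s, hk _⟩ : k) • u := rfl
    show (((bQ.coord j).comp W.mkQ (w ^ p ^ s * u) : k) : K) =
      w ^ p ^ s * (((bQ.coord j).comp W.mkQ u : k) : K)
    rw [h1, map_smul]
    rfl
  · intro i u
    exact hk' (φ i u)
  · intro i j
    show ((φ i (ω j) : k) : K) = _
    rw [← hbW j, hφW i, Module.Basis.coord_apply, Module.Basis.repr_self, Finsupp.single_apply]
    by_cases hij : j = i
    · subst hij; simp
    · have hij' : ¬ i = j := fun h => hij h.symm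
      simp [hij, hij']
  · intro j i
    show (((bQ.coord j).comp W.mkQ (ω i) : k) : K) = 0
    have h1 : W.mkQ (ω i) = 0 := by
      rw [Submodule.mkQ_apply, Submodule.Quotient.mk_eq_zero]
      exact Submodule.subset_span ⟨i, rfl⟩
    rw [LinearMap.comp_apply, h1, map_zero]
    rfl
  · intro u hu
    have h0 : W.mkQ u = 0 := by
      apply bQ.ext_elem_iff.mpr
      intro j
      have h2 : (((bQ.coord j).comp W.mkQ u : k) : K) = 0 := hu j
      have h3 : (bQ.coord j) (W.mkQ u) = 0 := Subtype.ext h2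
      rw [Module.Basis.coord_apply] at h3
      rw [h3, map_zero]
      rfl
    have hW : u ∈ W := by
      rwa [Submodule.mkQ_apply, Submodule.Quotient.mk_eq_zero] at h0
    have h4 := bW.sum_repr ⟨u, hW⟩
    have h5 := congrArg (fun z : W => (z : K)) h4
    simp only at h5
    rw [← h5, Submodule.coe_sum]
    refine Finset.sum_congr rfl fun i _ => ?_
    have h6 : φ i u = bW.repr ⟨u, hW⟩ i := hφW i ⟨u, hW⟩
    show _ = ((φ i _ : k) : K) * ω i
    rw [Submodule.coe_smul, hbW i]
    rw [Submodule.coe_sum] at h5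
    rw [h5, h6]
    rfl

end Pool.Agent.Helper79.DN
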