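import Pool.Agent.Helper79.DN.StT

/-!
# Block T: T4, elements of the core have absolute value `1`
-/

set_option autoImplicit false

namespace Pool.Agent.Helper79.DN

/-- The module T4. -/
theorem thm_T4 : St_T4 := by
  intro p hp K _ Fr u hu hu0 τ
  obtain ⟨z, hz⟩ := Fr.disc τ u hu0
  obtain ⟨w, hw⟩ := hu z.natAbs
  have hw0 : w ≠ 0 := by
    rintro rfl
    rw [zero_pow (pow_ne_zero _ hp.out.ne_zero)] at hw
    exact hu0 hw
  obtain ⟨z', hz'⟩ := Fr.disc τ w hw0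
  have h1 : Fr.ρ ^ z = Fr.ρ ^ (z' * ((p ^ z.natAbs : ℕ) : ℤ)) := by
    rw [← hz, hw, map_pow, hz', zpow_mul, zpow_natCast]
  have h0 : 0 < Fr.ρ := lt_trans zero_lt_one Fr.one_lt
  have h2 : z = z' * ((p ^ z.natAbs : ℕ) : ℤ) :=
    zpow_right_injective₀ h0 (ne_of_gt Fr.one_lt) h1
  have h3 : z = 0 := by
    apply Int.eq_zero_of_abs_lt_dvd (m := ((p ^ z.natAbs : ℕ) : ℤ)) ⟨z', by rw [mul_comm]; exact h2⟩
    rw [Int.abs_eq_natAbs]
    exact_mod_cast Nat.lt_pow_self hp.out.one_lt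
  rw [hz, h3, zpow_zero]

end Pool.Agent.Helper79.DN
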