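import Pool.Agent.Helper79.DN.StT

/-!
# Block T: first step (helper57)
-/

set_option autoImplicit false

namespace Pool.Agent.Helper79.DN

open Polynomial

theorem T5_H_one {p : ℕ} {K : Type} [Field K] (Fr : Frame p K) (y : K) : 1 ≤ Fr.H y := by
  unfold Frame.H
  calc (1 : ℝ) = ∏ _τ : Fr.Γ, (1 : ℝ) := by simp
    _ ≤ ∏ τ, max 1 (Fr.abs τ y) := Finset.prod_le_prod (fun _ _ => zero_le_one) fun _ _ => le_max_left _ _

theorem T5_close_nonneg {p : ℕ} {K : Type} [Field K] {Fr : Frame p K} {B : Finset K} {y : K} {δ : Fr.Γ → ℝ}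
    (h : Close Fr B y δ) (τ : Fr.Γ) : 0 ≤ δ τ := by
  obtain ⟨β, -, h1⟩ := h τ
  have h2 : (0 : ℝ) ≤ δ τ * max 1 (Fr.abs τ y) := ((Fr.abs τ).nonneg _).trans h1
  have h3 : (0 : ℝ) < max 1 (Fr.abs τ y) := lt_of_lt_of_le one_pos (le_max_left _ _)
  exact nonneg_of_mul_nonneg_left h2 h3

theorem thm_T5 : St_T5 := by
  intro p _ K _ _ Fr s χ hχ B β₀ hβ₀ hB Θ C₀ hΘ
  obtain ⟨⟨C, hC⟩, c, hcO, hc0, hc⟩ := Fr.bd s χ hχ
  set C' : ℝ := max C 0 with hC'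
  have hC1 : ∀ τ u, Fr.abs τ (χ u) ≤ C' * Fr.abs τ u := fun τ u =>
    (hC τ u).trans (mul_le_mul_of_nonneg_right (le_max_left _ _) ((Fr.abs τ).nonneg _))
  have hC0 : 0 ≤ C' := le_max_right _ _
  set A : ℝ := ∏ τ, (Fr.abs τ c * C') with hA
  have hA0 : 0 ≤ A := Finset.prod_nonneg fun τ _ => mul_nonneg ((Fr.abs τ).nonneg _) hC0
  refine ⟨(A * C₀) ^ (1 / (Θ - 1)), fun y hy δ hδ hle => ?_⟩
  by_cases hz : χ (y - β₀) = 0
  · exact Or.inr hz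
  left
  have hH : 1 ≤ Fr.H y := T5_H_one Fr y
  have hH0 : 0 < Fr.H y := lt_of_lt_of_le one_pos hH
  have h1 : 1 ≤ ∏ τ, Fr.abs τ (c * χ (y - β₀)) := Fr.prod _ (hc _ (Fr.O.sub_mem hy hβ₀)) (mul_ne_zero hc0 hz)
  have h2 : ∏ τ, Fr.abs τ (c * χ (y - β₀)) ≤ ∏ τ, ((Fr.abs τ c * C') * (δ τ * max 1 (Fr.abs τ y))) := by
    refine Finset.prod_le_prod (fun τ _ => (Fr.abs τ).nonneg _) fun τ _ => ?_
    obtain ⟨β, hβ, h3⟩ := hδ τ
    have h4 : χ (y - β₀) = χ (y - β) := by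
      have h5 : y - β₀ = (y - β) + (β - β₀) := by ring
      rw [h5, map_add, hB β hβ, add_zero]
    rw [map_mul, h4, mul_assoc]
    refine mul_le_mul_of_nonneg_left ?_ ((Fr.abs τ).nonneg _)
    exact (hC1 τ _).trans (mul_le_mul_of_nonneg_left h3 hC0)
  have h3 : ∏ τ, ((Fr.abs τ c * C') * (δ τ * max 1 (Fr.abs τ y))) = A * ((∏ τ, δ τ) * Fr.H y) := by
    have h9 : ∏ τ, (δ τ * max 1 (Fr.abs τ y)) = (∏ τ, δ τ) * Fr.H y := Finset.prod_mul_distrib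
    rw [← h9, hA]
    exact Finset.prod_mul_distrib
  have h4 : 1 ≤ A * ((∏ τ, δ τ) * Fr.H y) := h1.trans (h2.trans h3.le)
  have h5 : Fr.H y ^ (Θ - 1) ≤ A * C₀ := by
    have h6 : Fr.H y ^ (Θ - 1) * 1 ≤ Fr.H y ^ (Θ - 1) * (A * ((∏ τ, δ τ) * Fr.H y)) :=
      mul_le_mul_of_nonneg_left h4 (Real.rpow_nonneg hH0.le _)
    have h7 : Fr.H y ^ (Θ - 1) * (A * ((∏ τ, δ τ) * Fr.H y)) = A * ((∏ τ, δ τ) * Fr.H y ^ Θ) := by
      have h8 : Fr.H y ^ Θ = Fr.H y ^ (Θ - 1) * Fr.H y := by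
        conv_rhs => rw [← Real.rpow_one (Fr.H y)]
        rw [Real.rpow_one (Fr.H y), ← Real.rpow_add_one hH0.ne']
        congr 1
        ring
      rw [h8]
      ring
    rw [mul_one, h7] at h6
    exact h6.trans (mul_le_mul_of_nonneg_left hle hA0)
  have h6 : Fr.H y = (Fr.H y ^ (Θ - 1)) ^ (1 / (Θ - 1)) := by
    rw [← Real.rpow_mul hH0.le, mul_one_div_cancel (by linarith), Real.rpow_one]
  rw [h6]
  exact Real.rpow_le_rpow (Real.rpow_nonneg hH0.le _) h5 (by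
    have : 0 < Θ - 1 := by linarith
    positivity)

end Pool.Agent.Helper79.DN
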