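import Pool.Agent.Helper79.DN.StT

/-!
# T6: the second step of the Roth type theorem
-/

set_option autoImplicit false

namespace Pool.Agent.Helper79.DN

open Polynomial

private theorem T6_root {p : ℕ} {K : Type} [Field K] (Fr : Frame p K) (t : ℕ) (u : K)
    (h : u ^ p ^ t ∈ Fr.O) : u ∈ Fr.O := by
  induction t with
  | zero => simpa using h
  | succ t ih =>
    apply ih
    apply Fr.root
    rwa [← pow_mul, ← pow_succ]

/-- common bounds for finitely many maps -/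
private theorem T6_bd {p : ℕ} {K : Type} [Field K] (Fr : Frame p K) (s : ℕ) (φ : K →+ K)
    (hφ : Lin p s φ) (M : ℕ) (χ : Fin M → K →+ K) (hχ : ∀ j, Lin p 1 (χ j)) :
    ∃ C : ℝ, 0 ≤ C ∧ ∃ c ∈ Fr.O, c ≠ 0 ∧ (∀ τ u, Fr.abs τ (φ u) ≤ C * Fr.abs τ u) ∧
      (∀ j τ u, Fr.abs τ (χ j u) ≤ C * Fr.abs τ u) ∧ (∀ u ∈ Fr.O, c * φ u ∈ Fr.O) ∧
      ∀ j, ∀ u ∈ Fr.O, c * χ j u ∈ Fr.O := by
  obtain ⟨⟨C0, hC0⟩, c0, hc0, hc0', hc0''⟩ := Fr.bd s φ hφ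
  have H : ∀ j, (∃ C : ℝ, ∀ τ u, Fr.abs τ (χ j u) ≤ C * Fr.abs τ u) ∧
      ∃ c ∈ Fr.O, c ≠ 0 ∧ ∀ u ∈ Fr.O, c * χ j u ∈ Fr.O := fun j => Fr.bd 1 (χ j) (hχ j)
  choose C1 hC1 using fun j => (H j).1
  choose c1 hc1 hc1' hc1'' using fun j => (H j).2
  have hsum0 : 0 ≤ ∑ j, |C1 j| := Finset.sum_nonneg fun j _ => abs_nonneg _
  refine ⟨|C0| + ∑ j, |C1 j|, by positivity, c0 * ∏ j, c1 j,
    Fr.O.mul_mem hc0 (Fr.O.prod_mem fun j _ => hc1 j),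
    mul_ne_zero hc0' (Finset.prod_ne_zero_iff.2 fun j _ => hc1' j), ?_, ?_, ?_, ?_⟩
  · intro τ u
    refine (hC0 τ u).trans (mul_le_mul_of_nonneg_right ?_ ((Fr.abs τ).nonneg u))
    linarith [le_abs_self C0]
  · intro j τ u
    refine (hC1 j τ u).trans (mul_le_mul_of_nonneg_right ?_ ((Fr.abs τ).nonneg u))
    have := Finset.single_le_sum (f := fun j => |C1 j|) (fun i _ => abs_nonneg (C1 i))
      (Finset.mem_univ j)
    have h2 : C1 j ≤ |C1 j| := le_abs_self _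
    have h3 : 0 ≤ |C0| := abs_nonneg _
    linarith
  · intro u hu
    have h1 : c0 * (∏ j, c1 j) * φ u = (∏ j, c1 j) * (c0 * φ u) := by ring
    rw [h1]
    exact Fr.O.mul_mem (Fr.O.prod_mem fun j _ => hc1 j) (hc0'' u hu)
  · intro j u hu
    have h1 : c0 * (∏ i, c1 i) * χ j u = (c0 * ∏ i ∈ Finset.univ.erase j, c1 i) * (c1 j * χ j u) := by
      rw [← Finset.mul_prod_erase Finset.univ c1 (Finset.mem_univ j)]; ring
    rw [h1]
    exact Fr.O.mul_mem (Fr.O.mul_mem hc0 (Fr.O.prod_mem fun i _ => hc1 i)) (hc1'' j u hu)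

/-- the real inequality at the end -/
private theorem T6_real (C4 C5 C₀ Θ H P : ℝ) (Q : ℕ) (hQ : 1 ≤ Q) (h4 : 0 ≤ C4) (h5 : 0 ≤ C5)
    (hΘ : 1 < Θ) (hH : 1 ≤ H) (h1 : 1 ≤ C4 ^ Q * C5 * (P * H)) (h2 : P * H ^ Θ ≤ C₀) :
    H ≤ ((max 1 (C4 * max 1 (C5 * C₀))) ^ (1 / (Θ - 1))) ^ Q := by
  have hH0 : 0 < H := by linarith
  have hT : 0 < Θ - 1 := by linarith
  have e1 : P * H = P * H ^ Θ * H ^ (1 - Θ) := by
    rw [mul_assoc, ← Real.rpow_add hH0]; simp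
  have hpos : 0 < H ^ (1 - Θ) := Real.rpow_pos_of_pos hH0 _
  have e2 : P * H ≤ C₀ * H ^ (1 - Θ) := by
    rw [e1]; exact mul_le_mul_of_nonneg_right h2 hpos.le
  have e3 : 1 ≤ C4 ^ Q * C5 * (C₀ * H ^ (1 - Θ)) :=
    h1.trans (mul_le_mul_of_nonneg_left e2 (by positivity))
  have e4 : H ^ (Θ - 1) * H ^ (1 - Θ) = 1 := by
    rw [← Real.rpow_add hH0]; simp
  have e5 : H ^ (Θ - 1) ≤ C4 ^ Q * (C5 * C₀) := by
    have : H ^ (Θ - 1) * 1 ≤ H ^ (Θ - 1) * (C4 ^ Q * C5 * (C₀ * H ^ (1 - Θ))) :=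
      mul_le_mul_of_nonneg_left e3 (Real.rpow_nonneg hH0.le _)
    have e6 : H ^ (Θ - 1) * (C4 ^ Q * C5 * (C₀ * H ^ (1 - Θ))) =
        C4 ^ Q * (C5 * C₀) * (H ^ (Θ - 1) * H ^ (1 - Θ)) := by ring
    rw [e6, e4] at this
    linarith
  have e7 : C4 ^ Q * (C5 * C₀) ≤ (max 1 (C4 * max 1 (C5 * C₀))) ^ Q := by
    have a1 : C5 * C₀ ≤ (max 1 (C5 * C₀)) ^ Q :=
      (le_max_right _ _).trans (le_self_pow₀ (le_max_left _ _) (by omega))
    have a2 : C4 ^ Q * (C5 * C₀) ≤ C4 ^ Q * (max 1 (C5 * C₀)) ^ Q :=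
      mul_le_mul_of_nonneg_left a1 (by positivity)
    rw [← mul_pow] at a2
    refine a2.trans (pow_le_pow_left₀ ?_ (le_max_right _ _) Q)
    have : (0 : ℝ) ≤ max 1 (C5 * C₀) := le_trans zero_le_one (le_max_left _ _)
    positivity
  set D := max 1 (C4 * max 1 (C5 * C₀)) with hD
  have hD1 : 1 ≤ D := le_max_left _ _
  have hD0 : 0 ≤ D := by linarith
  have e8 : H ^ (Θ - 1) ≤ D ^ Q := e5.trans e7
  have e9 : H = (H ^ (Θ - 1)) ^ (1 / (Θ - 1)) := by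
    rw [← Real.rpow_mul hH0.le, mul_one_div_cancel hT.ne', Real.rpow_one]
  calc H = (H ^ (Θ - 1)) ^ (1 / (Θ - 1)) := e9
    _ ≤ (D ^ Q) ^ (1 / (Θ - 1)) :=
        Real.rpow_le_rpow (Real.rpow_nonneg hH0.le _) e8 (by positivity)
    _ = (D ^ (1 / (Θ - 1))) ^ Q := by
        rw [← Real.rpow_natCast, ← Real.rpow_natCast, ← Real.rpow_mul hD0, ← Real.rpow_mul hD0,
          mul_comm]

theorem thm_T6 (h2 : St_T2) : St_T6 := by
  intro p hp K _ _ Fr s φ hφ B β₀ hβ₀ hB Θ C₀ hΘ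
  have hp2 : 2 ≤ p := hp.out.two_le
  obtain ⟨M, φ', χ, -, hχ, hφ'p, -, hχ1, hrec⟩ := h2 p K 1 1 ![1]
    (by
      intro a ha i
      fin_cases i
      have h0 : a 0 ^ p ^ 1 * 1 = 0 := by simpa only [Fin.sum_univ_one, Matrix.cons_val_zero] using ha
      rw [mul_one, pow_one] at h0
      exact (pow_eq_zero_iff hp.out.ne_zero).1 h0) (Fr.fd 1)
  have hχone : ∀ j, χ j 1 = 0 := fun j => by simpa using hχ1 j 0
  have hχp : ∀ j w, χ j (w ^ p) = 0 := by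
    intro j w
    have := hχ j w 1
    rw [hχone j, mul_one, mul_zero, pow_one] at this
    exact this
  have hpow : ∀ u, (∀ j, χ j u = 0) → ∃ w, u = w ^ p := by
    intro u hu
    obtain ⟨w, hw⟩ := hφ'p 0 u
    refine ⟨w, ?_⟩
    have := hrec u hu
    rw [Fin.sum_univ_one, hw] at this
    simpa using this
  obtain ⟨C, hC0, c, hcO, hc, hCφ, hCχ, hcφ, hcχ⟩ := T6_bd Fr s φ hφ M χ hχ
  refine ⟨(max 1 ((∏ τ, C * Fr.abs τ (c ^ (p + 1))) * max 1 ((∏ _τ : Fr.Γ, C) * C₀))) ^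
    (1 / (Θ - 1)), ?_, ?_⟩
  · apply Real.one_le_rpow (le_max_left _ _)
    have : 0 < Θ - 1 := by linarith
    positivity
  intro y hy δ hcl hbound t l hl hlp
  have hQ1 : 1 ≤ p ^ t := Nat.one_le_pow _ _ (by omega)
  obtain ⟨j, hj⟩ : ∃ j, χ j l ≠ 0 := by
    by_contra hcon
    push Not at hcon
    exact hlp (hpow l hcon)
  -- integrality
  have hyO : y - β₀ ∈ Fr.O := Fr.O.sub_mem hy hβ₀
  have i1 : c * l ^ p ^ t ∈ Fr.O := by rw [← hl]; exact hcφ _ hyO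
  have i2 : c * l ∈ Fr.O := by
    apply T6_root Fr t
    have : (c * l) ^ p ^ t = c ^ (p ^ t - 1) * (c * l ^ p ^ t) := by
      rw [mul_pow, ← mul_assoc, ← pow_succ, Nat.sub_add_cancel hQ1]
    rw [this]
    exact Fr.O.mul_mem (Fr.O.pow_mem hcO _) i1
  have i3 : c ^ p * l ∈ Fr.O := by
    have : c ^ p * l = c ^ (p - 1) * (c * l) := by
      rw [← mul_assoc, ← pow_succ, Nat.sub_add_cancel (by omega)]
    rw [this]
    exact Fr.O.mul_mem (Fr.O.pow_mem hcO _) i2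
  have i4 : c ^ (p + 1) * χ j l ∈ Fr.O := by
    have h0 := hcχ j _ i3
    have h1 := hχ j c l
    rw [pow_one] at h1
    rw [h1] at h0
    have : c ^ (p + 1) * χ j l = c * (c ^ p * χ j l) := by rw [pow_succ]; ring
    rwa [this]
  have hz : c ^ (p + 1) * χ j l ≠ 0 := mul_ne_zero (pow_ne_zero _ hc) hj
  have hprod := Fr.prod _ i4 hz
  -- size
  have hsize : ∀ τ, Fr.abs τ (c ^ (p + 1) * χ j l) ^ p ^ t ≤
      (C * Fr.abs τ (c ^ (p + 1))) ^ p ^ t * (C * (δ τ * max 1 (Fr.abs τ y))) := by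
    intro τ
    obtain ⟨β, hβ, hβ'⟩ := hcl τ
    obtain ⟨m, hm⟩ := hB β hβ (t + 1)
    have hm' : φ (β - β₀) = (m ^ p) ^ p ^ t := by
      rw [hm, ← pow_mul, pow_succ, mul_comm]
    have h1 : (l - m ^ p) ^ p ^ t = φ (y - β) := by
      rw [sub_pow_char_pow, ← hl, ← hm', ← map_sub]
      congr 1; ring
    have h3 : Fr.abs τ (l - m ^ p) ^ p ^ t ≤ C * (δ τ * max 1 (Fr.abs τ y)) := by
      rw [← map_pow, h1]
      exact (hCφ τ _).trans (mul_le_mul_of_nonneg_left hβ' hC0)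
    have h4 : χ j l = χ j (l - m ^ p) := by rw [map_sub, hχp, sub_zero]
    have h5 : Fr.abs τ (χ j l) ≤ C * Fr.abs τ (l - m ^ p) := by rw [h4]; exact hCχ j τ _
    rw [map_mul, mul_pow, mul_pow]
    have h6 : Fr.abs τ (χ j l) ^ p ^ t ≤ C ^ p ^ t * (C * (δ τ * max 1 (Fr.abs τ y))) := by
      refine (pow_le_pow_left₀ ((Fr.abs τ).nonneg _) h5 _).trans ?_
      rw [mul_pow]
      exact mul_le_mul_of_nonneg_left h3 (by positivity)
    calc Fr.abs τ (c ^ (p + 1)) ^ p ^ t * Fr.abs τ (χ j l) ^ p ^ t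
        ≤ Fr.abs τ (c ^ (p + 1)) ^ p ^ t * (C ^ p ^ t * (C * (δ τ * max 1 (Fr.abs τ y)))) :=
          mul_le_mul_of_nonneg_left h6 (pow_nonneg ((Fr.abs τ).nonneg _) _)
      _ = _ := by ring
  have hone : 1 ≤ (∏ τ, C * Fr.abs τ (c ^ (p + 1))) ^ p ^ t * (∏ _τ : Fr.Γ, C) *
      ((∏ τ, δ τ) * Fr.H y) := by
    have s1 : 1 ≤ (∏ τ, Fr.abs τ (c ^ (p + 1) * χ j l)) ^ p ^ t := one_le_pow₀ hprod
    rw [← Finset.prod_pow] at s1
    refine s1.trans ((Finset.prod_le_prod (fun τ _ => pow_nonneg ((Fr.abs τ).nonneg _) _)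
      fun τ _ => hsize τ).trans (le_of_eq ?_))
    rw [Finset.prod_mul_distrib, Finset.prod_mul_distrib, Finset.prod_mul_distrib,
      Finset.prod_pow, Frame.H]
    ring
  have hH1 : 1 ≤ Fr.H y := by
    unfold Frame.H
    calc (1 : ℝ) = ∏ _τ : Fr.Γ, (1 : ℝ) := by simp
      _ ≤ _ := Finset.prod_le_prod (fun _ _ => zero_le_one) fun τ _ => le_max_left _ _
  exact T6_real _ _ C₀ Θ (Fr.H y) (∏ τ, δ τ) (p ^ t) hQ1
    (Finset.prod_nonneg fun τ _ => mul_nonneg hC0 ((Fr.abs τ).nonneg _))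
    (Finset.prod_nonneg fun _ _ => hC0) hΘ hH1 hone hbound

end Pool.Agent.Helper79.DN
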