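import Pool.Agent.Helper79.DN.StT

/-!
# T9: the theorem of Roth type (assembly of T1-T6)
-/

set_option autoImplicit false

namespace Pool.Agent.Helper79.DN

open Polynomial

private theorem T9_fin {ι : Type} [Fintype ι] (f : ι → ℝ) : ∃ C : ℝ, 1 ≤ C ∧ ∀ i, f i ≤ C := by
  refine ⟨1 + ∑ i, |f i|, ?_, ?_⟩
  · have : 0 ≤ ∑ i, |f i| := Finset.sum_nonneg fun i _ => abs_nonneg _
    linarith
  · intro i
    have h1 := Finset.single_le_sum (f := fun j => |f j|) (fun j _ => abs_nonneg (f j))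
      (Finset.mem_univ i)
    have h2 := le_abs_self (f i)
    linarith

private theorem T9_le_H {p : ℕ} {K : Type} [Field K] (Fr : Frame p K) (y : K) (τ : Fr.Γ) :
    max 1 (Fr.abs τ y) ≤ Fr.H y := by
  classical
  unfold Frame.H
  rw [← Finset.mul_prod_erase Finset.univ _ (Finset.mem_univ τ)]
  have h1 : (1 : ℝ) ≤ ∏ x ∈ Finset.univ.erase τ, max 1 (Fr.abs x y) := by
    have h2 : ∏ x ∈ Finset.univ.erase τ, (1 : ℝ) ≤
        ∏ x ∈ Finset.univ.erase τ, max 1 (Fr.abs x y) :=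
      Finset.prod_le_prod (fun _ _ => zero_le_one) (fun _ _ => le_max_left _ _)
    simpa using h2
  have h3 : (0 : ℝ) ≤ max 1 (Fr.abs τ y) := zero_le_one.trans (le_max_left _ _)
  calc max 1 (Fr.abs τ y) = max 1 (Fr.abs τ y) * 1 := (mul_one _).symm
    _ ≤ _ := mul_le_mul_of_nonneg_left h1 h3

/-- the value of a linear map on a combination of the `ω i` whose coefficients are powers -/
private theorem T9_lin {p : ℕ} {K : Type} [Field K] {s n : ℕ} (ψ : K →+ K) (hψ : Lin p s ψ)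
    (ω m : Fin n → K) (hm : ∀ i, Core p (m i)) :
    ψ (∑ i, m i * ω i) = ∑ i, m i * ψ (ω i) := by
  rw [map_sum]
  refine Finset.sum_congr rfl fun i _ => ?_
  obtain ⟨w, hw⟩ := hm i s
  rw [hw]
  exact hψ w (ω i)

private theorem T9_exp {p : ℕ} {K : Type} [Field K] {n : ℕ} (Λ : Fin n → K)
    (h : ¬ ∀ s i, ∃ w, Λ i = w ^ p ^ s) :
    ∃ t, (∀ i, ∃ w, Λ i = w ^ p ^ t) ∧ ∃ i, ∀ w, Λ i ≠ w ^ p ^ (t + 1) := by
  by_contra hno
  apply h
  intro s
  induction s with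
  | zero => exact fun i => ⟨Λ i, by simp⟩
  | succ t ih =>
    intro i
    by_contra hne
    push Not at hne
    exact hno ⟨t, ih, i, hne⟩

/-- the value of a combination at one place -/
private theorem T9_sum {p : ℕ} {K : Type} [Field K] (Fr : Frame p K) (τ : Fr.Γ) {n : ℕ}
    (ω Λ : Fin n → K) (u : K) (hu : u = ∑ i, Λ i * ω i) (W L : ℝ) (hL : 0 ≤ L)
    (hW : ∑ i, Fr.abs τ (ω i) ≤ W) (hΛ : ∀ i, Fr.abs τ (Λ i) ≤ L) : Fr.abs τ u ≤ L * W := by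
  have h1 : Fr.abs τ (∑ i, Λ i * ω i) ≤ ∑ i, Fr.abs τ (Λ i * ω i) := by
    exact (Fr.abs τ).sum_le _ _
  rw [hu]
  refine h1.trans ?_
  have h2 : ∑ i, Fr.abs τ (Λ i * ω i) ≤ ∑ i, L * Fr.abs τ (ω i) := by
    refine Finset.sum_le_sum fun i _ => ?_
    rw [map_mul]
    exact mul_le_mul_of_nonneg_right (hΛ i) ((Fr.abs τ).nonneg _)
  refine h2.trans ?_
  rw [← Finset.mul_sum]
  exact mul_le_mul_of_nonneg_left hW hL

theorem thm_T9 (h1 : St_T1) (h2 : St_T2) (h3 : St_T3) (h4 : St_T4) (h5 : St_T5) (h6 : St_T6) :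
    St_T9 := by
  intro p _ K _ _ Fr B hB Θ C₀ hΘ
  classical
  rcases B.eq_empty_or_nonempty with hBe | ⟨β₀, hβ₀⟩
  · subst hBe
    refine ⟨1, ∅, by simp, ?_⟩
    intro y _ δ hc _
    left
    have hemp : IsEmpty Fr.Γ := ⟨fun τ => by
      obtain ⟨β, hβ, _⟩ := hc τ
      simp at hβ⟩
    unfold Frame.H
    simp
  obtain ⟨n, ω, hω, hm⟩ := h3 p K B β₀
  obtain ⟨s, hs⟩ := h1 p K n ω hω
  obtain ⟨M, φ, χ, hφL, hχL, _, hφω, hχω, hdec⟩ := h2 p K s n ω hs (Fr.fd s)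
  have hχ0 : ∀ j, ∀ β ∈ B, χ j (β - β₀) = 0 := by
    intro j β hβ
    obtain ⟨m, hmc, hme⟩ := hm β hβ
    rw [hme, T9_lin (χ j) (hχL j) ω m hmc]
    refine Finset.sum_eq_zero fun i _ => ?_
    rw [hχω, mul_zero]
  have hφc : ∀ i, ∀ β ∈ B, Core p (φ i (β - β₀)) := by
    intro i β hβ
    obtain ⟨m, hmc, hme⟩ := hm β hβ
    rw [hme, T9_lin (φ i) (hφL i) ω m hmc]
    have : ∑ j, m j * φ i (ω j) = m i := by
      simp only [hφω, mul_ite, mul_one, mul_zero, Finset.sum_ite_eq, Finset.mem_univ, if_true]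
    rw [this]
    exact hmc i
  have H5 := fun j => h5 p K Fr s (χ j) (hχL j) B β₀ (hB β₀ hβ₀) (hχ0 j) Θ C₀ hΘ
  choose C5 hC5 using H5
  have H6 := fun i => h6 p K Fr s (φ i) (hφL i) B β₀ (hB β₀ hβ₀) (hφc i) Θ C₀ hΘ
  choose C6 hC61 hC6 using H6
  have Hb := fun i => (Fr.bd s (φ i) (hφL i)).1
  choose Cb hCb using Hb
  obtain ⟨C₅, hC₅1, hC₅⟩ := T9_fin C5
  obtain ⟨C₂, hC₂1, hC₂⟩ := T9_fin C6
  obtain ⟨C, hC1, hCC⟩ := T9_fin Cb
  have hC : ∀ i τ u, Fr.abs τ (φ i u) ≤ C * Fr.abs τ u := fun i τ u =>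
    (hCb i τ u).trans (mul_le_mul_of_nonneg_right (hCC i) ((Fr.abs τ).nonneg u))
  obtain ⟨W₁, hW₁1, hW₁⟩ := T9_fin (fun τ : Fr.Γ => ∑ i, Fr.abs τ (ω i))
  obtain ⟨W₂, hW₂1, hW₂⟩ := T9_fin (fun τ : Fr.Γ => Fr.abs τ β₀)
  obtain ⟨W, hW⟩ : ∃ W, W = W₁ + W₂ := ⟨_, rfl⟩
  have hW1 : 1 ≤ W := by linarith
  have hWω : ∀ τ : Fr.Γ, ∑ i, Fr.abs τ (ω i) ≤ W := fun τ => by
    have := hW₁ τ
    linarith
  have hWβ : ∀ τ : Fr.Γ, Fr.abs τ β₀ ≤ W := fun τ => by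
    have := hW₂ τ
    linarith
  have hρ1 := Fr.one_lt
  have hρ0 : 0 < Fr.ρ := by linarith
  obtain ⟨E, hE⟩ := pow_unbounded_of_one_lt (2 * W + 2 * C + 2 * W * C * C₂) hρ1
  have hWCC : 0 < 2 * W * C * C₂ := by positivity
  refine ⟨C₅ + 2 * W, Finset.Icc 1 (E : ℤ) ×ˢ Finset.Icc (-(E : ℤ)) E, ?_, ?_⟩
  · intro q hq
    have := (Finset.mem_product.1 hq).1
    rw [Finset.mem_Icc] at this
    omega
  intro y hy δ hcl hH
  by_cases hbig : Fr.H y ≤ C₅ + 2 * W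
  · left; exact hbig
  right
  intro τ
  by_cases hτ : Fr.abs τ y ≤ C₅ + 2 * W
  · left; exact hτ
  right
  have hχy : ∀ j, χ j (y - β₀) = 0 := fun j =>
    (hC5 j y hy δ hcl hH).resolve_left (by
      intro h
      apply hbig
      have := hC₅ j
      linarith)
  have hy' : y - β₀ = ∑ i, φ i (y - β₀) * ω i := hdec _ hχy
  have hyle : Fr.abs τ y ≤ Fr.abs τ (y - β₀) + W := by
    have h7 : y = (y - β₀) + β₀ := by ring
    have h8 := (Fr.abs τ).add_le (y - β₀) β₀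
    rw [← h7] at h8
    linarith [hWβ τ]
  have hyle' : Fr.abs τ (y - β₀) ≤ Fr.abs τ y + W := by
    have h8 := (Fr.abs τ).sub_le y 0 β₀
    rw [sub_zero, zero_sub, map_neg_eq_map] at h8
    linarith [hWβ τ]
  push Not at hτ
  have hcore : ¬ ∀ s i, ∃ w, φ i (y - β₀) = w ^ p ^ s := by
    intro hcore
    have h7 : ∀ i, Fr.abs τ (φ i (y - β₀)) ≤ 1 := by
      intro i
      by_cases h0 : φ i (y - β₀) = 0
      · rw [h0, map_zero]
        norm_num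
      · exact (h4 p K Fr _ (fun s => hcore s i) h0 τ).le
    have h8 := T9_sum Fr τ ω (fun i => φ i (y - β₀)) (y - β₀) hy' W 1 zero_le_one (hWω τ) h7
    linarith
  obtain ⟨t, ht1, i₀, hi₀⟩ := T9_exp (fun i => φ i (y - β₀)) hcore
  choose l hl using ht1
  have hp0 : 0 < p := (Fact.out : p.Prime).pos
  obtain ⟨Q, hQ⟩ : ∃ Q : ℕ, Q = p ^ t := ⟨_, rfl⟩
  have hQ1 : 1 ≤ Q := hQ ▸ Nat.one_le_pow _ _ hp0
  have hHy : Fr.H y ≤ C₂ ^ Q := by
    have h7 := hC6 i₀ y hy δ hcl hH t (l i₀) (hl i₀) (by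
      rintro ⟨w, hw⟩
      apply hi₀ w
      rw [hl i₀, hw, ← pow_mul, pow_succ, mul_comm])
    rw [← hQ] at h7
    exact h7.trans (pow_le_pow_left₀ (by linarith [hC61 i₀]) (hC₂ i₀) Q)
  rw [← hQ] at hl
  have hyH : Fr.abs τ y ≤ Fr.H y := (le_max_right _ _).trans (T9_le_H Fr y τ)
  have h1H : 1 ≤ Fr.H y := (le_max_left _ _).trans (T9_le_H Fr y τ)
  have hlQ : ∀ i, Fr.abs τ (l i) ^ Q = Fr.abs τ (φ i (y - β₀)) := fun i => by
    rw [hl i, map_pow]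
  have hlb : ∀ i, Fr.abs τ (l i) ≤ 2 * W * C * C₂ := by
    intro i
    refine le_of_pow_le_pow_left₀ (by omega : Q ≠ 0) hWCC.le ?_
    rw [hlQ i]
    have h7 : Fr.abs τ (φ i (y - β₀)) ≤ C * (2 * W * Fr.H y) := by
      refine (hC i τ _).trans (mul_le_mul_of_nonneg_left ?_ (by linarith))
      refine hyle'.trans ?_
      nlinarith
    have h8 : C * (2 * W * Fr.H y) ≤ (2 * W * C) * C₂ ^ Q := by
      have : C * (2 * W * Fr.H y) = (2 * W * C) * Fr.H y := by ring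
      rw [this]
      exact mul_le_mul_of_nonneg_left hHy (by positivity)
    have h9 : (2 * W * C) ≤ (2 * W * C) ^ Q := by
      refine le_self_pow₀ ?_ (by omega)
      nlinarith
    calc Fr.abs τ (φ i (y - β₀)) ≤ C * (2 * W * Fr.H y) := h7
      _ ≤ (2 * W * C) * C₂ ^ Q := h8
      _ ≤ (2 * W * C) ^ Q * C₂ ^ Q := mul_le_mul_of_nonneg_right h9 (by positivity)
      _ = _ := by rw [← mul_pow]
  obtain ⟨i₁, _, hmax⟩ := Finset.exists_max_image Finset.univ (fun i => Fr.abs τ (l i))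
    ⟨i₀, Finset.mem_univ _⟩
  have hub : Fr.abs τ y ≤ Fr.abs τ (l i₁) ^ Q * W + W := by
    have h8 := T9_sum Fr τ ω (fun i => φ i (y - β₀)) (y - β₀) hy' W (Fr.abs τ (l i₁) ^ Q)
      (pow_nonneg ((Fr.abs τ).nonneg _) _) (hWω τ) (fun i => by
        rw [← hlQ i]
        exact pow_le_pow_left₀ ((Fr.abs τ).nonneg _) (hmax i (Finset.mem_univ _)) Q)
    linarith
  have hl1 : 1 < Fr.abs τ (l i₁) ^ Q := by
    by_contra hcon
    push Not at hcon
    have : Fr.abs τ (l i₁) ^ Q * W ≤ 1 * W := mul_le_mul_of_nonneg_right hcon (by linarith)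
    linarith
  have hne : l i₁ ≠ 0 := by
    intro h0
    rw [h0, map_zero, zero_pow (by omega)] at hl1
    linarith
  obtain ⟨a, ha⟩ := Fr.disc τ (l i₁) hne
  have hy0 : y ≠ 0 := by
    intro h0
    rw [h0, map_zero] at hτ
    linarith
  obtain ⟨z, hz⟩ := Fr.disc τ y hy0
  have haQ : Fr.abs τ (l i₁) ^ Q = Fr.ρ ^ (a * (Q : ℤ)) := by
    rw [ha, zpow_mul, zpow_natCast]
  have ha0 : 0 < a := by
    by_contra hcon
    push Not at hcon
    have h7 : Fr.abs τ (l i₁) ≤ 1 := by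
      rw [ha]
      exact zpow_le_one_of_nonpos₀ hρ1.le hcon
    have := pow_le_one₀ (n := Q) ((Fr.abs τ).nonneg _) h7
    linarith
  have haE : a < E := by
    have h7 : Fr.ρ ^ a < Fr.ρ ^ (E : ℤ) := by
      rw [← ha, zpow_natCast]
      have := hlb i₁
      linarith
    exact (zpow_lt_zpow_iff_right₀ hρ1).1 h7
  have hz1 : z < E + a * Q := by
    have h7 : Fr.ρ ^ z < Fr.ρ ^ ((E : ℤ) + a * Q) := by
      rw [← hz, zpow_add₀ hρ0.ne', ← haQ, zpow_natCast]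
      have h8 : 2 * W < Fr.ρ ^ E := by linarith
      have h9 : 2 * W * Fr.abs τ (l i₁) ^ Q < Fr.ρ ^ E * Fr.abs τ (l i₁) ^ Q :=
        mul_lt_mul_of_pos_right h8 (by linarith)
      nlinarith
    exact (zpow_lt_zpow_iff_right₀ hρ1).1 h7
  have hz2 : a * Q < E + z := by
    have h7 : Fr.ρ ^ (a * (Q : ℤ)) < Fr.ρ ^ ((E : ℤ) + z) := by
      rw [← haQ, zpow_add₀ hρ0.ne', ← hz, zpow_natCast, hlQ i₁]
      have h8 : 2 * C < Fr.ρ ^ E := by linarith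
      have hypos : 0 < Fr.abs τ y := by linarith
      have h9 : 2 * C * Fr.abs τ y < Fr.ρ ^ E * Fr.abs τ y := mul_lt_mul_of_pos_right h8 hypos
      have h10 := hC i₁ τ (y - β₀)
      have h11 : Fr.abs τ (y - β₀) ≤ 2 * Fr.abs τ y := by linarith
      have h12 : C * Fr.abs τ (y - β₀) ≤ C * (2 * Fr.abs τ y) :=
        mul_le_mul_of_nonneg_left h11 (by linarith)
      linarith
    exact (zpow_lt_zpow_iff_right₀ hρ1).1 h7
  refine ⟨t, (a, z - a * Q), ?_, ?_⟩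
  · rw [Finset.mem_product, Finset.mem_Icc, Finset.mem_Icc]
    exact ⟨⟨by simp only; omega, by simp only; omega⟩, by simp only; omega, by simp only; omega⟩
  · rw [hz]
    congr 1
    simp only [hQ]
    push_cast
    ring

end Pool.Agent.Helper79.DN
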