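import Pool.Agent.Helper79.DN.StW

/-!
# [W0] The resultant of an irreducible curve and a curve which does not contain it
-/

set_option autoImplicit false

namespace Pool.Agent.Helper79.DN

open Polynomial Pool.Agent.Helper11.SP

theorem thm_W0 : St_W0 := by
  intro L _ P E hP hd hn
  have hr : resultant P E ≠ 0 := resultant_ne P E hP hd hn
  obtain ⟨A, B, -, -, h⟩ := exists_mul_add_mul_eq_C_resultant P E le_rfl le_rfl (Or.inl hd.ne')
  exact ⟨resultant P E, A, B, hr, by rw [mul_comm A, mul_comm B]; exact h⟩

end Pool.Agent.Helper79.DN
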