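import Pool.Agent.Helper79.DN.StW

/-!
# Existence of the Boettcher coordinate
-/

set_option autoImplicit false

namespace Pool.Agent.Helper79.DN

open Polynomial Pool.Agent.Helper79.DM Pool.Agent.Helper11.SP

section

variable {L : Type} [NormedField L] [IsUltrametricDist L]

private theorem W1_norm {v : L} (hv : ‖v - 1‖ < 1) : ‖v‖ = 1 := by
  have := norm_eq_of_close (a := v) (b := 1) (by rw [norm_one]; exact hv)
  rw [this, norm_one]

private theorem W1_mul {v w : L} (hv : ‖v - 1‖ < 1) (hw : ‖w - 1‖ < 1) : ‖v * w - 1‖ < 1 := by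
  have h1 : v * w - 1 = (v - 1) * w + (w - 1) := by ring
  rw [h1]
  refine lt_of_le_of_lt (IsUltrametricDist.norm_add_le_max _ _) ?_
  rw [norm_mul, W1_norm hw, mul_one]
  exact max_lt hv hw

private theorem W1_inv {v : L} (hv : ‖v - 1‖ < 1) : ‖v⁻¹ - 1‖ < 1 := by
  have h0 : v ≠ 0 := by
    rintro rfl
    have := W1_norm hv
    rw [norm_zero] at this
    exact zero_ne_one this
  have h1 : v⁻¹ - 1 = -(v⁻¹ * (v - 1)) := by
    field_simp
    ring
  rw [h1, norm_neg, norm_mul, norm_inv, W1_norm hv, inv_one, one_mul]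
  exact hv

private theorem W1_ne {v : L} (hv : ‖v - 1‖ < 1) : v ≠ 0 := by
  rintro rfl
  have := W1_norm hv
  rw [norm_zero] at this
  exact zero_ne_one this

private theorem W1_div {v w : L} (hv : ‖v - 1‖ < 1) (hw : ‖w - 1‖ < 1) : ‖v / w - 1‖ < 1 := by
  rw [div_eq_mul_inv]
  exact W1_mul hv (W1_inv hw)

private theorem W1_pow {v : L} (hv : ‖v - 1‖ < 1) (n : ℕ) : ‖v ^ n - 1‖ < 1 :=
  lt_of_le_of_lt (close_one_pow hv n) hv

/-- roots of elements close to one -/
private theorem W1_root [IsAlgClosed L] (n : ℕ) (hn : 0 < n) (u : L) (hu : ‖u - 1‖ < 1) :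
    ∃ v : L, v ^ n = u ∧ ‖v - 1‖ < 1 := by
  have hm : (X ^ n - C u : L[X]).Monic := monic_X_pow_sub_C u hn.ne'
  have hs := (IsAlgClosed.splits (X ^ n - C u : L[X])).eq_prod_roots
  rw [hm.leadingCoeff, C_1, one_mul] at hs
  have h1 := congrArg (eval (1 : L)) hs
  rw [eval_multiset_prod, Multiset.map_map] at h1
  simp only [eval_sub, eval_pow, eval_X, eval_C, one_pow, Function.comp_def] at h1
  by_contra hcon
  push Not at hcon
  have h2 : ∀ r ∈ (X ^ n - C u : L[X]).roots, 1 ≤ ‖1 - r‖ := by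
    intro r hr
    have h3 := isRoot_of_mem_roots hr
    rw [IsRoot.def, eval_sub, eval_pow, eval_X, eval_C, sub_eq_zero] at h3
    rw [norm_sub_rev]
    exact hcon r h3
  have h4 : ∀ s : Multiset L, (∀ r ∈ s, 1 ≤ ‖1 - r‖) → 1 ≤ ‖(s.map fun r => 1 - r).prod‖ := by
    intro s
    induction s using Multiset.induction_on with
    | empty => intro _; simp
    | cons a s ih =>
      intro hs'
      rw [Multiset.map_cons, Multiset.prod_cons, norm_mul]
      have h5 := hs' a (Multiset.mem_cons_self _ _)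
      have h6 := ih fun r hr => hs' r (Multiset.mem_cons_of_mem hr)
      nlinarith
  have h7 := h4 _ h2
  rw [← h1, norm_sub_rev] at h7
  linarith

/-- uniqueness of the roots close to one -/
private theorem W1_uniq {p : ℕ} [Fact p.Prime] [CharP L p] (e m : ℕ) (hm : ¬ p ∣ m) (N : ℕ)
    {v w : L} (hv : ‖v - 1‖ < 1) (hw : ‖w - 1‖ < 1)
    (h : v ^ (p ^ e * m) ^ N = w ^ (p ^ e * m) ^ N) : v = w := by
  have hd : ‖v / w - 1‖ < 1 := W1_div hv hw
  have h1 := unit_pow e m hm hd N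
  rw [div_pow, h, div_self (pow_ne_zero _ (W1_ne hw)), sub_self, norm_zero] at h1
  have h2 : ‖v / w - 1‖ = 0 := by
    by_contra h3
    exact (pow_ne_zero _ h3) h1.symm
  rw [norm_eq_zero, sub_eq_zero, div_eq_one_iff_eq (W1_ne hw)] at h2
  exact h2

end

private theorem W1_lt (m N : ℕ) (hm : 2 ≤ m) : N + 1 ≤ m ^ N := Nat.lt_pow_self (by omega)

theorem thm_W1 : St_W1 := by
  intro p _ L _ _ _ _ _ e m hm2 hpm f hmon hdeg
  have hpp : p.Prime := Fact.out
  set q : ℕ := p ^ e with hq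
  set d : ℕ := q * m with hd
  have hq0 : 0 < q := pow_pos hpp.pos e
  have hd0 : 0 < d := Nat.mul_pos hq0 (by omega)
  -- a bound for the coefficients
  obtain ⟨M, hM1, hM⟩ : ∃ M : ℝ, 1 ≤ M ∧ ∀ i, ‖f.coeff i‖ ≤ M := by
    refine ⟨1 + ∑ i ∈ Finset.range (f.natDegree + 1), ‖f.coeff i‖, ?_, fun i => ?_⟩
    · have : 0 ≤ ∑ i ∈ Finset.range (f.natDegree + 1), ‖f.coeff i‖ :=
        Finset.sum_nonneg fun _ _ => norm_nonneg _
      linarith
    · have h0 : 0 ≤ ∑ i ∈ Finset.range (f.natDegree + 1), ‖f.coeff i‖ :=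
        Finset.sum_nonneg fun _ _ => norm_nonneg _
      by_cases hi : i ∈ Finset.range (f.natDegree + 1)
      · have := Finset.single_le_sum (f := fun i => ‖f.coeff i‖) (fun _ _ => norm_nonneg _) hi
        linarith
      · rw [Finset.mem_range, not_lt] at hi
        rw [coeff_eq_zero_of_natDegree_lt (by omega), norm_zero]
        linarith
  have hfx : ∀ x : L, f.eval x = x ^ d + ∑ i ∈ Finset.range d, f.coeff i * x ^ i := by
    intro x
    rw [eval_eq_sum_range, hdeg, Finset.sum_range_succ, ← hdeg, hmon.coeff_natDegree, one_mul,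
      add_comm]
  have hlow : ∀ x : L, ‖f.eval x - x ^ d‖ ≤ M * max 1 ‖x‖ ^ (d - 1) := by
    intro x
    rw [hfx, add_sub_cancel_left]
    refine IsUltrametricDist.norm_sum_le_of_forall_le_of_nonneg (by positivity) fun i hi => ?_
    rw [Finset.mem_range] at hi
    rw [norm_mul, norm_pow]
    refine mul_le_mul (hM i) ?_ (by positivity) (by linarith)
    exact (pow_le_pow_left₀ (norm_nonneg _) (le_max_right _ _) _).trans
      (pow_le_pow_right₀ (le_max_left _ _) (by omega))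
  set R : ℝ := M ^ 2 + 1 with hR
  have hR1 : 1 < R := by
    rw [hR]
    nlinarith
  have hMR : M ≤ R := by
    rw [hR]
    nlinarith
  -- the error term
  have heps : ∀ x : L, R < ‖x‖ → ‖f.eval x / x ^ d - 1‖ ^ 2 ≤ ‖x‖⁻¹ := by
    intro x hx
    have hxp : 0 < ‖x‖ := by linarith
    have hx0 : x ≠ 0 := norm_pos_iff.1 hxp
    have h1 : f.eval x / x ^ d - 1 = (f.eval x - x ^ d) / x ^ d := by
      field_simp
    have h2 : ‖f.eval x / x ^ d - 1‖ ≤ M * ‖x‖⁻¹ := by
      rw [h1, norm_div, norm_pow, div_le_iff₀ (by positivity)]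
      refine (hlow x).trans ?_
      rw [max_eq_right (by linarith)]
      have h3 : ‖x‖ ^ d = ‖x‖ * ‖x‖ ^ (d - 1) := by
        rw [← pow_succ']
        congr 1
        omega
      rw [h3]
      have h4 : M * ‖x‖⁻¹ * (‖x‖ * ‖x‖ ^ (d - 1)) = M * ‖x‖ ^ (d - 1) := by
        field_simp
      rw [h4]
    calc ‖f.eval x / x ^ d - 1‖ ^ 2 ≤ (M * ‖x‖⁻¹) ^ 2 :=
          pow_le_pow_left₀ (norm_nonneg _) h2 2
      _ = M ^ 2 * ‖x‖⁻¹ * ‖x‖⁻¹ := by ring
      _ ≤ ‖x‖ * ‖x‖⁻¹ * ‖x‖⁻¹ := by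
          have h5 : M ^ 2 ≤ ‖x‖ := by linarith
          have h6 : 0 ≤ ‖x‖⁻¹ := by positivity
          exact mul_le_mul_of_nonneg_right (mul_le_mul_of_nonneg_right h5 h6) h6
      _ = ‖x‖⁻¹ := by
          rw [mul_inv_cancel₀ hxp.ne', one_mul]
  have hepslt : ∀ x : L, R < ‖x‖ → ‖f.eval x / x ^ d - 1‖ < 1 := by
    intro x hx
    have h1 := heps x hx
    have h2 : ‖x‖⁻¹ < 1 := inv_lt_one_of_one_lt₀ (by linarith)
    by_contra hcon
    push Not at hcon
    have : 1 ≤ ‖f.eval x / x ^ d - 1‖ ^ 2 := one_le_pow₀ hcon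
    linarith
  have hnf : ∀ x : L, R < ‖x‖ → ‖f.eval x‖ = ‖x‖ ^ d := by
    intro x hx
    have hx0 : x ≠ 0 := norm_pos_iff.1 (by linarith)
    have h1 := W1_norm (hepslt x hx)
    rw [norm_div, norm_pow, div_eq_one_iff_eq (by positivity)] at h1
    exact h1
  have hfR : ∀ x : L, R < ‖x‖ → R < ‖f.eval x‖ := by
    intro x hx
    rw [hnf x hx]
    exact hx.trans_le (le_self_pow₀ (by linarith) hd0.ne')
  have horb : ∀ x : L, R < ‖x‖ → ∀ N, ‖orb f x N‖ = ‖x‖ ^ d ^ N ∧ R < ‖orb f x N‖ := by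
    intro x hx N
    induction N with
    | zero => exact ⟨by rw [pow_zero, pow_one]; rfl, hx⟩
    | succ N ih =>
      rw [orb_succ]
      refine ⟨?_, hfR _ ih.2⟩
      rw [hnf _ ih.2, ih.1, ← pow_mul, ← pow_succ]
  have hquo : ∀ x : L, R < ‖x‖ → ∀ N, ‖orb f x N / x ^ d ^ N - 1‖ < 1 := by
    intro x hx N
    have hx0 : x ≠ 0 := norm_pos_iff.1 (by linarith)
    induction N with
    | zero =>
      rw [pow_zero, pow_one]
      show ‖x / x - 1‖ < 1
      rw [div_self hx0, sub_self, norm_zero]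
      exact one_pos
    | succ N ih =>
      have hN0 : orb f x N ≠ 0 := norm_pos_iff.1 (by have := (horb x hx N).2; linarith)
      have h1 : orb f x (N + 1) / x ^ d ^ (N + 1) =
          (f.eval (orb f x N) / orb f x N ^ d) * (orb f x N / x ^ d ^ N) ^ d := by
        rw [orb_succ, div_pow, ← pow_mul, ← pow_succ]
        field_simp
      rw [h1]
      exact W1_mul (hepslt _ (horb x hx N).2) (W1_pow ih d)
  -- the approximations
  have hex : ∀ x : L, R < ‖x‖ → ∀ N, ∃ v : L, v ^ d ^ N = orb f x N / x ^ d ^ N ∧ ‖v - 1‖ < 1 :=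
    fun x hx N => W1_root (d ^ N) (pow_pos hd0 N) _ (hquo x hx N)
  choose! v hv using hex
  set c : ℝ := 1 / (2 * (q : ℝ)) with hc
  have hqR : (0 : ℝ) < q := by exact_mod_cast hq0
  have hc0 : 0 < c := by positivity
  have hρ : ∀ x : L, R < ‖x‖ → 0 < ‖x‖ ^ (-c) ∧ ‖x‖ ^ (-c) < 1 ∧
      (‖x‖ ^ (-c)) ^ (2 * q) = ‖x‖⁻¹ := by
    intro x hx
    have hxp : 0 < ‖x‖ := by linarith
    refine ⟨Real.rpow_pos_of_pos hxp _, Real.rpow_lt_one_of_one_lt_of_neg (by linarith)
      (by linarith), ?_⟩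
    rw [← Real.rpow_natCast, ← Real.rpow_mul hxp.le]
    have h1 : -c * ((2 * q : ℕ) : ℝ) = -1 := by
      rw [hc]
      push_cast
      field_simp
    rw [h1, Real.rpow_neg_one]
  have hstep : ∀ x : L, R < ‖x‖ → ∀ N, ‖v x (N + 1) - v x N‖ ≤ (‖x‖ ^ (-c)) ^ m ^ N := by
    intro x hx N
    obtain ⟨h1, h2⟩ := hv x hx N
    obtain ⟨h3, h4⟩ := hv x hx (N + 1)
    obtain ⟨hr0, hr1, hr2⟩ := hρ x hx
    have hx0 : x ≠ 0 := norm_pos_iff.1 (by linarith)
    have hN0 : orb f x N ≠ 0 := norm_pos_iff.1 (by have := (horb x hx N).2; linarith)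
    have hv0 : v x N ≠ 0 := W1_ne h2
    have h5 : ‖v x (N + 1) - v x N‖ = ‖v x (N + 1) / v x N - 1‖ := by
      have h6 : v x (N + 1) / v x N - 1 = (v x (N + 1) - v x N) / v x N := by
        field_simp
      rw [h6, norm_div, W1_norm h2, div_one]
    have h7 := unit_pow e m hpm (W1_div h4 h2) (N + 1)
    rw [← hq, ← hd] at h7
    have h8 : (v x (N + 1) / v x N) ^ d ^ (N + 1) = f.eval (orb f x N) / orb f x N ^ d := by
      have h9 : v x N ^ d ^ (N + 1) = (orb f x N / x ^ d ^ N) ^ d := by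
        rw [pow_succ, pow_mul, h1]
      rw [div_pow, h3, h9, orb_succ, div_pow, ← pow_mul, ← pow_succ]
      field_simp
    rw [h8] at h7
    rw [h5]
    have h10 := heps _ (horb x hx N).2
    rw [h7, (horb x hx N).1, ← inv_pow, ← hr2] at h10
    have h11 : 2 * q * d ^ N = m ^ N * (q ^ (N + 1) * 2) := by
      rw [hd, mul_pow]
      ring
    have h12 : (‖v x (N + 1) / v x N - 1‖ ^ q ^ (N + 1)) ^ 2 =
        ‖v x (N + 1) / v x N - 1‖ ^ (q ^ (N + 1) * 2) := (pow_mul _ _ _).symm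
    have h13 : ((‖x‖ ^ (-c)) ^ (2 * q)) ^ d ^ N =
        ((‖x‖ ^ (-c)) ^ m ^ N) ^ (q ^ (N + 1) * 2) := by
      rw [← pow_mul, ← pow_mul, h11]
    rw [h12, h13] at h10
    exact le_of_pow_le_pow_left₀ (by positivity) (by positivity) h10
  have hle : ∀ x : L, R < ‖x‖ → ∀ N, ‖v x N - 1‖ ≤ ‖x‖ ^ (-c) := by
    intro x hx N
    obtain ⟨hr0, hr1, hr2⟩ := hρ x hx
    have hx0 : x ≠ 0 := norm_pos_iff.1 (by linarith)
    induction N with
    | zero =>
      have h1 := (hv x hx 0).1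
      rw [pow_zero, pow_one, pow_one] at h1
      have h2 : v x 0 = 1 := by
        rw [h1]
        exact div_self hx0
      rw [h2, sub_self, norm_zero]
      exact hr0.le
    | succ N ih =>
      have h1 : v x (N + 1) - 1 = (v x (N + 1) - v x N) + (v x N - 1) := by ring
      rw [h1]
      refine (IsUltrametricDist.norm_add_le_max _ _).trans (max_le ?_ ih)
      refine (hstep x hx N).trans ?_
      exact pow_le_of_le_one hr0.le hr1.le (by positivity)
  have hlim : ∀ x : L, R < ‖x‖ → ∃ l, Filter.Tendsto (v x) Filter.atTop (nhds l) := by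
    intro x hx
    obtain ⟨hr0, hr1, hr2⟩ := hρ x hx
    refine cauchySeq_tendsto_of_complete
      (cauchySeq_of_le_geometric (‖x‖ ^ (-c)) 1 hr1 fun N => ?_)
    rw [dist_comm, dist_eq_norm, one_mul]
    refine (hstep x hx N).trans ?_
    exact pow_le_pow_of_le_one hr0.le hr1.le (by have := W1_lt m N hm2; omega)
  choose! l hl using hlim
  refine ⟨fun x => l x * x, R, c, hR1, hc0, fun x hx => ⟨hnf x hx, ?_, ?_⟩, fun x hx => ?_⟩
  · -- the functional equation
    show l (f.eval x) * f.eval x = (l x * x) ^ d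
    have hx0 : x ≠ 0 := norm_pos_iff.1 (by linarith)
    have hy := hfR x hx
    have hy0 : f.eval x ≠ 0 := norm_pos_iff.1 (by linarith)
    have hN : ∀ N, v (f.eval x) N * f.eval x = (v x (N + 1) * x) ^ d := by
      intro N
      obtain ⟨h1, h2⟩ := hv _ hy N
      obtain ⟨h3, h4⟩ := hv x hx (N + 1)
      have h5 : ‖(v x (N + 1) * x) ^ d / f.eval x - 1‖ < 1 := by
        have h6 : (v x (N + 1) * x) ^ d / f.eval x =
            v x (N + 1) ^ d / (f.eval x / x ^ d) := by
          rw [mul_pow]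
          field_simp
        rw [h6]
        exact W1_div (W1_pow h4 d) (hepslt x hx)
      have h7 : v (f.eval x) N = (v x (N + 1) * x) ^ d / f.eval x := by
        refine W1_uniq e m hpm N h2 h5 ?_
        rw [← hq, ← hd, h1, div_pow, ← pow_mul, ← pow_succ', mul_pow (v x (N + 1)) x, h3]
        have h8 : orb f (f.eval x) N = orb f x (N + 1) := (orb_add f x 1 N).symm
        rw [h8]
        field_simp
      rw [h7]
      field_simp
    have t1 : Filter.Tendsto (fun N => v (f.eval x) N * f.eval x) Filter.atTop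
        (nhds (l (f.eval x) * f.eval x)) := (hl _ hy).mul_const _
    have t2 : Filter.Tendsto (fun N => (v x (N + 1) * x) ^ d) Filter.atTop
        (nhds ((l x * x) ^ d)) :=
      (((hl x hx).comp (Filter.tendsto_add_atTop_nat 1)).mul_const x).pow d
    exact tendsto_nhds_unique t1 (t2.congr fun N => (hN N).symm)
  · show ‖l x * x / x - 1‖ ≤ ‖x‖ ^ (-c)
    have hx0 : x ≠ 0 := norm_pos_iff.1 (by linarith)
    rw [mul_div_assoc, div_self hx0, mul_one]
    exact le_of_tendsto ((hl x hx).sub_const 1).norm (Filter.Eventually.of_forall (hle x hx))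
  · have h1 : f.eval x = (f.eval x - x ^ d) + x ^ d := by ring
    rw [h1]
    refine (IsUltrametricDist.norm_add_le_max _ _).trans (max_le ?_ ?_)
    · refine (hlow x).trans ?_
      have h2 : max 1 ‖x‖ ^ (d - 1) ≤ R ^ (d - 1) :=
        pow_le_pow_left₀ (by positivity) (max_le hR1.le hx) _
      calc M * max 1 ‖x‖ ^ (d - 1) ≤ R * R ^ (d - 1) :=
            mul_le_mul hMR h2 (by positivity) (by linarith)
        _ = R ^ d := by
            rw [← pow_succ']
            congr 1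
            omega
    · rw [norm_pow]
      exact pow_le_pow_left₀ (norm_nonneg _) hx _

end Pool.Agent.Helper79.DN
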