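import Pool.Agent.Helper79.DN.StW

/-!
# Block W, W10: upper bound for symmetric functions
-/

set_option autoImplicit false

namespace Pool.Agent.Helper79.DN

open Polynomial Pool.Agent.Helper79.DM Pool.Agent.Helper11.SP

private theorem W10_sum {L : Type} [NormedField L] [IsUltrametricDist L] (C : ℝ) (hC : 0 ≤ C)
    (t : Multiset L) (h : ∀ x ∈ t, ‖x‖ ≤ C) : ‖t.sum‖ ≤ C := by
  induction t using Multiset.induction_on with
  | empty => simpa using hC
  | cons a t ih =>
    rw [Multiset.sum_cons]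
    refine (IsUltrametricDist.norm_add_le_max _ _).trans (max_le ?_ ?_)
    · exact h a (Multiset.mem_cons_self a t)
    · exact ih fun x hx => h x (Multiset.mem_cons_of_mem hx)

private theorem W10_B {α : Type} (B : α → ℝ) (β : ℝ) (hβ : 0 < β) (t : Multiset α)
    (h : ∀ y ∈ t, β ≤ B y) : 0 < (t.map B).prod ∧ β ^ Multiset.card t ≤ (t.map B).prod := by
  induction t using Multiset.induction_on with
  | empty => simp
  | cons a t ih =>
    obtain ⟨h1, h2⟩ := ih fun y hy => h y (Multiset.mem_cons_of_mem hy)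
    have h3 := h a (Multiset.mem_cons_self a t)
    rw [Multiset.map_cons, Multiset.prod_cons, Multiset.card_cons, pow_succ, mul_comm _ β]
    exact ⟨mul_pos (hβ.trans_le h3) h1, mul_le_mul h3 h2 (by positivity) (hβ.le.trans h3)⟩

private theorem W10_z {L : Type} [NormedField L] {α : Type} (z : α → L) (B : α → ℝ) (β ε : ℝ)
    (hβ : 0 < β) (hε : 0 ≤ ε) (F : α → Prop) [DecidablePred F] (t : Multiset α)
    (h : ∀ y ∈ t, β ≤ B y ∧ ‖z y‖ ≤ B y) (hF : ∀ y ∈ t, F y → B y = β ∧ ‖z y‖ ≤ ε * β) :
    ‖(t.map z).prod‖ ≤ (t.map B).prod * ε ^ t.countP F := by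
  induction t using Multiset.induction_on with
  | empty => simp
  | cons a t ih =>
    have ih' := ih (fun y hy => h y (Multiset.mem_cons_of_mem hy))
      (fun y hy => hF y (Multiset.mem_cons_of_mem hy))
    obtain ⟨h1, h2⟩ := h a (Multiset.mem_cons_self a t)
    have hB := (W10_B B β hβ t fun y hy => (h y (Multiset.mem_cons_of_mem hy)).1).1
    rw [Multiset.map_cons, Multiset.prod_cons, norm_mul, Multiset.map_cons, Multiset.prod_cons]
    by_cases ha : F a
    · rw [Multiset.countP_cons_of_pos _ ha, pow_succ]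
      obtain ⟨h3, h4⟩ := hF a (Multiset.mem_cons_self a t) ha
      calc ‖z a‖ * ‖(t.map z).prod‖ ≤ (ε * β) * ((t.map B).prod * ε ^ t.countP F) :=
            mul_le_mul h4 ih' (norm_nonneg _) (by positivity)
        _ = B a * (t.map B).prod * (ε ^ t.countP F * ε) := by rw [h3]; ring
    · rw [Multiset.countP_cons_of_neg _ ha]
      calc ‖z a‖ * ‖(t.map z).prod‖ ≤ B a * ((t.map B).prod * ε ^ t.countP F) :=
            mul_le_mul h2 ih' (norm_nonneg _) (hβ.le.trans h1)
        _ = B a * (t.map B).prod * ε ^ t.countP F := by ring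

theorem thm_W10 : St_W10 := by
  intro L _ _ α s z B β ε hβ hε hε1 F _ h hF j k hjk
  have hpos : 0 < β ^ k := pow_pos hβ k
  have hBs := (W10_B B β hβ s fun y hy => (h y hy).1).1
  have hR : 0 ≤ (s.map B).prod * ε ^ (s.countP F - k) :=
    mul_nonneg hBs.le (pow_nonneg hε _)
  rw [← le_div_iff₀ hpos]
  unfold Multiset.esymm
  rw [Multiset.powersetCard_map, Multiset.map_map]
  refine W10_sum _ (div_nonneg hR hpos.le) _ fun x hx => ?_
  rw [Multiset.mem_map] at hx
  obtain ⟨t, ht, rfl⟩ := hx
  rw [Multiset.mem_powersetCard] at ht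
  obtain ⟨hts, htc⟩ := ht
  obtain ⟨u, rfl⟩ := Multiset.le_iff_exists_add.1 hts
  have huc : Multiset.card u = k := by
    rw [Multiset.card_add] at hjk
    omega
  rw [le_div_iff₀ hpos]
  have h1 := W10_z z B β ε hβ hε F t (fun y hy => h y (Multiset.mem_add.2 (Or.inl hy)))
    (fun y hy => hF y (Multiset.mem_add.2 (Or.inl hy)))
  have h2 := (W10_B B β hβ u fun y hy => (h y (Multiset.mem_add.2 (Or.inr hy))).1).2
  have hBt := (W10_B B β hβ t fun y hy => (h y (Multiset.mem_add.2 (Or.inl hy))).1).1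
  have h3 : (t + u).countP F - k ≤ t.countP F := by
    rw [Multiset.countP_add]
    have := Multiset.countP_le_card (p := F) u
    omega
  have h4 : ε ^ t.countP F ≤ ε ^ ((t + u).countP F - k) := pow_le_pow_of_le_one hε hε1 h3
  rw [huc] at h2
  show ‖(Multiset.map z t).prod‖ * β ^ k ≤ _
  rw [Multiset.map_add, Multiset.prod_add]
  calc ‖(Multiset.map z t).prod‖ * β ^ k
      ≤ ((t.map B).prod * ε ^ t.countP F) * (u.map B).prod :=
        mul_le_mul h1 h2 hpos.le (mul_nonneg hBt.le (pow_nonneg hε _))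
    _ ≤ ((t.map B).prod * ε ^ ((t + u).countP F - k)) * (u.map B).prod := by
        refine mul_le_mul_of_nonneg_right (mul_le_mul_of_nonneg_left h4 hBt.le) ?_
        exact hpos.le.trans h2
    _ = (t.map B).prod * (u.map B).prod * ε ^ ((t + u).countP F - k) := by ring

end Pool.Agent.Helper79.DN
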