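import Pool.Agent.Helper79.DN.StW

/-!
# Block W, module W11: the dominant term of a symmetric function
-/

set_option autoImplicit false

namespace Pool.Agent.Helper79.DN

open Polynomial

theorem W11_esymm_zero {R : Type} [CommSemiring R] (s : Multiset R) : s.esymm 0 = 1 := by
  simp [Multiset.esymm]

theorem W11_esymm_cons {R : Type} [CommSemiring R] (a : R) (s : Multiset R) (n : ℕ) :
    (a ::ₘ s).esymm (n + 1) = s.esymm (n + 1) + a * s.esymm n := by
  simp only [Multiset.esymm, Multiset.powersetCard_cons, Multiset.map_add, Multiset.sum_add,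
    Multiset.map_map, Function.comp_def, Multiset.prod_cons]
  rw [Multiset.sum_map_mul_left]

theorem W11_esymm_of_lt {R : Type} [CommSemiring R] (s : Multiset R) (n : ℕ)
    (h : Multiset.card s < n) : s.esymm n = 0 := by
  rw [Multiset.esymm, Multiset.powersetCard_eq_empty n h]
  simp

theorem W11_bound {L : Type} [NormedField L] [IsUltrametricDist L] (v : ℝ) (hv : 0 < v)
    (s : Multiset L) : ∀ i k : ℕ, i + k = Multiset.card s →
      ‖s.esymm i‖ * v ^ k ≤ (s.map fun y => max ‖y‖ v).prod := by
  induction s using Multiset.induction with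
  | empty =>
    intro i k h
    have hi : i = 0 := by
      simp at h
      omega
    have hk : k = 0 := by
      simp at h
      omega
    rw [hi, hk, W11_esymm_zero]
    simp
  | cons w s ih =>
    intro i k h
    rw [Multiset.card_cons] at h
    rw [Multiset.map_cons, Multiset.prod_cons]
    have hP : 0 ≤ (s.map fun y => max ‖y‖ v).prod := by
      refine (ih 0 (Multiset.card s) (by simp)).trans' ?_
      positivity
    have hm : 0 ≤ max ‖w‖ v := le_trans hv.le (le_max_right _ _)
    rcases i with _ | i
    · rw [W11_esymm_zero]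
      obtain ⟨k', rfl⟩ : ∃ k', k = k' + 1 := ⟨Multiset.card s, by omega⟩
      have h1 := ih 0 k' (by omega)
      rw [W11_esymm_zero] at h1
      rw [pow_succ, ← mul_assoc, mul_comm]
      exact mul_le_mul (le_max_right _ _) h1 (by positivity) hm
    · rw [W11_esymm_cons]
      have hu : ‖s.esymm (i + 1) + w * s.esymm i‖ ≤
          max ‖s.esymm (i + 1)‖ ‖w * s.esymm i‖ := IsUltrametricDist.norm_add_le_max _ _
      have ha : ‖s.esymm (i + 1)‖ * v ^ k ≤ max ‖w‖ v * (s.map fun y => max ‖y‖ v).prod := by
        rcases k with _ | k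
        · rw [W11_esymm_of_lt s (i + 1) (by omega), norm_zero, zero_mul]
          exact mul_nonneg hm hP
        · have h1 := ih (i + 1) k (by omega)
          rw [pow_succ, ← mul_assoc, mul_comm]
          exact mul_le_mul (le_max_right _ _) h1 (by positivity) hm
      have hb : ‖w * s.esymm i‖ * v ^ k ≤ max ‖w‖ v * (s.map fun y => max ‖y‖ v).prod := by
        have h1 := ih i k (by omega)
        rw [norm_mul, mul_assoc]
        exact mul_le_mul (le_max_left _ _) h1 (by positivity) hm
      calc ‖s.esymm (i + 1) + w * s.esymm i‖ * v ^ k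
          ≤ max ‖s.esymm (i + 1)‖ ‖w * s.esymm i‖ * v ^ k :=
            mul_le_mul_of_nonneg_right hu (by positivity)
        _ ≤ _ := by
            rcases max_choice ‖s.esymm (i + 1)‖ ‖w * s.esymm i‖ with h2 | h2
            · rw [h2]
              exact ha
            · rw [h2]
              exact hb

theorem W11_core {L : Type} [NormedField L] [IsUltrametricDist L] (v : ℝ) (hv : 0 < v)
    (s₂ : Multiset L) (h2 : ∀ y ∈ s₂, v ≤ ‖y‖) (s₁ : Multiset L) :
    (∀ y ∈ s₁, ‖y‖ < v) →
    ‖(s₁ + s₂).esymm (Multiset.card s₂)‖ = (s₂.map fun y => ‖y‖).prod := by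
  have hpos : 0 < (s₂.map fun y => ‖y‖).prod := by
    apply Multiset.prod_pos
    intro a ha
    obtain ⟨y, hy, rfl⟩ := Multiset.mem_map.1 ha
    exact lt_of_lt_of_le hv (h2 y hy)
  induction s₁ using Multiset.induction with
  | empty =>
    intro _
    rw [zero_add, Multiset.esymm, Multiset.powersetCard_self]
    simp only [Multiset.map_singleton, Multiset.sum_singleton]
    have := map_multiset_prod (normHom : L →*₀ ℝ) s₂
    exact this
  | cons w s₁ ih =>
    intro h1
    have ih' := ih fun y hy => h1 y (Multiset.mem_cons_of_mem hy)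
    rcases hc : Multiset.card s₂ with _ | j
    · have : s₂ = 0 := Multiset.card_eq_zero.1 hc
      rw [this, W11_esymm_zero]
      simp
    · rw [hc] at ih'
      rw [Multiset.cons_add, W11_esymm_cons]
      have hb := W11_bound v hv (s₁ + s₂) j (Multiset.card s₁ + 1) (by
        rw [Multiset.card_add, hc]
        omega)
      have hprod : ((s₁ + s₂).map fun y => max ‖y‖ v).prod =
          v ^ Multiset.card s₁ * (s₂.map fun y => ‖y‖).prod := by
        rw [Multiset.map_add, Multiset.prod_add]
        congr 1
        · rw [Multiset.map_congr rfl (fun y hy =>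
            max_eq_right (h1 y (Multiset.mem_cons_of_mem hy)).le), Multiset.map_const',
            Multiset.prod_replicate]
        · congr 1
          exact Multiset.map_congr rfl (fun y hy => max_eq_left (h2 y hy))
      rw [hprod, pow_succ, ← mul_assoc, mul_comm ‖(s₁ + s₂).esymm j‖, mul_assoc] at hb
      have hb' : ‖(s₁ + s₂).esymm j‖ * v ≤ (s₂.map fun y => ‖y‖).prod :=
        le_of_mul_le_mul_left hb (by positivity)
      have hlt : ‖w * (s₁ + s₂).esymm j‖ < (s₂.map fun y => ‖y‖).prod := by
        rw [norm_mul]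
        rcases eq_or_ne ((s₁ + s₂).esymm j) 0 with h0 | h0
        · rw [h0, norm_zero, mul_zero]
          exact hpos
        · refine lt_of_lt_of_le ?_ hb'
          rw [mul_comm]
          exact mul_lt_mul_of_pos_left (h1 w (Multiset.mem_cons_self w s₁)) (norm_pos_iff.2 h0)
      rw [← ih'] at hlt ⊢
      rw [IsUltrametricDist.norm_add_eq_max_of_norm_ne_norm hlt.ne', max_eq_left hlt.le]

theorem thm_W11 : St_W11 := by
  intro L _ _ α s z F _ h j hj
  have hs : s.filter F + s.filter (fun y => ¬ F y) = s := Multiset.filter_add_not F s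
  have hc : Multiset.card (s.filter fun y => ¬ F y) = j := by
    have h1 := congrArg Multiset.card hs
    rw [Multiset.card_add, ← Multiset.countP_eq_card_filter] at h1
    omega
  rcases eq_or_ne (s.filter fun y => ¬ F y) 0 with h0 | h0
  · rw [h0] at hc ⊢
    rw [← hc]
    rw [Multiset.card_zero, W11_esymm_zero]
    simp
  · obtain ⟨v, hv, hv1, hv2⟩ : ∃ v : ℝ, 0 < v ∧ (∀ y ∈ s.filter F, ‖z y‖ < v) ∧
        ∀ y ∈ s.filter (fun y => ¬ F y), v ≤ ‖z y‖ := by
      classical
      obtain ⟨y₀, hy₀⟩ := Multiset.exists_mem_of_ne_zero h0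
      obtain ⟨x, hx, hmin⟩ := Finset.exists_min_image (s.filter fun y => ¬ F y).toFinset
        (fun y => ‖z y‖) ⟨y₀, Multiset.mem_toFinset.2 hy₀⟩
      rw [Multiset.mem_toFinset, Multiset.mem_filter] at hx
      refine ⟨‖z x‖, norm_pos_iff.2 (h x hx.1 hx.2).1, ?_, ?_⟩
      · intro y hy
        rw [Multiset.mem_filter] at hy
        exact (h x hx.1 hx.2).2 y hy.1 hy.2
      · intro y hy
        exact hmin y (Multiset.mem_toFinset.2 hy)
    have h3 := W11_core v hv ((s.filter fun y => ¬ F y).map z) (by
      intro a ha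
      obtain ⟨y, hy, rfl⟩ := Multiset.mem_map.1 ha
      exact hv2 y hy) ((s.filter F).map z) (by
      intro a ha
      obtain ⟨y, hy, rfl⟩ := Multiset.mem_map.1 ha
      exact hv1 y hy)
    rw [← Multiset.map_add, hs, Multiset.card_map, hc, Multiset.map_map] at h3
    exact h3

end Pool.Agent.Helper79.DN
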