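import Pool.Agent.Helper79.DN.StW

/-!
# Flat and not flat roots (module W12)
-/

set_option autoImplicit false

namespace Pool.Agent.Helper79.DN

open Polynomial Pool.Agent.Helper79.DM Pool.Agent.Helper11.SP

section

variable {L : Type*} [NormedField L] [IsUltrametricDist L]

theorem w12_norm_one {v : L} (hv : ‖v - 1‖ < 1) : ‖v‖ = 1 := by
  have h := norm_eq_of_close (a := v) (b := 1) (by rw [norm_one]; exact hv)
  rw [h, norm_one]

theorem w12_quot {u v : L} {δ : ℝ} (hδ : δ < 1) (hu : ‖u - 1‖ ≤ δ) (hv : ‖v - 1‖ ≤ δ)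
    (a b : ℕ) : ‖u ^ a / v ^ b - 1‖ ≤ δ := by
  have hv1 : ‖v‖ = 1 := w12_norm_one (lt_of_le_of_lt hv hδ)
  have hv0 : v ^ b ≠ 0 := by
    intro h
    have h1 : ‖v ^ b‖ = 1 := by rw [norm_pow, hv1, one_pow]
    rw [h, norm_zero] at h1
    exact zero_ne_one h1
  have h1 : u ^ a / v ^ b - 1 = ((u ^ a - 1) - (v ^ b - 1)) / v ^ b := by
    field_simp
    ring
  rw [h1, norm_div, norm_pow, hv1, one_pow, div_one]
  refine (norm_sub_le_max' _ _).trans (max_le ?_ ?_)
  · exact (close_one_pow (lt_of_le_of_lt hu hδ) a).trans hu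
  · exact (close_one_pow (lt_of_le_of_lt hv hδ) b).trans hv

theorem w12_aux {L : Type*} [Field L] (V : L) {w : L} (hw : w ≠ 0) (k : ℕ) :
    (V ^ k - 1) - (w ^ k - 1) = w ^ k * ((V / w) ^ k - 1) := by
  rw [div_pow]
  field_simp
  ring

/-- The norm of `V T - 1` for `T` close to one. -/
theorem w12_VT {V T : L} (hV : ‖V‖ = 1) (h : ‖T - 1‖ < ‖V - 1‖) : ‖V * T - 1‖ = ‖V - 1‖ := by
  have h1 : V * T - 1 = V * (T - 1) + (V - 1) := by ring
  rw [h1]
  have h2 : ‖V * (T - 1)‖ = ‖T - 1‖ := by rw [norm_mul, hV, one_mul]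
  rw [IsUltrametricDist.norm_add_eq_max_of_norm_ne_norm (by rw [h2]; exact ne_of_lt h), h2]
  exact max_eq_right h.le

/-- The two orbits compared with the Boettcher coordinates. -/
theorem w12_cmp (h2 : St_W2) {L : Type} [NormedField L] [IsUltrametricDist L] {d : ℕ}
    (hd : 1 ≤ d) {f g : L[X]} {φ ψ : L → L} {R c : ℝ} (hφ : IsPhi d f φ R c)
    (hψ : IsPhi d g ψ R c) {a b : ℕ} (ha : 0 < a) {c' : ℝ} (hc' : c' ≤ c)
    (hc'' : c' ≤ c * (b / a)) {x y : L} (hx : R < ‖x‖) (hy : R < ‖y‖)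
    (hxy : ‖y‖ ^ a = ‖x‖ ^ b) (hc0 : 0 < c') (N : ℕ) :
    ∃ T : L, ‖T - 1‖ ≤ ‖x‖ ^ (-(c' * (d : ℝ) ^ N)) ∧
      orb g y N ^ a = orb f x N ^ b * ((ψ y ^ a / φ x ^ b) ^ d ^ N * T) := by
  obtain ⟨hR, hc, -, -⟩ := id hφ
  obtain ⟨hf, -⟩ := h2 L d hd f φ R c hφ
  obtain ⟨hg, -⟩ := h2 L d hd g ψ R c hψ
  obtain ⟨hφx, hfN⟩ := hf x hx
  obtain ⟨hψy, hgN⟩ := hg y hy
  obtain ⟨hfn, -, hfr⟩ := hfN N
  obtain ⟨hgn, -, hgr⟩ := hgN N
  have hx1 : 1 < ‖x‖ := lt_trans hR hx
  have hy1 : 1 < ‖y‖ := lt_trans hR hy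
  have hdN : (0 : ℝ) < (d : ℝ) ^ N := by
    have : (0 : ℝ) < d := by exact_mod_cast hd
    positivity
  have hF0 : orb f x N ≠ 0 := by
    intro h
    rw [h, norm_zero] at hfn
    have : 0 < ‖x‖ ^ d ^ N := by positivity
    linarith
  have hG0 : orb g y N ≠ 0 := by
    intro h
    rw [h, norm_zero] at hgn
    have : 0 < ‖y‖ ^ d ^ N := by positivity
    linarith
  have hφ0 : φ x ≠ 0 := by
    intro h
    rw [h, norm_zero] at hφx
    linarith
  have hψ0 : ψ y ≠ 0 := by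
    intro h
    rw [h, norm_zero] at hψy
    linarith
  set δ : ℝ := ‖x‖ ^ (-(c' * (d : ℝ) ^ N)) with hδ
  have hδ1 : δ < 1 := by
    apply Real.rpow_lt_one_of_one_lt_of_neg hx1
    have : 0 < c' * (d : ℝ) ^ N := by positivity
    linarith
  have hv : ‖φ x ^ d ^ N / orb f x N - 1‖ ≤ δ := by
    refine hfr.trans ?_
    apply Real.rpow_le_rpow_of_exponent_le hx1.le
    have : c' * (d : ℝ) ^ N ≤ c * (d : ℝ) ^ N := mul_le_mul_of_nonneg_right hc' hdN.le
    linarith
  have hu : ‖ψ y ^ d ^ N / orb g y N - 1‖ ≤ δ := by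
    refine hgr.trans ?_
    have haR : (0 : ℝ) < a := by exact_mod_cast ha
    have hyx : ‖y‖ = ‖x‖ ^ ((b : ℝ) / a) := by
      have h1 : ‖x‖ ^ ((b : ℝ) / a) = (‖x‖ ^ b) ^ ((a : ℝ)⁻¹) := by
        rw [← Real.rpow_natCast, ← Real.rpow_mul (norm_nonneg _)]
        congr 1
      rw [h1, ← hxy, ← Real.rpow_natCast, ← Real.rpow_mul (norm_nonneg _),
        mul_inv_cancel₀ haR.ne', Real.rpow_one]
    rw [hyx, ← Real.rpow_mul (norm_nonneg _)]
    apply Real.rpow_le_rpow_of_exponent_le hx1.le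
    have : c' * (d : ℝ) ^ N ≤ c * (b / a) * (d : ℝ) ^ N :=
      mul_le_mul_of_nonneg_right hc'' hdN.le
    calc (b : ℝ) / a * -(c * (d : ℝ) ^ N) = -(c * (b / a) * (d : ℝ) ^ N) := by ring
      _ ≤ -(c' * (d : ℝ) ^ N) := by linarith
  refine ⟨(φ x ^ d ^ N / orb f x N) ^ b / (ψ y ^ d ^ N / orb g y N) ^ a,
    w12_quot hδ1 hv hu b a, ?_⟩
  have h1 : (ψ y ^ a / φ x ^ b) ^ d ^ N = (ψ y ^ d ^ N) ^ a / (φ x ^ d ^ N) ^ b := by
    rw [div_pow]
    congr 1
    · rw [← pow_mul, ← pow_mul, mul_comm]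
    · rw [← pow_mul, ← pow_mul, mul_comm]
  rw [h1]
  have e1 : φ x ^ d ^ N ≠ 0 := pow_ne_zero _ hφ0
  have e2 : ψ y ^ d ^ N ≠ 0 := pow_ne_zero _ hψ0
  rw [div_pow, div_pow]
  field_simp

end

/-- A double exponential comparison. -/
theorem w12_large {X c' η : ℝ} (hX : 1 < X) (hc : 0 < c') (hη : 0 < η) (q m : ℕ) (hq : 1 ≤ q)
    (hm : 2 ≤ m) : ∃ N₁ : ℕ, ∀ N, N₁ ≤ N →
      X ^ (-(c' * ((q * m : ℕ) : ℝ) ^ N)) < η ^ q ^ N := by
  have hX0 : 0 < X := by linarith
  have h1 : 1 < X ^ c' := Real.one_lt_rpow hX hc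
  obtain ⟨N₁, hN₁⟩ := pow_unbounded_of_one_lt (η⁻¹) h1
  refine ⟨N₁, fun N hN => ?_⟩
  have h2 : N₁ ≤ m ^ N := by
    calc N₁ ≤ N := hN
      _ ≤ 2 ^ N := Nat.lt_two_pow_self.le
      _ ≤ m ^ N := Nat.pow_le_pow_left hm N
  have h3 : η⁻¹ < (X ^ c') ^ m ^ N := lt_of_lt_of_le hN₁ (pow_le_pow_right₀ h1.le h2)
  have h4 : ((X ^ c') ^ m ^ N)⁻¹ < η := by
    rw [inv_lt_comm₀ (by positivity) hη]
    exact h3
  have h5 : X ^ (-(c' * ((q * m : ℕ) : ℝ) ^ N)) = (((X ^ c') ^ m ^ N)⁻¹) ^ q ^ N := by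
    rw [Real.rpow_neg hX0.le, inv_pow, ← pow_mul, Real.rpow_mul hX0.le]
    congr 1
    rw [← Real.rpow_natCast (X ^ c')]
    congr 1
    push_cast
    rw [mul_pow, mul_comm]
  rw [h5]
  exact pow_lt_pow_left₀ h4 (by positivity) (by positivity)

theorem thm_W12 (h2 : St_W2) (h6 : St_W6) : St_W12 := by
  classical
  intro p _ L _ _ _ _ e m hm hpm f g φ ψ R c hφ hψ a b ha hb P hP
  have hpp : p.Prime := Fact.out
  set q : ℕ := p ^ e with hq
  have hq1 : 1 ≤ q := Nat.one_le_iff_ne_zero.2 (pow_ne_zero _ hpp.ne_zero)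
  have hd1 : 1 ≤ q * m := Nat.one_le_iff_ne_zero.2 (by positivity)
  obtain ⟨hR, hc, -, -⟩ := id hφ
  obtain ⟨W, R₀', hW⟩ := h6 L a b ha hb P hP
  -- the number `N₀`
  have hex : ∀ w : L, ∃ n : ℕ, (∃ N, ‖w ^ (q * m) ^ N - 1‖ < 1) → ‖w ^ (q * m) ^ n - 1‖ < 1 := by
    intro w
    by_cases h : ∃ N, ‖w ^ (q * m) ^ N - 1‖ < 1
    · obtain ⟨N, hN⟩ := h
      exact ⟨N, fun _ => hN⟩
    · exact ⟨0, fun h' => absurd h' h⟩
  choose nn hnn using hex
  set N₀ : ℕ := W.sup nn with hN₀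
  have hN₀w : ∀ w ∈ W, (∃ N, ‖w ^ (q * m) ^ N - 1‖ < 1) → ‖w ^ (q * m) ^ N₀ - 1‖ < 1 := by
    intro w hw hN
    have h1 := hnn w hN
    have h3 : nn w ≤ N₀ := Finset.le_sup hw
    obtain ⟨k, hk⟩ := Nat.exists_eq_add_of_le h3
    rw [hk, pow_add, pow_mul]
    exact lt_of_le_of_lt (close_one_pow h1 _) h1
  have haR : (0 : ℝ) < a := by exact_mod_cast ha
  have hbR : (0 : ℝ) < b := by exact_mod_cast hb
  set c' : ℝ := min c (c * (b / a)) with hc'
  have hc'0 : 0 < c' := lt_min hc (by positivity)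
  refine ⟨N₀, max (max R R₀') (R ^ a), c', le_max_of_le_left (le_max_left _ _), hc'0, ?_⟩
  intro x y hx hev
  have hxR : R < ‖x‖ := lt_of_le_of_lt (le_max_of_le_left (le_max_left _ _)) hx
  have hxR' : R₀' < ‖x‖ := lt_of_le_of_lt (le_max_of_le_left (le_max_right _ _)) hx
  have hxRa : R ^ a < ‖x‖ := lt_of_le_of_lt (le_max_right _ _) hx
  have hx1 : 1 < ‖x‖ := lt_trans hR hxR
  have hxb : R ^ a < ‖x‖ ^ b := lt_of_lt_of_le hxRa (le_self_pow₀ hx1.le hb.ne')
  have hR0 : 0 < R := by linarith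
  obtain ⟨hf1, hf2⟩ := h2 L (q * m) hd1 f φ R c hφ
  obtain ⟨hg1, hg2⟩ := h2 L (q * m) hd1 g ψ R c hψ
  obtain ⟨hφx, hfN⟩ := hf1 x hxR
  have hFn : ∀ N, ‖orb f x N ^ b‖ = (‖x‖ ^ b) ^ (q * m) ^ N := by
    intro N
    rw [norm_pow, (hfN N).1, ← pow_mul, ← pow_mul, mul_comm]
  by_cases hyR : R < ‖y‖
  · obtain ⟨hψy, hgN⟩ := hg1 y hyR
    have hy1 : 1 < ‖y‖ := lt_trans hR hyR
    have hGn : ∀ N, ‖orb g y N ^ a‖ = (‖y‖ ^ a) ^ (q * m) ^ N := by
      intro N
      rw [norm_pow, (hgN N).1, ← pow_mul, ← pow_mul, mul_comm]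
    have hup : ∀ N, ‖zz f g a b N x y‖ ≤ max (‖y‖ ^ a) (‖x‖ ^ b) ^ (q * m) ^ N := by
      intro N
      unfold zz
      refine (norm_sub_le_max' _ _).trans ?_
      rw [hFn, hGn]
      exact max_le (pow_le_pow_left₀ (by positivity) (le_max_left _ _) _)
        (pow_le_pow_left₀ (by positivity) (le_max_right _ _) _)
    refine ⟨hup, ?_⟩
    by_cases hxy : ‖y‖ ^ a = ‖x‖ ^ b
    · -- the main case
      have hcmp := w12_cmp h2 hd1 hφ hψ ha (min_le_left c (c * (b / a)))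
        (min_le_right c (c * (b / a))) hxR hyR hxy hc'0
      rw [← hc'] at hcmp
      set V : L := ψ y ^ a / φ x ^ b with hV
      have hφ0 : φ x ≠ 0 := by
        intro h
        rw [h, norm_zero] at hφx
        linarith
      have hV1 : ‖V‖ = 1 := by
        rw [hV, norm_div, norm_pow, norm_pow, hψy, hφx, hxy]
        exact div_self (by positivity)
      have hmax : max (‖y‖ ^ a) (‖x‖ ^ b) = ‖x‖ ^ b := by rw [hxy, max_self]
      have hz : ∀ (N : ℕ) (T : L), orb g y N ^ a = orb f x N ^ b * (V ^ (q * m) ^ N * T) →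
          ‖zz f g a b N x y‖ = (‖x‖ ^ b) ^ (q * m) ^ N * ‖V ^ (q * m) ^ N * T - 1‖ := by
        intro N T hT
        unfold zz
        rw [hT, ← mul_sub_one, norm_mul, hFn]
      have hflat : Flat φ ψ R (a * (q * m) ^ N₀) (b * (q * m) ^ N₀) x y ↔
          V ^ (q * m) ^ N₀ = 1 := by
        unfold Flat
        rw [hV, div_pow, div_eq_one_iff_eq (pow_ne_zero _ (pow_ne_zero _ hφ0)), ← pow_mul,
          ← pow_mul]
        exact ⟨fun h => h.2, fun h => ⟨hyR, h⟩⟩
      have hδ1 : ∀ N : ℕ, ‖x‖ ^ (-(c' * ((q * m : ℕ) : ℝ) ^ N)) < 1 := by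
        intro N
        apply Real.rpow_lt_one_of_one_lt_of_neg hx1
        have h0 : (0 : ℝ) < ((q * m : ℕ) : ℝ) := by exact_mod_cast hd1
        have : 0 < c' * ((q * m : ℕ) : ℝ) ^ N := by positivity
        linarith
      refine ⟨fun hfl => ⟨hxy, fun N hN => ?_⟩, fun hnf => ?_⟩
      · have hv := hflat.1 hfl
        obtain ⟨T, hT1, hT2⟩ := hcmp N
        rw [hz N T hT2]
        have h3 : V ^ (q * m) ^ N = 1 := by
          obtain ⟨k, rfl⟩ := Nat.exists_eq_add_of_le hN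
          rw [pow_add, pow_mul, hv, one_pow]
        rw [h3, one_mul, mul_comm]
        exact mul_le_mul_of_nonneg_right hT1 (by positivity)
      · have hnf' : V ^ (q * m) ^ N₀ ≠ 1 := fun h => hnf (hflat.2 h)
        rw [hmax]
        obtain ⟨w, hwW, hw1, hwx⟩ := hW x y hxR' hxy hev
        -- `V` is close to `w`
        have hVw : ‖V / w - 1‖ < 1 := by
          obtain ⟨T, hT1, hT2⟩ := hcmp 0
          have hT1' : ‖T - 1‖ < 1 := lt_of_le_of_lt hT1 (hδ1 0)
          have hx0 : x ≠ 0 := by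
            intro h
            rw [h, norm_zero] at hx1
            linarith
          have hw0 : w ≠ 0 := by
            intro h
            rw [h, norm_zero] at hw1
            linarith
          have h5 : y ^ a / x ^ b = V * T := by
            have h6 : y ^ a = x ^ b * (V * T) := by
              have h7 := hT2
              unfold orb at h7
              simp only [Function.iterate_zero, id_eq, pow_zero, pow_one] at h7
              exact h7
            rw [h6]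
            exact mul_div_cancel_left₀ _ (pow_ne_zero _ hx0)
          rw [h5] at hwx
          have h6 : V / w - 1 = ((V * T - w) - V * (T - 1)) / w := by
            field_simp
            ring
          rw [h6, norm_div, hw1, div_one]
          refine lt_of_le_of_lt (norm_sub_le_max' _ _) (max_lt hwx ?_)
          rw [norm_mul, hV1, one_mul]
          exact hT1'
        have hw0 : w ≠ 0 := by
          intro h
          rw [h, norm_zero] at hw1
          linarith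
        have hVwk : ∀ k : ℕ, ‖(V ^ k - 1) - (w ^ k - 1)‖ < 1 := by
          intro k
          have h7 : (V ^ k - 1) - (w ^ k - 1) = w ^ k * ((V / w) ^ k - 1) :=
            w12_aux V hw0 k
          rw [h7, norm_mul, norm_pow, hw1, one_pow, one_mul]
          exact lt_of_le_of_lt (close_one_pow hVw k) hVw
        by_cases hwN : ∃ N, ‖w ^ (q * m) ^ N - 1‖ < 1
        · have h8 := hN₀w w hwW hwN
          set v : L := V ^ (q * m) ^ N₀ with hvdef
          have h9 : ‖v - 1‖ < 1 := by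
            have h10 : v - 1 = ((V ^ (q * m) ^ N₀ - 1) - (w ^ (q * m) ^ N₀ - 1)) +
                (w ^ (q * m) ^ N₀ - 1) := by
              rw [hvdef]
              ring
            rw [h10]
            exact lt_of_le_of_lt (IsUltrametricDist.norm_add_le_max _ _) (max_lt (hVwk _) h8)
          have hη : 0 < ‖v - 1‖ := norm_pos_iff.2 (sub_ne_zero.2 hnf')
          obtain ⟨N₁, hN₁⟩ := w12_large hx1 hc'0 hη q m hq1 hm
          refine ⟨‖v - 1‖, max N₀ N₁, hη, h9.le, fun N hN => ?_⟩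
          have hN0 : N₀ ≤ N := (le_max_left _ _).trans hN
          have hN1 : N₁ ≤ N := (le_max_right _ _).trans hN
          obtain ⟨T, hT1, hT2⟩ := hcmp N
          rw [hz N T hT2, mul_comm]
          apply mul_le_mul_of_nonneg_left _ (by positivity)
          have h11 : ‖V ^ (q * m) ^ N - 1‖ = ‖v - 1‖ ^ q ^ (N - N₀) := by
            obtain ⟨k, rfl⟩ := Nat.exists_eq_add_of_le hN0
            rw [pow_add, pow_mul, ← hvdef, Nat.add_sub_cancel_left]
            exact unit_pow e m hpm h9 k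
          have h12 : ‖v - 1‖ ^ q ^ N ≤ ‖V ^ (q * m) ^ N - 1‖ := by
            rw [h11]
            exact pow_le_pow_of_le_one hη.le h9.le (Nat.pow_le_pow_right hq1 (Nat.sub_le _ _))
          rw [w12_VT (by rw [norm_pow, hV1, one_pow])]
          · exact h12
          · exact lt_of_le_of_lt hT1 (lt_of_lt_of_le (hN₁ N hN1) h12)
        · push Not at hwN
          refine ⟨1, 0, one_pos, le_rfl, fun N _ => ?_⟩
          obtain ⟨T, hT1, hT2⟩ := hcmp N
          rw [hz N T hT2, one_pow, one_mul]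
          have hT1' : ‖T - 1‖ < 1 := lt_of_le_of_lt hT1 (hδ1 N)
          have h13 : ‖V ^ (q * m) ^ N - 1‖ = ‖w ^ (q * m) ^ N - 1‖ :=
            norm_eq_of_close (lt_of_lt_of_le (hVwk _) (hwN N))
          have h14 : 1 ≤ ‖V ^ (q * m) ^ N - 1‖ := by rw [h13]; exact hwN N
          rw [w12_VT (by rw [norm_pow, hV1, one_pow]) (lt_of_lt_of_le hT1' h14)]
          exact le_mul_of_one_le_right (by positivity) h14
    · -- different norms
      have hne : ∀ n : ℕ, 0 < n → (‖y‖ ^ a) ^ n ≠ (‖x‖ ^ b) ^ n := by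
        intro n hn h
        exact hxy ((pow_left_inj₀ (by positivity) (by positivity) hn.ne').1 h)
      refine ⟨fun hfl => ?_, fun _ => ⟨1, 0, one_pos, le_rfl, fun N _ => ?_⟩⟩
      · exfalso
        have h := congrArg norm hfl.2
        rw [norm_pow, norm_pow, hψy, hφx, pow_mul, pow_mul] at h
        exact hne _ (by positivity) h
      · rw [one_pow, one_mul]
        unfold zz
        have h3 : ‖orb g y N ^ a‖ ≠ ‖orb f x N ^ b‖ := by
          rw [hFn, hGn]
          exact hne _ (by positivity)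
        rw [sub_eq_add_neg, IsUltrametricDist.norm_add_eq_max_of_norm_ne_norm
          (by rw [norm_neg]; exact h3), norm_neg, hFn, hGn]
        rcases le_total (‖y‖ ^ a) (‖x‖ ^ b) with h | h
        · rw [max_eq_right h]
          exact le_max_right _ _
        · rw [max_eq_left h]
          exact le_max_left _ _
  · -- `y` is small
    have hyR' : ‖y‖ ≤ R := not_lt.1 hyR
    have hya : ‖y‖ ^ a < ‖x‖ ^ b := lt_of_le_of_lt (pow_le_pow_left₀ (norm_nonneg _) hyR' a) hxb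
    have hmax : max (‖y‖ ^ a) (‖x‖ ^ b) = ‖x‖ ^ b := max_eq_right hya.le
    have hGn : ∀ N, ‖orb g y N ^ a‖ < (‖x‖ ^ b) ^ (q * m) ^ N := by
      intro N
      rw [norm_pow]
      calc ‖orb g y N‖ ^ a ≤ (R ^ (q * m) ^ N) ^ a :=
            pow_le_pow_left₀ (norm_nonneg _) (hg2 y hyR' N) a
        _ = (R ^ a) ^ (q * m) ^ N := by rw [← pow_mul, ← pow_mul, mul_comm]
        _ < (‖x‖ ^ b) ^ (q * m) ^ N := pow_lt_pow_left₀ hxb (by positivity) (by positivity)
    have hz : ∀ N, ‖zz f g a b N x y‖ = (‖x‖ ^ b) ^ (q * m) ^ N := by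
      intro N
      unfold zz
      rw [sub_eq_add_neg, IsUltrametricDist.norm_add_eq_max_of_norm_ne_norm
        (by rw [norm_neg, hFn]; exact ne_of_lt (hGn N)), norm_neg, hFn]
      exact max_eq_right (hGn N).le
    refine ⟨fun N => by rw [hz, hmax], fun hfl => absurd hfl.1 hyR,
      fun _ => ⟨1, 0, one_pos, le_rfl, fun N _ => ?_⟩⟩
    rw [hz, hmax, one_pow, one_mul]

end Pool.Agent.Helper79.DN
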