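import Pool.Agent.Helper79.DN.StW

/-!
# Block W: the number of flat roots
-/

set_option autoImplicit false

namespace Pool.Agent.Helper79.DN

open Polynomial Pool.Agent.Helper79.DM Pool.Agent.Helper11.SP

/-- one bound for finitely many elements -/
private theorem W13_unif {L : Type} (s : Multiset L) (F : L → Prop) (q : ℕ) (B z : ℕ → L → ℝ)
    (hB : ∀ N y, 0 ≤ B N y)
    (h : ∀ y ∈ s, ¬ F y → ∃ (η : ℝ) (N₁ : ℕ), 0 < η ∧ η ≤ 1 ∧
      ∀ N, N₁ ≤ N → η ^ q ^ N * B N y ≤ z N y) :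
    ∃ (η : ℝ) (N₁ : ℕ), 0 < η ∧ η ≤ 1 ∧
      ∀ y ∈ s, ¬ F y → ∀ N, N₁ ≤ N → η ^ q ^ N * B N y ≤ z N y := by
  induction s using Multiset.induction_on with
  | empty => exact ⟨1, 0, one_pos, le_rfl, fun y hy => absurd hy (Multiset.notMem_zero y)⟩
  | cons a s ih =>
    obtain ⟨η, N₁, h0, h1, h2⟩ := ih fun y hy => h y (Multiset.mem_cons_of_mem hy)
    by_cases ha : F a
    · refine ⟨η, N₁, h0, h1, fun y hy hF => ?_⟩
      rcases Multiset.mem_cons.1 hy with rfl | hy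
      · exact absurd ha hF
      · exact h2 y hy hF
    · obtain ⟨η', N₂, h0', h1', h2'⟩ := h a (Multiset.mem_cons_self a s) ha
      refine ⟨min η η', max N₁ N₂, lt_min h0 h0', (min_le_left _ _).trans h1,
        fun y hy hF N hN => ?_⟩
      have hm : 0 ≤ min η η' := (lt_min h0 h0').le
      rcases Multiset.mem_cons.1 hy with rfl | hy
      · refine le_trans ?_ (h2' N ((le_max_right _ _).trans hN))
        exact mul_le_mul_of_nonneg_right (pow_le_pow_left₀ hm (min_le_right _ _) _) (hB N _)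
      · refine le_trans ?_ (h2 y hy hF N ((le_max_left _ _).trans hN))
        exact mul_le_mul_of_nonneg_right (pow_le_pow_left₀ hm (min_le_left _ _) _) (hB N _)

/-- the powers of `θ` are much smaller -/
private theorem W13_lim (q m : ℕ) (hq : 1 ≤ q) (hm : 2 ≤ m) (η θ : ℝ) (hη : 0 < η) (h0 : 0 ≤ θ)
    (h1 : θ < 1) : ∃ N₁ : ℕ, ∀ N, N₁ ≤ N → θ ^ (q * m) ^ N < η ^ q ^ N := by
  obtain ⟨n, hn⟩ := exists_pow_lt_of_lt_one hη h1
  refine ⟨n, fun N hN => ?_⟩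
  have hmN : n ≤ m ^ N := hN.trans (Nat.lt_pow_self hm).le
  have h2 : θ ^ m ^ N < η := lt_of_le_of_lt (pow_le_pow_of_le_one h0 h1.le hmN) hn
  have hq0 : q ^ N ≠ 0 := pow_ne_zero _ (by omega)
  rw [mul_pow, mul_comm, pow_mul]
  exact pow_lt_pow_left₀ h2 (pow_nonneg h0 _) hq0

/-- the exponents -/
private theorem W13_algA (T c' : ℝ) (κ b k r n : ℕ) (hT : 0 < T) (hkr : k ≤ r) :
    T ^ (((κ : ℝ) - b * k - c' * ((r : ℝ) - k)) * n) * (T ^ (b * n)) ^ k =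
      (T ^ κ) ^ n * (T ^ (-(c' * (n : ℝ)))) ^ (r - k) := by
  have e1 : (T ^ (b * n)) ^ k = T ^ ((b : ℝ) * n * k) := by
    rw [← pow_mul, ← Real.rpow_natCast]
    push_cast
    rfl
  have e2 : (T ^ κ) ^ n = T ^ ((κ : ℝ) * n) := by
    rw [← pow_mul, ← Real.rpow_natCast]
    push_cast
    rfl
  have e3 : (T ^ (-(c' * (n : ℝ)))) ^ (r - k) = T ^ (-(c' * (n : ℝ)) * ((r : ℝ) - k)) := by
    rw [← Real.rpow_natCast, ← Real.rpow_mul hT.le, Nat.cast_sub hkr]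
  rw [e1, e2, e3, ← Real.rpow_add hT, ← Real.rpow_add hT]
  congr 1
  ring

private theorem W13_alg (C X X₁ c' : ℝ) (κ b k r n : ℕ) (hC : 0 < C) (hX₁ : 0 < X₁)
    (hX : X₁ < X) (hc : 0 < c') (hkr : k < r) :
    (C * X₁ ^ κ) ^ n / (X₁ ^ (b * n)) ^ k *
        (X / X₁) ^ (((κ : ℝ) - b * k - c' * ((r : ℝ) - k)) * n) * (X ^ (b * n)) ^ k ≤
      (C * X ^ κ) ^ n * ((X / X₁) ^ (-c')) ^ n := by
  have hX0 : 0 < X := hX₁.trans hX
  have hY : 1 < X / X₁ := (one_lt_div hX₁).2 hX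
  have hY0 : 0 < X / X₁ := one_pos.trans hY
  set Y := X / X₁ with hYd
  have hXe : X = Y * X₁ := (div_mul_cancel₀ X hX₁.ne').symm
  have h1 := W13_algA Y c' κ b k r n hY0 hkr.le
  have h2 : (X ^ (b * n)) ^ k = (Y ^ (b * n)) ^ k * (X₁ ^ (b * n)) ^ k := by
    rw [hXe, mul_pow, mul_pow]
  have hne : (X₁ ^ (b * n)) ^ k ≠ 0 := (pow_pos (pow_pos hX₁ _) _).ne'
  have h3 : (C * X₁ ^ κ) ^ n / (X₁ ^ (b * n)) ^ k *
        Y ^ (((κ : ℝ) - b * k - c' * ((r : ℝ) - k)) * n) * (X ^ (b * n)) ^ k =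
      (C * X ^ κ) ^ n * (Y ^ (-(c' * (n : ℝ)))) ^ (r - k) := by
    have : (C * X₁ ^ κ) ^ n / (X₁ ^ (b * n)) ^ k *
        Y ^ (((κ : ℝ) - b * k - c' * ((r : ℝ) - k)) * n) * (X ^ (b * n)) ^ k =
        (C * X₁ ^ κ) ^ n *
          (Y ^ (((κ : ℝ) - b * k - c' * ((r : ℝ) - k)) * n) * (Y ^ (b * n)) ^ k) := by
      rw [h2]
      field_simp
    rw [this, h1]
    have h4 : (C * X ^ κ) ^ n = (C * X₁ ^ κ) ^ n * (Y ^ κ) ^ n := by
      rw [← mul_pow, hXe, mul_pow Y X₁ κ]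
      congr 1
      ring
    rw [h4]
    ring
  rw [h3]
  refine mul_le_mul_of_nonneg_left ?_ (by positivity)
  have h5 : Y ^ (-(c' * (n : ℝ))) = (Y ^ (-c')) ^ n := by
    rw [← Real.rpow_natCast, ← Real.rpow_mul hY0.le]
    congr 1
    ring
  rw [h5]
  have h6 : Y ^ (-c') ≤ 1 := (Real.rpow_lt_one_of_one_lt_of_neg hY (by linarith)).le
  have h7 : 0 ≤ (Y ^ (-c')) ^ n := pow_nonneg (Real.rpow_nonneg hY0.le _) _
  calc ((Y ^ (-c')) ^ n) ^ (r - k) ≤ ((Y ^ (-c')) ^ n) ^ 1 :=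
        pow_le_pow_of_le_one h7 (pow_le_one₀ (Real.rpow_nonneg hY0.le _) h6) (by omega)
    _ = (Y ^ (-c')) ^ n := pow_one _

open Classical in
/-- products over a multiset and the elements with `F` -/
private theorem W13_prod {L : Type} (s : Multiset L) (F : L → Prop) (B z : L → ℝ) (β w : ℝ)
    (hw : 0 ≤ w) (hB : ∀ y ∈ s, 0 ≤ B y) (hF : ∀ y ∈ s, F y → B y = β)
    (hz : ∀ y ∈ s, ¬ F y → w * B y ≤ z y) (j : ℕ) (hj : j + s.countP F = Multiset.card s)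
    (hβ : 0 ≤ β) :
    w ^ j * (s.map B).prod ≤ ((s.filter fun y => ¬ F y).map z).prod * β ^ s.countP F := by
  have h1 : (s.map B).prod = ((s.filter F).map B).prod *
      ((s.filter fun y => ¬ F y).map B).prod := by
    rw [← Multiset.prod_add, ← Multiset.map_add, Multiset.filter_add_not]
  have h2 : ((s.filter F).map B).prod = β ^ s.countP F := by
    have : (s.filter F).map B = (s.filter F).map fun _ => β :=
      Multiset.map_congr rfl fun y hy => hF y (Multiset.mem_filter.1 hy).1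
        (Multiset.mem_filter.1 hy).2
    rw [this, Multiset.map_const', Multiset.prod_replicate, Multiset.countP_eq_card_filter]
  have hc : Multiset.card (s.filter fun y => ¬ F y) = j := by
    have h3 := congrArg Multiset.card (Multiset.filter_add_not F s)
    rw [Multiset.card_add, ← Multiset.countP_eq_card_filter] at h3
    omega
  have h3 : w ^ j * ((s.filter fun y => ¬ F y).map B).prod ≤
      ((s.filter fun y => ¬ F y).map z).prod := by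
    have : w ^ j * ((s.filter fun y => ¬ F y).map B).prod =
        ((s.filter fun y => ¬ F y).map fun y => w * B y).prod := by
      rw [Multiset.prod_map_mul, Multiset.map_const', Multiset.prod_replicate, hc]
    rw [this]
    refine Multiset.prod_map_le_prod_map₀ _ _ (fun y hy => ?_) fun y hy => ?_
    · exact mul_nonneg hw (hB y (Multiset.mem_filter.1 hy).1)
    · exact hz y (Multiset.mem_filter.1 hy).1 (Multiset.mem_filter.1 hy).2
  rw [h1, h2]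
  calc w ^ j * (β ^ s.countP F * ((s.filter fun y => ¬ F y).map B).prod)
      = (w ^ j * ((s.filter fun y => ¬ F y).map B).prod) * β ^ s.countP F := by ring
    _ ≤ _ := mul_le_mul_of_nonneg_right h3 (pow_nonneg hβ _)

section

variable {L : Type} [NormedField L]

private theorem W13_ev (f g : L[X]) (a b N : ℕ) (x y : L) :
    ev x y (((itc g N).map C) ^ a - C ((itc f N) ^ b)) = zz f g a b N x y := by
  have h2 : (evalRingHom x).comp (C : L →+* L[X]) = RingHom.id L := by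
    refine RingHom.ext fun q => ?_
    show (C q).eval x = q
    exact eval_C
  unfold ev zz
  rw [Polynomial.map_sub, Polynomial.map_pow, eval_sub, eval_pow, Polynomial.map_map, h2,
    Polynomial.map_id, map_C, eval_C]
  show (itc g N).eval y ^ a - ((itc f N) ^ b).eval x = _
  rw [eval_pow, itc_eval, itc_eval]
  rfl

private theorem W13_deg (f g : L[X]) (a b N d : ℕ) (hg : g.natDegree = d) :
    (((itc g N).map C) ^ a - C ((itc f N) ^ b) : L[X][X]).natDegree ≤ a * d ^ N := by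
  refine (natDegree_sub_le _ _).trans (max_le ?_ ?_)
  · refine natDegree_pow_le.trans ?_
    refine Nat.mul_le_mul_left _ (natDegree_map_le.trans ?_)
    rw [itc_natDegree, hg]
  · rw [natDegree_C]; exact Nat.zero_le _

private theorem W13_root {P : L[X][X]} {x y : L} (hy : y ∈ rts P x) : ev x y P = 0 :=
  isRoot_of_mem_roots hy

private theorem W13_card [IsAlgClosed L] {P : L[X][X]} {x : L}
    (h : P.leadingCoeff.eval x ≠ 0) : Multiset.card (rts P x) = P.natDegree := by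
  unfold rts
  exact IsAlgClosed.card_roots_map_eq_natDegree_of_leadingCoeff_ne_zero h

end

open Classical in
theorem thm_W13 (h7 : St_W7) (h8 : St_W8) (h9 : St_W9) (h10 : St_W10) (h11 : St_W11)
    (h12 : St_W12) : St_W13 := by
  intro p _ L _ _ _ _ hunb e m hm hpm f g hf hfd hg hgd φ ψ R c hφ hψ a b ha hb P hP
  obtain ⟨N₀, R', c', hR', hc', H12⟩ := h12 p L e m hm hpm f g φ ψ R c hφ hψ a b ha hb P hP
  obtain ⟨C₀, R'', κ, hC₀, H7⟩ := h7 L a b ha hb P hP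
  set d := p ^ e * m with hd
  have hp1 : 1 ≤ p ^ e := Nat.one_le_pow _ _ (Fact.out : p.Prime).pos
  obtain ⟨x₁, hx₁⟩ := hunb (max (max R' R'') 1)
  have hx₁' : R' < ‖x₁‖ := lt_of_le_of_lt ((le_max_left _ _).trans (le_max_left _ _)) hx₁
  have hx₁'' : R'' < ‖x₁‖ := lt_of_le_of_lt ((le_max_right _ _).trans (le_max_left _ _)) hx₁
  have hx₁1 : 1 < ‖x₁‖ := lt_of_le_of_lt (le_max_right _ _) hx₁
  refine ⟨N₀, ‖x₁‖, fun r hr x hx => ?_⟩
  set Fl : L → L → Prop := fun t y => Flat φ ψ R (a * d ^ N₀) (b * d ^ N₀) t y with hFl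
  have hfc : ∀ t, fc P φ ψ R (a * d ^ N₀) (b * d ^ N₀) t = (rts P t).countP (Fl t) := fun t => rfl
  by_contra hlt
  push Not at hlt
  set k := fc P φ ψ R (a * d ^ N₀) (b * d ^ N₀) x with hk
  have hkk : k = (rts P x).countP (Fl x) := hfc x
  have hR1 : ∀ t : L, ‖x₁‖ ≤ ‖t‖ → R' < ‖t‖ ∧ R'' < ‖t‖ ∧ 1 < ‖t‖ := fun t ht =>
    ⟨hx₁'.trans_le ht, hx₁''.trans_le ht, hx₁1.trans_le ht⟩
  have hcard : ∀ t : L, ‖x₁‖ ≤ ‖t‖ → Multiset.card (rts P t) = P.natDegree := fun t ht =>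
    W13_card (H7 t (hR1 t ht).2.1).1
  have hrD : r ≤ P.natDegree := by
    obtain ⟨t, ht, hrt⟩ := hr ‖x₁‖
    rw [hfc] at hrt
    exact hrt.trans ((Multiset.countP_le_card _ _).trans (hcard t ht.le).le)
  obtain ⟨j, hj⟩ : ∃ j, j + k = P.natDegree := ⟨P.natDegree - k, by omega⟩
  -- the numbers
  set Bd : ℕ → L → L → ℝ := fun N t y => max (‖y‖ ^ a) (‖t‖ ^ b) ^ d ^ N with hBd
  have hBd0 : ∀ N t y, 0 ≤ Bd N t y := fun N t y =>
    pow_nonneg (le_max_of_le_left (pow_nonneg (norm_nonneg _) _)) _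
  have hBprod : ∀ N t, ‖x₁‖ ≤ ‖t‖ → ‖P.leadingCoeff.eval t‖ ^ (a * d ^ N) *
      ((rts P t).map (Bd N t)).prod = (C₀ * ‖t‖ ^ κ) ^ d ^ N := by
    intro N t ht
    have h1 := (H7 t (hR1 t ht).2.1).2
    rw [← h1, mul_pow (‖P.leadingCoeff.eval t‖ ^ a), pow_mul]
    congr 1
    exact Multiset.prod_map_pow (m := rts P t)
      (f := fun y : L => max (‖y‖ ^ a) (‖t‖ ^ b)) (n := d ^ N)
  -- the polynomial `Q`
  have hQ : ∀ N, ∃ Q : L[X], ∀ t, ‖x₁‖ ≤ ‖t‖ → ‖Q.eval t‖ =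
      ‖P.leadingCoeff.eval t‖ ^ (a * d ^ N) *
        ‖((rts P t).map fun y => zz f g a b N t y).esymm j‖ := by
    intro N
    obtain ⟨Q, hQ⟩ := h8 L P (((itc g N).map C) ^ a - C ((itc f N) ^ b)) hP (a * d ^ N)
      (W13_deg f g a b N d hgd) j
    refine ⟨Q, fun t ht => ?_⟩
    rw [hQ t (H7 t (hR1 t ht).2.1).1, norm_mul, norm_pow]
    simp only [W13_ev]
  -- upper bounds
  have hβ : ∀ N (t y : L), (‖t‖ ^ b) ^ d ^ N ≤ Bd N t y := fun N t y =>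
    pow_le_pow_left₀ (pow_nonneg (norm_nonneg _) _) (le_max_right _ _) _
  have hzB : ∀ N (t y : L), ‖x₁‖ ≤ ‖t‖ → y ∈ rts P t → ‖zz f g a b N t y‖ ≤ Bd N t y :=
    fun N t y ht hy => (H12 t y (hR1 t ht).1 (W13_root hy)).1 N
  have hup1 : ∀ (N : ℕ) (Q : L[X]), (∀ t, ‖x₁‖ ≤ ‖t‖ → ‖Q.eval t‖ =
      ‖P.leadingCoeff.eval t‖ ^ (a * d ^ N) *
        ‖((rts P t).map fun y => zz f g a b N t y).esymm j‖) → ∀ t, ‖x₁‖ ≤ ‖t‖ →
      ‖Q.eval t‖ * (‖t‖ ^ (b * d ^ N)) ^ k ≤ (C₀ * ‖t‖ ^ κ) ^ d ^ N := by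
    intro N Q hQN t ht
    have ht1 := (hR1 t ht).2.2
    have ht0 : 0 < ‖t‖ := one_pos.trans ht1
    have h1 := h10 L L (rts P t) (fun y => zz f g a b N t y) (Bd N t) ((‖t‖ ^ b) ^ d ^ N) 1
      (by positivity) zero_le_one le_rfl (fun _ => False)
      (fun y hy => ⟨hβ N t y, hzB N t y ht hy⟩) (fun y _ hF => hF.elim) j k
      (by rw [hcard t ht]; exact hj)
    rw [one_pow, mul_one, ← pow_mul ‖t‖ b (d ^ N)] at h1
    rw [hQN t ht, ← hBprod N t ht, mul_assoc]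
    exact mul_le_mul_of_nonneg_left h1 (pow_nonneg (norm_nonneg _) _)
  have hup2 : ∀ (N : ℕ), N₀ ≤ N → ∀ (Q : L[X]), (∀ t, ‖x₁‖ ≤ ‖t‖ → ‖Q.eval t‖ =
      ‖P.leadingCoeff.eval t‖ ^ (a * d ^ N) *
        ‖((rts P t).map fun y => zz f g a b N t y).esymm j‖) → ∀ t, ‖x₁‖ ≤ ‖t‖ →
      r ≤ (rts P t).countP (Fl t) →
      ‖Q.eval t‖ * (‖t‖ ^ (b * d ^ N)) ^ k ≤ (C₀ * ‖t‖ ^ κ) ^ d ^ N *
        (‖t‖ ^ (-(c' * ((d ^ N : ℕ) : ℝ)))) ^ (r - k) := by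
    intro N hN Q hQN t ht hrt
    have ht1 := (hR1 t ht).2.2
    have ht0 : 0 < ‖t‖ := one_pos.trans ht1
    have hε0 : 0 ≤ ‖t‖ ^ (-(c' * ((d ^ N : ℕ) : ℝ))) := Real.rpow_nonneg ht0.le _
    have hε1 : ‖t‖ ^ (-(c' * ((d ^ N : ℕ) : ℝ))) ≤ 1 :=
      Real.rpow_le_one_of_one_le_of_nonpos ht1.le
        (neg_nonpos.2 (mul_nonneg hc'.le (Nat.cast_nonneg _)))
    have h1 := h10 L L (rts P t) (fun y => zz f g a b N t y) (Bd N t) ((‖t‖ ^ b) ^ d ^ N)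
      (‖t‖ ^ (-(c' * ((d ^ N : ℕ) : ℝ)))) (by positivity) hε0 hε1 (Fl t)
      (fun y hy => ⟨hβ N t y, hzB N t y ht hy⟩) (fun y hy hF => ?_) j k
      (by rw [hcard t ht]; exact hj)
    · rw [← pow_mul ‖t‖ b (d ^ N)] at h1
      rw [hQN t ht, ← hBprod N t ht, mul_assoc, mul_assoc]
      refine mul_le_mul_of_nonneg_left (h1.trans ?_) (pow_nonneg (norm_nonneg _) _)
      refine mul_le_mul_of_nonneg_left ?_ ?_
      · exact pow_le_pow_of_le_one hε0 hε1 (Nat.sub_le_sub_right hrt k)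
      · refine Multiset.prod_nonneg fun v hv => ?_
        obtain ⟨y, _, rfl⟩ := Multiset.mem_map.1 hv
        exact hBd0 N t y
    · obtain ⟨h2, h3⟩ := (H12 t y (hR1 t ht).1 (W13_root hy)).2.1 hF
      refine ⟨?_, ?_⟩
      · show max (‖y‖ ^ a) (‖t‖ ^ b) ^ d ^ N = (‖t‖ ^ b) ^ d ^ N
        rw [h2, max_self]
      · have h4 := h3 N hN
        rw [Nat.cast_pow]
        exact h4
  -- one `η` for all roots
  obtain ⟨η, N₁, hη0, hη1, hη⟩ := W13_unif (rts P x) (Fl x) (p ^ e) (fun N y => Bd N x y)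
    (fun N y => ‖zz f g a b N x y‖) (fun N y => hBd0 N x y)
    (fun y hy hF => (H12 x y (hR1 x hx.le).1 (W13_root hy)).2.2 hF)
  have hx1 := (hR1 x hx.le).2.2
  have hx0 : 0 < ‖x‖ := one_pos.trans hx1
  have hx₁0 : 0 < ‖x₁‖ := one_pos.trans hx₁1
  have hY : 1 < ‖x‖ / ‖x₁‖ := (one_lt_div hx₁0).2 hx
  obtain ⟨N₂, hN₂⟩ := W13_lim (p ^ e) m hp1 hm η (‖x‖ ^ (-c')) hη0
    (Real.rpow_nonneg hx0.le _) (Real.rpow_lt_one_of_one_lt_of_neg hx1 (by linarith))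
  obtain ⟨N₃, hN₃⟩ := W13_lim (p ^ e) m hp1 hm (η ^ j) ((‖x‖ / ‖x₁‖) ^ (-c'))
    (pow_pos hη0 j) (Real.rpow_nonneg (one_pos.trans hY).le _)
    (Real.rpow_lt_one_of_one_lt_of_neg hY (by linarith))
  obtain ⟨N, hN0, hN1, hN2, hN3⟩ : ∃ N, N₀ ≤ N ∧ N₁ ≤ N ∧ N₂ ≤ N ∧ N₃ ≤ N :=
    ⟨max (max N₀ N₁) (max N₂ N₃), (le_max_left _ _).trans (le_max_left _ _),
      (le_max_right _ _).trans (le_max_left _ _), (le_max_left _ _).trans (le_max_right _ _),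
      (le_max_right _ _).trans (le_max_right _ _)⟩
  obtain ⟨Q, hQN⟩ := hQ N
  -- Schwarz lemma
  have hS := h9 p L Q x₁ hx₁1
    ((C₀ * ‖x₁‖ ^ κ) ^ d ^ N / (‖x₁‖ ^ (b * d ^ N)) ^ k) (C₀ ^ d ^ N)
    (((κ : ℝ) - b * k - c' * ((r : ℝ) - k)) * ((d ^ N : ℕ) : ℝ))
    (fun t ht => by
      have h1 := hup1 N Q hQN t ht.ge
      rw [ht] at h1
      rwa [le_div_iff₀ (by positivity)])
    (fun B => by
      obtain ⟨t, ht, hrt⟩ := hr (max B ‖x₁‖)
      have ht1 : ‖x₁‖ ≤ ‖t‖ := ((le_max_right _ _).trans_lt ht).le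
      have ht0 : 0 < ‖t‖ := hx₁0.trans_le ht1
      rw [hfc] at hrt
      refine ⟨t, (le_max_left _ _).trans_lt ht, ?_⟩
      have h1 := hup2 N hN0 Q hQN t ht1 hrt
      have h2 := W13_algA ‖t‖ c' κ b k r (d ^ N) ht0 hlt.le
      have h3 : (C₀ * ‖t‖ ^ κ) ^ d ^ N * (‖t‖ ^ (-(c' * ((d ^ N : ℕ) : ℝ)))) ^ (r - k) =
          C₀ ^ d ^ N * ‖t‖ ^ (((κ : ℝ) - b * k - c' * ((r : ℝ) - k)) * ((d ^ N : ℕ) : ℝ)) *
            (‖t‖ ^ (b * d ^ N)) ^ k := by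
        rw [mul_assoc (C₀ ^ d ^ N), h2, mul_pow]
        ring
      rw [h3] at h1
      exact le_of_mul_le_mul_right h1 (by positivity)) x hx.le
  -- lower bound
  have hflat : ∀ y ∈ rts P x, Fl x y → Bd N x y = (‖x‖ ^ b) ^ d ^ N ∧
      ‖zz f g a b N x y‖ ≤ (‖x‖ ^ (-c')) ^ d ^ N * (‖x‖ ^ b) ^ d ^ N := by
    intro y hy hF
    obtain ⟨h2, h3⟩ := (H12 x y (hR1 x hx.le).1 (W13_root hy)).2.1 hF
    refine ⟨?_, ?_⟩
    · show max (‖y‖ ^ a) (‖x‖ ^ b) ^ d ^ N = (‖x‖ ^ b) ^ d ^ N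
      rw [h2, max_self]
    · have h4 := h3 N hN0
      have h5 : ‖x‖ ^ (-(c' * (d : ℝ) ^ N)) = (‖x‖ ^ (-c')) ^ d ^ N := by
        rw [← Real.rpow_natCast (‖x‖ ^ (-c')), ← Real.rpow_mul hx0.le, Nat.cast_pow]
        congr 1
        ring
      rw [← h5]
      exact h4
  have hjc : j + (rts P x).countP (Fl x) = Multiset.card (rts P x) := by
    rw [hcard x hx.le, ← hkk]
    exact hj
  have hlow := h11 L L (rts P x) (fun y => zz f g a b N x y) (Fl x)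
    (fun y hy hF => by
      have h1 := hη y hy hF N hN1
      have h2 : 0 < η ^ (p ^ e) ^ N * (‖x‖ ^ b) ^ d ^ N := by positivity
      have h3 : η ^ (p ^ e) ^ N * (‖x‖ ^ b) ^ d ^ N ≤ ‖zz f g a b N x y‖ :=
        le_trans (mul_le_mul_of_nonneg_left (hβ N x y) (by positivity)) h1
      refine ⟨norm_pos_iff.1 (h2.trans_le h3), fun y' hy' hF' => ?_⟩
      refine lt_of_le_of_lt (hflat y' hy' hF').2 (lt_of_lt_of_le ?_ h3)
      exact mul_lt_mul_of_pos_right (hN₂ N hN2) (by positivity)) j hjc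
  have hprod := W13_prod (rts P x) (Fl x) (fun y => Bd N x y) (fun y => ‖zz f g a b N x y‖)
    ((‖x‖ ^ b) ^ d ^ N) (η ^ (p ^ e) ^ N) (by positivity) (fun y _ => hBd0 N x y)
    (fun y hy hF => (hflat y hy hF).1) (fun y hy hF => hη y hy hF N hN1) j hjc (by positivity)
  have hlow2 : (η ^ (p ^ e) ^ N) ^ j * (C₀ * ‖x‖ ^ κ) ^ d ^ N ≤
      ‖Q.eval x‖ * (‖x‖ ^ (b * d ^ N)) ^ k := by
    rw [hQN x hx.le, ← hBprod N x hx.le, hlow, hkk, pow_mul ‖x‖ b (d ^ N)]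
    calc (η ^ (p ^ e) ^ N) ^ j * (‖P.leadingCoeff.eval x‖ ^ (a * d ^ N) *
          ((rts P x).map (Bd N x)).prod)
        = ‖P.leadingCoeff.eval x‖ ^ (a * d ^ N) *
          ((η ^ (p ^ e) ^ N) ^ j * ((rts P x).map (Bd N x)).prod) := by ring
      _ ≤ ‖P.leadingCoeff.eval x‖ ^ (a * d ^ N) *
          (((rts P x).filter fun y => ¬ Fl x y).map fun y => ‖zz f g a b N x y‖).prod *
            ((‖x‖ ^ b) ^ d ^ N) ^ (rts P x).countP (Fl x) := by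
          rw [mul_assoc (‖P.leadingCoeff.eval x‖ ^ (a * d ^ N))]
          exact mul_le_mul_of_nonneg_left hprod (pow_nonneg (norm_nonneg _) _)
  have hA := W13_alg C₀ ‖x‖ ‖x₁‖ c' κ b k r (d ^ N) hC₀ hx₁0 hx hc' hlt
  have hfin : (η ^ (p ^ e) ^ N) ^ j * (C₀ * ‖x‖ ^ κ) ^ d ^ N ≤
      ((‖x‖ / ‖x₁‖) ^ (-c')) ^ d ^ N * (C₀ * ‖x‖ ^ κ) ^ d ^ N := by
    refine hlow2.trans ((mul_le_mul_of_nonneg_right hS (by positivity)).trans (hA.trans ?_))
    rw [mul_comm]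
  have hfin2 : (η ^ (p ^ e) ^ N) ^ j ≤ ((‖x‖ / ‖x₁‖) ^ (-c')) ^ d ^ N :=
    le_of_mul_le_mul_right hfin (by positivity)
  have h3 := hN₃ N hN3
  rw [← pow_mul, mul_comm j, pow_mul] at h3
  exact absurd hfin2 (not_le.2 h3)

end Pool.Agent.Helper79.DN
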