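import Pool.Agent.Helper79.DN.StW

/-!
# Module W14: simple points of the curve
-/

set_option autoImplicit false

namespace Pool.Agent.Helper79.DN

open Polynomial Pool.Agent.Helper79.DM Pool.Agent.Helper11.SP

private theorem W14_ev {L : Type*} [CommRing L] (x y : L) (P : L[X][X]) :
    ev x y P = ∑ i ∈ Finset.range (P.natDegree + 1), (P.coeff i).eval x * y ^ i := by
  rw [ev, eval_map, eval₂_eq_sum_range]
  rfl

/-- The values of a polynomial in two variables depend continuously on the point. -/
theorem W14_continuous {L : Type*} [NormedField L] (P : L[X][X]) :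
    Continuous fun z : L × L => ev z.1 z.2 P := by
  have h : (fun z : L × L => ev z.1 z.2 P) = fun z : L × L =>
      ∑ i ∈ Finset.range (P.natDegree + 1), (P.coeff i).eval z.1 * z.2 ^ i := by
    funext z
    exact W14_ev _ _ _
  rw [h]
  refine continuous_finsetSum _ fun i _ => ?_
  exact ((P.coeff i).continuous.comp continuous_fst).mul (continuous_snd.pow i)

/-- The quotient of differences. -/
private noncomputable def W14_H {L : Type*} [CommRing L] (P : L[X][X]) (x y y' : L) : L :=
  ∑ i ∈ Finset.range (P.natDegree + 1), (P.coeff i).eval x *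
    ∑ j ∈ Finset.range i, y ^ j * y' ^ (i - 1 - j)

private theorem W14_H_spec {L : Type*} [CommRing L] (P : L[X][X]) (x y y' : L) :
    ev x y P - ev x y' P = (y - y') * W14_H P x y y' := by
  rw [W14_ev, W14_ev, W14_H, Finset.mul_sum, ← Finset.sum_sub_distrib]
  refine Finset.sum_congr rfl fun i _ => ?_
  have h := (Commute.all y y').mul_geom_sum₂ i
  calc (P.coeff i).eval x * y ^ i - (P.coeff i).eval x * y' ^ i
      = (P.coeff i).eval x * (y ^ i - y' ^ i) := by ring
    _ = (P.coeff i).eval x * ((y - y') * ∑ j ∈ Finset.range i, y ^ j * y' ^ (i - 1 - j)) := by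
        rw [h]
    _ = _ := by ring

private theorem W14_H_diag {L : Type*} [CommRing L] (P : L[X][X]) (x y : L) :
    W14_H P x y y = ev x y (derivative P) := by
  have h1 : ∀ i : ℕ, ∑ j ∈ Finset.range i, y ^ j * y ^ (i - 1 - j) = i * y ^ (i - 1) := by
    intro i
    have h2 : ∀ j ∈ Finset.range i, y ^ j * y ^ (i - 1 - j) = y ^ (i - 1) := by
      intro j hj
      rw [Finset.mem_range] at hj
      rw [← pow_add]
      congr 1
      omega
    rw [Finset.sum_congr rfl h2, Finset.sum_const, Finset.card_range, nsmul_eq_mul]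
  have h3 : ev x y (derivative P) = ∑ i ∈ Finset.range (P.natDegree + 1),
      (P.coeff i).eval x * (i * y ^ (i - 1)) := by
    rw [ev, ← derivative_map, derivative_eval,
      Polynomial.sum_over_range' _ _ (P.natDegree + 1)
        (lt_of_le_of_lt natDegree_map_le (Nat.lt_succ_self _))]
    · refine Finset.sum_congr rfl fun i _ => ?_
      rw [coeff_map]
      show (P.coeff i).eval x * (i : L) * y ^ (i - 1) = _
      ring
    · intro i
      ring
  rw [h3, W14_H]
  exact Finset.sum_congr rfl fun i _ => by rw [h1]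

private theorem W14_H_cont {L : Type*} [NormedField L] (P : L[X][X]) :
    Continuous fun z : L × L × L => W14_H P z.1 z.2.1 z.2.2 := by
  unfold W14_H
  refine continuous_finsetSum _ fun i _ => ?_
  refine ((P.coeff i).continuous.comp continuous_fst).mul ?_
  refine continuous_finsetSum _ fun j _ => ?_
  exact ((continuous_fst.comp continuous_snd).pow j).mul
    ((continuous_snd.comp continuous_snd).pow _)

private theorem W14_norm {L : Type*} [NormedField L] [IsUltrametricDist L] (a b : L)
    (h : ‖a - b‖ < ‖b‖) : ‖a‖ = ‖b‖ := by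
  have h1 : a = (a - b) + b := by ring
  rw [h1, IsUltrametricDist.norm_add_eq_max_of_norm_ne_norm h.ne, max_eq_right h.le]

private theorem W14_root {L : Type*} [NormedField L] [IsUltrametricDist L] (y : L) (δ : ℝ)
    (s : Multiset L) (h : ∀ a ∈ s, δ ≤ ‖y - a‖) (hδ : 0 ≤ δ) :
    ‖(derivative (s.map fun a => X - C a).prod).eval y‖ * δ ≤
      ‖((s.map fun a => X - C a).prod).eval y‖ := by
  induction s using Multiset.induction_on with
  | empty => simp
  | cons a s ih =>
    have ha := h a (Multiset.mem_cons_self _ _)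
    have hs := ih fun b hb => h b (Multiset.mem_cons_of_mem hb)
    rw [Multiset.map_cons, Multiset.prod_cons, derivative_mul, derivative_sub, derivative_X,
      derivative_C, sub_zero, one_mul, eval_add, eval_mul, eval_mul, eval_sub, eval_X, eval_C,
      norm_mul]
    set A := eval y (s.map fun a => X - C a).prod
    set B := eval y (derivative (s.map fun a => X - C a).prod)
    calc ‖A + (y - a) * B‖ * δ ≤ max ‖A‖ ‖(y - a) * B‖ * δ :=
          mul_le_mul_of_nonneg_right (IsUltrametricDist.norm_add_le_max _ _) hδ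
      _ = max (‖A‖ * δ) (‖(y - a) * B‖ * δ) := max_mul_of_nonneg _ _ hδ
      _ ≤ ‖y - a‖ * ‖A‖ := by
          refine max_le ?_ ?_
          · rw [mul_comm]
            exact mul_le_mul_of_nonneg_right ha (norm_nonneg _)
          · rw [norm_mul, mul_assoc]
            exact mul_le_mul_of_nonneg_left hs (norm_nonneg _)

theorem thm_W14 : St_W14 := by
  intro L _ _ _ P x₀ y₀ h0 h1
  have hv : 0 < ‖ev x₀ y₀ (derivative P)‖ := norm_pos_iff.mpr h1
  constructor
  · have c1 := Metric.continuous_iff.mp (W14_H_cont P) (x₀, y₀, y₀) _ hv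
    have c2 := Metric.continuous_iff.mp (W14_continuous (derivative P)) (x₀, y₀) _ hv
    obtain ⟨ε₁, hε₁, k1⟩ := c1
    obtain ⟨ε₂, hε₂, k2⟩ := c2
    refine ⟨min ε₁ ε₂, lt_min hε₁ hε₂, fun x y y' hx hy hy' => ?_⟩
    have hx1 := hx.trans_le (min_le_left ε₁ ε₂)
    have hx2 := hx.trans_le (min_le_right ε₁ ε₂)
    have hy1 := hy.trans_le (min_le_left ε₁ ε₂)
    have hy2 := hy.trans_le (min_le_right ε₁ ε₂)
    have hy1' := hy'.trans_le (min_le_left ε₁ ε₂)
    constructor
    · have e1 := k2 (x, y) (by
        rw [Prod.dist_eq, dist_eq_norm, dist_eq_norm]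
        exact max_lt hx2 hy2)
      rw [dist_eq_norm] at e1
      have e2 := W14_norm _ _ e1
      intro e3
      simp only at e2
      rw [e3, norm_zero] at e2
      exact hv.ne e2
    · have e1 := k1 (x, y, y') (by
        rw [Prod.dist_eq, Prod.dist_eq, dist_eq_norm, dist_eq_norm, dist_eq_norm]
        exact max_lt hx1 (max_lt hy1 hy1'))
      rw [dist_eq_norm] at e1
      simp only [W14_H_diag] at e1
      rw [W14_H_spec, norm_mul, W14_norm _ _ e1]
  · intro δ hδ
    have hc : ∀ Q : L[X][X], Continuous fun x : L => ev x y₀ Q := fun Q =>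
      (W14_continuous Q).comp (continuous_id.prodMk continuous_const)
    obtain ⟨ε₁, hε₁, k1⟩ := Metric.continuous_iff.mp (hc P) x₀ _ (mul_pos hv hδ)
    obtain ⟨ε₂, hε₂, k2⟩ := Metric.continuous_iff.mp (hc (derivative P)) x₀ _ hv
    refine ⟨min ε₁ ε₂, lt_min hε₁ hε₂, fun x hx => ?_⟩
    have e1 := k1 x (by rw [dist_eq_norm]; exact hx.trans_le (min_le_left _ _))
    have e2 := k2 x (by rw [dist_eq_norm]; exact hx.trans_le (min_le_right _ _))
    rw [dist_eq_norm, h0, sub_zero] at e1
    rw [dist_eq_norm] at e2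
    have e3 := W14_norm _ _ e2
    by_contra hcon
    push Not at hcon
    set Q := P.map (evalRingHom x) with hQ
    have hQe : ev x y₀ P = Q.eval y₀ := rfl
    have hQd : ev x y₀ (derivative P) = (derivative Q).eval y₀ := by
      rw [hQ, derivative_map]
      rfl
    have hsp := (IsAlgClosed.splits Q).eq_prod_roots
    have hQ0 : Q ≠ 0 := by
      intro hz
      rw [hQd, hz, derivative_zero, eval_zero, norm_zero] at e3
      exact hv.ne e3
    have hr : ∀ a ∈ Q.roots, δ ≤ ‖y₀ - a‖ := by
      intro a ha
      by_contra hlt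
      push Not at hlt
      refine hcon a ?_ ((mem_roots hQ0).mp ha)
      rwa [norm_sub_rev]
    have e4 := W14_root y₀ δ Q.roots hr hδ.le
    have e5 : ‖(derivative Q).eval y₀‖ * δ ≤ ‖Q.eval y₀‖ := by
      rw [hsp, derivative_mul, derivative_C, zero_mul, zero_add, eval_mul, eval_mul, eval_C,
        norm_mul, norm_mul, mul_assoc]
      refine mul_le_mul_of_nonneg_left ?_ (norm_nonneg _)
      exact e4
    rw [← hQd, ← hQe, e3] at e5
    exact absurd e1 (not_lt.mpr e5)

end Pool.Agent.Helper79.DN
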