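import Pool.Agent.Helper79.DN.StW

/-!
# W15: the relation near a point where the number of flat roots is minimal
-/

set_option autoImplicit false

namespace Pool.Agent.Helper79.DN

open Polynomial Pool.Agent.Helper79.DM Pool.Agent.Helper11.SP

private theorem W15_fin {α : Type*} (S : Finset α) (p : α → ℝ → Prop)
    (hmono : ∀ s ε ε', 0 < ε' → ε' ≤ ε → p s ε → p s ε')
    (h : ∀ s ∈ S, ∃ ε, 0 < ε ∧ p s ε) : ∃ ε, 0 < ε ∧ ∀ s ∈ S, p s ε := by
  classical
  induction S using Finset.induction_on with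
  | empty => exact ⟨1, one_pos, by simp⟩
  | insert a S ha ih =>
    obtain ⟨e1, h1, h1'⟩ := ih fun s hs => h s (Finset.mem_insert_of_mem hs)
    obtain ⟨e2, h2, h2'⟩ := h a (Finset.mem_insert_self _ _)
    refine ⟨min e1 e2, lt_min h1 h2, fun s hs => ?_⟩
    rcases Finset.mem_insert.1 hs with rfl | hs
    · exact hmono _ _ _ (lt_min h1 h2) (min_le_right _ _) h2'
    · exact hmono _ _ _ (lt_min h1 h2) (min_le_left _ _) (h1' s hs)

private theorem W15_count {L : Type*} (S : Finset L) (f : L → L) (p q : L → Prop)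
    [DecidablePred p] [DecidablePred q] (M : Multiset L) (hM : M = S.val.map f)
    (h1 : ∀ s ∈ S, p (f s) → q s) (h2 : S.val.countP q ≤ M.countP p) :
    ∀ s ∈ S, q s → p (f s) := by
  classical
  have e1 : S.val.countP q = (S.filter q).card := by
    rw [Multiset.countP_eq_card_filter]; rfl
  have e2 : M.countP p = (S.filter fun s => p (f s)).card := by
    rw [hM, Multiset.countP_map]; rfl
  have hsub : (S.filter fun s => p (f s)) ⊆ S.filter q := by
    intro s hs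
    rw [Finset.mem_filter] at hs ⊢
    exact ⟨hs.1, h1 s hs.1 hs.2⟩
  have heq := Finset.eq_of_subset_of_card_le hsub (by rw [← e1, ← e2]; exact h2)
  intro s hs hq
  have : s ∈ S.filter q := Finset.mem_filter.2 ⟨hs, hq⟩
  rw [← heq] at this
  exact (Finset.mem_filter.1 this).2

private theorem W15_roots {L : Type*} [Field L] (S : Finset L) (f : L → L) (Q : L[X])
    (hQ : Q ≠ 0) (hd : Q.natDegree ≤ S.card) (hinj : ∀ s ∈ S, ∀ t ∈ S, f s = f t → s = t)
    (hr : ∀ s ∈ S, Q.eval (f s) = 0) : Q.roots = S.val.map f := by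
  classical
  have hnd : (S.val.map f).Nodup := Multiset.Nodup.map_on (fun x hx y hy h => hinj x hx y hy h)
    S.nodup
  symm
  apply Multiset.eq_of_le_of_card_le
  · rw [Multiset.le_iff_subset hnd]
    intro y hy
    obtain ⟨s, hs, rfl⟩ := Multiset.mem_map.1 hy
    exact (mem_roots hQ).2 (hr s hs)
  · rw [Multiset.card_map]
    exact (card_roots' Q).trans hd

/-- if `(x₀, s)` is not flat then nearby pairs are not flat -/
private theorem W15_flat {L : Type} [NormedField L] [IsUltrametricDist L] (φ ψ : L → L) (R : ℝ)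
    (hR : 1 < R) (x₀ : L) (hφ : ContinuousAt φ x₀) (hψ : ∀ y, R < ‖y‖ → ContinuousAt ψ y)
    (A B : ℕ) (s : L) : ∃ ε, 0 < ε ∧ ∀ x y, ‖x - x₀‖ < ε → ‖y - s‖ < ε → Flat φ ψ R A B x y →
      Flat φ ψ R A B x₀ s := by
  by_cases hfl : Flat φ ψ R A B x₀ s
  · exact ⟨1, one_pos, fun _ _ _ _ _ => hfl⟩
  by_cases hs : R < ‖s‖
  · have hne : ψ s ^ A - φ x₀ ^ B ≠ 0 := fun h => hfl ⟨hs, sub_eq_zero.1 h⟩
    have hc : ContinuousAt (fun q : L × L => ψ q.2 ^ A - φ q.1 ^ B) (x₀, s) := by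
      have c1 : ContinuousAt (fun q : L × L => ψ q.2) (x₀, s) :=
        ContinuousAt.comp (f := fun q : L × L => q.2) (g := ψ) (x := (x₀, s)) (hψ s hs)
          continuousAt_snd
      have c2 : ContinuousAt (fun q : L × L => φ q.1) (x₀, s) :=
        ContinuousAt.comp (f := fun q : L × L => q.1) (g := φ) (x := (x₀, s)) hφ continuousAt_fst
      exact (c1.pow A).sub (c2.pow B)
    have hev := hc.eventually_ne hne
    obtain ⟨ε, hε, h⟩ := Metric.eventually_nhds_iff.1 hev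
    refine ⟨ε, hε, fun x y hx hy hxy => ?_⟩
    have := h (y := (x, y)) (by
      rw [Prod.dist_eq, dist_eq_norm, dist_eq_norm]
      exact max_lt hx hy)
    exact absurd (sub_eq_zero.2 hxy.2) this
  · refine ⟨R, by linarith, fun x y hx hy hxy => ?_⟩
    exfalso
    have h1 : ‖y‖ ≤ max ‖y - s‖ ‖s‖ := by
      have := IsUltrametricDist.norm_add_le_max (y - s) s
      rwa [sub_add_cancel] at this
    have h2 := hxy.1
    rcases le_max_iff.1 h1 with h3 | h3 <;> linarith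

/-- a root of unity near one is one -/
private theorem W15_unity {L : Type} [NormedField L] (D : ℕ) (hD : 0 < D) :
    ∀ᶠ u in nhds (1 : L), u ^ D = 1 → u = 1 := by
  classical
  have hfin : ({u : L | u ^ D = 1} \ {1}).Finite := by
    refine Set.Finite.subset (nthRoots D (1 : L)).toFinset.finite_toSet fun u hu => ?_
    simp only [Finset.mem_coe, Multiset.mem_toFinset, mem_nthRoots hD]
    exact hu.1
  have hop : IsOpen ({u : L | u ^ D = 1} \ {1})ᶜ := hfin.isClosed.isOpen_compl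
  have hmem : (1 : L) ∈ ({u : L | u ^ D = 1} \ {1})ᶜ := fun h => h.2 rfl
  filter_upwards [hop.mem_nhds hmem] with u hu huD
  by_contra hne
  exact hu ⟨huD, hne⟩

private theorem W15_rel {L : Type} [NormedField L] (φ ψ : L → L) (x₀ y₀ : L)
    (hφ : ContinuousAt φ x₀) (hψ : ContinuousAt ψ y₀) (hφ0 : φ x₀ ≠ 0) (a b D : ℕ) (hD : 0 < D)
    (h0 : ψ y₀ ^ a = φ x₀ ^ b) : ∃ ε, 0 < ε ∧ ∀ x y, ‖x - x₀‖ < ε → ‖y - y₀‖ < ε →
      ψ y ^ (a * D) = φ x ^ (b * D) → ψ y ^ a = φ x ^ b := by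
  have c1 : ContinuousAt (fun q : L × L => ψ q.2) (x₀, y₀) :=
    ContinuousAt.comp (f := fun q : L × L => q.2) (g := ψ) (x := (x₀, y₀)) hψ continuousAt_snd
  have c2 : ContinuousAt (fun q : L × L => φ q.1) (x₀, y₀) :=
    ContinuousAt.comp (f := fun q : L × L => q.1) (g := φ) (x := (x₀, y₀)) hφ continuousAt_fst
  have c3 : ContinuousAt (fun q : L × L => ψ q.2 ^ a / φ q.1 ^ b) (x₀, y₀) :=
    (c1.pow a).div (c2.pow b) (pow_ne_zero _ hφ0)
  have hval : ψ y₀ ^ a / φ x₀ ^ b = 1 := by rw [h0, div_self (pow_ne_zero _ hφ0)]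
  have c3' : Filter.Tendsto (fun q : L × L => ψ q.2 ^ a / φ q.1 ^ b) (nhds (x₀, y₀)) (nhds 1) := by
    have := c3.tendsto
    simpa only [hval] using this
  have e1 := c3'.eventually (W15_unity D hD)
  have e2 := c2.eventually_ne hφ0
  obtain ⟨ε, hε, h⟩ := Metric.eventually_nhds_iff.1 (e1.and e2)
  refine ⟨ε, hε, fun x y hx hy hxy => ?_⟩
  obtain ⟨h1, h2⟩ := h (y := (x, y)) (by
      rw [Prod.dist_eq, dist_eq_norm, dist_eq_norm]
      exact max_lt hx hy)
  have h2' : φ x ^ b ≠ 0 := pow_ne_zero _ h2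
  have h3 : (ψ y ^ a / φ x ^ b) ^ D = 1 := by
    rw [div_pow, ← pow_mul, ← pow_mul, hxy, div_self]
    rw [pow_mul]; exact pow_ne_zero _ h2'
  exact (div_eq_one_iff_eq h2').1 (h1 h3)

theorem thm_W15 (h14 : St_W14) : St_W15 := by
  intro L _ _ _ φ ψ R hR hφ hψ a b D' ha hb hD' P x₀ y₀ hx₀ hy₀ hlc hsep hmin hev0 hrel
  classical
  have hmapd : ∀ x y, ev x y (derivative P) = (derivative (P.map (evalRingHom x))).eval y := by
    intro x y
    unfold ev
    rw [derivative_map]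
  -- the roots over `x₀`
  have hlc' : evalRingHom x₀ P.leadingCoeff ≠ 0 := hlc
  have hP0 : P.map (evalRingHom x₀) ≠ 0 := by
    intro h
    apply hlc'
    have := congrArg (fun q : L[X] => q.coeff P.natDegree) h
    simp only [coeff_map, coeff_zero] at this
    exact this
  have hnodup : (rts P x₀).Nodup := by
    rw [Multiset.nodup_iff_count_le_one]
    intro y
    unfold rts
    rw [count_roots]
    by_contra hcon
    push Not at hcon
    obtain ⟨r1, r2⟩ := (one_lt_rootMultiplicity_iff_isRoot hP0).1 hcon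
    exact hsep y r1 (by rw [hmapd]; exact r2)
  obtain ⟨S, hS⟩ : ∃ S : Finset L, S.val = rts P x₀ := ⟨⟨rts P x₀, hnodup⟩, rfl⟩
  have hmemS : ∀ s, s ∈ S ↔ ev x₀ s P = 0 := by
    intro s
    rw [← Finset.mem_val, hS]
    unfold rts
    rw [mem_roots hP0]
    exact Iff.rfl
  have hcardS : S.card = P.natDegree := by
    rw [Finset.card_def, hS]
    unfold rts
    rw [← natDegree_map_of_leadingCoeff_ne_zero (evalRingHom x₀) hlc']
    exact (IsAlgClosed.splits (P.map (evalRingHom x₀))).natDegree_eq_card_roots.symm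
  -- the radius `δ`
  have hA : ∀ s ∈ S, ∃ ε, 0 < ε ∧ ∀ x y y', ‖x - x₀‖ < ε → ‖y - s‖ < ε → ‖y' - s‖ < ε →
      ev x y P = 0 → ev x y' P = 0 → y = y' := by
    intro s hs
    have hs0 := (hmemS s).1 hs
    obtain ⟨⟨ε, hε, h⟩, -⟩ := h14 L P x₀ s hs0 (hsep s hs0)
    refine ⟨ε, hε, fun x y y' hx hy hy' h1 h2 => ?_⟩
    have h3 := (h x y y' hx hy hy').2
    rw [h1, h2, sub_zero, norm_zero] at h3
    rcases mul_eq_zero.1 h3.symm with h4 | h4
    · exact sub_eq_zero.1 (norm_eq_zero.1 h4)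
    · exact absurd (norm_eq_zero.1 h4) (hsep s hs0)
  obtain ⟨δ1, hδ1, hA'⟩ := W15_fin S (fun s ε => ∀ x y y', ‖x - x₀‖ < ε → ‖y - s‖ < ε →
      ‖y' - s‖ < ε → ev x y P = 0 → ev x y' P = 0 → y = y')
    (fun s ε ε' _ h hp x y y' hx hy hy' => hp x y y' (hx.trans_le h) (hy.trans_le h)
      (hy'.trans_le h)) hA
  obtain ⟨δ2, hδ2, hB'⟩ := W15_fin S (fun s ε => ∀ x y, ‖x - x₀‖ < ε → ‖y - s‖ < ε →
      Flat φ ψ R (a * D') (b * D') x y → Flat φ ψ R (a * D') (b * D') x₀ s)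
    (fun s ε ε' _ h hp x y hx hy => hp x y (hx.trans_le h) (hy.trans_le h))
    (fun s _ => W15_flat φ ψ R hR x₀ (hφ x₀ hx₀).1 (fun y hy => (hψ y hy).1) (a * D') (b * D') s)
  obtain ⟨δ3, hδ3, hC'⟩ := W15_fin (S ×ˢ S) (fun s ε => s.1 ≠ s.2 → ε ≤ ‖s.1 - s.2‖)
    (fun s ε ε' _ h hp hne => h.trans (hp hne))
    (fun s _ => by
      by_cases hne : s.1 = s.2
      · exact ⟨1, one_pos, fun h => absurd hne h⟩
      · exact ⟨‖s.1 - s.2‖, norm_pos_iff.2 (sub_ne_zero.2 hne), fun _ => le_rfl⟩)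
  obtain ⟨δ, hδ, hδ1', hδ2', hδ3'⟩ : ∃ δ : ℝ, 0 < δ ∧ δ ≤ δ1 ∧ δ ≤ δ2 ∧ δ ≤ δ3 :=
    ⟨min δ1 (min δ2 δ3), lt_min hδ1 (lt_min hδ2 hδ3), min_le_left _ _,
      (min_le_right _ _).trans (min_le_left _ _), (min_le_right _ _).trans (min_le_right _ _)⟩
  -- roots near `x₀`
  obtain ⟨e1, he1, hE1⟩ := W15_fin S (fun s ε => ∀ x, ‖x - x₀‖ < ε → ∃ y, ‖y - s‖ < δ ∧
      ev x y P = 0) (fun s ε ε' _ h hp x hx => hp x (hx.trans_le h))
    (fun s hs => (h14 L P x₀ s ((hmemS s).1 hs) (hsep s ((hmemS s).1 hs))).2 δ hδ)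
  obtain ⟨e2, he2, hE2⟩ : ∃ ε, 0 < ε ∧ ∀ x, ‖x - x₀‖ < ε → P.leadingCoeff.eval x ≠ 0 := by
    have hc : ContinuousAt (fun x => P.leadingCoeff.eval x) x₀ :=
      P.leadingCoeff.continuous.continuousAt
    obtain ⟨ε, hε, h⟩ := Metric.eventually_nhds_iff.1 (hc.eventually_ne hlc)
    exact ⟨ε, hε, fun x hx => h (by rwa [dist_eq_norm])⟩
  obtain ⟨e3, he3, hE3⟩ := hmin
  obtain ⟨e4, he4, hE4⟩ := W15_rel φ ψ x₀ y₀ (hφ x₀ hx₀).1 (hψ y₀ hy₀).1 (hφ x₀ hx₀).2 a b D' hD'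
    hrel
  obtain ⟨ε, hε, l1, l2, l3, l4, l5⟩ : ∃ ε : ℝ, 0 < ε ∧ ε ≤ δ ∧ ε ≤ e1 ∧ ε ≤ e2 ∧ ε ≤ e3 ∧
      ε ≤ e4 :=
    ⟨min δ (min e1 (min e2 (min e3 e4))), lt_min hδ (lt_min he1 (lt_min he2 (lt_min he3 he4))),
      min_le_left _ _, (min_le_right _ _).trans (min_le_left _ _),
      (min_le_right _ _).trans ((min_le_right _ _).trans (min_le_left _ _)),
      (min_le_right _ _).trans ((min_le_right _ _).trans ((min_le_right _ _).trans
        (min_le_left _ _))),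
      (min_le_right _ _).trans ((min_le_right _ _).trans ((min_le_right _ _).trans
        (min_le_right _ _)))⟩
  have hy₀S : y₀ ∈ S := (hmemS y₀).2 hev0
  refine ⟨ε, hε, fun x y hx hy hxy => ?_⟩
  -- the roots over `x`
  have hex : ∀ s, ∃ y, s ∈ S → (‖y - s‖ < δ ∧ ev x y P = 0) := by
    intro s
    by_cases hs : s ∈ S
    · obtain ⟨y, hy⟩ := hE1 s hs x (hx.trans_le l2)
      exact ⟨y, fun _ => hy⟩
    · exact ⟨0, fun h => absurd h hs⟩
  choose f hf using hex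
  have hinj : ∀ s ∈ S, ∀ t ∈ S, f s = f t → s = t := by
    intro s hs t ht hst
    by_contra hne
    have h1 := hC' (s, t) (Finset.mem_product.2 ⟨hs, ht⟩) hne
    have h2 : ‖s - t‖ ≤ max ‖f s - s‖ ‖f t - t‖ := by
      have h3 : s - t = (f t - t) - (f s - s) := by rw [hst]; ring
      rw [h3, sub_eq_add_neg]
      have := IsUltrametricDist.norm_add_le_max (f t - t) (-(f s - s))
      rwa [norm_neg, max_comm] at this
    have h4 := max_lt (hf s hs).1 (hf t ht).1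
    simp only at h1
    linarith
  have hPx : P.map (evalRingHom x) ≠ 0 := by
    intro h
    apply hE2 x (hx.trans_le l3)
    have := congrArg (fun q : L[X] => q.coeff P.natDegree) h
    simp only [coeff_map, coeff_zero] at this
    exact this
  have hroots : rts P x = S.val.map f := by
    unfold rts
    exact W15_roots S f _ hPx (by rw [hcardS]; exact natDegree_map_le) hinj
      fun s hs => (hf s hs).2
  have hfc := hE3 x (hx.trans_le l4)
  unfold fc at hfc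
  rw [← hS] at hfc
  have hflat := W15_count S f (Flat φ ψ R (a * D') (b * D') x) (Flat φ ψ R (a * D') (b * D') x₀)
    (rts P x) hroots
    (fun s hs h => hB' s hs x (f s) ((hx.trans_le l1).trans_le hδ2')
      ((hf s hs).1.trans_le hδ2') h) hfc y₀ hy₀S ⟨hy₀, by rw [pow_mul, pow_mul, hrel]⟩
  have hyf : y = f y₀ := hA' y₀ hy₀S x y (f y₀) ((hx.trans_le l1).trans_le hδ1')
    ((hy.trans_le l1).trans_le hδ1') ((hf y₀ hy₀S).1.trans_le hδ1') hxy (hf y₀ hy₀S).2
  exact hE4 x y (hx.trans_le l5) (hy.trans_le l5) (by rw [hyf]; exact hflat.2)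

end Pool.Agent.Helper79.DN
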