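import Pool.Agent.Helper79.DN.StW

/-!
# W17: rigidity
-/

set_option autoImplicit false

namespace Pool.Agent.Helper79.DN

open Polynomial Pool.Agent.Helper79.DM Pool.Agent.Helper11.SP

section

variable {L : Type*} [NormedField L] [IsUltrametricDist L]

private theorem W17_sum_lt {ι : Type*} (s : Finset ι) (f : ι → L) (C : ℝ) (hC : 0 < C)
    (h : ∀ i ∈ s, ‖f i‖ < C) : ‖∑ i ∈ s, f i‖ < C := by
  classical
  induction s using Finset.induction_on with
  | empty => simpa using hC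
  | insert a s ha ih =>
      rw [Finset.sum_insert ha]
      refine lt_of_le_of_lt (IsUltrametricDist.norm_add_le_max _ _) (max_lt ?_ ?_)
      · exact h a (Finset.mem_insert_self _ _)
      · exact ih fun i hi => h i (Finset.mem_insert_of_mem hi)

private theorem W17_add {a b : L} (h : ‖b‖ < ‖a‖) : ‖a + b‖ = ‖a‖ := by
  have h1 : ‖a‖ ≤ max ‖a + b‖ ‖b‖ := by
    have := IsUltrametricDist.norm_add_le_max (a + b) (-b)
    simpa using this
  have h2 : ‖a + b‖ ≤ ‖a‖ := (IsUltrametricDist.norm_add_le_max a b).trans (max_le le_rfl h.le)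
  rcases le_max_iff.1 h1 with h3 | h3
  · exact le_antisymm h2 h3
  · exact absurd h3 (not_le.2 h)

private theorem W17_dom {ι : Type*} [DecidableEq ι] (s : Finset ι) (f : ι → L) (j : ι) (hj : j ∈ s)
    (hpos : 0 < ‖f j‖) (h : ∀ i ∈ s, i ≠ j → ‖f i‖ < ‖f j‖) : ‖∑ i ∈ s, f i‖ = ‖f j‖ := by
  rw [← Finset.add_sum_erase s f hj]
  refine W17_add (W17_sum_lt _ _ _ hpos fun i hi => ?_)
  exact h i (Finset.mem_of_mem_erase hi) (Finset.ne_of_mem_erase hi)

private theorem W17_low (Q : L[X]) (d : ℕ) (y : L) (hy : 1 ≤ ‖y‖) :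
    ‖y‖ * ‖∑ i ∈ Finset.range d, Q.coeff i * y ^ i‖ ≤
      (∑ i ∈ Finset.range d, ‖Q.coeff i‖) * ‖y‖ ^ d := by
  have h0 : 0 < ‖y‖ := by linarith
  have key : ‖∑ i ∈ Finset.range d, Q.coeff i * y ^ i‖ ≤
      (∑ i ∈ Finset.range d, ‖Q.coeff i‖) * ‖y‖ ^ d / ‖y‖ := by
    refine IsUltrametricDist.norm_sum_le_of_forall_le_of_nonneg (by positivity) fun i hi => ?_
    rw [le_div_iff₀ h0, norm_mul, norm_pow, mul_assoc, ← pow_succ]
    have hi' : i + 1 ≤ d := Finset.mem_range.1 hi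
    have h1 : ‖Q.coeff i‖ ≤ ∑ i ∈ Finset.range d, ‖Q.coeff i‖ :=
      Finset.single_le_sum (f := fun i => ‖Q.coeff i‖) (fun _ _ => norm_nonneg _) hi
    have h2 : ‖y‖ ^ (i + 1) ≤ ‖y‖ ^ d := pow_le_pow_right₀ hy hi'
    gcongr
  rw [le_div_iff₀ h0] at key
  linarith

private theorem W17_le (Q : L[X]) (d : ℕ) (hd : Q.natDegree ≤ d) (h1 : ‖Q.coeff d‖ ≤ 1) :
    ∃ R : ℝ, 1 ≤ R ∧ ∀ y : L, R < ‖y‖ → ‖Q.eval y‖ ≤ ‖y‖ ^ d := by
  refine ⟨max 1 (∑ i ∈ Finset.range d, ‖Q.coeff i‖), le_max_left _ _, fun y hy => ?_⟩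
  have hy1 : 1 < ‖y‖ := (le_max_left _ _).trans_lt hy
  have hy2 := (le_max_right _ _).trans_lt hy
  have h0 : 0 < ‖y‖ := by linarith
  rw [Polynomial.eval_eq_sum_range' (Nat.lt_succ_of_le hd), Finset.sum_range_succ]
  refine (IsUltrametricDist.norm_add_le_max _ _).trans (max_le ?_ ?_)
  · have h2 := W17_low Q d y hy1.le
    have h3 : (∑ i ∈ Finset.range d, ‖Q.coeff i‖) * ‖y‖ ^ d ≤ ‖y‖ * ‖y‖ ^ d :=
      mul_le_mul_of_nonneg_right hy2.le (by positivity)
    exact le_of_mul_le_mul_left (h2.trans h3) h0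
  · rw [norm_mul, norm_pow]
    calc ‖Q.coeff d‖ * ‖y‖ ^ d ≤ 1 * ‖y‖ ^ d := by gcongr
      _ = ‖y‖ ^ d := one_mul _

private theorem W17_eq (Q : L[X]) : ∃ R : ℝ, 1 ≤ R ∧ ∀ y : L, R < ‖y‖ →
    ‖Q.eval y‖ = ‖Q.leadingCoeff‖ * ‖y‖ ^ Q.natDegree := by
  by_cases hQ : Q = 0
  · exact ⟨1, le_rfl, fun y _ => by simp [hQ]⟩
  have hl : 0 < ‖Q.leadingCoeff‖ := norm_pos_iff.2 (leadingCoeff_ne_zero.2 hQ)
  refine ⟨max 1 ((∑ i ∈ Finset.range Q.natDegree, ‖Q.coeff i‖) / ‖Q.leadingCoeff‖),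
    le_max_left _ _, fun y hy => ?_⟩
  have hy1 : 1 < ‖y‖ := (le_max_left _ _).trans_lt hy
  have hy2 := (le_max_right _ _).trans_lt hy
  have h0 : 0 < ‖y‖ := by linarith
  rw [div_lt_iff₀ hl] at hy2
  rw [Polynomial.eval_eq_sum_range, Finset.sum_range_succ, add_comm]
  have h2 := W17_low Q Q.natDegree y hy1.le
  have h3 : ‖∑ i ∈ Finset.range Q.natDegree, Q.coeff i * y ^ i‖ <
      ‖Q.coeff Q.natDegree * y ^ Q.natDegree‖ := by
    rw [norm_mul, norm_pow, coeff_natDegree]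
    have h4 : (∑ i ∈ Finset.range Q.natDegree, ‖Q.coeff i‖) * ‖y‖ ^ Q.natDegree <
        (‖y‖ * ‖Q.leadingCoeff‖) * ‖y‖ ^ Q.natDegree :=
      mul_lt_mul_of_pos_right hy2 (by positivity)
    have h5 := h2.trans_lt h4
    rw [mul_assoc] at h5
    exact lt_of_mul_lt_mul_left h5 h0.le
  rw [W17_add h3, norm_mul, norm_pow, coeff_natDegree]

end

/-- The maximum function. -/
private noncomputable def W17_F (a : ℕ → ℝ) (q : ℕ) (hq : 1 ≤ q) (s : ℝ) : ℝ :=
  (Finset.Icc 1 q).sup' (Finset.nonempty_Icc.2 hq) fun j => a j * s ^ j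

private def W17_T (a : ℕ → ℝ) (q : ℕ) : Set ℝ :=
  {s | 0 < s ∧ ∃ i ∈ Finset.Icc 1 q, ∃ j ∈ Finset.Icc 1 q, i ≠ j ∧ a i * s ^ i = a j * s ^ j ∧
    a i * s ^ i ≠ 0}

private theorem W17_pair (a : ℕ → ℝ) (i j : ℕ) (hij : i < j) :
    {s : ℝ | 0 < s ∧ a i * s ^ i = a j * s ^ j ∧ a i * s ^ i ≠ 0}.Subsingleton := by
  rintro s ⟨hs, h1, h2⟩ t ⟨ht, h3, _⟩
  obtain ⟨k, rfl⟩ := Nat.exists_eq_add_of_lt hij
  have e1 : a i = a (i + k + 1) * s ^ (k + 1) := by
    have : s ^ i * a i = s ^ i * (a (i + k + 1) * s ^ (k + 1)) := by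
      rw [mul_comm, h1, add_assoc, pow_add]; ring
    exact mul_left_cancel₀ (pow_ne_zero _ hs.ne') this
  have e2 : a i = a (i + k + 1) * t ^ (k + 1) := by
    have : t ^ i * a i = t ^ i * (a (i + k + 1) * t ^ (k + 1)) := by
      rw [mul_comm, h3, add_assoc, pow_add]; ring
    exact mul_left_cancel₀ (pow_ne_zero _ ht.ne') this
  have ha : a (i + k + 1) ≠ 0 := by
    intro h
    rw [h, zero_mul] at e1
    exact h2 (by rw [e1, zero_mul])
  have e3 : s ^ (k + 1) = t ^ (k + 1) := mul_left_cancel₀ ha (e1.symm.trans e2)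
  exact (pow_left_inj₀ hs.le ht.le (Nat.succ_ne_zero k)).1 e3

private theorem W17_T_finite (a : ℕ → ℝ) (q : ℕ) : (W17_T a q).Finite := by
  have h1 : W17_T a q ⊆ ⋃ i ∈ Set.Icc 1 q, ⋃ j ∈ Set.Icc 1 q,
      {s : ℝ | i < j ∧ 0 < s ∧ a i * s ^ i = a j * s ^ j ∧ a i * s ^ i ≠ 0} := by
    rintro s ⟨hs, i, hi, j, hj, hij, h1, h2⟩
    simp only [Set.mem_iUnion]
    rcases lt_or_gt_of_ne hij with h | h
    · exact ⟨i, by simpa using hi, j, by simpa using hj, h, hs, h1, h2⟩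
    · exact ⟨j, by simpa using hj, i, by simpa using hi, h, hs, h1.symm, h1 ▸ h2⟩
  refine Set.Finite.subset ?_ h1
  refine Set.Finite.biUnion (Set.finite_Icc 1 q) fun i _ => ?_
  refine Set.Finite.biUnion (Set.finite_Icc 1 q) fun j _ => ?_
  by_cases hij : i < j
  · refine Set.Finite.subset (W17_pair a i j hij).finite ?_
    rintro s ⟨_, h⟩
    exact h
  · refine Set.Finite.subset Set.finite_empty ?_
    rintro s ⟨h, _⟩
    exact absurd h hij

private theorem W17_F_ge (a : ℕ → ℝ) (q : ℕ) (hq : 1 ≤ q) (haq : a q = 1) (s : ℝ) :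
    s ^ q ≤ W17_F a q hq s := by
  have := Finset.le_sup' (f := fun j => a j * s ^ j) (Finset.right_mem_Icc.2 hq)
  simpa [W17_F, haq] using this

private theorem W17_F_lt (a : ℕ → ℝ) (q : ℕ) (hq : 1 ≤ q) (haq : a q = 1) {s t : ℝ} (hs : 0 < s)
    (hst : s < t) : W17_F a q hq s < W17_F a q hq t := by
  obtain ⟨j, hj, h1⟩ := Finset.exists_mem_eq_sup' (Finset.nonempty_Icc.2 hq)
    (fun j => a j * s ^ j)
  have h2 : W17_F a q hq s = a j * s ^ j := h1
  have h3 : 0 < a j * s ^ j := h2 ▸ (pow_pos hs q).trans_le (W17_F_ge a q hq haq s)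
  have ha : 0 < a j := (pos_iff_pos_of_mul_pos h3).2 (pow_pos hs j)
  have hj1 : 1 ≤ j := (Finset.mem_Icc.1 hj).1
  have h4 : a j * s ^ j < a j * t ^ j :=
    mul_lt_mul_of_pos_left (pow_lt_pow_left₀ hst hs.le (by omega)) ha
  have h5 : a j * t ^ j ≤ W17_F a q hq t := Finset.le_sup' (f := fun j => a j * t ^ j) hj
  rw [h2]
  exact h4.trans_le h5

private theorem W17_F_max (a : ℕ → ℝ) (q : ℕ) (hq : 1 ≤ q) (haq : a q = 1) {s : ℝ} (hs : 0 < s)
    (hT : s ∉ W17_T a q) : ∃ j ∈ Finset.Icc 1 q, W17_F a q hq s = a j * s ^ j ∧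
      ∀ i ∈ Finset.Icc 1 q, i ≠ j → a i * s ^ i < a j * s ^ j := by
  obtain ⟨j, hj, h1⟩ := Finset.exists_mem_eq_sup' (Finset.nonempty_Icc.2 hq)
    (fun j => a j * s ^ j)
  have h2 : W17_F a q hq s = a j * s ^ j := h1
  refine ⟨j, hj, h2, fun i hi hij => lt_of_le_of_ne ?_ ?_⟩
  · rw [← h2]
    exact Finset.le_sup' (f := fun j => a j * s ^ j) hi
  · intro h
    refine hT ⟨hs, i, hi, j, hj, hij, h, ?_⟩
    rw [h, ← h2]
    exact ((pow_pos hs q).trans_le (W17_F_ge a q hq haq s)).ne'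

/-- The iterated maximum function. -/
private noncomputable def W17_G (a : ℝ → ℕ → ℝ) (q : ℕ) (hq : 1 ≤ q) (r : ℕ → ℝ) :
    ℕ → ℝ → ℝ
  | 0, s => s
  | N + 1, s => W17_F (a (r N)) q hq (W17_G a q hq r N s)

private theorem W17_G_pos (a : ℝ → ℕ → ℝ) (q : ℕ) (hq : 1 ≤ q) (r : ℕ → ℝ)
    (ha : ∀ N, a (r N) q = 1) (N : ℕ) {s : ℝ} (hs : 0 < s) : s ^ q ^ N ≤ W17_G a q hq r N s ∧
      0 < W17_G a q hq r N s := by
  induction N with
  | zero => simpa [W17_G] using hs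
  | succ N ih =>
      have h1 := W17_F_ge (a (r N)) q hq (ha N) (W17_G a q hq r N s)
      have h2 : (s ^ q ^ N) ^ q ≤ W17_G a q hq r N s ^ q :=
        pow_le_pow_left₀ (by positivity) ih.1 q
      rw [← pow_mul, ← pow_succ] at h2
      refine ⟨h2.trans h1, lt_of_lt_of_le (pow_pos ih.2 q) h1⟩

private theorem W17_G_mono (a : ℝ → ℕ → ℝ) (q : ℕ) (hq : 1 ≤ q) (r : ℕ → ℝ)
    (ha : ∀ N, a (r N) q = 1) (N : ℕ) : StrictMonoOn (W17_G a q hq r N) (Set.Ioi 0) := by
  induction N with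
  | zero => exact fun s _ t _ h => h
  | succ N ih =>
      intro s hs t ht h
      exact W17_F_lt (a (r N)) q hq (ha N) (W17_G_pos a q hq r ha N hs).2 (ih hs ht h)

private theorem W17_choose {p : ℕ} [Fact p.Prime] {L : Type*} [Field L] [CharP L p] (e m j : ℕ) :
    (((p ^ e * m).choose j : ℕ) : L) = if p ^ e ∣ j then ((m.choose (j / p ^ e) : ℕ) : L) else 0 := by
  have hpp : 0 < p ^ e := pow_pos (Fact.out : p.Prime).pos e
  have h1 : ((1 + X : L[X]) ^ (p ^ e * m)) = expand L (p ^ e) ((1 + X) ^ m) := by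
    rw [pow_mul, add_pow_char_pow, one_pow, map_pow, map_add, map_one, expand_X]
  have h2 := congrArg (fun P : L[X] => P.coeff j) h1
  simp only [coeff_one_add_X_pow, coeff_expand hpp] at h2
  exact h2

private theorem W17_norm_cast {p : ℕ} [Fact p.Prime] {L : Type*} [NormedField L] [CharP L p]
    (n : ℕ) (hn : ¬ p ∣ n) : ‖((n : ℕ) : L)‖ = 1 := by
  have hp : p.Prime := Fact.out
  have h0 : ((n : ℕ) : ZMod p) ≠ 0 := by
    rwa [Ne, ZMod.natCast_eq_zero_iff]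
  have h1 : ((n : ℕ) : ZMod p) ^ (p - 1) = 1 := ZMod.pow_card_sub_one_eq_one h0
  have h2 : ((n : ℕ) : L) ^ (p - 1) = 1 := by
    have := congrArg (ZMod.castHom (dvd_refl p) L) h1
    simpa using this
  have h3 : ‖((n : ℕ) : L)‖ ^ (p - 1) = 1 := by rw [← norm_pow, h2, norm_one]
  exact (pow_eq_one_iff_of_nonneg (norm_nonneg _) (by have := hp.two_le; omega)).1 h3

private theorem W17_norm_cast_le {p : ℕ} [Fact p.Prime] {L : Type*} [NormedField L] [CharP L p]
    (n : ℕ) : ‖((n : ℕ) : L)‖ ≤ 1 := by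
  by_cases hn : p ∣ n
  · rw [(CharP.cast_eq_zero_iff L p n).2 hn, norm_zero]
    exact zero_le_one
  · exact (W17_norm_cast (p := p) n hn).le

/-- The polynomials of the expansion. -/
private noncomputable def W17_H {L : Type*} [Field L] (g : L[X]) (j : ℕ) : L[X] :=
  hasseDeriv j g * X ^ j

private theorem W17_H_deg {L : Type*} [Field L] (g : L[X]) (j : ℕ) (hj : j ≤ g.natDegree) :
    (W17_H g j).natDegree ≤ g.natDegree := by
  refine natDegree_mul_le.trans ?_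
  rw [natDegree_X_pow]
  have := natDegree_hasseDeriv_le g j
  omega

private theorem W17_H_coeff {L : Type*} [Field L] (g : L[X]) (hg : g.Monic) (j : ℕ)
    (hj : j ≤ g.natDegree) : (W17_H g j).coeff g.natDegree = ((g.natDegree.choose j : ℕ) : L) := by
  rw [W17_H, coeff_mul_X_pow', if_pos hj, hasseDeriv_coeff, Nat.sub_add_cancel hj,
    coeff_natDegree, hg.leadingCoeff, mul_one]

private theorem W17_taylor {L : Type*} [Field L] (g : L[X]) (y ρ : L) :
    g.eval (y * (1 + ρ)) = g.eval y +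
      ∑ j ∈ Finset.Icc 1 g.natDegree, (W17_H g j).eval y * ρ ^ j := by
  have h1 : g.eval (y * (1 + ρ)) = (taylor y g).eval (y * ρ) := by
    rw [taylor_eval]
    congr 1
    ring
  rw [h1, eval_eq_sum_range, natDegree_taylor, Finset.sum_range_succ']
  have h2 : ∀ j, (taylor y g).coeff j * (y * ρ) ^ j = (W17_H g j).eval y * ρ ^ j := by
    intro j
    rw [taylor_coeff, W17_H, eval_mul, eval_pow, eval_X, mul_pow]
    ring
  rw [Finset.sum_congr rfl fun j _ => h2 (j + 1), taylor_coeff_zero, pow_zero, mul_one, add_comm]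
  congr 1
  rw [Finset.range_eq_Ico, Finset.sum_Ico_add' (fun j => (W17_H g j).eval y * ρ ^ j) 0 g.natDegree 1]
  rfl

/-- The normalised coefficients. -/
private noncomputable def W17_a {L : Type*} [NormedField L] (g : L[X]) (r : ℝ) (j : ℕ) : ℝ :=
  ‖(W17_H g j).leadingCoeff‖ * r ^ (W17_H g j).natDegree / r ^ g.natDegree

private theorem W17_step {p : ℕ} [Fact p.Prime] {L : Type*} [NormedField L] [IsUltrametricDist L]
    [CharP L p] (e m : ℕ) (hm : 2 ≤ m) (hpm : ¬ p ∣ m) (g : L[X]) (hg : g.Monic)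
    (hd : g.natDegree = p ^ e * m) (hq : 1 ≤ p ^ e) : ∃ R : ℝ, 1 ≤ R ∧
      (∀ r, R < r → W17_a g r (p ^ e) = 1) ∧
      (∀ y : L, R < ‖y‖ → ‖g.eval y‖ = ‖y‖ ^ g.natDegree) ∧
      ∀ y ρ : L, R < ‖y‖ → 0 < ‖ρ‖ → ‖ρ‖ < 1 → ‖ρ‖ ∉ W17_T (W17_a g ‖y‖) (p ^ e) →
        ‖g.eval (y * (1 + ρ)) / g.eval y - 1‖ = W17_F (W17_a g ‖y‖) (p ^ e) hq ‖ρ‖ := by
  classical
  have hqd : p ^ e ≤ g.natDegree := by
    rw [hd]
    exact Nat.le_mul_of_pos_right _ (by omega)
  obtain ⟨RG, hRG1, hRG⟩ := W17_eq g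
  choose RA hRA1 hRA using fun j => W17_eq (W17_H g j)
  have hB : ∀ j, ∃ R : ℝ, 1 ≤ R ∧ (j ≤ g.natDegree → ∀ y : L, R < ‖y‖ →
      ‖(W17_H g j).eval y‖ ≤ ‖y‖ ^ g.natDegree) := by
    intro j
    by_cases hj : j ≤ g.natDegree
    · obtain ⟨R, h1, h2⟩ := W17_le (W17_H g j) g.natDegree (W17_H_deg g j hj) (by
        rw [W17_H_coeff g hg j hj]
        exact W17_norm_cast_le (p := p) _)
      exact ⟨R, h1, fun _ => h2⟩
    · exact ⟨1, le_rfl, fun h => absurd h hj⟩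
  choose RB hRB1 hRB using hB
  have hlcq : ‖(W17_H g (p ^ e)).leadingCoeff‖ = 1 ∧ (W17_H g (p ^ e)).natDegree = g.natDegree := by
    have h1 := W17_H_coeff g hg (p ^ e) hqd
    rw [hd, W17_choose (p := p) e m (p ^ e), if_pos (dvd_refl _), Nat.div_self hq,
      Nat.choose_one_right, ← hd] at h1
    have h2 : ‖(W17_H g (p ^ e)).coeff g.natDegree‖ = 1 := by
      rw [h1]
      exact W17_norm_cast (p := p) m hpm
    have h3 : (W17_H g (p ^ e)).coeff g.natDegree ≠ 0 := by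
      intro h
      rw [h, norm_zero] at h2
      exact zero_ne_one h2
    have h4 : (W17_H g (p ^ e)).natDegree = g.natDegree :=
      le_antisymm (W17_H_deg g _ hqd) (le_natDegree_of_ne_zero h3)
    refine ⟨?_, h4⟩
    rw [← coeff_natDegree, h4]
    exact h2
  have hsum : ∀ j ∈ Finset.Icc 1 g.natDegree, RA j + RB j ≤
      ∑ j ∈ Finset.Icc 1 g.natDegree, (RA j + RB j) := fun j hj =>
    Finset.single_le_sum (f := fun j => RA j + RB j)
      (fun i _ => by have := hRA1 i; have := hRB1 i; show 0 ≤ RA i + RB i; linarith) hj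
  have hsum0 : 0 ≤ ∑ j ∈ Finset.Icc 1 g.natDegree, (RA j + RB j) :=
    Finset.sum_nonneg fun i _ => by have := hRA1 i; have := hRB1 i; linarith
  refine ⟨RG + ∑ j ∈ Finset.Icc 1 g.natDegree, (RA j + RB j), by linarith, ?_, ?_, ?_⟩
  · intro r hr
    have hr0 : 0 < r := by linarith
    rw [W17_a, hlcq.1, hlcq.2, one_mul]
    exact div_self (pow_pos hr0 _).ne'
  · intro y hy
    rw [hRG y (by linarith), hg.leadingCoeff, norm_one, one_mul]
  · intro y ρ hy hρ0 hρ1 hT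
    have hy0 : 0 < ‖y‖ := by linarith
    have hgy : ‖g.eval y‖ = ‖y‖ ^ g.natDegree := by
      rw [hRG y (by linarith), hg.leadingCoeff, norm_one, one_mul]
    have hrd : 0 < ‖y‖ ^ g.natDegree := pow_pos hy0 _
    have hgy0 : g.eval y ≠ 0 := by
      intro h
      rw [h, norm_zero] at hgy
      linarith
    have haq : W17_a g ‖y‖ (p ^ e) = 1 := by
      rw [W17_a, hlcq.1, hlcq.2, one_mul]
      exact div_self hrd.ne'
    obtain ⟨j, hj, hF, hmax⟩ := W17_F_max (W17_a g ‖y‖) (p ^ e) hq haq hρ0 hT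
    have hnorm : ∀ i ∈ Finset.Icc 1 g.natDegree, ‖(W17_H g i).eval y * ρ ^ i‖ =
        ‖y‖ ^ g.natDegree * (W17_a g ‖y‖ i * ‖ρ‖ ^ i) := by
      intro i hi
      have h1 := hsum i hi
      have h2 := hRB1 i
      rw [norm_mul, norm_pow, hRA i y (by linarith), W17_a]
      field_simp
    have hjd : j ∈ Finset.Icc 1 g.natDegree := by
      rw [Finset.mem_Icc] at hj ⊢
      omega
    have hFpos : 0 < W17_F (W17_a g ‖y‖) (p ^ e) hq ‖ρ‖ :=
      (pow_pos hρ0 _).trans_le (W17_F_ge _ _ hq haq _)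
    have hdom : ‖∑ i ∈ Finset.Icc 1 g.natDegree, (W17_H g i).eval y * ρ ^ i‖ =
        ‖(W17_H g j).eval y * ρ ^ j‖ := by
      refine W17_dom _ _ j hjd ?_ fun i hi hij => ?_
      · rw [hnorm j hjd, ← hF]
        exact mul_pos hrd hFpos
      · rw [hnorm j hjd, ← hF]
        by_cases hiq : i ≤ p ^ e
        · rw [hnorm i hi, hF]
          refine mul_lt_mul_of_pos_left (hmax i ?_ hij) hrd
          rw [Finset.mem_Icc] at hi ⊢
          exact ⟨hi.1, hiq⟩
        · have h1 := hsum i hi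
          have h2 := hRA1 i
          have h3 := hRB i (Finset.mem_Icc.1 hi).2 y (by linarith)
          rw [norm_mul, norm_pow]
          have h4 : ‖ρ‖ ^ i < ‖ρ‖ ^ p ^ e := pow_lt_pow_right_of_lt_one₀ hρ0 hρ1 (by omega)
          calc ‖(W17_H g i).eval y‖ * ‖ρ‖ ^ i ≤ ‖y‖ ^ g.natDegree * ‖ρ‖ ^ i := by gcongr
            _ < ‖y‖ ^ g.natDegree * ‖ρ‖ ^ p ^ e := mul_lt_mul_of_pos_left h4 hrd
            _ ≤ ‖y‖ ^ g.natDegree * W17_F (W17_a g ‖y‖) (p ^ e) hq ‖ρ‖ :=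
                mul_le_mul_of_nonneg_left (W17_F_ge _ _ hq haq _) hrd.le
    have h5 : g.eval (y * (1 + ρ)) / g.eval y - 1 =
        (∑ i ∈ Finset.Icc 1 g.natDegree, (W17_H g i).eval y * ρ ^ i) / g.eval y := by
      rw [W17_taylor, add_div, div_self hgy0]
      ring
    rw [h5, norm_div, hdom, hnorm j hjd, hgy, hF]
    field_simp

theorem thm_W17 : St_W17 := by
  intro p _ L _ _ _ e m hm hpm g hg hd
  have hpp : p.Prime := Fact.out
  have hq : 1 ≤ p ^ e := Nat.one_le_pow _ _ hpp.pos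
  obtain ⟨R, hR1, hRa, hRg, hstep⟩ := W17_step (p := p) e m hm hpm g hg hd hq
  refine ⟨R, hR1, fun r hr c ε hc hε => ?_⟩
  have hr1 : 1 < r := hR1.trans_lt hr
  have hr0 : 0 < r := by linarith
  have hd1 : 1 ≤ p ^ e * m := Nat.one_le_iff_ne_zero.2 (Nat.mul_ne_zero (by omega) (by omega))
  set d := p ^ e * m with hddef
  -- the radii
  set rr : ℕ → ℝ := fun N => r ^ d ^ N with hrr
  have hrrR : ∀ N, R < rr N := fun N =>
    hr.trans_le (le_self_pow₀ hr1.le (pow_pos (by omega) N).ne')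
  have hrra : ∀ N, W17_a g (rr N) (p ^ e) = 1 := fun N => hRa _ (hrrR N)
  -- the choice of J
  obtain ⟨J, hJ⟩ : ∃ J : ℕ, r ^ (-(c * (d : ℝ) ^ J)) < ε ^ (p ^ e) ^ J := by
    have hb1 : r ^ (-c) < 1 := Real.rpow_lt_one_of_one_lt_of_neg hr1 (by linarith)
    have hb0 : 0 < r ^ (-c) := Real.rpow_pos_of_pos hr0 _
    obtain ⟨J, hJ⟩ := exists_pow_lt_of_lt_one hε hb1
    refine ⟨J, ?_⟩
    have h1 : (r ^ (-c)) ^ m ^ J < ε := by
      refine lt_of_le_of_lt (pow_le_pow_of_le_one hb0.le hb1.le ?_) hJ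
      exact (Nat.lt_pow_self (by omega : 1 < m)).le
    have h2 : r ^ (-(c * (d : ℝ) ^ J)) = ((r ^ (-c)) ^ m ^ J) ^ (p ^ e) ^ J := by
      rw [← pow_mul, ← mul_pow, ← Real.rpow_natCast (r ^ (-c)), ← Real.rpow_mul hr0.le]
      congr 1
      rw [hddef, mul_comm m]
      push_cast
      ring
    rw [h2]
    exact pow_lt_pow_left₀ h1 (by positivity) (pow_pos (by omega) J).ne'
  -- the finite sets
  have hfin : ∀ N, {s : ℝ | 0 < s ∧ W17_G (W17_a g) (p ^ e) hq rr N s ∈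
      W17_T (W17_a g (rr N)) (p ^ e)}.Finite := by
    intro N
    refine Set.Finite.of_finite_image (f := W17_G (W17_a g) (p ^ e) hq rr N) ?_ ?_
    · refine (W17_T_finite (W17_a g (rr N)) (p ^ e)).subset ?_
      rintro _ ⟨s, ⟨_, h⟩, rfl⟩
      exact h
    · exact (W17_G_mono (W17_a g) (p ^ e) hq rr hrra N).injOn.mono fun s hs => hs.1
  refine Set.Finite.subset (Set.Finite.biUnion (Set.finite_lt_nat J) fun N _ => hfin N) ?_
  rintro s ⟨hsε, hs1, y, ρ, hy, hρ, hN⟩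
  have hs0 : 0 < s := hε.trans_le hsε
  simp only [Set.mem_iUnion]
  by_contra hcon
  push Not at hcon
  have hcon' : ∀ N, N < J → W17_G (W17_a g) (p ^ e) hq rr N s ∉
      W17_T (W17_a g (rr N)) (p ^ e) := fun N hN h => hcon N hN ⟨hs0, h⟩
  have hynorm : ∀ N, ‖orb g y N‖ = rr N := by
    intro N
    induction N with
    | zero => simp [orb, hrr, hy]
    | succ N ih =>
        have h1 : orb g y (N + 1) = g.eval (orb g y N) := by
          simp only [orb, Function.iterate_succ_apply']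
        rw [h1, hRg _ (by rw [ih]; exact hrrR N), ih, hd]
        simp only [hrr]
        rw [← pow_mul, ← pow_succ]
  have hy0 : ∀ N, orb g y N ≠ 0 := by
    intro N h
    have := hynorm N
    rw [h, norm_zero] at this
    have := hrrR N
    linarith
  have hlt1 : ∀ N : ℕ, r ^ (-(c * (d : ℝ) ^ N)) < 1 := fun N =>
    Real.rpow_lt_one_of_one_lt_of_neg hr1 (by
      have : 0 < c * (d : ℝ) ^ N := by
        have : (0 : ℝ) < d := by exact_mod_cast (show 0 < d by omega)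
        positivity
      linarith)
  have hmain : ∀ N, N ≤ J → ‖orb g (y * (1 + ρ)) N / orb g y N - 1‖ =
      W17_G (W17_a g) (p ^ e) hq rr N s := by
    intro N
    induction N with
    | zero =>
        intro _
        have hy00 : y ≠ 0 := by simpa [orb] using hy0 0
        have h1 : orb g (y * (1 + ρ)) 0 / orb g y 0 - 1 = ρ := by
          simp only [orb, Function.iterate_zero, id]
          field_simp
          ring
        rw [h1, hρ]
        rfl
    | succ N ih =>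
        intro hNJ
        have ih' := ih (by omega)
        set σ := orb g (y * (1 + ρ)) N / orb g y N - 1 with hσ
        have h1 : orb g (y * (1 + ρ)) N = orb g y N * (1 + σ) := by
          rw [hσ]
          field_simp [hy0 N]
          ring
        have h2 : orb g (y * (1 + ρ)) (N + 1) = g.eval (orb g y N * (1 + σ)) := by
          rw [← h1]
          simp only [orb, Function.iterate_succ_apply']
        have h3 : orb g y (N + 1) = g.eval (orb g y N) := by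
          simp only [orb, Function.iterate_succ_apply']
        have h4 : 0 < ‖σ‖ := by
          rw [ih']
          exact (W17_G_pos (W17_a g) (p ^ e) hq rr hrra N hs0).2
        have h5 : ‖σ‖ < 1 := (hN N).trans_lt (hlt1 N)
        have h6 : ‖σ‖ ∉ W17_T (W17_a g ‖orb g y N‖) (p ^ e) := by
          rw [ih', hynorm N]
          exact hcon' N (by omega)
        rw [h2, h3, hstep (orb g y N) σ (by rw [hynorm N]; exact hrrR N) h4 h5 h6, ih', hynorm N]
        rfl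
  have h7 := hmain J le_rfl
  have h8 := hN J
  rw [h7] at h8
  have h9 := (W17_G_pos (W17_a g) (p ^ e) hq rr hrra J hs0).1
  have h10 : ε ^ (p ^ e) ^ J ≤ s ^ (p ^ e) ^ J := pow_le_pow_left₀ hε.le hsε _
  linarith

end Pool.Agent.Helper79.DN
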