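import Pool.Agent.Helper79.DN.StW

/-!
# The curve is periodic (module W18)
-/

set_option autoImplicit false

namespace Pool.Agent.Helper79.DN

open Polynomial Pool.Agent.Helper79.DM Pool.Agent.Helper11.SP

/-- The norms of the elements of an algebraically closed field are dense. -/
private theorem W18_between {L : Type*} [NormedField L] [IsAlgClosed L] {z : L} (hz : 1 < ‖z‖)
    {s t : ℝ} (hs : 0 < s) (hst : s < t) : ∃ w : L, s < ‖w‖ ∧ ‖w‖ < t := by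
  have h1 : 1 < t / s := by rwa [lt_div_iff₀ hs, one_mul]
  obtain ⟨n, hn⟩ := pow_unbounded_of_one_lt ‖z‖ h1
  have hn0 : 0 < n := by
    rcases Nat.eq_zero_or_pos n with h | h
    · rw [h, pow_zero] at hn
      linarith
    · exact h
  obtain ⟨ζ, hζ⟩ := IsAlgClosed.exists_pow_nat_eq z hn0
  have hζn : ‖ζ‖ ^ n = ‖z‖ := by rw [← norm_pow, hζ]
  have hζ1 : 1 < ‖ζ‖ := by
    by_contra h
    have : ‖ζ‖ ^ n ≤ 1 := pow_le_one₀ (norm_nonneg _) (not_lt.1 h)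
    linarith
  have hζ2 : ‖ζ‖ < t / s := by
    by_contra h
    have : (t / s) ^ n ≤ ‖ζ‖ ^ n := pow_le_pow_left₀ (by positivity) (not_lt.1 h) n
    linarith
  obtain ⟨i, hi1, hi2⟩ := exists_mem_Ico_zpow hs hζ1
  refine ⟨ζ ^ (i + 1), ?_, ?_⟩
  · rw [norm_zpow]
    exact hi2
  · rw [norm_zpow, zpow_add_one₀ (by positivity)]
    calc ‖ζ‖ ^ i * ‖ζ‖ ≤ s * ‖ζ‖ := by gcongr
      _ < s * (t / s) := by gcongr
      _ = t := by field_simp

/-- Roots of unity of a given order near one. -/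
private theorem W18_unity {L : Type*} [NormedField L] {a : ℕ} (ha : 0 < a) :
    ∃ η : ℝ, 0 < η ∧ ∀ u : L, u ^ a = 1 → ‖u - 1‖ < η → u = 1 := by
  classical
  have hfin : {u : L | u ^ a = 1 ∧ u ≠ 1}.Finite := by
    refine ((nthRoots a (1 : L)).toFinset.finite_toSet).subset ?_
    intro u hu
    simp only [Finset.mem_coe, Multiset.mem_toFinset]
    rw [mem_nthRoots ha]
    exact hu.1
  have hop : IsOpen ({u : L | u ^ a = 1 ∧ u ≠ 1}ᶜ) := hfin.isClosed.isOpen_compl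
  obtain ⟨η, hη, hb⟩ := Metric.isOpen_iff.1 hop 1 (by simp)
  refine ⟨η, hη, fun u hu hd => ?_⟩
  by_contra hne
  have h1 : u ∈ Metric.ball (1 : L) η := by
    rw [Metric.mem_ball, dist_eq_norm]
    exact hd
  exact hb h1 ⟨hu, hne⟩

private theorem W18_cont {L : Type*} [NormedField L] (f : L[X]) (k : ℕ) :
    Continuous fun x => orb f x k :=
  (f.continuous_aeval).iterate k

private theorem W18_norm {L : Type*} [NormedField L] [IsUltrametricDist L] {y y₁ : L}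
    (h : ‖y - y₁‖ < ‖y₁‖) : ‖y‖ = ‖y₁‖ := by
  have h1 : y = (y - y₁) + y₁ := by ring
  rw [h1, IsUltrametricDist.norm_add_eq_max_of_norm_ne_norm h.ne, max_eq_right h.le]

/-- An interval of norms gives infinitely many values. -/
private theorem W18_fin {L : Type*} [NormedField L] [IsAlgClosed L] {z : L} (hz : 1 < ‖z‖)
    {t₁ t₂ : ℝ} (h1 : 0 < t₁) (h12 : t₁ < t₂) (C : ℝ) (hC : 0 < C) (μ : ℕ) (hμ : μ ≠ 0)
    (S : Set ℝ) (hS : S.Finite) (h : ∀ w : L, t₁ < ‖w‖ → ‖w‖ < t₂ → C * ‖w‖ ^ μ ∈ S) : False := by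
  have hT : {t : ℝ | t₁ < t ∧ t < t₂ ∧ ∃ w : L, ‖w‖ = t}.Finite := by
    refine Set.Finite.of_finite_image (f := fun t => C * t ^ μ) (hS.subset ?_) ?_
    · rintro _ ⟨t, ⟨ha, hb, w, rfl⟩, rfl⟩
      exact h w ha hb
    · intro t ht t' ht' heq
      have e1 : t ^ μ = t' ^ μ := mul_left_cancel₀ hC.ne' heq
      exact (pow_left_inj₀ (h1.trans ht.1).le (h1.trans ht'.1).le hμ).1 e1
  obtain ⟨w, hw1, hw2⟩ := W18_between hz h1 h12
  obtain ⟨t, ht, hmax⟩ := hT.exists_maximal ⟨‖w‖, hw1, hw2, w, rfl⟩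
  obtain ⟨w', hw1', hw2'⟩ := W18_between hz (h1.trans ht.1) ht.2.1
  have := hmax ⟨ht.1.trans hw1', hw2', w', rfl⟩ hw1'.le
  linarith

/-- Two points with the same Boettcher coordinate have close orbits. -/
private theorem W18_close {L : Type*} [NormedField L] [IsUltrametricDist L] {α β : L} {s : ℝ}
    (hs : s < 1) (hα : ‖α - 1‖ ≤ s) (hβ : ‖β - 1‖ ≤ s) : ‖β / α - 1‖ ≤ s := by
  have h1 : ‖α‖ = 1 := by
    have : ‖α - 1‖ < ‖(1 : L)‖ := by
      rw [norm_one]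
      exact hα.trans_lt hs
    rw [W18_norm this, norm_one]
  have h0 : α ≠ 0 := by
    intro h
    rw [h, norm_zero] at h1
    exact zero_ne_one h1
  have h2 : β / α - 1 = ((β - 1) - (α - 1)) / α := by
    field_simp
    ring
  rw [h2, norm_div, h1, div_one]
  have h3 : ‖(β - 1) - (α - 1)‖ ≤ max ‖β - 1‖ ‖α - 1‖ := by
    have := IsUltrametricDist.norm_add_le_max (β - 1) (-(α - 1))
    rwa [norm_neg, ← sub_eq_add_neg] at this
  exact h3.trans (max_le hβ hα)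

theorem thm_W18 (h2 : St_W2) (h3 : St_W3) (h14 : St_W14) (h16 : St_W16) (h17 : St_W17) :
    St_W18 := by
  intro p _ L _ _ _ _ e m hm hpm f g hf hfd hg hgd φ ψ R c hφ hψ a b ha hb
  have hpp : p.Prime := Fact.out
  have hd1 : 1 ≤ p ^ e * m := Nat.mul_pos (pow_pos hpp.pos e) (by omega)
  have hd2 : 2 ≤ p ^ e * m := hm.trans (Nat.le_mul_of_pos_left m (pow_pos hpp.pos e))
  obtain ⟨Ff, -⟩ := h2 L (p ^ e * m) hd1 f φ R c hφ
  obtain ⟨Fg, -⟩ := h2 L (p ^ e * m) hd1 g ψ R c hψ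
  obtain ⟨R', hR', hrig⟩ := h17 p L e m hm hpm g hg hgd
  have hR1 : 1 < R := hφ.1
  have hc : 0 < c := hφ.2.1
  refine ⟨max R R', ?_⟩
  intro P hP x₀ y₀ k hk hx₀ hy₀ hev hder hevk hderk hfl hflk
  by_contra hndvd
  have hx₀R : R < ‖x₀‖ := (le_max_left _ _).trans_lt hx₀
  have hy₀R : R < ‖y₀‖ := (le_max_left _ _).trans_lt hy₀
  have hz : 1 < ‖x₀‖ := hR1.trans hx₀R
  set d := p ^ e * m with hd
  -- the second point
  obtain ⟨x₁, hx₁⟩ : ∃ x₁, orb f x₀ k = x₁ := ⟨_, rfl⟩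
  obtain ⟨y₁, hy₁⟩ : ∃ y₁, orb g y₀ k = y₁ := ⟨_, rfl⟩
  rw [hx₁, hy₁] at hevk hderk hflk
  have hdk : d ^ k ≠ 0 := pow_ne_zero _ (by omega)
  have hx₁n : ‖x₁‖ = ‖x₀‖ ^ d ^ k := by rw [← hx₁]; exact ((Ff x₀ hx₀R).2 k).1
  have hy₁n : ‖y₁‖ = ‖y₀‖ ^ d ^ k := by rw [← hy₁]; exact ((Fg y₀ hy₀R).2 k).1
  have hx₁R : R < ‖x₁‖ := by
    rw [hx₁n]
    exact hx₀R.trans_le (le_self_pow₀ hz.le hdk)
  have hy₁R : max R R' < ‖y₁‖ := by
    rw [hy₁n]
    exact hy₀.trans_le (le_self_pow₀ (hR1.le.trans hy₀R.le) hdk)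
  obtain ⟨r, hr⟩ : ∃ r, ‖y₁‖ = r := ⟨_, rfl⟩
  rw [hr] at hy₁R
  have hrR : R < r := (le_max_left _ _).trans_lt hy₁R
  have hrR' : R' < r := (le_max_right _ _).trans_lt hy₁R
  have hr1 : 1 < r := hR1.trans hrR
  have hr0 : 0 < r := zero_lt_one.trans hr1
  -- the tools
  obtain ⟨-, A2⟩ := h14 L P x₀ y₀ hev hder
  obtain ⟨⟨εB, hεB, B1⟩, B2⟩ := h14 L P x₁ y₁ hevk hderk
  obtain ⟨μ, C, ε2, hC, hε2, hE⟩ := h16 L ⟨x₀, hz⟩ P (tw f g P k) hP hndvd x₀ y₀ hev hder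
  have htw : ∀ x y : L, ev x y (tw f g P k) = ev (orb f x k) (orb g y k) P := fun x y =>
    ev_tw f g P k x y
  have hμ : μ ≠ 0 := by
    rintro rfl
    have := hE x₀ y₀ (by rw [sub_self, norm_zero]; exact hε2)
      (by rw [sub_self, norm_zero]; exact hε2) hev
    rw [htw, hx₁, hy₁, hevk, norm_zero, pow_zero, mul_one] at this
    exact hC.ne this
  obtain ⟨ε0, hε0, hfl⟩ := hfl
  obtain ⟨ε1, hε1, hflk⟩ := hflk
  obtain ⟨η, hη, hun⟩ := W18_unity (L := L) ha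
  have hψ1 : ‖ψ y₁‖ = r := by rw [(Fg y₁ (hr ▸ hrR)).1, hr]
  have hcont : ContinuousAt ψ y₁ := h3 p L e m hm hpm g ψ R c hψ y₁ (hr ▸ hrR)
  have hηr : 0 < min η 1 * r := mul_pos (lt_min hη one_pos) hr0
  obtain ⟨δψ, hδψ, hψc⟩ := Metric.continuousAt_iff.1 hcont _ hηr
  obtain ⟨v, hv⟩ : ∃ v, ‖ev x₁ y₁ (derivative P)‖ = v := ⟨_, rfl⟩
  have hv0 : 0 < v := by
    rw [← hv]
    exact norm_pos_iff.2 hderk
  -- the size of the neighbourhood of the second point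
  obtain ⟨δ1, hδ1, hδB, hδ1f, hδ1ψ, hδ1r⟩ : ∃ δ1 : ℝ, 0 < δ1 ∧ δ1 ≤ εB ∧ δ1 ≤ ε1 ∧ δ1 ≤ δψ ∧
      δ1 ≤ r := by
    refine ⟨min (min εB ε1) (min δψ r), lt_min (lt_min hεB hε1) (lt_min hδψ hr0), ?_, ?_, ?_, ?_⟩
    · exact (min_le_left _ _).trans (min_le_left _ _)
    · exact (min_le_left _ _).trans (min_le_right _ _)
    · exact (min_le_right _ _).trans (min_le_left _ _)
    · exact (min_le_right _ _).trans (min_le_right _ _)
  obtain ⟨εB2, hεB2, B2⟩ := B2 δ1 hδ1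
  -- near the second point
  have near : ∀ y : L, ‖y - y₁‖ < δ1 → ‖y‖ = r ∧ ‖ψ y - ψ y₁‖ < min η 1 * r := by
    intro y hy
    refine ⟨?_, ?_⟩
    · rw [← hr]
      apply W18_norm
      rw [hr]
      exact hy.trans_le hδ1r
    · rw [← dist_eq_norm]
      apply hψc
      rw [dist_eq_norm]
      exact hy.trans_le hδ1ψ
  -- continuity of the iterates
  have hcg : ContinuousAt (fun x => orb g x k) y₀ := (W18_cont g k).continuousAt
  have hcf : ContinuousAt (fun x => orb f x k) x₀ := (W18_cont f k).continuousAt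
  obtain ⟨δ2, hδ2, hgc⟩ := Metric.continuousAt_iff.1 hcg δ1 hδ1
  obtain ⟨δ3, hδ3, hfc⟩ := Metric.continuousAt_iff.1 hcf (min δ1 εB2) (lt_min hδ1 hεB2)
  simp only [dist_eq_norm, hy₁] at hgc
  simp only [dist_eq_norm, hx₁] at hfc
  have hy₀0 : 0 < ‖y₀‖ := (zero_lt_one.trans hR1).trans hy₀R
  have hx₀0 : 0 < ‖x₀‖ := (zero_lt_one.trans hR1).trans hx₀R
  obtain ⟨εA, hεA, A2⟩ := A2 (min (min δ2 ε2) (min ε0 ‖y₀‖))
    (lt_min (lt_min hδ2 hε2) (lt_min hε0 hy₀0))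
  have key : ∀ x : L, ‖x - x₀‖ < min (min εA δ3) (min (min ε2 ε0) ‖x₀‖) →
      ∃ y ρ : L, ‖y‖ = r ∧ ‖ρ‖ = C / (v * r) * ‖x - x₀‖ ^ μ ∧
        ∀ N, ‖orb g (y * (1 + ρ)) N / orb g y N - 1‖ ≤ r ^ (-(c * ((d : ℕ) : ℝ) ^ N)) := by
    intro x hx
    simp only [lt_min_iff] at hx
    obtain ⟨⟨hxA, hx3⟩, ⟨hx2, hx0⟩, hxn⟩ := hx
    obtain ⟨y, hy, hyP⟩ := A2 x hxA
    simp only [lt_min_iff] at hy
    obtain ⟨⟨hy2, hyε2⟩, hy0, hyn⟩ := hy
    have hxR : R < ‖x‖ := by rw [W18_norm hxn]; exact hx₀R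
    have hyR : R < ‖y‖ := by rw [W18_norm hyn]; exact hy₀R
    have e1 : ψ y ^ a = φ x ^ b := hfl x y hx0 hy0 hyP
    obtain ⟨x', hx'⟩ : ∃ x', orb f x k = x' := ⟨_, rfl⟩
    obtain ⟨y', hy'⟩ : ∃ y', orb g y k = y' := ⟨_, rfl⟩
    have hx'n := hfc hx3
    have hy'n := hgc hy2
    rw [hx'] at hx'n
    rw [hy'] at hy'n
    rw [lt_min_iff] at hx'n
    obtain ⟨y'', hy'', hy''P⟩ := B2 x' hx'n.2
    have e2 : ψ y'' ^ a = φ x' ^ b := hflk x' y'' (hx'n.1.trans_le hδ1f) (hy''.trans_le hδ1f) hy''P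
    have e3 : ψ y' ^ a = φ x' ^ b := by
      rw [← hy', ← hx', ((Fg y hyR).2 k).2.1, ((Ff x hxR).2 k).2.1, ← pow_mul, mul_comm,
        pow_mul, e1, ← pow_mul, ← pow_mul, mul_comm]
    obtain ⟨n1, n1'⟩ := near y' hy'n
    obtain ⟨n2, n2'⟩ := near y'' hy''
    have hy'R : R < ‖y'‖ := by rw [n1]; exact hrR
    have hy''R : R < ‖y''‖ := by rw [n2]; exact hrR
    have hψ' : ‖ψ y'‖ = r := by rw [(Fg y' hy'R).1, n1]
    have hψ'' : ‖ψ y''‖ = r := by rw [(Fg y'' hy''R).1, n2]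
    have hψ''0 : ψ y'' ≠ 0 := by
      intro h
      rw [h, norm_zero] at hψ''
      exact hr0.ne hψ''
    have e4 : ψ y' = ψ y'' := by
      have h4 : (ψ y' / ψ y'') ^ a = 1 := by
        rw [div_pow, e2, e3, div_self]
        rw [← e2]
        exact pow_ne_zero _ hψ''0
      have h5 : ‖ψ y' / ψ y'' - 1‖ < η := by
        have h6 : ψ y' / ψ y'' - 1 = ((ψ y' - ψ y₁) - (ψ y'' - ψ y₁)) / ψ y'' := by
          field_simp
          ring
        rw [h6, norm_div, hψ'', div_lt_iff₀ hr0]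
        have h7 := IsUltrametricDist.norm_add_le_max (ψ y' - ψ y₁) (-(ψ y'' - ψ y₁))
        rw [norm_neg, ← sub_eq_add_neg] at h7
        refine (h7.trans_lt (max_lt n1' n2')).trans_le ?_
        exact mul_le_mul_of_nonneg_right (min_le_left _ _) hr0.le
      have h8 := hun _ h4 h5
      rwa [div_eq_one_iff_eq hψ''0] at h8
    have hy''0 : y'' ≠ 0 := by
      intro h
      rw [h, norm_zero] at n2
      exact hr0.ne n2
    refine ⟨y'', y' / y'' - 1, n2, ?_, fun N => ?_⟩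
    · have h5 : ‖ev x' y' P‖ = C * ‖x - x₀‖ ^ μ := by
        rw [← hE x y hx2 hyε2 hyP, htw, hx', hy']
      have h6 := (B1 x' y' y'' ((hx'n.1).trans_le hδB) (hy'n.trans_le hδB)
        (hy''.trans_le hδB)).2
      rw [hy''P, sub_zero, h5, hv] at h6
      have h7 : y' / y'' - 1 = (y' - y'') / y'' := by
        field_simp
      rw [h7, norm_div, n2]
      have h8 : ‖y' - y''‖ = C * ‖x - x₀‖ ^ μ / v := by
        rw [h6]
        field_simp
      rw [h8]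
      field_simp
    · have h5 : y'' * (1 + (y' / y'' - 1)) = y' := by
        field_simp
        ring
      rw [h5]
      have g1 := ((Fg y' hy'R).2 N).2.2
      have g2 := ((Fg y'' hy''R).2 N).2.2
      have g3 := ((Fg y' hy'R).2 N).1
      have g4 := ((Fg y'' hy''R).2 N).1
      rw [n1] at g1 g3
      rw [n2] at g2 g4
      have o1 : orb g y' N ≠ 0 := by
        intro h
        rw [h, norm_zero] at g3
        exact (pow_pos hr0 _).ne g3
      have o2 : orb g y'' N ≠ 0 := by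
        intro h
        rw [h, norm_zero] at g4
        exact (pow_pos hr0 _).ne g4
      rw [e4] at g1
      have hlt : r ^ (-(c * ((d : ℕ) : ℝ) ^ N)) < 1 := by
        apply Real.rpow_lt_one_of_one_lt_of_neg hr1
        have : (0 : ℝ) < ((d : ℕ) : ℝ) ^ N := by
          apply pow_pos
          exact_mod_cast (by omega : 0 < d)
        have := mul_pos hc this
        linarith
      have h6 := W18_close hlt g1 g2
      have h7 : ψ y'' ^ d ^ N / orb g y'' N / (ψ y'' ^ d ^ N / orb g y' N) =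
          orb g y' N / orb g y'' N := by
        have : ψ y'' ^ d ^ N ≠ 0 := pow_ne_zero _ hψ''0
        field_simp
      rwa [h7] at h6
  -- the contradiction
  obtain ⟨ε3, hε3, key⟩ : ∃ ε3 : ℝ, 0 < ε3 ∧ ∀ x : L, ‖x - x₀‖ < ε3 →
      ∃ y ρ : L, ‖y‖ = r ∧ ‖ρ‖ = C / (v * r) * ‖x - x₀‖ ^ μ ∧
        ∀ N, ‖orb g (y * (1 + ρ)) N / orb g y N - 1‖ ≤ r ^ (-(c * ((d : ℕ) : ℝ) ^ N)) :=
    ⟨_, lt_min (lt_min hεA hδ3) (lt_min (lt_min hε2 hε0) hx₀0), key⟩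
  have hC' : 0 < C / (v * r) := by positivity
  -- an upper end of the interval
  obtain ⟨t₂, ht₂, ht₂ε, ht₂1⟩ : ∃ t₂ : ℝ, 0 < t₂ ∧ t₂ ≤ ε3 ∧ C / (v * r) * t₂ ^ μ ≤ 1 := by
    refine ⟨min ε3 (min 1 (1 / (C / (v * r)))), lt_min hε3 (lt_min one_pos (by positivity)),
      min_le_left _ _, ?_⟩
    set t := min ε3 (min 1 (1 / (C / (v * r)))) with ht
    have t0 : 0 < t := lt_min hε3 (lt_min one_pos (by positivity))
    have t1 : t ≤ 1 := (min_le_right _ _).trans (min_le_left _ _)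
    have t2 : t ≤ 1 / (C / (v * r)) := (min_le_right _ _).trans (min_le_right _ _)
    have t3 : t ^ μ ≤ t := by
      calc t ^ μ ≤ t ^ 1 := pow_le_pow_of_le_one t0.le t1 (by omega)
        _ = t := pow_one t
    calc C / (v * r) * t ^ μ ≤ C / (v * r) * (1 / (C / (v * r))) := by
          apply mul_le_mul_of_nonneg_left (t3.trans t2) hC'.le
      _ = 1 := by field_simp
  have ht₁ : 0 < t₂ / 2 := by positivity
  have hε : 0 < C / (v * r) * (t₂ / 2) ^ μ := by positivity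
  have hlt₂ : t₂ / 2 < t₂ := half_lt_self ht₂
  refine W18_fin (t₂ := t₂) hz ht₁ hlt₂ (C / (v * r)) hC' μ hμ _
    (hrig r hrR' c (C / (v * r) * (t₂ / 2) ^ μ) hc hε) ?_
  intro w hw1 hw2
  obtain ⟨y, ρ, k1, k2, k3⟩ := key (x₀ + w) (by rw [add_sub_cancel_left]; exact hw2.trans_le ht₂ε)
  rw [add_sub_cancel_left] at k2
  refine ⟨?_, ?_, y, ρ, k1, k2, k3⟩
  · apply mul_le_mul_of_nonneg_left _ hC'.le
    exact pow_le_pow_left₀ ht₁.le hw1.le _
  · refine lt_of_lt_of_le ?_ ht₂1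
    apply mul_lt_mul_of_pos_left _ hC'
    exact pow_lt_pow_left₀ hw2 (norm_nonneg _) hμ

end Pool.Agent.Helper79.DN
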