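import Pool.Agent.Helper79.DN.StW

/-!
# Block W, W19: an irreducible polynomial has a nonzero partial derivative
-/

set_option autoImplicit false

namespace Pool.Agent.Helper79.DN

open Polynomial Pool.Agent.Helper79.DM Pool.Agent.Helper11.SP

private theorem W19_der (L : Type) [Field L] (h : MvPolynomial (Fin 2) L) :
    derivative (toP L h) = toP L (MvPolynomial.pderiv 1 h) := by
  have hC : ∀ a : L, toP L (MvPolynomial.C a) = C (C a) := by
    intro a
    simp [toP]
  have hX0 : toP L (MvPolynomial.X 0) = C X := by simp [toP]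
  have hX1 : toP L (MvPolynomial.X 1) = X := by simp [toP]
  induction h using MvPolynomial.induction_on with
  | C a => rw [hC, MvPolynomial.pderiv_C, map_zero, derivative_C]
  | add q r hq hr => rw [map_add, derivative_add, hq, hr, map_add, map_add]
  | mul_X q i hq =>
    rw [map_mul, derivative_mul, hq, MvPolynomial.pderiv_mul, map_add, map_mul, map_mul]
    congr 2
    fin_cases i
    · show derivative (toP L (MvPolynomial.X 0)) = toP L (MvPolynomial.pderiv 1 (MvPolynomial.X 0))
      rw [hX0, MvPolynomial.pderiv_X_of_ne (by decide), map_zero, derivative_C]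
    · show derivative (toP L (MvPolynomial.X 1)) = toP L (MvPolynomial.pderiv 1 (MvPolynomial.X 1))
      rw [hX1, MvPolynomial.pderiv_X_self, map_one, derivative_X]

private theorem W19_coeff (p : ℕ) [Fact p.Prime] (L : Type) [Field L] [CharP L p]
    (h : MvPolynomial (Fin 2) L) (i : Fin 2) (h0 : MvPolynomial.pderiv i h = 0)
    (m : Fin 2 →₀ ℕ) (hm : MvPolynomial.coeff m h ≠ 0) : p ∣ m i := by
  by_cases hi : m i = 0
  · rw [hi]
    exact dvd_zero p
  · have h1 := MvPolynomial.coeff_pderiv (i := i) h (m - Finsupp.single i 1)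
    rw [h0, MvPolynomial.coeff_zero, tsub_add_cancel_of_le] at h1
    · have h2 : (((m - Finsupp.single i 1 : Fin 2 →₀ ℕ) i : ℕ) : L) + 1 = ((m i : ℕ) : L) := by
        rw [Finsupp.coe_tsub, Pi.sub_apply, Finsupp.single_eq_same]
        have : m i - 1 + 1 = m i := by omega
        exact_mod_cast congrArg (fun n : ℕ => (n : L)) this
      rw [h2] at h1
      rcases mul_eq_zero.1 h1.symm with h3 | h3
      · exact absurd h3 hm
      · exact (CharP.cast_eq_zero_iff L p _).1 h3
    · rw [Finsupp.single_le_iff]
      omega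

theorem thm_W19 : St_W19 := by
  intro p _ L _ _ _ h hirr
  by_contra hcon
  push Not at hcon
  obtain ⟨h1, h2⟩ := hcon
  have hp : p.Prime := Fact.out
  have h1' : MvPolynomial.pderiv 1 h = 0 := by
    rw [W19_der] at h1
    exact (map_eq_zero_iff (toP L) (toP L).injective).1 h1
  have h2' : MvPolynomial.pderiv 0 h = 0 := by
    rw [W19_der] at h2
    have h3 := (map_eq_zero_iff (toP L) (toP L).injective).1 h2
    have h4 := MvPolynomial.pderiv_rename (R := L) (Equiv.swap (0 : Fin 2) 1).injective 0 h
    rw [Equiv.swap_apply_left, h3] at h4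
    exact (map_eq_zero_iff _ (MvPolynomial.rename_injective _
      (Equiv.swap (0 : Fin 2) 1).injective)).1 h4.symm
  have hdvd : ∀ m : Fin 2 →₀ ℕ, MvPolynomial.coeff m h ≠ 0 → ∀ i, p ∣ m i := by
    intro m hm i
    fin_cases i
    · exact W19_coeff p L h 0 h2' m hm
    · exact W19_coeff p L h 1 h1' m hm
  -- the root
  have hroot : ∀ a : L, ∃ b, b ^ p = a := fun a => IsAlgClosed.exists_pow_nat_eq a hp.pos
  choose r hr using hroot
  have hchar : CharP (MvPolynomial (Fin 2) L) p := inferInstance
  have hpow : h = (∑ m ∈ h.support, MvPolynomial.monomial (m.mapRange (fun n => n / p) (by simp))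
      (r (MvPolynomial.coeff m h))) ^ p := by
    rw [sum_pow_char p]
    conv_lhs => rw [h.as_sum]
    refine Finset.sum_congr rfl fun m hm => ?_
    have e : p • (m.mapRange (fun n => n / p) (by simp)) = m := by
      refine Finsupp.ext fun i => ?_
      rw [Finsupp.smul_apply, Finsupp.mapRange_apply, smul_eq_mul]
      exact Nat.mul_div_cancel' (hdvd m (MvPolynomial.mem_support_iff.1 hm) i)
    rw [MvPolynomial.monomial_pow, hr, e]
  rw [hpow] at hirr
  exact not_irreducible_pow hp.ne_one hirr

end Pool.Agent.Helper79.DN
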