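import Pool.Agent.Helper79.DN.StW

/-!
# [W3] Continuity of the Boettcher coordinate
-/

set_option autoImplicit false

namespace Pool.Agent.Helper79.DN

open Polynomial Pool.Agent.Helper79.DM Pool.Agent.Helper11.SP

section

variable {L : Type} [NormedField L] [IsUltrametricDist L]

theorem W3_norm_one {a : L} {t : ℝ} (ht : t < 1) (h : ‖a - 1‖ ≤ t) : ‖a‖ = 1 := by
  have h1 : ‖a - 1‖ < ‖(1 : L)‖ := by rw [norm_one]; linarith
  have h2 : ‖(a - 1) + 1‖ = max ‖a - 1‖ ‖(1 : L)‖ :=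
    IsUltrametricDist.norm_add_eq_max_of_norm_ne_norm (ne_of_lt h1)
  rw [sub_add_cancel, max_eq_right h1.le, norm_one] at h2
  exact h2

theorem W3_mul {a b : L} {t : ℝ} (ht : t < 1) (ha : ‖a - 1‖ ≤ t) (hb : ‖b - 1‖ ≤ t) :
    ‖a * b - 1‖ ≤ t := by
  have h1 : a * b - 1 = a * (b - 1) + (a - 1) := by ring
  rw [h1]
  refine (IsUltrametricDist.norm_add_le_max _ _).trans (max_le ?_ ha)
  rw [norm_mul, W3_norm_one ht ha, one_mul]
  exact hb

theorem W3_inv {a : L} {t : ℝ} (ht : t < 1) (ha : ‖a - 1‖ ≤ t) : ‖a⁻¹ - 1‖ ≤ t := by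
  have h0 : ‖a‖ = 1 := W3_norm_one ht ha
  have hne : a ≠ 0 := by
    intro h
    rw [h, norm_zero] at h0
    exact zero_ne_one h0
  have h1 : a⁻¹ - 1 = a⁻¹ * (1 - a) := by
    field_simp
  rw [h1, norm_mul, norm_inv, h0, inv_one, one_mul, norm_sub_rev]
  exact ha

end

theorem W3_orb_cont {L : Type} [NormedField L] (f : L[X]) (N : ℕ) :
    Continuous fun x => orb f x N := by
  unfold orb
  exact Continuous.iterate f.continuous N

theorem thm_W3 (h2 : St_W2) : St_W3 := by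
  intro p hp L _ _ _ e m hm hpm f φ R c hφ x hx
  have hpp : p.Prime := hp.out
  have hR : 1 < R := hφ.1
  have hc : 0 < c := hφ.2.1
  set d : ℕ := p ^ e * m with hd
  have hd1 : 1 ≤ d := Nat.mul_pos (pow_pos hpp.pos e) (by omega)
  have hx1 : 1 < ‖x‖ := hR.trans hx
  have hx0 : x ≠ 0 := by
    intro h
    rw [h, norm_zero] at hx1
    linarith
  have hW := (h2 L d hd1 f φ R c hφ).1
  have hWx := hW x hx
  have hφx0 : φ x ≠ 0 := by
    intro h
    have := hWx.1
    rw [h, norm_zero] at this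
    linarith
  rw [Metric.continuousAt_iff]
  intro ε hε
  -- the precision
  set ε' : ℝ := min (1 / 2) (ε / (2 * ‖x‖)) with hε'
  have hε'0 : 0 < ε' := by
    apply lt_min (by norm_num)
    positivity
  have hε'1 : ε' < 1 := (min_le_left _ _).trans_lt (by norm_num)
  set t : ℝ := ‖x‖ ^ (-c) with ht
  have ht0 : 0 < t := Real.rpow_pos_of_pos (by linarith) _
  have ht1 : t < 1 := Real.rpow_lt_one_of_one_lt_of_neg hx1 (by linarith)
  obtain ⟨N, hN⟩ := exists_pow_lt_of_lt_one hε'0 ht1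
  set q : ℕ := (p ^ e) ^ N with hq
  have hq0 : q ≠ 0 := pow_ne_zero _ (pow_ne_zero _ hpp.ne_zero)
  have hdN : d ^ N = m ^ N * q := by rw [hd, hq, mul_pow]; ring
  have htN : ∀ z : L, ‖z‖ = ‖x‖ → ‖z‖ ^ (-(c * (d : ℝ) ^ N)) ≤ ε' ^ q := by
    intro z hz
    have h1 : ‖z‖ ^ (-(c * (d : ℝ) ^ N)) = (t ^ m ^ N) ^ q := by
      rw [hz, ht, ← pow_mul, ← hdN, ← Real.rpow_mul_natCast (by linarith)]
      congr 1
      push_cast
      ring
    rw [h1]
    apply pow_le_pow_left₀ (by positivity)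
    have h2 : t ^ m ^ N ≤ t ^ N := by
      apply pow_le_pow_of_le_one ht0.le ht1.le
      exact (Nat.lt_pow_self (by omega)).le
    exact h2.trans hN.le
  have hεq : 0 < ε' ^ q := by positivity
  have hεq1 : ε' ^ q < 1 := pow_lt_one₀ hε'0.le hε'1 hq0
  have horb0 : orb f x N ≠ 0 := by
    intro h
    have h3 := (hWx.2 N).1
    rw [h, norm_zero] at h3
    have : 0 < ‖x‖ ^ d ^ N := by positivity
    linarith
  -- continuity of the iterate
  have hcont := (W3_orb_cont f N).continuousAt (x := x)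
  rw [Metric.continuousAt_iff] at hcont
  obtain ⟨δ, hδ, hδ'⟩ := hcont (‖orb f x N‖ * ε' ^ q) (mul_pos (norm_pos_iff.mpr horb0) hεq)
  refine ⟨min δ ‖x‖, lt_min hδ (by linarith), ?_⟩
  intro x' hx'
  rw [dist_eq_norm] at hx' ⊢
  have hxx : ‖x' - x‖ < ‖x‖ := hx'.trans_le (min_le_right _ _)
  have hnx' : ‖x'‖ = ‖x‖ := by
    have h2 : ‖(x' - x) + x‖ = max ‖x' - x‖ ‖x‖ :=
      IsUltrametricDist.norm_add_eq_max_of_norm_ne_norm (ne_of_lt hxx)
    rw [sub_add_cancel, max_eq_right hxx.le] at h2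
    exact h2
  have hx'R : R < ‖x'‖ := by rw [hnx']; exact hx
  have hx'0 : x' ≠ 0 := by
    intro h
    rw [h, norm_zero] at hnx'
    linarith
  have hWx' := hW x' hx'R
  have hφx'0 : φ x' ≠ 0 := by
    intro h
    have := hWx'.1
    rw [h, norm_zero, hnx'] at this
    linarith
  have horb0' : orb f x' N ≠ 0 := by
    intro h
    have h3 := (hWx'.2 N).1
    rw [h, norm_zero, hnx'] at h3
    have : 0 < ‖x‖ ^ d ^ N := by positivity
    linarith
  have hit := hδ' (x := x') (by rw [dist_eq_norm]; exact hx'.trans_le (min_le_left _ _))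
  rw [dist_eq_norm] at hit
  -- closeness of `v` to `1`
  set v : L := φ x' / φ x with hv
  have hv1 : ‖v - 1‖ < 1 := by
    set t' : ℝ := max t (‖x' - x‖ / ‖x‖) with ht'
    have ht'1 : t' < 1 := max_lt ht1 (by rw [div_lt_one (by linarith)]; exact hxx)
    have ha : ‖φ x' / x' - 1‖ ≤ t' := by
      refine ((hφ.2.2.1 x' hx'R).2.2).trans ?_
      rw [hnx']
      exact le_max_left _ _
    have hb : ‖x' / x - 1‖ ≤ t' := by
      have : x' / x - 1 = (x' - x) / x := by field_simp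
      rw [this, norm_div]
      exact le_max_right _ _
    have hcc : ‖(φ x / x)⁻¹ - 1‖ ≤ t' := by
      apply W3_inv ht'1
      exact ((hφ.2.2.1 x hx).2.2).trans (le_max_left _ _)
    have hprod := W3_mul ht'1 (W3_mul ht'1 ha hb) hcc
    have hveq : φ x' / x' * (x' / x) * (φ x / x)⁻¹ = v := by
      rw [hv]
      field_simp
    rw [hveq] at hprod
    exact hprod.trans_lt ht'1
  have hvN : ‖v ^ d ^ N - 1‖ ≤ ε' ^ q := by
    have ha : ‖φ x' ^ d ^ N / orb f x' N - 1‖ ≤ ε' ^ q :=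
      ((hWx'.2 N).2.2).trans (htN x' hnx')
    have hb : ‖orb f x' N / orb f x N - 1‖ ≤ ε' ^ q := by
      have : orb f x' N / orb f x N - 1 = (orb f x' N - orb f x N) / orb f x N := by
        field_simp
      rw [this, norm_div, div_le_iff₀ (norm_pos_iff.mpr horb0), mul_comm]
      exact hit.le
    have hcc : ‖(φ x ^ d ^ N / orb f x N)⁻¹ - 1‖ ≤ ε' ^ q :=
      W3_inv hεq1 (((hWx.2 N).2.2).trans (htN x rfl))
    have hprod := W3_mul hεq1 (W3_mul hεq1 ha hb) hcc
    have hveq : φ x' ^ d ^ N / orb f x' N * (orb f x' N / orb f x N) *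
        (φ x ^ d ^ N / orb f x N)⁻¹ = v ^ d ^ N := by
      rw [hv, div_pow]
      field_simp
    rw [hveq] at hprod
    exact hprod
  rw [hd, unit_pow e m hpm hv1 N] at hvN
  have hvε : ‖v - 1‖ ≤ ε' := le_of_pow_le_pow_left₀ hq0 hε'0.le hvN
  have hfin : φ x' - φ x = φ x * (v - 1) := by
    rw [hv]
    field_simp
  rw [hfin, norm_mul, hWx.1]
  have h5 : ‖x‖ * ‖v - 1‖ ≤ ‖x‖ * ε' := mul_le_mul_of_nonneg_left hvε (by linarith)
  have h6 : ‖x‖ * ε' ≤ ‖x‖ * (ε / (2 * ‖x‖)) :=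
    mul_le_mul_of_nonneg_left (min_le_right _ _) (by linarith)
  have h7 : ‖x‖ * (ε / (2 * ‖x‖)) = ε / 2 := by
    field_simp
  linarith

end Pool.Agent.Helper79.DN
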