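import Pool.Agent.Helper79.DN.StW

/-!
# Block W: first consequence of infinitely many returns
-/

set_option autoImplicit false

namespace Pool.Agent.Helper79.DN

open Polynomial Pool.Agent.Helper79.DM Pool.Agent.Helper11.SP

/-- The nearest root. -/
private theorem W4_root {L : Type} [NormedField L] [IsAlgClosed L] (P : L[X]) (hP : P ≠ 0)
    (S : Set ℕ) (hS : S.Infinite) (w : ℕ → L) : ∃ r : L, {n | n ∈ S ∧
      ‖P.leadingCoeff‖ * ‖w n - r‖ ^ Multiset.card P.roots ≤ ‖P.eval (w n)‖}.Infinite := by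
  classical
  have hev : ∀ z : L, P.eval z = P.leadingCoeff * (P.roots.map fun r => z - r).prod := by
    intro z
    have h1 := (IsAlgClosed.splits P).eq_prod_roots
    conv_lhs => rw [h1]
    rw [eval_mul, eval_C, eval_multiset_prod, Multiset.map_map]
    simp
  set D := Multiset.card P.roots with hD
  have key : ∀ n ∈ S, ∃ r ∈ insert (0 : L) P.roots.toFinset,
      ‖P.leadingCoeff‖ * ‖w n - r‖ ^ D ≤ ‖P.eval (w n)‖ := by
    intro n _
    rcases P.roots.toFinset.eq_empty_or_nonempty with he | he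
    · refine ⟨0, Finset.mem_insert_self _ _, ?_⟩
      have h2 : P.roots = 0 := Multiset.toFinset_eq_empty.1 he
      rw [hev, hD, h2]
      simp
    · obtain ⟨r, hr, hmin⟩ := P.roots.toFinset.exists_min_image (fun r => ‖w n - r‖) he
      refine ⟨r, Finset.mem_insert_of_mem hr, ?_⟩
      rw [hev, norm_mul]
      refine mul_le_mul_of_nonneg_left ?_ (norm_nonneg _)
      have h3 : ∀ s : Multiset L, (∀ t ∈ s, ‖w n - r‖ ≤ ‖w n - t‖) →
          ‖w n - r‖ ^ Multiset.card s ≤ ‖(s.map fun t => w n - t).prod‖ := by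
        intro s
        induction s using Multiset.induction_on with
        | empty => simp
        | cons a s ih =>
          intro hs
          rw [Multiset.card_cons, Multiset.map_cons, Multiset.prod_cons, norm_mul, pow_succ,
            mul_comm]
          exact mul_le_mul (hs a (Multiset.mem_cons_self _ _))
            (ih fun t ht => hs t (Multiset.mem_cons_of_mem ht)) (by positivity) (norm_nonneg _)
      exact h3 _ fun t ht => hmin t (Multiset.mem_toFinset.2 ht)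
  obtain ⟨r, -, hinf⟩ := pigeon _ S hS _ key
  exact ⟨r, hinf⟩

private theorem W4_pow {L : Type} [NormedField L] [IsUltrametricDist L] (w r : L)
    (hw : ‖w‖ ≤ 1) (B : ℝ) (hB : 1 ≤ B) (hr : ‖r‖ ≤ B) (k : ℕ) :
    ‖w ^ k - r ^ k‖ ≤ ‖w - r‖ * B ^ k := by
  induction k with
  | zero => simp
  | succ k ih =>
    have h1 : w ^ (k + 1) - r ^ (k + 1) = w ^ k * (w - r) + (w ^ k - r ^ k) * r := by ring
    rw [h1]
    refine (IsUltrametricDist.norm_add_le_max _ _).trans (max_le ?_ ?_)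
    · rw [norm_mul, norm_pow, mul_comm]
      have h2 : ‖w‖ ^ k ≤ 1 := pow_le_one₀ (norm_nonneg _) hw
      have h3 : 1 ≤ B ^ (k + 1) := one_le_pow₀ hB
      exact mul_le_mul_of_nonneg_left (h2.trans h3) (norm_nonneg _)
    · rw [norm_mul, pow_succ, ← mul_assoc]
      exact mul_le_mul ih hr (norm_nonneg _) (by positivity)

private theorem W4_close {L : Type} [NormedField L] [IsUltrametricDist L] (u : L) (δ : ℝ)
    (hδ : δ < 1) (hu : ‖u - 1‖ ≤ δ) : ‖u‖ = 1 ∧ ∀ k : ℕ, ‖u ^ k - 1‖ ≤ δ := by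
  have h1 : ‖u‖ = 1 := by
    have h3 : u = 1 + (u - 1) := by ring
    rw [h3, IsUltrametricDist.norm_add_eq_max_of_norm_ne_norm, max_eq_left, norm_one]
    · rw [norm_one]
      linarith
    · rw [norm_one]
      exact (lt_of_le_of_lt hu hδ).ne'
  refine ⟨h1, fun k => ?_⟩
  have h2 := W4_pow u 1 h1.le 1 le_rfl (by simp) k
  rw [one_pow, one_pow, mul_one] at h2
  exact h2.trans hu

theorem thm_W4 (h2 : St_W2) : St_W4 := by
  classical
  intro L _ _ _ d hd f g φ ψ R c hf hg x y hx hy h h0 hS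
  have hR1 : 1 < R := hf.1
  have hc : 0 < c := hf.2.1
  obtain ⟨hφx, hfx⟩ := (h2 L d (by omega) f φ R c hf).1 x hx
  obtain ⟨hψy, hgy⟩ := (h2 L d (by omega) g ψ R c hg).1 y hy
  have hX : 1 < ‖x‖ := by linarith
  have hY : 1 < ‖y‖ := by linarith
  set S := ret f g x y h with hSdef
  have hxn : ∀ n, ‖orb f x n‖ = ‖x‖ ^ d ^ n := fun n => (hfx n).1
  have hyn : ∀ n, ‖orb g y n‖ = ‖y‖ ^ d ^ n := fun n => (hgy n).1
  obtain ⟨a, b, ha, hb, hab⟩ := ratio h h0 ‖x‖ ‖y‖ hX hY d hd (orb f x) (orb g y) S hS hxn hyn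
    (fun n hn => hn)
  have hx0 : ∀ n, orb f x n ≠ 0 := fun n => by
    rw [← norm_pos_iff, hxn]
    positivity
  have hy0 : ∀ n, orb g y n ≠ 0 := fun n => by
    rw [← norm_pos_iff, hyn]
    positivity
  have hTex : ∀ n, ∃ T : L, T ^ a = orb f x n := fun n => IsAlgClosed.exists_pow_nat_eq _ ha
  choose T hT using hTex
  have hTa : ∀ n, ‖T n‖ ^ a = ‖x‖ ^ d ^ n := fun n => by rw [← norm_pow, hT, hxn]
  have hT1 : ∀ n, 1 < ‖T n‖ := by
    intro n
    by_contra hcon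
    push Not at hcon
    have h3 := pow_le_one₀ (n := a) (norm_nonneg (T n)) hcon
    rw [hTa] at h3
    have h4 : 1 < ‖x‖ ^ d ^ n := one_lt_pow₀ hX (by positivity)
    linarith
  have hT0 : ∀ n, T n ≠ 0 := fun n => by
    rw [← norm_pos_iff]
    linarith [hT1 n]
  set w : ℕ → L := fun n => orb g y n / T n ^ b with hw
  have hyw : ∀ n, orb g y n = w n * T n ^ b := fun n => by
    have := hT0 n
    rw [hw]
    field_simp
  have hw1 : ∀ n, ‖w n‖ = 1 := by
    intro n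
    have h1 : ‖w n‖ ^ a = 1 := by
      have h3 : ‖w n‖ = ‖orb g y n‖ / ‖T n‖ ^ b := by rw [hw, norm_div, norm_pow]
      rw [h3, div_pow, ← pow_mul, mul_comm b a, pow_mul, hTa, hyn, ← pow_mul, ← pow_mul,
        mul_comm (d ^ n) a, mul_comm (d ^ n) b, pow_mul, pow_mul, hab, div_self]
      positivity
    exact (pow_eq_one_iff_of_nonneg (norm_nonneg _) ha.ne').1 h1
  have hne : h.support.Nonempty := by
    rw [Finset.nonempty_iff_ne_empty]
    exact fun he => h0 (MvPolynomial.support_eq_empty.1 he)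
  obtain ⟨ms, hms, hmax⟩ := h.support.exists_max_image (fun m => a * m 0 + b * m 1) hne
  set K := a * ms 0 + b * ms 1 with hK
  set P := leadP h a b K with hPdef
  have hP : P ≠ 0 := leadP_ne_zero h a b ha ms hms
  obtain ⟨C₁, hC₁⟩ := lead_est h a b K ha hb hmax 1 le_rfl
  have hest : ∀ n ∈ S, ‖T n‖ * ‖P.eval (w n)‖ ≤ C₁ := by
    intro n hn
    refine hC₁ (T n) (w n) (orb f x n) (orb g y n) (hT1 n).le (hw1 n) ?_ ?_ ?_ ?_ hn
    · rw [hT, sub_self, norm_zero]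
      exact zero_le_one
    · rw [hyw, sub_self, norm_zero]
      exact zero_le_one
    · rw [hT]
    · rw [hyw]
  obtain ⟨r, hinf⟩ := W4_root P hP S hS w
  set S' := {n | n ∈ S ∧ ‖P.leadingCoeff‖ * ‖w n - r‖ ^ Multiset.card P.roots ≤ ‖P.eval (w n)‖}
    with hS'
  set D := Multiset.card P.roots with hD
  have hlc : 0 < ‖P.leadingCoeff‖ := norm_pos_iff.2 (leadingCoeff_ne_zero.2 hP)
  set C₂ := C₁ / ‖P.leadingCoeff‖ with hC₂
  have hle : ∀ n ∈ S', ‖T n‖ * ‖w n - r‖ ^ D ≤ C₂ := by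
    intro n hn
    rw [hC₂, le_div_iff₀ hlc]
    calc ‖T n‖ * ‖w n - r‖ ^ D * ‖P.leadingCoeff‖
        = ‖T n‖ * (‖P.leadingCoeff‖ * ‖w n - r‖ ^ D) := by ring
      _ ≤ ‖T n‖ * ‖P.eval (w n)‖ := mul_le_mul_of_nonneg_left hn.2 (norm_nonneg _)
      _ ≤ C₁ := hest n hn.1
  have hD0 : D ≠ 0 := by
    intro hD0
    obtain ⟨n₀, hn₀⟩ := large_pow ‖x‖ hX d hd (C₂ ^ a)
    obtain ⟨n, hn, hnn⟩ := hinf.exists_gt n₀
    have h3 := hle n hn
    rw [hD0, pow_zero, mul_one] at h3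
    have h4 : ‖T n‖ ^ a ≤ C₂ ^ a := pow_le_pow_left₀ (norm_nonneg _) h3 a
    rw [hTa] at h4
    linarith [hn₀ n hnn.le]
  have hm0 : D * a ≠ 0 := Nat.mul_ne_zero hD0 ha.ne'
  set m : ℕ := D * a with hm
  have hm0' : (0 : ℝ) < m := by positivity
  set τ : ℝ := ‖x‖ ^ (-(1 / (m : ℝ))) with hτ
  have hx00 : (0 : ℝ) < ‖x‖ := by linarith
  have hy00 : (0 : ℝ) < ‖y‖ := by linarith
  have hτ0 : 0 < τ := Real.rpow_pos_of_pos hx00 _
  have hτ1 : τ < 1 := Real.rpow_lt_one_of_one_lt_of_neg hX (by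
    rw [neg_lt_zero]
    positivity)
  have hτm : τ ^ m = ‖x‖⁻¹ := by
    rw [hτ, ← Real.rpow_natCast, ← Real.rpow_mul hx00.le]
    rw [neg_mul, one_div, inv_mul_cancel₀ hm0'.ne', Real.rpow_neg_one]
  set C₃ : ℝ := max (C₂ ^ a) 1 with hC₃
  have hC₃1 : 1 ≤ C₃ := le_max_right _ _
  have hdist : ∀ n ∈ S', ‖w n - r‖ ≤ C₃ * τ ^ d ^ n := by
    intro n hn
    have hC₂0 : 0 ≤ C₂ := le_trans (by positivity) (hle n hn)
    have h3 : (‖T n‖ * ‖w n - r‖ ^ D) ^ a ≤ C₂ ^ a := pow_le_pow_left₀ (by positivity) (hle n hn) a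
    rw [mul_pow, hTa, ← pow_mul, ← hm] at h3
    have h4 : ‖w n - r‖ ^ m ≤ (C₃ * τ ^ d ^ n) ^ m := by
      have h5 : (τ ^ d ^ n) ^ m = (‖x‖ ^ d ^ n)⁻¹ := by
        rw [← pow_mul, mul_comm, pow_mul, hτm, inv_pow]
      rw [mul_pow, h5]
      have h6 : C₂ ^ a ≤ C₃ ^ m := (le_max_left _ _).trans (le_self_pow₀ hC₃1 hm0)
      have h7 : (0 : ℝ) < ‖x‖ ^ d ^ n := by positivity
      rw [← div_eq_mul_inv, le_div_iff₀ h7]
      linarith
    exact le_of_pow_le_pow_left₀ hm0 (by positivity) h4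
  set B : ℝ := max 1 ‖r‖ with hB
  have hB1 : 1 ≤ B := le_max_left _ _
  set C₄ : ℝ := C₃ * B ^ a with hC₄
  have hC₄1 : 1 ≤ C₄ := one_le_mul_of_one_le_of_one_le hC₃1 (one_le_pow₀ hB1)
  have hxc0 : 0 < ‖x‖ ^ (-c) := Real.rpow_pos_of_pos hx00 _
  have hyc0 : 0 < ‖y‖ ^ (-c) := Real.rpow_pos_of_pos hy00 _
  have hxc1 : ‖x‖ ^ (-c) < 1 := Real.rpow_lt_one_of_one_lt_of_neg hX (by linarith)
  have hyc1 : ‖y‖ ^ (-c) < 1 := Real.rpow_lt_one_of_one_lt_of_neg hY (by linarith)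
  have hpw : ∀ (t : ℝ) (n : ℕ), 0 < t → t ^ (-(c * (d : ℝ) ^ n)) = (t ^ (-c)) ^ d ^ n := by
    intro t n ht
    rw [← Real.rpow_natCast (t ^ (-c)) (d ^ n), ← Real.rpow_mul ht.le]
    congr 1
    push_cast
    ring
  set θ : ℝ := max τ (max (‖x‖ ^ (-c)) (‖y‖ ^ (-c))) with hθ
  have hθ0 : 0 < θ := lt_of_lt_of_le hτ0 (le_max_left _ _)
  have hθ1 : θ < 1 := max_lt hτ1 (max_lt hxc1 hyc1)
  refine ⟨a, b, r ^ a, C₄, θ, S', ha, hb, hθ0, hθ1, ?_, hinf, fun n hn => ?_⟩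
  · rw [hψy, hφx, hab]
  · have hdn : d ^ n ≠ 0 := by positivity
    have hdn' : θ ^ d ^ n < 1 := pow_lt_one₀ hθ0.le hθ1 hdn
    have e1 : ‖φ x ^ d ^ n / orb f x n - 1‖ ≤ θ ^ d ^ n := by
      refine (hfx n).2.2.trans ?_
      rw [hpw _ _ hx00]
      exact pow_le_pow_left₀ hxc0.le ((le_max_left _ _).trans (le_max_right _ _)) _
    have e2 : ‖ψ y ^ d ^ n / orb g y n - 1‖ ≤ θ ^ d ^ n := by
      refine (hgy n).2.2.trans ?_
      rw [hpw _ _ hy00]
      exact pow_le_pow_left₀ hyc0.le ((le_max_right _ _).trans (le_max_right _ _)) _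
    set β := φ x ^ d ^ n / orb f x n with hβ
    set α := ψ y ^ d ^ n / orb g y n with hα
    obtain ⟨hβ1, hβk⟩ := W4_close β _ hdn' e1
    obtain ⟨hα1, hαk⟩ := W4_close α _ hdn' e2
    have hβ0 : β ≠ 0 := by
      rw [← norm_pos_iff, hβ1]
      exact one_pos
    have h5 : (ψ y ^ a / φ x ^ b) ^ d ^ n = w n ^ a * (α ^ a / β ^ b) := by
      have h6 : ψ y ^ d ^ n = α * orb g y n := by
        rw [hα]
        field_simp [hy0 n]
      have h7 : φ x ^ d ^ n = β * orb f x n := by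
        rw [hβ]
        field_simp [hx0 n]
      have h8 : (ψ y ^ a / φ x ^ b) ^ d ^ n = (ψ y ^ d ^ n) ^ a / (φ x ^ d ^ n) ^ b := by
        rw [div_pow, ← pow_mul, ← pow_mul, ← pow_mul, ← pow_mul, mul_comm a, mul_comm b]
      rw [h8, h6, h7, hyw, ← hT]
      have := hT0 n
      field_simp
      ring
    rw [h5]
    have h9 : w n ^ a * (α ^ a / β ^ b) - r ^ a =
        w n ^ a * ((α ^ a - 1) - (β ^ b - 1)) / β ^ b + (w n ^ a - r ^ a) := by
      field_simp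
      ring
    rw [h9]
    refine (IsUltrametricDist.norm_add_le_max _ _).trans (max_le ?_ ?_)
    · rw [norm_div, norm_mul, norm_pow, norm_pow, hw1, hβ1, one_pow, one_pow, one_mul, div_one]
      have h10 : ‖(α ^ a - 1) - (β ^ b - 1)‖ ≤ θ ^ d ^ n :=
        (norm_sub_le_max' _ _).trans (max_le (hαk a) (hβk b))
      refine h10.trans ?_
      exact le_mul_of_one_le_left (by positivity) hC₄1
    · refine (W4_pow (w n) r (hw1 n).le B hB1 (le_max_right _ _) a).trans ?_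
      have h11 := hdist n hn
      calc ‖w n - r‖ * B ^ a ≤ (C₃ * τ ^ d ^ n) * B ^ a := by gcongr
        _ = C₄ * τ ^ d ^ n := by rw [hC₄]; ring
        _ ≤ C₄ * θ ^ d ^ n := by
          have : τ ≤ θ := le_max_left _ _
          gcongr

end Pool.Agent.Helper79.DN
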