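import Pool.Agent.Helper79.DN.W12

/-!
# W5: the limit is a root of unity
-/

set_option autoImplicit false

namespace Pool.Agent.Helper79.DN

open Polynomial Pool.Agent.Helper79.DM Pool.Agent.Helper11.SP

private theorem W5_lim (q m : ℕ) (hq : 1 ≤ q) (hm : 2 ≤ m) (η θ : ℝ) (hη : 0 < η) (h0 : 0 ≤ θ)
    (h1 : θ < 1) : ∃ N₁ : ℕ, ∀ N, N₁ ≤ N → θ ^ (q * m) ^ N < η ^ q ^ N := by
  obtain ⟨n, hn⟩ := exists_pow_lt_of_lt_one hη h1
  refine ⟨n, fun N hN => ?_⟩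
  have hmN : n ≤ m ^ N := hN.trans (Nat.lt_pow_self hm).le
  have h2 : θ ^ m ^ N < η := lt_of_le_of_lt (pow_le_pow_of_le_one h0 h1.le hmN) hn
  have hq0 : q ^ N ≠ 0 := pow_ne_zero _ (by omega)
  rw [mul_pow, mul_comm, pow_mul]
  exact pow_lt_pow_left₀ h2 (pow_nonneg h0 _) hq0

theorem thm_W5 : St_W5 := by
  intro p _ L _ _ _ e m he hm hpm u w hu C θ hθ0 hθ1 S hS hw
  have hpp : p.Prime := Fact.out
  have hq1 : 1 ≤ p ^ e := Nat.one_le_pow _ _ hpp.pos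
  have hpd : p ∣ p ^ e * m := Dvd.dvd.mul_right (dvd_pow_self p (by omega)) m
  have hd2 : 2 ≤ p ^ e * m := by nlinarith
  set d := p ^ e * m with hd
  have hlt : ∀ n, n < d ^ n := fun n => Nat.lt_pow_self (by omega)
  -- the distances are small
  have hsm : ∀ ε : ℝ, 0 < ε → ∃ n₀, ∀ n ∈ S, n₀ ≤ n → ‖u ^ d ^ n - w‖ < ε := by
    intro ε hε
    have hC : 0 < max C 1 := lt_of_lt_of_le one_pos (le_max_right _ _)
    obtain ⟨n₀, hn₀⟩ := exists_pow_lt_of_lt_one (show 0 < ε / max C 1 by positivity) hθ1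
    refine ⟨n₀, fun n hn hn' => ?_⟩
    have h1 : θ ^ d ^ n ≤ θ ^ n₀ := pow_le_pow_of_le_one hθ0.le hθ1.le (hn'.trans (hlt n).le)
    have h2 : θ ^ d ^ n < ε / max C 1 := h1.trans_lt hn₀
    rw [lt_div_iff₀ hC] at h2
    calc ‖u ^ d ^ n - w‖ ≤ C * θ ^ d ^ n := hw n hn
      _ ≤ max C 1 * θ ^ d ^ n := by
          refine mul_le_mul_of_nonneg_right (le_max_left _ _) (by positivity)
      _ < ε := by linarith
  have hun : ∀ n, ‖u ^ d ^ n‖ = 1 := fun n => by rw [norm_pow, hu, one_pow]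
  obtain ⟨n₀, hn₀⟩ := hsm 1 one_pos
  have hw1 : ‖w‖ = 1 := by
    obtain ⟨n, hn, hn'⟩ := hS.exists_gt n₀
    have h1 := hn₀ n hn hn'.le
    rw [norm_sub_rev, ← hun n] at h1
    rw [norm_eq_of_close h1, hun]
  have hw0 : w ≠ 0 := by
    rw [← norm_pos_iff, hw1]
    exact one_pos
  set v : ℕ → L := fun n => u ^ d ^ n / w with hv
  have hvn : ∀ n, ‖v n - 1‖ = ‖u ^ d ^ n - w‖ := by
    intro n
    have h1 : v n - 1 = (u ^ d ^ n - w) / w := by
      rw [hv]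
      field_simp
    rw [h1, norm_div, hw1, div_one]
  have hv0 : ∀ n, v n ≠ 0 := by
    intro n
    rw [hv]
    refine div_ne_zero ?_ hw0
    rw [← norm_pos_iff, hun]
    exact one_pos
  have hrel : ∀ n k, v (n + k) = w ^ (d ^ k - 1) * v n ^ d ^ k := by
    intro n k
    have h1 : d ^ k = (d ^ k - 1) + 1 := by
      have : 1 ≤ d ^ k := Nat.one_le_pow _ _ (by omega)
      omega
    have h2 : v n ^ d ^ k = u ^ d ^ (n + k) / w ^ d ^ k := by
      rw [hv]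
      simp only
      rw [div_pow, ← pow_mul, ← pow_add]
    rw [h2, hv]
    simp only
    have h3 : w ^ d ^ k = w ^ (d ^ k - 1) * w := by
      conv_lhs => rw [h1, pow_succ]
    rw [h3]
    field_simp
  have hcl : ∀ n k, ∀ δ < (1 : ℝ), ‖v n - 1‖ ≤ δ → ‖v (n + k) - 1‖ ≤ δ →
      ‖w ^ (d ^ k - 1) - 1‖ ≤ δ := by
    intro n k δ hδ h1 h2
    have h3 : w ^ (d ^ k - 1) = v (n + k) ^ 1 / v n ^ d ^ k := by
      rw [hrel n k, pow_one, mul_div_assoc, div_self (pow_ne_zero _ (hv0 n)), mul_one]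
    rw [h3]
    exact w12_quot hδ h2 h1 1 (d ^ k)
  have hnd : ∀ k, 0 < k → ¬ p ∣ d ^ k - 1 := by
    intro k hk hcon
    have h1 : 1 ≤ d ^ k := Nat.one_le_pow _ _ (by omega)
    have h2 : p ∣ d ^ k := hpd.trans (dvd_pow_self d (by omega))
    have h3 : p ∣ d ^ k - (d ^ k - 1) := Nat.dvd_sub h2 hcon
    have h4 : d ^ k - (d ^ k - 1) = 1 := by omega
    rw [h4] at h3
    exact hpp.one_lt.ne' (Nat.dvd_one.1 h3)
  -- two elements of the set
  have hv1 : ∀ n ∈ S, n₀ ≤ n → ‖v n - 1‖ < 1 := fun n hn hn' => by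
    rw [hvn]
    exact hn₀ n hn hn'
  obtain ⟨n₁, hn₁, hn₁'⟩ := hS.exists_gt n₀
  obtain ⟨n₂, hn₂, hn₂'⟩ := hS.exists_gt n₁
  have hk₀ : 0 < n₂ - n₁ := by omega
  have hD₀ : 0 < d ^ (n₂ - n₁) - 1 := by
    have : n₂ - n₁ < d ^ (n₂ - n₁) := hlt _
    omega
  have e12 : n₁ + (n₂ - n₁) = n₂ := by omega
  set D₀ := d ^ (n₂ - n₁) - 1 with hD₀d
  have hω1 : ‖w ^ D₀ - 1‖ < 1 := by
    have h1 := hv1 n₁ hn₁ hn₁'.le
    have h2 := hv1 n₂ hn₂ (by omega)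
    refine (hcl n₁ (n₂ - n₁) (max ‖v n₁ - 1‖ ‖v n₂ - 1‖) (max_lt h1 h2) (le_max_left _ _)
      (by rw [e12]; exact le_max_right _ _)).trans_lt (max_lt h1 h2)
  have hω : w ^ D₀ = 1 := by
    by_contra hne
    have hpos : 0 < ‖w ^ D₀ - 1‖ := norm_pos_iff.2 (sub_ne_zero.2 hne)
    obtain ⟨k₀, hk₀'⟩ := hsm _ hpos
    obtain ⟨n, hn, hn'⟩ := hS.exists_gt (max n₀ k₀)
    obtain ⟨n', hnn, hnn'⟩ := hS.exists_gt n
    have l1 : n₀ ≤ n := (le_max_left _ _).trans hn'.le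
    have l2 : k₀ ≤ n := (le_max_right _ _).trans hn'.le
    have h1 : ‖v n - 1‖ < ‖w ^ D₀ - 1‖ := by rw [hvn]; exact hk₀' n hn l2
    have h2 : ‖v n' - 1‖ < ‖w ^ D₀ - 1‖ := by rw [hvn]; exact hk₀' n' hnn (by omega)
    have e' : n + (n' - n) = n' := by omega
    have h3 : ‖w ^ (d ^ (n' - n) - 1) - 1‖ < ‖w ^ D₀ - 1‖ :=
      (hcl n (n' - n) (max ‖v n - 1‖ ‖v n' - 1‖) ((max_lt h1 h2).trans hω1) (le_max_left _ _)
        (by rw [e']; exact le_max_right _ _)).trans_lt (max_lt h1 h2)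
    have h4 := close_pow_prime p hω1 (d ^ (n' - n) - 1) (hnd _ (by omega))
    have h5 := close_one_pow (h3.trans hω1) D₀
    rw [← pow_mul] at h4 h5
    rw [mul_comm, h4] at h5
    linarith
  have hD' : ∀ n ∈ S, n₀ ≤ n → ∀ n' ∈ S, n < n' → w ^ (d ^ (n' - n) - 1) = 1 := by
    intro n hn hn' n' hnn hnn'
    have h1 := hv1 n hn hn'
    have h2 := hv1 n' hnn (by omega)
    have e' : n + (n' - n) = n' := by omega
    have h3 : ‖w ^ (d ^ (n' - n) - 1) - 1‖ < 1 :=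
      (hcl n (n' - n) (max ‖v n - 1‖ ‖v n' - 1‖) (max_lt h1 h2) (le_max_left _ _)
        (by rw [e']; exact le_max_right _ _)).trans_lt (max_lt h1 h2)
    have h4 := close_pow_prime p h3 D₀ (hnd _ hk₀)
    rw [← pow_mul, mul_comm, pow_mul, hω, one_pow, sub_self, norm_zero] at h4
    exact sub_eq_zero.1 (norm_eq_zero.1 h4.symm)
  -- conclusion
  have hv11 : v n₁ = 1 := by
    by_contra hne
    set η := ‖v n₁ - 1‖ with hη
    have hη0 : 0 < η := norm_pos_iff.2 (sub_ne_zero.2 hne)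
    have hη1 : η < 1 := hv1 n₁ hn₁ hn₁'.le
    have hC : 0 < max C 1 := lt_of_lt_of_le one_pos (le_max_right _ _)
    obtain ⟨N₁, hN₁⟩ := W5_lim (p ^ e) m hq1 hm (η / max C 1) (θ ^ d ^ n₁) (by positivity)
      (by positivity) (pow_lt_one₀ hθ0.le hθ1 (by positivity))
    obtain ⟨n, hn, hn'⟩ := hS.exists_gt (n₁ + N₁)
    have hk : N₁ ≤ n - n₁ := by omega
    have e' : n₁ + (n - n₁) = n := by omega
    have h1 := hN₁ (n - n₁) hk
    rw [← pow_mul, ← hd, ← pow_add, e'] at h1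
    have h2 : v n = v n₁ ^ d ^ (n - n₁) := by
      have h3 := hrel n₁ (n - n₁)
      rw [e', hD' n₁ hn₁ hn₁'.le n hn (by omega), one_mul] at h3
      exact h3
    have h4 : ‖v n - 1‖ = η ^ (p ^ e) ^ (n - n₁) := by
      rw [h2, hd]
      exact unit_pow e m hpm hη1 (n - n₁)
    have h5 : η ^ (p ^ e) ^ (n - n₁) ≤ C * θ ^ d ^ n := by
      rw [← h4, hvn]
      exact hw n hn
    have h6 : (η / max C 1) ^ (p ^ e) ^ (n - n₁) ≤ η ^ (p ^ e) ^ (n - n₁) / max C 1 := by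
      rw [div_pow]
      refine div_le_div_of_nonneg_left (by positivity) hC ?_
      exact le_self_pow₀ (le_max_right _ _) (by positivity)
    have h7 : θ ^ d ^ n < η ^ (p ^ e) ^ (n - n₁) / max C 1 := h1.trans_le h6
    rw [lt_div_iff₀ hC] at h7
    have h8 : C * θ ^ d ^ n ≤ θ ^ d ^ n * max C 1 := by
      rw [mul_comm]
      exact mul_le_mul_of_nonneg_left (le_max_left _ _) (by positivity)
    linarith
  refine ⟨d ^ n₁ * D₀, by positivity, ?_⟩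
  rw [pow_mul]
  have h1 : u ^ d ^ n₁ = w := by
    have h2 : u ^ d ^ n₁ / w = 1 := hv11
    rwa [div_eq_one_iff_eq hw0] at h2
  rw [h1, hω]

end Pool.Agent.Helper79.DN
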