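import Pool.Agent.Helper79.DN.StW

/-!
# DN [W6]: the points of the curve on an edge
-/

set_option autoImplicit false

namespace Pool.Agent.Helper79.DN

open Polynomial Pool.Agent.Helper79.DM Pool.Agent.Helper11.SP

private theorem W6_pow_sub {L : Type} [NormedField L] [IsUltrametricDist L] {u v : L}
    (hu : ‖u‖ ≤ 1) (hv : ‖v‖ ≤ 1) (n : ℕ) : ‖u ^ n - v ^ n‖ ≤ ‖u - v‖ := by
  induction n with
  | zero => simp
  | succ n ih =>
    have h1 : u ^ (n + 1) - v ^ (n + 1) = u * (u ^ n - v ^ n) + (u - v) * v ^ n := by ring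
    rw [h1]
    refine le_trans (IsUltrametricDist.norm_add_le_max _ _) (max_le ?_ ?_)
    · rw [norm_mul]
      calc ‖u‖ * ‖u ^ n - v ^ n‖ ≤ 1 * ‖u - v‖ :=
            mul_le_mul hu ih (norm_nonneg _) zero_le_one
        _ = ‖u - v‖ := one_mul _
    · rw [norm_mul, norm_pow]
      calc ‖u - v‖ * ‖v‖ ^ n ≤ ‖u - v‖ * 1 :=
            mul_le_mul_of_nonneg_left (pow_le_one₀ (norm_nonneg _) hv) (norm_nonneg _)
        _ = ‖u - v‖ := mul_one _

/-- a value of small norm is close to a root -/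
private theorem W6_root {L : Type} [NormedField L] [IsAlgClosed L] (Q : L[X]) (w : L)
    (hw : ‖Q.eval w‖ < ‖Q.leadingCoeff‖) : ∃ r ∈ Q.roots, ‖w - r‖ < 1 := by
  by_contra hcon
  push Not at hcon
  have h1 : Q.eval w = Q.leadingCoeff * (Q.roots.map fun r => w - r).prod := by
    have h2 := (IsAlgClosed.splits Q).eq_prod_roots
    conv_lhs => rw [h2]
    rw [eval_mul, eval_C, eval_multiset_prod, Multiset.map_map]
    congr 2
    refine Multiset.map_congr rfl fun r _ => ?_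
    simp
  have h3 : 1 ≤ ‖(Q.roots.map fun r => w - r).prod‖ := by
    have h4 : ∀ s : Multiset L, (∀ r ∈ s, 1 ≤ ‖w - r‖) → 1 ≤ ‖(s.map fun r => w - r).prod‖ := by
      intro s
      induction s using Multiset.induction_on with
      | empty => intro _; simp
      | cons r s ih =>
        intro hs
        rw [Multiset.map_cons, Multiset.prod_cons, norm_mul]
        have h5 := hs r (Multiset.mem_cons_self r s)
        have h6 := ih fun r' hr' => hs r' (Multiset.mem_cons_of_mem hr')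
        exact one_le_mul_of_one_le_of_one_le h5 h6
    exact h4 _ hcon
  rw [h1, norm_mul] at hw
  have h5 : 0 ≤ ‖Q.leadingCoeff‖ := norm_nonneg _
  have h6 : ‖Q.leadingCoeff‖ * 1 ≤
      ‖Q.leadingCoeff‖ * ‖(Q.roots.map fun r => w - r).prod‖ :=
    mul_le_mul_of_nonneg_left h3 h5
  linarith

/-- [W6] The points of the curve on an edge. -/
theorem thm_W6 : St_W6 := by
  intro L _ _ _ a b ha hb P hP
  classical
  let h : MvPolynomial (Fin 2) L := (toP L).symm P
  have hh : toP L h = P := (toP L).apply_symm_apply P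
  have hh0 : h ≠ 0 := by
    intro h0
    apply hP
    rw [← hh, h0, map_zero]
  have hne : h.support.Nonempty := by
    rw [Finset.nonempty_iff_ne_empty]
    exact fun he => hh0 (MvPolynomial.support_eq_empty.1 he)
  obtain ⟨ms, hms, hmax⟩ := h.support.exists_max_image (fun m => a * m 0 + b * m 1) hne
  have hQ : leadP h a b (a * ms 0 + b * ms 1) ≠ 0 := leadP_ne_zero h a b ha ms hms
  obtain ⟨C, hC⟩ := lead_est h a b (a * ms 0 + b * ms 1) ha hb hmax 1 le_rfl
  let Q : L[X] := leadP h a b (a * ms 0 + b * ms 1)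
  have hlc : 0 < ‖Q.leadingCoeff‖ := norm_pos_iff.2 (leadingCoeff_ne_zero.2 hQ)
  let B : ℝ := max 1 (C / ‖Q.leadingCoeff‖)
  have hB1 : 1 ≤ B := le_max_left _ _
  have hB2 : C ≤ B * ‖Q.leadingCoeff‖ := by
    have h1 : C / ‖Q.leadingCoeff‖ ≤ B := le_max_right _ _
    rwa [div_le_iff₀ hlc] at h1
  refine ⟨(Q.roots.map fun r => r ^ a).toFinset, B ^ a, fun x y hx hxy hev => ?_⟩
  obtain ⟨T, hT⟩ := IsAlgClosed.exists_pow_nat_eq x ha
  have hTB : B < ‖T‖ := by
    rw [← hT, norm_pow] at hx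
    exact lt_of_pow_lt_pow_left₀ a (norm_nonneg _) hx
  have hT1 : 1 ≤ ‖T‖ := le_trans hB1 hTB.le
  have hT0 : T ≠ 0 := by
    intro h0
    rw [h0, norm_zero] at hT1
    linarith
  have hyT : ‖y‖ = ‖T‖ ^ b := by
    have h1 : ‖y‖ ^ a = (‖T‖ ^ b) ^ a := by
      rw [hxy, ← hT, norm_pow, ← pow_mul, ← pow_mul, mul_comm]
    exact (pow_left_inj₀ (norm_nonneg _) (by positivity) ha.ne').1 h1
  let w : L := y / T ^ b
  have hTb : T ^ b ≠ 0 := pow_ne_zero _ hT0
  have hwT : w * T ^ b = y := div_mul_cancel₀ y hTb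
  have hw1 : ‖w‖ = 1 := by
    show ‖y / T ^ b‖ = 1
    rw [norm_div, norm_pow, hyT]
    exact div_self (pow_ne_zero _ (norm_ne_zero_iff.2 hT0))
  have hval : MvPolynomial.eval ![x, y] h = 0 := by
    rw [← ev_toP, hh]
    exact hev
  have hest := hC T w x y hT1 hw1 (by rw [hT, sub_self, norm_zero]; exact zero_le_one)
    (by rw [hwT, sub_self, norm_zero]; exact zero_le_one) (by rw [hT]) (by rw [hwT]) hval
  have hsm : ‖Q.eval w‖ < ‖Q.leadingCoeff‖ := by
    by_contra hcon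
    have h1 : ‖Q.leadingCoeff‖ ≤ ‖Q.eval w‖ := not_lt.1 hcon
    have h2 : B * ‖Q.leadingCoeff‖ < ‖T‖ * ‖Q.leadingCoeff‖ := mul_lt_mul_of_pos_right hTB hlc
    have h3 : ‖T‖ * ‖Q.leadingCoeff‖ ≤ ‖T‖ * ‖Q.eval w‖ :=
      mul_le_mul_of_nonneg_left h1 (norm_nonneg _)
    have h4 : ‖T‖ * ‖Q.eval w‖ ≤ C := hest
    linarith
  obtain ⟨r, hr, hwr⟩ := W6_root Q w hsm
  have hr1 : ‖r‖ = 1 := by
    have h1 : ‖w - r‖ < ‖w‖ := by rw [hw1]; exact hwr
    have h2 : r = w - (w - r) := by ring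
    have h3 : ‖w - (w - r)‖ = ‖w‖ := by
      rw [norm_sub_rev]
      have h4 := IsUltrametricDist.norm_add_eq_max_of_norm_ne_norm (x := w - r) (y := -w) (by
        rw [norm_neg]
        exact h1.ne)
      rw [← sub_eq_add_neg, norm_neg, max_eq_right h1.le] at h4
      exact h4
    rw [h2, h3, hw1]
  refine ⟨r ^ a, ?_, by rw [norm_pow, hr1, one_pow], ?_⟩
  · rw [Multiset.mem_toFinset]
    exact Multiset.mem_map_of_mem _ hr
  · have h1 : y ^ a / x ^ b = w ^ a := by
      show y ^ a / x ^ b = (y / T ^ b) ^ a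
      rw [div_pow, ← hT, ← pow_mul, ← pow_mul, mul_comm a b]
    rw [h1]
    exact lt_of_le_of_lt (W6_pow_sub hw1.le hr1.le a) hwr

end Pool.Agent.Helper79.DN
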