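import Pool.Agent.Helper79.DN.StW

/-!
# [W7] The Gauss norm of `P (x, Y)`
-/

set_option autoImplicit false

namespace Pool.Agent.Helper79.DN

open Polynomial Pool.Agent.Helper79.DM Pool.Agent.Helper11.SP

section

variable {L : Type} [NormedField L] [IsUltrametricDist L]

private theorem W7_upper (Q : L[X]) : ∃ M : ℝ, 0 ≤ M ∧ ∀ x : L, 1 ≤ ‖x‖ →
    ‖Q.eval x‖ ≤ M * ‖x‖ ^ Q.natDegree := by
  refine ⟨∑ i ∈ Finset.range (Q.natDegree + 1), ‖Q.coeff i‖,
    Finset.sum_nonneg fun _ _ => norm_nonneg _, fun x hx => ?_⟩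
  rw [eval_eq_sum_range, Finset.sum_mul]
  refine (norm_sum_le _ _).trans (Finset.sum_le_sum fun i hi => ?_)
  rw [norm_mul, norm_pow]
  exact mul_le_mul_of_nonneg_left
    (pow_le_pow_right₀ hx (Nat.lt_succ_iff.mp (Finset.mem_range.mp hi))) (norm_nonneg _)

private theorem W7_lead (Q : L[X]) (hQ : Q ≠ 0) : ∃ R : ℝ, ∀ x : L, R < ‖x‖ →
    ‖Q.eval x‖ = ‖Q.leadingCoeff‖ * ‖x‖ ^ Q.natDegree := by
  obtain ⟨M, hM, hb⟩ := W7_upper Q.eraseLead
  have hlc : 0 < ‖Q.leadingCoeff‖ := norm_pos_iff.mpr (leadingCoeff_ne_zero.mpr hQ)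
  refine ⟨max 1 (M / ‖Q.leadingCoeff‖), fun x hx => ?_⟩
  have hx1 : 1 < ‖x‖ := (le_max_left _ _).trans_lt hx
  have hx2 : M / ‖Q.leadingCoeff‖ < ‖x‖ := (le_max_right _ _).trans_lt hx
  have hx0 : 0 < ‖x‖ := by linarith
  have hsplit : Q.eval x = Q.eraseLead.eval x + Q.leadingCoeff * x ^ Q.natDegree := by
    conv_lhs => rw [← Q.eraseLead_add_monomial_natDegree_leadingCoeff]
    rw [eval_add, eval_monomial]
  have hlt : ‖Q.eraseLead.eval x‖ < ‖Q.leadingCoeff * x ^ Q.natDegree‖ := by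
    rw [norm_mul, norm_pow]
    rcases Q.eraseLead_natDegree_lt_or_eraseLead_eq_zero with h | h
    · have h1 := hb x hx1.le
      have h2 : M * ‖x‖ ^ Q.eraseLead.natDegree ≤ M * ‖x‖ ^ (Q.natDegree - 1) :=
        mul_le_mul_of_nonneg_left (pow_le_pow_right₀ hx1.le (by omega)) hM
      have h3 : ‖x‖ ^ Q.natDegree = ‖x‖ * ‖x‖ ^ (Q.natDegree - 1) := by
        rw [← pow_succ']
        congr 1
        omega
      have h4 : M < ‖Q.leadingCoeff‖ * ‖x‖ := by
        rw [div_lt_iff₀ hlc] at hx2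
        linarith [mul_comm ‖x‖ ‖Q.leadingCoeff‖]
      rw [h3, ← mul_assoc]
      exact (h1.trans h2).trans_lt (mul_lt_mul_of_pos_right h4 (by positivity))
    · rw [h, eval_zero, norm_zero]
      positivity
  rw [hsplit, IsUltrametricDist.norm_add_eq_max_of_norm_ne_norm hlt.ne, max_eq_right hlt.le,
    norm_mul, norm_pow]

private theorem W7_na : IsNonarchimedean (NormedField.toAbsoluteValue L) := by
  intro x y
  exact IsUltrametricDist.norm_add_le_max x y

private theorem W7_lin (c : ℝ) (hc : 0 < c) (y : L) :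
    (X - C y : L[X]).gaussNorm (NormedField.toAbsoluteValue L) c = max ‖y‖ c := by
  apply le_antisymm
  · obtain ⟨i, hi⟩ := (X - C y : L[X]).exists_eq_gaussNorm (NormedField.toAbsoluteValue L) c
    rw [hi]
    show ‖(X - C y : L[X]).coeff i‖ * c ^ i ≤ max ‖y‖ c
    rcases i with _ | _ | i
    · simp
    · simp [coeff_X, coeff_C]
    · have : (X - C y : L[X]).coeff (i + 1 + 1) = 0 := by
        simp [coeff_X, coeff_C]
      rw [this, norm_zero, zero_mul]
      exact le_max_of_le_left (norm_nonneg _)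
  · apply max_le
    · have h := (X - C y : L[X]).le_gaussNorm (NormedField.toAbsoluteValue L) hc.le 0
      have h2 : (NormedField.toAbsoluteValue L) ((X - C y : L[X]).coeff 0) * c ^ 0 = ‖y‖ := by
        show ‖(X - C y : L[X]).coeff 0‖ * c ^ 0 = ‖y‖
        simp
      rwa [h2] at h
    · have h := (X - C y : L[X]).le_gaussNorm (NormedField.toAbsoluteValue L) hc.le 1
      have h2 : (NormedField.toAbsoluteValue L) ((X - C y : L[X]).coeff 1) * c ^ 1 = c := by
        show ‖(X - C y : L[X]).coeff 1‖ * c ^ 1 = c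
        simp [coeff_X, coeff_C]
      rwa [h2] at h

private theorem W7_one (c : ℝ) :
    (1 : L[X]).gaussNorm (NormedField.toAbsoluteValue L) c = 1 := by
  have h := gaussNorm_C (NormedField.toAbsoluteValue L) c (1 : L)
  rw [C_1] at h
  rw [h]
  exact map_one _

private theorem W7_prod (c : ℝ) (hc : 0 < c) (s : Multiset L) :
    ((s.map fun y => (X - C y : L[X])).prod).gaussNorm (NormedField.toAbsoluteValue L) c =
      (s.map fun y => max ‖y‖ c).prod := by
  induction s using Multiset.induction_on with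
  | empty => simpa using W7_one c
  | cons y s ih =>
    rw [Multiset.map_cons, Multiset.prod_cons, gaussNorm_mul W7_na hc, W7_lin c hc, ih,
      Multiset.map_cons, Multiset.prod_cons]

private theorem W7_gauss [IsAlgClosed L] (c : ℝ) (hc : 0 < c) (f : L[X]) :
    f.gaussNorm (NormedField.toAbsoluteValue L) c =
      ‖f.leadingCoeff‖ * (f.roots.map fun y => max ‖y‖ c).prod := by
  have h := (IsAlgClosed.splits f).eq_prod_roots
  conv_lhs => rw [h]
  rw [gaussNorm_mul W7_na hc, W7_prod c hc, gaussNorm_C]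
  rfl

end

theorem thm_W7 : St_W7 := by
  classical
  intro L _ _ _ a b ha hb P hP
  have hS : P.support.Nonempty := nonempty_support_iff.mpr hP
  -- exponents and constants
  set κ : ℕ → ℕ := fun j => a * (P.coeff j).natDegree + b * j with hκ
  set cc : ℕ → ℝ := fun j => ‖(P.coeff j).leadingCoeff‖ ^ a with hcc
  obtain ⟨j₀, hj₀, hmax₀⟩ := P.support.exists_max_image κ hS
  have hS' : (P.support.filter fun j => κ j = κ j₀).Nonempty :=
    ⟨j₀, Finset.mem_filter.mpr ⟨hj₀, rfl⟩⟩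
  obtain ⟨j₁, hj₁, hmax₁⟩ := (P.support.filter fun j => κ j = κ j₀).exists_max_image cc hS'
  have hj₁' := Finset.mem_filter.mp hj₁
  have hccpos : ∀ j ∈ P.support, 0 < cc j := by
    intro j hj
    have : P.coeff j ≠ 0 := mem_support_iff.mp hj
    exact pow_pos (norm_pos_iff.mpr (leadingCoeff_ne_zero.mpr this)) _
  -- radii
  have hr : ∀ j : ℕ, ∃ R : ℝ, P.coeff j ≠ 0 → ∀ x : L, R < ‖x‖ →
      ‖(P.coeff j).eval x‖ = ‖(P.coeff j).leadingCoeff‖ * ‖x‖ ^ (P.coeff j).natDegree := by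
    intro j
    by_cases h : P.coeff j = 0
    · exact ⟨0, fun h' => absurd h h'⟩
    · obtain ⟨R, hR⟩ := W7_lead (P.coeff j) h
      exact ⟨R, fun _ => hR⟩
  choose Rj hRj using hr
  set R₀ : ℝ := 1 + ∑ j ∈ P.support, (|Rj j| + cc j / cc j₁) with hR₀
  have hterm : ∀ j ∈ P.support, |Rj j| + cc j / cc j₁ ≤ R₀ - 1 := by
    intro j hj
    rw [hR₀, add_sub_cancel_left]
    refine Finset.single_le_sum (f := fun j => |Rj j| + cc j / cc j₁) (fun i hi => ?_) hj
    exact add_nonneg (abs_nonneg _) (div_nonneg (hccpos i hi).le (hccpos j₁ hj₁'.1).le)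
  refine ⟨cc j₁, R₀, κ j₀, hccpos j₁ hj₁'.1, fun x hx => ?_⟩
  have hR1 : 1 ≤ R₀ := by
    have h1 := hterm j₀ hj₀
    have h2 := abs_nonneg (Rj j₀)
    have h3 : 0 ≤ cc j₀ / cc j₁ := div_nonneg (hccpos j₀ hj₀).le (hccpos j₁ hj₁'.1).le
    linarith
  have hx1 : 1 < ‖x‖ := hR1.trans_lt hx
  have hx0 : 0 < ‖x‖ := by linarith
  have heval : ∀ j ∈ P.support, ‖(P.coeff j).eval x‖ =
      ‖(P.coeff j).leadingCoeff‖ * ‖x‖ ^ (P.coeff j).natDegree := by
    intro j hj
    refine hRj j (mem_support_iff.mp hj) x (lt_of_le_of_lt ?_ hx)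
    have h1 := hterm j hj
    have h2 := le_abs_self (Rj j)
    have h3 : 0 ≤ cc j / cc j₁ := div_nonneg (hccpos j hj).le (hccpos j₁ hj₁'.1).le
    linarith
  have hlc : P.leadingCoeff.eval x ≠ 0 := by
    have hmem : P.natDegree ∈ P.support := natDegree_mem_support_of_nonzero hP
    have h := heval _ hmem
    intro h0
    have h' : ‖(P.coeff P.natDegree).eval x‖ = 0 := by
      rw [coeff_natDegree, h0, norm_zero]
    rw [h'] at h
    have : 0 < ‖(P.coeff P.natDegree).leadingCoeff‖ * ‖x‖ ^ (P.coeff P.natDegree).natDegree :=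
      mul_pos (norm_pos_iff.mpr (leadingCoeff_ne_zero.mpr (mem_support_iff.mp hmem)))
        (pow_pos hx0 _)
    linarith
  refine ⟨hlc, ?_⟩
  -- the radius
  have hσ : ∃ σ : ℝ, 0 < σ ∧ σ ^ a = ‖x‖ ^ b := by
    refine ⟨(‖x‖ ^ b) ^ ((a : ℝ)⁻¹), Real.rpow_pos_of_pos (pow_pos hx0 b) _, ?_⟩
    exact Real.rpow_inv_natCast_pow (by positivity) ha.ne'
  obtain ⟨σ, hσ0, hσa⟩ := hσ
  set f : L[X] := P.map (evalRingHom x) with hf
  have hflc : f.leadingCoeff = P.leadingCoeff.eval x := by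
    rw [hf]
    exact leadingCoeff_map_of_leadingCoeff_ne_zero _ hlc
  have hG := W7_gauss σ hσ0 f
  have hcoeff : ∀ j, f.coeff j = (P.coeff j).eval x := by
    intro j
    rw [hf, coeff_map]
    rfl
  -- the power of the Gauss norm
  have hGa : f.gaussNorm (NormedField.toAbsoluteValue L) σ ^ a =
      ‖P.leadingCoeff.eval x‖ ^ a *
        ((rts P x).map fun y => max (‖y‖ ^ a) (‖x‖ ^ b)).prod := by
    rw [hG, mul_pow, hflc, ← Multiset.prod_map_pow]
    congr 2
    refine Multiset.map_congr rfl fun y _ => ?_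
    rw [← hσa]
    exact (pow_left_monotoneOn (n := a)).map_max (norm_nonneg y) hσ0.le
  rw [← hGa]
  have hval : ∀ j ∈ P.support, (‖f.coeff j‖ * σ ^ j) ^ a = cc j * ‖x‖ ^ κ j := by
    intro j hj
    rw [hcoeff, heval j hj, mul_pow, mul_pow, ← pow_mul, ← pow_mul, mul_comm j a, pow_mul σ,
      hσa, ← pow_mul, mul_assoc, ← pow_add, mul_comm (P.coeff j).natDegree a]
  have hle : ∀ j ∈ P.support, cc j * ‖x‖ ^ κ j ≤ cc j₁ * ‖x‖ ^ κ j₀ := by
    intro j hj
    by_cases h : κ j = κ j₀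
    · rw [h]
      exact mul_le_mul_of_nonneg_right (hmax₁ j (Finset.mem_filter.mpr ⟨hj, h⟩)) (by positivity)
    · have h1 : κ j ≤ κ j₀ - 1 ∧ 1 ≤ κ j₀ := by
        have := hmax₀ j hj
        omega
      have h2 : cc j < cc j₁ * ‖x‖ := by
        have h3 := hterm j hj
        have h4 := abs_nonneg (Rj j)
        have h5 : cc j / cc j₁ < ‖x‖ := by linarith
        rw [div_lt_iff₀ (hccpos j₁ hj₁'.1)] at h5
        linarith [mul_comm ‖x‖ (cc j₁)]
      have h3 : ‖x‖ ^ κ j₀ = ‖x‖ * ‖x‖ ^ (κ j₀ - 1) := by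
        rw [← pow_succ']
        congr 1
        omega
      rw [h3, ← mul_assoc]
      exact mul_le_mul h2.le (pow_le_pow_right₀ hx1.le h1.1) (by positivity)
        (mul_nonneg (hccpos j₁ hj₁'.1).le hx0.le)
  apply le_antisymm
  · obtain ⟨i, hi⟩ := f.exists_eq_gaussNorm (NormedField.toAbsoluteValue L) σ
    have hi' : f.gaussNorm (NormedField.toAbsoluteValue L) σ = ‖f.coeff i‖ * σ ^ i := hi
    rw [hi']
    by_cases h : i ∈ P.support
    · rw [hval i h]
      exact hle i h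
    · have : f.coeff i = 0 := by
        rw [hcoeff, notMem_support_iff.mp h, eval_zero]
      rw [this, norm_zero, zero_mul, zero_pow ha.ne']
      exact mul_nonneg (hccpos j₁ hj₁'.1).le (by positivity)
  · have h1 := f.le_gaussNorm (NormedField.toAbsoluteValue L) hσ0.le j₁
    have h1' : ‖f.coeff j₁‖ * σ ^ j₁ ≤ f.gaussNorm (NormedField.toAbsoluteValue L) σ := h1
    have h2 := pow_le_pow_left₀ (by positivity) h1' a
    rw [hval j₁ hj₁'.1, hj₁'.2] at h2
    exact h2

end Pool.Agent.Helper79.DN
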