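import Pool.Agent.Helper79.DN.StW

/-!
# Module W8: symmetric functions of the values at the roots
-/

set_option autoImplicit false

namespace Pool.Agent.Helper79.DN

open Polynomial Pool.Agent.Helper79.DM Pool.Agent.Helper11.SP

private theorem w8_res {L : Type} [Field L] [IsAlgClosed L] (p γ : L[X]) (E : ℕ)
    (hγ : γ.natDegree ≤ E) :
    resultant (p.map (C : L →+* L[X])) (C (X : L[X]) - γ.map (C : L →+* L[X])) p.natDegree E =
      C (p.leadingCoeff ^ E) * (p.roots.map fun y => X - C (γ.eval y)).prod := by
  have hinj : Function.Injective (C : L →+* L[X]) := C_injective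
  have h1 : (C (X : L[X]) - γ.map (C : L →+* L[X])).natDegree ≤ E := by
    refine (natDegree_sub_le _ _).trans (max_le ?_ ?_)
    · rw [natDegree_C]
      exact Nat.zero_le _
    · exact natDegree_map_le.trans hγ
  have hs : p.Splits := IsAlgClosed.splits p
  have h2 := resultant_eq_prod_eval (p.map (C : L →+* L[X]))
    (C (X : L[X]) - γ.map (C : L →+* L[X])) E h1 (hs.map _)
  rw [natDegree_map_eq_of_injective hinj, leadingCoeff_map_of_injective hinj,
    hs.roots_map_of_injective hinj, Multiset.map_map] at h2
  rw [h2, map_pow]
  congr 2
  refine Multiset.map_congr rfl fun y _ => ?_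
  simp [eval_map, eval₂_at_apply]

theorem thm_W8 : St_W8 := by
  intro L _ _ P G hP E hG j
  rcases Nat.lt_or_ge P.natDegree j with hj | hj
  · refine ⟨0, fun x _ => ?_⟩
    have h1 : Multiset.card ((rts P x).map fun y => ev x y G) < j := by
      rw [Multiset.card_map]
      exact ((card_roots' _).trans natDegree_map_le).trans_lt hj
    rw [eval_zero, Multiset.esymm, Multiset.powersetCard_eq_empty _ h1]
    simp
  · set res : L[X][X] := resultant (P.map (C : L[X] →+* L[X][X]))
      (C (X : L[X][X]) - G.map (C : L[X] →+* L[X][X])) P.natDegree E with hres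
    refine ⟨C ((-1) ^ j) * res.coeff (P.natDegree - j), fun x hx => ?_⟩
    set p : L[X] := P.map (evalRingHom x) with hp
    set γ : L[X] := G.map (evalRingHom x) with hγ
    have hpd : p.natDegree = P.natDegree := natDegree_map_of_leadingCoeff_ne_zero _ hx
    have hpl : p.leadingCoeff = P.leadingCoeff.eval x :=
      leadingCoeff_map_of_leadingCoeff_ne_zero _ hx
    have h1 : (mapRingHom (evalRingHom x)) res =
        C (p.leadingCoeff ^ E) * (p.roots.map fun y => X - C (γ.eval y)).prod := by
      rw [← w8_res p γ E (natDegree_map_le.trans hG), hpd, hres, ← resultant_map_map]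
      congr 1
      · rw [hp, map_map, map_map]
        congr 1
        ext a <;> simp
      · rw [Polynomial.map_sub, map_C, hγ, map_map, map_map]
        congr 1
        · simp
        · congr 1
          ext a <;> simp
    have hcard : Multiset.card (p.roots.map fun y => γ.eval y) = P.natDegree := by
      rw [Multiset.card_map, ← hpd]
      exact (IsAlgClosed.splits p).natDegree_eq_card_roots.symm
    have h2 : ((mapRingHom (evalRingHom x)) res).coeff (P.natDegree - j) =
        (res.coeff (P.natDegree - j)).eval x := by
      rw [coe_mapRingHom, coeff_map]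
      rfl
    have h3 : (p.roots.map fun y => X - C (γ.eval y)).prod =
        ((p.roots.map fun y => γ.eval y).map fun t => X - C t).prod := by
      rw [Multiset.map_map]
      rfl
    rw [eval_mul, eval_C, ← h2, h1, coeff_C_mul, h3,
      Multiset.prod_X_sub_C_coeff _ (by rw [hcard]; exact Nat.sub_le _ _), hcard, hpl,
      Nat.sub_sub_self hj]
    have h4 : ((-1 : L) ^ j) * (-1) ^ j = 1 := by
      rw [← mul_pow]
      simp
    have h5 : (rts P x).map (fun y => ev x y G) = p.roots.map fun y => γ.eval y := by
      rfl
    rw [h5]
    linear_combination (P.leadingCoeff.eval x ^ E *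
      (p.roots.map fun y => γ.eval y).esymm j) * h4

end Pool.Agent.Helper79.DN
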