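import Pool.Agent.Helper79.DN.StW

/-!
# Module W9: a Schwarz lemma at infinity
-/

set_option autoImplicit false

namespace Pool.Agent.Helper79.DN

open Polynomial

private theorem W9_norm {p : ℕ} [Fact p.Prime] {L : Type*} [NormedField L] (k : ℕ) (hk : k ≠ 0)
    (z : L) (hz : z ^ p ^ k = z) (h0 : z ≠ 0) : ‖z‖ = 1 := by
  have hp : 1 < p ^ k := Nat.one_lt_pow hk (Fact.out : p.Prime).one_lt
  have h1 : ‖z‖ ^ p ^ k = ‖z‖ := by rw [← norm_pow, hz]
  have h2 : 0 < ‖z‖ := norm_pos_iff.mpr h0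
  obtain ⟨m, hm⟩ : ∃ m, p ^ k = m + 1 := ⟨p ^ k - 1, by omega⟩
  rw [hm, pow_succ] at h1
  have h3 : ‖z‖ ^ m = 1 := by
    have : ‖z‖ ^ m * ‖z‖ = 1 * ‖z‖ := by rw [h1, one_mul]
    exact mul_right_cancel₀ h2.ne' this
  exact (pow_eq_one_iff_of_nonneg h2.le (by omega)).mp h3

/-- There are many elements of norm one with differences of norm one. -/
private theorem W9_many (p : ℕ) [Fact p.Prime] (L : Type*) [NormedField L] [IsAlgClosed L]
    [CharP L p] (n : ℕ) : ∃ Z : Finset L, n < Z.card ∧ (∀ z ∈ Z, ‖z‖ = 1) ∧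
      ∀ z ∈ Z, ∀ z' ∈ Z, z ≠ z' → ‖z - z'‖ = 1 := by
  classical
  have hp : 1 < p := (Fact.out : p.Prime).one_lt
  have hk : n + 2 ≠ 0 := by omega
  set g : L[X] := X ^ p ^ (n + 2) - X with hg
  have hg0 : g ≠ 0 := FiniteField.X_pow_card_pow_sub_X_ne_zero L hk hp
  have hdeg : g.natDegree = p ^ (n + 2) := FiniteField.X_pow_card_pow_sub_X_natDegree_eq L hk hp
  have hsep : g.Separable := galois_poly_separable p _ (dvd_pow_self p hk)
  have hcard : g.roots.toFinset.card = p ^ (n + 2) := by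
    rw [Multiset.toFinset_card_of_nodup (nodup_roots hsep),
      ← (IsAlgClosed.splits g).natDegree_eq_card_roots, hdeg]
  have hmem : ∀ z ∈ g.roots.toFinset, z ^ p ^ (n + 2) = z := by
    intro z hz
    have h1 : g.eval z = 0 := (mem_roots hg0).mp (Multiset.mem_toFinset.mp hz)
    rw [hg, eval_sub, eval_pow, eval_X] at h1
    exact sub_eq_zero.mp h1
  refine ⟨g.roots.toFinset.erase 0, ?_, ?_, ?_⟩
  · have h1 : p ^ (n + 2) - 1 ≤ (g.roots.toFinset.erase 0).card := by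
      rw [← hcard]
      exact Finset.pred_card_le_card_erase
    have h2 : n + 2 < p ^ (n + 2) := Nat.lt_pow_self hp
    omega
  · intro z hz
    rw [Finset.mem_erase] at hz
    exact W9_norm (p := p) (n + 2) hk z (hmem z hz.2) hz.1
  · intro z hz z' hz' hne
    refine W9_norm (p := p) (n + 2) hk (z - z') ?_ (sub_ne_zero.mpr hne)
    rw [sub_pow_char_pow, hmem z (Finset.mem_of_mem_erase hz),
      hmem z' (Finset.mem_of_mem_erase hz')]

private theorem W9_sub {L : Type*} [NormedField L] [IsUltrametricDist L] (x a : L)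
    (h : ‖x‖ ≠ ‖a‖) : ‖x - a‖ = max ‖x‖ ‖a‖ := by
  rw [sub_eq_add_neg, IsUltrametricDist.norm_add_eq_max_of_norm_ne_norm (by rwa [norm_neg]),
    norm_neg]

private theorem W9_le {L : Type*} [NormedField L] [IsUltrametricDist L] (x a : L) :
    ‖x - a‖ ≤ max ‖x‖ ‖a‖ := by
  rw [sub_eq_add_neg]
  exact (IsUltrametricDist.norm_add_le_max _ _).trans (by rw [norm_neg])

/-- comparison of the products -/
private theorem W9_prod {L : Type*} [NormedField L] (x x₀ : L) (t : ℝ) (ht : 0 ≤ t)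
    (s : Multiset L) (h : ∀ a ∈ s, ‖x - a‖ ≤ t * ‖x₀ - a‖) :
    ‖(s.map (x - ·)).prod‖ ≤ t ^ Multiset.card s * ‖(s.map (x₀ - ·)).prod‖ := by
  induction s using Multiset.induction_on with
  | empty => simp
  | cons a s ih =>
    rw [Multiset.map_cons, Multiset.prod_cons, norm_mul, Multiset.map_cons, Multiset.prod_cons,
      norm_mul, Multiset.card_cons, pow_succ]
    have h1 := h a (Multiset.mem_cons_self _ _)
    have h2 := ih fun b hb => h b (Multiset.mem_cons_of_mem hb)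
    calc ‖x - a‖ * ‖(s.map (x - ·)).prod‖
        ≤ (t * ‖x₀ - a‖) * (t ^ Multiset.card s * ‖(s.map (x₀ - ·)).prod‖) :=
          mul_le_mul h1 h2 (norm_nonneg _) (mul_nonneg ht (norm_nonneg _))
      _ = _ := by ring

private theorem W9_big {L : Type*} [NormedField L] [IsUltrametricDist L] (x : L)
    (s : Multiset L) (h : ∀ a ∈ s, ‖a‖ < ‖x‖) :
    ‖(s.map (x - ·)).prod‖ = ‖x‖ ^ Multiset.card s := by
  induction s using Multiset.induction_on with
  | empty => simp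
  | cons a s ih =>
    rw [Multiset.map_cons, Multiset.prod_cons, norm_mul, Multiset.card_cons, pow_succ,
      ih fun b hb => h b (Multiset.mem_cons_of_mem hb)]
    have h1 := h a (Multiset.mem_cons_self _ _)
    rw [W9_sub x a h1.ne', max_eq_left h1.le, mul_comm]

theorem thm_W9 : St_W9 := by
  classical
  intro p _ L _ _ _ _ Q x₁ hx₁ M A δ hM hA x hx
  have hx₁0 : 0 < ‖x₁‖ := by linarith
  have hM0 : 0 ≤ M := (norm_nonneg _).trans (hM x₁ rfl)
  have ht1 : 1 ≤ ‖x‖ / ‖x₁‖ := (one_le_div hx₁0).mpr hx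
  have ht0 : 0 ≤ ‖x‖ / ‖x₁‖ := le_trans zero_le_one ht1
  by_cases hQ : Q = 0
  · rw [hQ, eval_zero, norm_zero]
    exact mul_nonneg hM0 (Real.rpow_nonneg ht0 _)
  have hlc : 0 < ‖Q.leadingCoeff‖ := norm_pos_iff.mpr (leadingCoeff_ne_zero.mpr hQ)
  have hev := (IsAlgClosed.splits Q).eval_eq_prod_roots
  set n := Multiset.card Q.roots with hn
  -- the degree is at most `δ`
  have hnδ : (n : ℝ) ≤ δ := by
    by_contra hcon
    push Not at hcon
    have h1 : Filter.Tendsto (fun t : ℝ => t ^ ((n : ℝ) - δ)) Filter.atTop Filter.atTop :=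
      tendsto_rpow_atTop (by linarith)
    obtain ⟨B₀, hB₀⟩ := (Filter.tendsto_atTop_atTop.mp h1) (|A| / ‖Q.leadingCoeff‖ + 1)
    set B : ℝ := max (max 1 B₀) (∑ a ∈ Q.roots.toFinset, ‖a‖) with hB
    obtain ⟨y, hy, hyA⟩ := hA B
    have hy1 : 1 < ‖y‖ := lt_of_le_of_lt ((le_max_left _ _).trans (le_max_left _ _)) hy
    have hy0 : 0 < ‖y‖ := by linarith
    have hyB : B₀ ≤ ‖y‖ := ((le_max_right _ _).trans (le_max_left _ _)).trans hy.le
    have hroot : ∀ a ∈ Q.roots, ‖a‖ < ‖y‖ := by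
      intro a ha
      refine lt_of_le_of_lt ?_ hy
      refine le_trans ?_ (le_max_right _ _)
      exact Finset.single_le_sum (f := fun a : L => ‖a‖) (fun _ _ => norm_nonneg _)
        (Multiset.mem_toFinset.mpr ha)
    rw [hev y, norm_mul, W9_big y _ hroot, ← hn] at hyA
    have h2 := hB₀ ‖y‖ hyB
    have h3 : ‖y‖ ^ n = ‖y‖ ^ ((n : ℝ) - δ) * ‖y‖ ^ δ := by
      rw [← Real.rpow_add hy0, sub_add_cancel, Real.rpow_natCast]
    rw [h3] at hyA
    have h4 : 0 < ‖y‖ ^ δ := Real.rpow_pos_of_pos hy0 _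
    have h5 : ‖Q.leadingCoeff‖ * ‖y‖ ^ ((n : ℝ) - δ) ≤ A := by
      refine le_of_mul_le_mul_right ?_ h4
      rw [mul_assoc]
      exact hyA
    have h6 : |A| + ‖Q.leadingCoeff‖ ≤ ‖Q.leadingCoeff‖ * ‖y‖ ^ ((n : ℝ) - δ) := by
      calc |A| + ‖Q.leadingCoeff‖ = ‖Q.leadingCoeff‖ * (|A| / ‖Q.leadingCoeff‖ + 1) := by
            field_simp
        _ ≤ _ := mul_le_mul_of_nonneg_left h2 hlc.le
    have h7 := le_abs_self A
    linarith
  -- a good point on the circle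
  obtain ⟨x₀, hx₀, hgood⟩ : ∃ x₀ : L, ‖x₀‖ = ‖x₁‖ ∧
      ∀ a ∈ Q.roots, ‖x₀ - a‖ = max ‖x₁‖ ‖a‖ := by
    by_contra hcon
    push Not at hcon
    obtain ⟨Z, hZc, hZ1, hZ2⟩ := W9_many p L n
    have hbad : ∀ z ∈ Z, ∃ a ∈ Q.roots.toFinset, ‖x₁ * z - a‖ ≠ max ‖x₁‖ ‖a‖ := by
      intro z hz
      obtain ⟨a, ha, hna⟩ := hcon (x₁ * z) (by rw [norm_mul, hZ1 z hz, mul_one])
      exact ⟨a, Multiset.mem_toFinset.mpr ha, hna⟩
    have hbad' : ∀ z ∈ Z, ∀ a, ‖x₁ * z - a‖ ≠ max ‖x₁‖ ‖a‖ → ‖x₁ * z - a‖ < ‖x₁‖ := by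
      intro z hz a hna
      have h1 : ‖x₁ * z‖ = ‖x₁‖ := by rw [norm_mul, hZ1 z hz, mul_one]
      have h2 : ‖x₁ * z‖ = ‖a‖ := by
        by_contra h
        exact hna (by rw [W9_sub _ _ h, h1])
      have h3 := W9_le (x₁ * z) a
      rw [h1] at h3
      have h4 := lt_of_le_of_ne h3 hna
      rwa [← h2, h1, max_self] at h4
    choose! φ hφ hφn using hbad
    have hinj : Set.InjOn φ Z := by
      intro z hz z' hz' heq
      by_contra hne
      have h1 := hbad' z hz _ (hφn z hz)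
      have h2 := hbad' z' hz' _ (hφn z' hz')
      rw [← heq] at h2
      have h3 : ‖x₁ * z - x₁ * z'‖ < ‖x₁‖ := by
        have h4 : x₁ * z - x₁ * z' = (x₁ * z - φ z) - (x₁ * z' - φ z) := by ring
        rw [h4]
        exact (W9_le _ _).trans_lt (max_lt h1 h2)
      rw [← mul_sub, norm_mul, hZ2 z hz z' hz' hne, mul_one] at h3
      exact lt_irrefl _ h3
    have h5 : Z.card ≤ Q.roots.toFinset.card :=
      Finset.card_le_card_of_injOn φ (fun z hz => hφ z hz) hinj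
    have h6 : Q.roots.toFinset.card ≤ n := Multiset.toFinset_card_le _
    omega
  -- the estimate
  have h1 : ∀ a ∈ Q.roots, ‖x - a‖ ≤ ‖x‖ / ‖x₁‖ * ‖x₀ - a‖ := by
    intro a ha
    rw [hgood a ha, mul_max_of_nonneg _ _ ht0, div_mul_cancel₀ _ hx₁0.ne']
    refine (W9_le x a).trans (max_le_max le_rfl ?_)
    exact le_mul_of_one_le_left (norm_nonneg _) ht1
  have h2 := W9_prod x x₀ _ ht0 Q.roots h1
  rw [← hn] at h2
  have h3 := hM x₀ hx₀
  rw [hev x₀, norm_mul] at h3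
  have h4 : (‖x‖ / ‖x₁‖) ^ n ≤ (‖x‖ / ‖x₁‖) ^ δ := by
    rw [← Real.rpow_natCast]
    exact Real.rpow_le_rpow_of_exponent_le ht1 hnδ
  calc ‖Q.eval x‖ = ‖Q.leadingCoeff‖ * ‖(Q.roots.map (x - ·)).prod‖ := by
        rw [hev x, norm_mul]
    _ ≤ ‖Q.leadingCoeff‖ * ((‖x‖ / ‖x₁‖) ^ n * ‖(Q.roots.map (x₀ - ·)).prod‖) :=
        mul_le_mul_of_nonneg_left h2 hlc.le
    _ = (‖Q.leadingCoeff‖ * ‖(Q.roots.map (x₀ - ·)).prod‖) * (‖x‖ / ‖x₁‖) ^ n := by ring
    _ ≤ M * (‖x‖ / ‖x₁‖) ^ δ := mul_le_mul h3 h4 (pow_nonneg ht0 _) hM0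

end Pool.Agent.Helper79.DN
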