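import Pool.Agent.Helper79.DN.Final
import Pool.Agent.Helper79.DN.AsmW
import Pool.Agent.Helper79.DN.F1
import Pool.Agent.Helper79.DN.F2
import Pool.Agent.Helper79.DN.F3
import Pool.Agent.Helper79.DN.F4
import Pool.Agent.Helper79.DN.F5
import Pool.Agent.Helper79.DN.F6
import Pool.Agent.Helper79.DN.F7
import Pool.Agent.Helper79.DN.F8
import Pool.Agent.Helper79.DN.F9
import Pool.Agent.Helper79.DN.F10
import Pool.Agent.Helper79.DN.T1
import Pool.Agent.Helper79.DN.T2
import Pool.Agent.Helper79.DN.T3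
import Pool.Agent.Helper79.DN.T4
import Pool.Agent.Helper79.DN.T5
import Pool.Agent.Helper79.DN.T6
import Pool.Agent.Helper79.DN.T9
import Pool.Agent.Helper79.DN.C1
import Pool.Agent.Helper79.DN.C2
import Pool.Agent.Helper79.DN.C3
import Pool.Agent.Helper79.DN.C4
import Pool.Agent.Helper79.DN.C5
import Pool.Agent.Helper79.DN.P1
import Pool.Agent.Helper79.DN.P2
import Pool.Agent.Helper79.DN.P3
import Pool.Agent.Helper79.DN.W0
import Pool.Agent.Helper79.DN.W1
import Pool.Agent.Helper79.DN.W2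
import Pool.Agent.Helper79.DN.W3
import Pool.Agent.Helper79.DN.W4
import Pool.Agent.Helper79.DN.W5
import Pool.Agent.Helper79.DN.W6
import Pool.Agent.Helper79.DN.W7
import Pool.Agent.Helper79.DN.W8
import Pool.Agent.Helper79.DN.W9
import Pool.Agent.Helper79.DN.W10
import Pool.Agent.Helper79.DN.W11
import Pool.Agent.Helper79.DN.W12
import Pool.Agent.Helper79.DN.W13
import Pool.Agent.Helper79.DN.W14
import Pool.Agent.Helper79.DN.W15
import Pool.Agent.Helper79.DN.W16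
import Pool.Agent.Helper79.DN.W17
import Pool.Agent.Helper79.DN.W18
import Pool.Agent.Helper79.DN.W19

/-!
# The theorem without hypotheses
-/

set_option autoImplicit false

namespace Pool.Agent.Helper79.DN

open Polynomial Pool.Agent.Helper79.DM

theorem all_F10 : St_F10 :=
  thm_F10 (thm_F4 thm_F1 thm_F2 thm_F3) (thm_F5 thm_F1 thm_F3) thm_F6 thm_F7 (thm_F8 thm_F3) thm_F9

theorem all_T9 : St_T9 := thm_T9 thm_T1 thm_T2 thm_T3 thm_T4 thm_T5 (thm_T6 thm_T2)

theorem all_C5 : St_C5 := thm_C5 all_T9 thm_C2 thm_C3 thm_C4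

theorem all_P3 : St_P3 := thm_P3 (thm_P2 thm_P1)

theorem all_W13 : St_W13 :=
  thm_W13 thm_W7 thm_W8 thm_W9 thm_W10 thm_W11 (thm_W12 thm_W2 thm_W6)

theorem all_W18 : St_W18 :=
  thm_W18 thm_W2 (thm_W3 thm_W2) thm_W14 (thm_W16 thm_W0 thm_W14) thm_W17

theorem all_Loc : St_Loc :=
  thm_Loc thm_W0 thm_W1 thm_W2 (thm_W3 thm_W2) (thm_W4 thm_W2) thm_W5 all_W13 (thm_W15 thm_W14)
    all_W18 thm_W19

theorem final0 (p : ℕ)
    (hp : p.Prime) (K : Type) [Field K] [CharP K p] (f g : K[X]) (x y : K)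
    (h : MvPolynomial (Fin 2) K) (h0 : 0 < h.totalDegree)
    (H : f.natDegree ≠ g.natDegree ∨ ∀ k, f.natDegree ≠ p ^ k) :
    ∃ U : Finset (ℕ × ℕ), ret f g x y h = {n : ℕ | ∃ q ∈ U, ∃ k : ℕ, n = q.1 * k + q.2} :=
  final_all all_F10 thm_C1 all_C5 all_P3 all_Loc p hp K f g x y h h0 H

end Pool.Agent.Helper79.DN
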