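import Pool.Agent.Helper79.DN.StT
import Pool.Agent.Helper79.DM.H3

/-!
# Statements, block C: multiplicities, closeness, both maps conjugate to a power map
-/

set_option autoImplicit false

namespace Pool.Agent.Helper79.DN

open Polynomial Pool.Agent.Helper79.DM Pool.Agent.Helper11.SP

/-- [C1] Multiplicities of iterated preimages.

PROOF. For `β ∈ M` let `e(β) = rootMultiplicity β (g - C (g.eval β))`, `1 ≤ e(β) ≤ d`.
(a) If `q ≠ 0` then `rootMultiplicity β (q.comp g) = rootMultiplicity (g.eval β) q * e(β)`: write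
`q = (X - g β)^m q₁` with `q₁(g β) ≠ 0`; `q ∘ g = (g - g β)^m (q₁ ∘ g)`.
(b) `e(β) = d` means `g = C (g β) + C c (X - C β)^d`. There is at most one such `β`: otherwise
`c (X - β₁)^d - c (X - β₂)^d` is constant (`c` = leading coefficient); put `d = P n'`, `P` a power of `p`, `p ∤ n'`,
`n' ≥ 2` (`d` is not a power of `p`); after `X ↦ X + β₂`, `a = β₁ - β₂ ≠ 0`:
`(X^P - a^P)^n' - X^(P n')` has the coefficient `-n' a^P ≠ 0` at `X^(P (n'-1))`.
(c) If `e(β) = d` then `g β ≠ β` (otherwise `PL g`), so `e(g β) ≤ d - 1` by (b). Hence `e(β) e(g β) ≤ d (d-1)` for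
all `β`, and `∏_{j<k} e(g^j β) ≤ d (d (d-1))^(k/2)` for even `k` (even without the factor `d`).
(d) By (a) the multiplicity of `β` in `ℓ ∘ g^k` is at most `natDegree ℓ * (d (d-1))^(k/2)`, and
`D * (natDegree ℓ * (d (d-1))^(k/2) + 1) < d^k` for `k` even and large, since `(d-1)/d < 1`. -/
def St_C1 : Prop := ∀ (p : ℕ) [Fact p.Prime] (M : Type) [Field M] [CharP M p] (g ℓ : M[X])
  (d D : ℕ), g.natDegree = d → 2 ≤ d → (∀ k, d ≠ p ^ k) → ¬ PL g → ℓ ≠ 0 →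
  ∃ k : ℕ, ∀ β : M, D * (rootMultiplicity β (ℓ.comp (itc g k)) + 1) < d ^ k

/-- [C2] Escape to infinity.

PROOF. `g = ∑ g_i X^i`, `d = natDegree ≥ 2`. There is `R ≥ 1` with: for `v z > R`,
`v (g z) = v(g_d) v(z)^d` (the top term dominates) and `v (g z) ≥ 2 v z`. If `v (y_n) > R` for one `n` then it holds
for all larger ones and `v (y_(n+j)) ≥ 2^j R`. -/
def St_C2 : Prop := ∀ (K : Type) [Field K] (v : AbsoluteValue K ℝ)
  (_ : ∀ x y, v (x + y) ≤ max (v x) (v y)) (g : K[X]) (_ : 2 ≤ g.natDegree) (y : K)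
  (_ : ∀ M : ℝ, ∃ n, M < v (orb g y n)),
  ∃ n₀, (∀ n, n₀ ≤ n → v (orb g y (n + 1)) = v g.leadingCoeff * v (orb g y n) ^ g.natDegree) ∧
    ∀ M : ℝ, ∃ n₁, ∀ n, n₁ ≤ n → M < v (orb g y n)

/-- [C3] A point where a polynomial is small is close to a root.

PROOF. If `s = 0` take `β = 0`, `C = max(R,1)^E / v c` (`R < 0`: nothing to prove, or `C = 0`... take any).
Otherwise take the `β ∈ s` nearest to `y`. Let `0 < σ ≤ 1` be a lower bound for
`v(β' - β'')`, `β' ≠ β''` in `s`. If `v(y - β) < σ` then every other `β'` has `v(y - β') ≥ v(β - β') ≥ σ`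
(nonarchimedean), so `v(value) ≥ v(c) v(y-β)^(count β) σ^(card s) ≥ v(c) σ^(card s) v(y - β)^E`
(`v(y - β) ≤ 1`, `count ≤ E`). If `v(y - β) ≥ σ` then `v(value) ≥ v(c) σ^(card s)` and
`v(y - β)^E ≤ max(R, max_s v)^E`. -/
def St_C3 : Prop := ∀ (K : Type) [Field K] [DecidableEq K] (v : AbsoluteValue K ℝ)
  (_ : ∀ x y, v (x + y) ≤ max (v x) (v y)) (s : Multiset K) (c : K) (_ : c ≠ 0) (E : ℕ)
  (_ : 1 ≤ E) (_ : ∀ β, s.count β ≤ E) (R : ℝ),
  ∃ C : ℝ, 0 ≤ C ∧ ∀ y, v y ≤ R → ∃ β ∈ insert 0 s.toFinset,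
    v (y - β) ^ E ≤ C * v ((Polynomial.C c * (s.map fun β => X - Polynomial.C β).prod).eval y)

/-- The leading coefficient with respect to the second variable (a polynomial in the first). -/
noncomputable def leadX {A : Type*} [CommRing A] (h : MvPolynomial (Fin 2) A) : A[X] :=
  leadY (MvPolynomial.rename (Equiv.swap (0 : Fin 2) 1) h)

/-- [C4] Heights on the curve `h = 0`.

PROOF. Let `E = h.degreeOf 1`, `D = h.degreeOf 0`, `h = ∑_j h_j(x) y^j`, `h_E = leadX h`. For a zero `(x, y)`: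
`h_E(x) y^E = - ∑_{j<E} h_j(x) y^j`, so if `|y|_τ ≥ 1`: `|h_E(x)|_τ |y|_τ ≤ C_τ max(1,|x|_τ)^D` (use
`norm_leadY_le_of_zero` with a normed field, or redo it for absolute values; `C_τ ≥ 1` the maximum of `1` and the
sum of the `|coefficients|`); this also holds if `|y|_τ < 1`, with `|y|_τ` replaced by `1`, since
`|h_E(x)|_τ ≤ C_τ max(1,|x|_τ)^D`. So `|h_E(x)|_τ max(1,|y|_τ) ≤ C_τ max(1,|x|_τ)^D` for all `τ`.
Take the product over `τ` and use `∏ |h_E(x)|_τ ≥ 1` (`Fr.prod`; `h_E(x) ∈ O`, not zero). -/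
def St_C4 : Prop := ∀ (p : ℕ) [Fact p.Prime] (K : Type) [Field K] (Fr : Frame p K)
  (h : MvPolynomial (Fin 2) K) (_ : ∀ m, h.coeff m ∈ Fr.O),
  ∃ C : ℝ, 0 < C ∧ ∀ x ∈ Fr.O, ∀ y ∈ Fr.O, MvPolynomial.eval ![x, y] h = 0 →
    (leadX h).eval x ≠ 0 → Fr.H y ≤ C * Fr.H x ^ h.degreeOf 0

/-- [C5] The main case: no place where both orbits escape, `g` not of the form `PL`.

PROOF. Write `x_n, y_n` for the orbits, `D = degreeOf 0 h`, `ℓ = leadY h`, `N` = number of places. Suppose the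
return set `S` is infinite; consider `n ∈ S`, `n ≥ k`, `m = n - k`, `n` large.
(1) `leadX h` is not zero (`leadY_ne_zero`, rename is injective) and `n ↦ x_n` is injective
(`orb_injective`), so `(leadX h)(x_n) ≠ 0` for large `n`.
(2) C4: `H(y_n) ≤ C H(x_n)^D`. As `y` escapes somewhere, `H(y_n) → ∞` (C2), so `D ≥ 1`.
(3) `T` = set of places where `(x_n)` is unbounded. For `τ ∉ T`: `|x_n|_τ ≤ B`. For `τ ∈ T`: `|x_n|_τ → ∞` (C2) and
`|y_n|_τ ≤ B` for all `n` (hypothesis). So `H(x_n) ≤ B^N ∏_{τ∈T} |x_n|_τ` (`B ≥ 1`).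
(4) For `τ` with `y` unbounded `|y_(m+k)|_τ ≥ c |y_m|_τ^(d^k)` for large `m`, `c > 0` (C2, iterate); for the others
`max(1,|y_m|) ≤ B`. So `H(y_n) ≥ c' H(y_m)^(d^k)`, `c' > 0`.
(5) `L := ℓ ∘ g^k`, `L(y_m) = ℓ(y_n)` (`itc_eval`). For `τ ∈ T`, `|x_n|_τ |ℓ(y_n)|_τ ≤ C` by
`norm_leadY_le_of_zero` (or its version for absolute values), so by C3 there is `β ∈ insert 0 s.toFinset` with
`|y_m - β|_τ^E ≤ C |x_n|_τ^(-1)`; let `δ_τ = (C |x_n|_τ^(-1))^(1/E)`. For `τ ∉ T`: `β = 0`, `δ_τ = 1`. So `Close` holds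
with `insert 0 s.toFinset` (contained in `O`).
(6) `∏ δ_τ ≤ C (∏_{T} |x_n|_τ)^(-1/E) ≤ C' H(x_n)^(-1/E) ≤ C'' H(y_n)^(-1/(DE)) ≤ C₀ H(y_m)^(-Θ)`,
`Θ = d^k / (D E) > 1`.
(7) T9 gives `C₁` and `A`. Let `τ` be the place where `y` escapes. For large `m`: `|y_m|_τ > C₁`, `H(y_m) > C₁`, so
`|y_m|_τ = ρ^(A p^s + B)`, `(A,B)` in the finite set. By C2 and `disc`, `|y_m|_τ = ρ^(z_m)`,
`z_(m+1) = d z_m + l` for `m ≥ m₀`, `|leadingCoeff g|_τ = ρ^l`, hence `z_m = A₁ d^m + B₁` with real `A₁ > 0` (as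
`z_m → ∞`), `B₁ = - l/(d-1)`. By `expo_finite` (for each `(A,B)`: `A p^s = A₁ d^m + (B₁ - B)`) only finitely many
`m` are possible. Contradiction. -/
def St_C5 : Prop := ∀ (p : ℕ) [Fact p.Prime] (K : Type) [Field K] [DecidableEq K] [CharP K p]
  (Fr : Frame p K) (f g : K[X]) (_ : ∀ i, f.coeff i ∈ Fr.O) (_ : ∀ i, g.coeff i ∈ Fr.O) (d : ℕ)
  (_ : f.natDegree = d) (_ : g.natDegree = d) (_ : 2 ≤ d) (_ : ∀ k, d ≠ p ^ k)
  (x y : K) (_ : x ∈ Fr.O) (_ : y ∈ Fr.O)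
  (h : MvPolynomial (Fin 2) K) (_ : h ≠ 0) (_ : ∀ m, h.coeff m ∈ Fr.O)
  (_ : ¬ (Set.range (orb f x)).Finite) (_ : ∃ τ, ∀ M : ℝ, ∃ n, M < Fr.abs τ (orb g y n))
  (_ : ∀ τ, ¬ ((∀ M : ℝ, ∃ n, M < Fr.abs τ (orb f x n)) ∧
    ∀ M : ℝ, ∃ n, M < Fr.abs τ (orb g y n)))
  (k : ℕ) (s : Multiset K) (_ : ∀ β ∈ s, β ∈ Fr.O) (c : K) (_ : c ≠ 0)
  (_ : (leadY h).comp (itc g k) = C c * (s.map fun β => X - C β).prod)
  (E : ℕ) (_ : 1 ≤ E) (_ : ∀ β, s.count β ≤ E) (_ : h.degreeOf 0 * E < d ^ k),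
  (ret f g x y h).Finite

/-- [P1] Exponential sums with a common unit.

PROOF. (a) If `u` is a root of unity, `u^(d^n)` is periodic for large `n` (`iterate_pow_root`), and on a class of `n`
with constant `w = u^(d^n)` the sum is `∑ T_i^(d^n) H_i(w)`; either all `H_i(w) = 0` and all these `n` are in the set,
or the term with the largest `‖T_i‖` among those with `H_i(w) ≠ 0` dominates for large `n` (`d^n → ∞`, norms
distinct) and only finitely many `n` of the class are in the set. So the set is eventually periodic.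
(b) Let `u` be no root of unity. If all `H_i = 0` the set is everything. Otherwise we show that it is finite. If not,
let `i₀` have the largest norm among the `i` with `H_i ≠ 0`; since the others are smaller, on the set
`‖H_i₀(u^(d^n))‖ ≤ C θ^(d^n)` with `θ < 1`, so by `root_limit` there are a root `w` of `H_i₀` and an infinite
subset `S'` with `u^(d^n) → w` along `S'`, and by `power_dist` `‖u^(d^n) - w‖ = e^(p^r_n)`, `0 < e < 1` (along a tail
of `S'`; note `p^r_n → ∞` along `S'`). Put `δ_n = u^(d^n) - w`, expand (Taylor)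
`H_i(w + δ) = ∑_j H_ij δ^j`. The finite sum `∑_{i,j} T_i^(d^n) H_ij δ_n^j = 0`, with a nonzero coefficient `H_ij`, has
two different terms `(i,j) ≠ (i',j')` with nonzero coefficients and the same norm (`two_max`), the same pair for
infinitely many `n` (`pigeon`): `d^n log(‖T_i‖/‖T_i'‖) + (j - j') p^r_n log e + log(‖H_ij‖/‖H_i'j'‖) = 0`.
If `j = j'` then `i ≠ i'` and `d^n` is constant, impossible. If `i = i'` then `p^r_n` is constant: impossible since it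
tends to infinity. Otherwise `A p^r_n = B d^n + C` with `A, B ≠ 0`; if `A, B` have the same sign use `expo_finite`,
if not, `A p^r_n - B d^n` is unbounded: impossible. -/
def St_P1 : Prop := ∀ (p : ℕ) [Fact p.Prime] (L : Type) [NormedField L] [IsUltrametricDist L]
  [IsAlgClosed L] [CharP L p] (d : ℕ) (_ : 2 ≤ d) (_ : ∀ k, d ≠ p ^ k) (ι : Type) [Fintype ι]
  (T : ι → L) (_ : ∀ i, T i ≠ 0) (_ : ∀ i j, ‖T i‖ = ‖T j‖ → i = j) (H : ι → L[X]) (u : L)
  (_ : ‖u‖ = 1), EP {n | ∑ i, T i ^ d ^ n * (H i).eval (u ^ d ^ n) = 0}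

/-- [P2] Power maps.

PROOF. The pairs `(i,j) ∈ ℤ²` with `‖a‖^i ‖b‖^j = 1` form a subgroup, and `j = 0` implies `i = 0` (`‖a‖ ≠ 1`), so it is
the set of multiples of one pair `(r,s)` (take `s` a generator of the group of the `j`'s). Put `u = a^r b^s`, `‖u‖ = 1`.
For a monomial `m` of `h` let `t(m) = a^(m 0) b^(m 1)`. If `‖t(m)‖ = ‖t(m')‖` then `t(m) = t(m') u^j`, `j ∈ ℤ`.
Group the monomials in classes with the same norm; in each class there is `m_c` such that `t(m) = t(m_c) u^(j_m)`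
with `j_m ≥ 0` for all `m` of the class. Then `h(a^N, b^N) = ∑_c t(m_c)^N H_c(u^N)` with
`H_c = ∑_{m ∈ c} coeff_m X^(j_m)`: P1 with `ι` = the finite set of the norms of the `t(m)`. -/
def St_P2 : Prop := ∀ (p : ℕ) [Fact p.Prime] (L : Type) [NormedField L] [IsUltrametricDist L]
  [IsAlgClosed L] [CharP L p] (d : ℕ) (_ : 2 ≤ d) (_ : ∀ k, d ≠ p ^ k) (a b : L) (_ : 1 < ‖a‖)
  (_ : b ≠ 0) (h : MvPolynomial (Fin 2) L),
  EP {n | MvPolynomial.eval ![a ^ d ^ n, b ^ d ^ n] h = 0}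

/-- [P3] Both maps conjugate to the power map.

PROOF. `f = C β + C c (X - C β)^d`, `c ≠ 0`. Choose `κ` with `κ^(d-1) = c`. `X_n = κ (x_n - β)` satisfies
`X_(n+1) = κ c (x_n - β)^d = X_n^d`, so `x_n = β + κ⁻¹ X_0^(d^n)`; the same for `y_n = β' + κ'⁻¹ Y_0^(d^n)`.
`‖X_0‖ > 1` because `(x_n)` is unbounded. If `Y_0 = 0` the orbit of `y` is constant: `ret_swap`,
`ret_ep_of_finite`. Otherwise P2 for `h(β + κ⁻¹ X, β' + κ'⁻¹ Y)` (compare `h'` in `local_ep`, DM/H1). -/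
def St_P3 : Prop := ∀ (p : ℕ) [Fact p.Prime] (L : Type) [NormedField L] [IsUltrametricDist L]
  [IsAlgClosed L] [CharP L p] (d : ℕ) (_ : 2 ≤ d) (_ : ∀ k, d ≠ p ^ k) (f g : L[X])
  (_ : f.natDegree = d) (_ : g.natDegree = d) (_ : PL f) (_ : PL g) (x y : L)
  (_ : ∀ M : ℝ, ∃ n, M < ‖orb f x n‖) (h : MvPolynomial (Fin 2) L), EP (ret f g x y h)

/-- The local theorem for all maps of degree not a power of `p` (block W; for `Tame` maps this is
`Pool.Agent.Helper79.DM.local_ep`). -/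
def St_Loc : Prop := ∀ (p : ℕ) [Fact p.Prime] (L : Type) [NormedField L] [IsUltrametricDist L]
  [CompleteSpace L] [IsAlgClosed L] [CharP L p] (f g : L[X]) (_ : f.natDegree = g.natDegree)
  (_ : 2 ≤ f.natDegree) (_ : ∀ k, f.natDegree ≠ p ^ k) (x y : L)
  (_ : ∀ M : ℝ, ∃ n, M < ‖orb f x n‖) (_ : ∀ M : ℝ, ∃ n, M < ‖orb g y n‖)
  (h : MvPolynomial (Fin 2) L) (_ : h ≠ 0), EP (ret f g x y h)

end Pool.Agent.Helper79.DN
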