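import Pool.Agent.Helper79.DN.StF
import Pool.Agent.Helper79.DN.StC

/-!
# Assembly: all curves, all maps of degree not a power of `p`
-/

set_option autoImplicit false
set_option linter.unusedSectionVars false

namespace Pool.Agent.Helper79.DN

open Polynomial Pool.Agent.Helper79.DM Pool.Agent.Helper11.SP

theorem frame_data (hF : St_F10) (p : ℕ) [Fact p.Prime] (M : Type) [Field M] [CharP M p]
    (Bs : Set M) (hB : Bs.Finite) :
    ∃ (A : Subring M) (K : Type) (_ : Field K) (_ : CharP K p) (Fr : Frame p K) (ψ : A →+* K),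
      Bs ⊆ A ∧ Function.Injective ψ ∧ (∀ u, ψ u ∈ Fr.O) ∧
      ∀ B : ℝ, {u : A | ∀ τ, Fr.abs τ (ψ u) ≤ B}.Finite := by
  let aK : Algebra (ZMod p) M := ZMod.algebra M p
  let A0 : Subalgebra (ZMod p) M := Algebra.adjoin (ZMod p) Bs
  have hft : Algebra.FiniteType (ZMod p) A0 := Algebra.FiniteType.adjoin_of_finite hB
  let aA : Algebra (ZMod p) A0.toSubring := inferInstanceAs (Algebra (ZMod p) A0)
  have hft' : Algebra.FiniteType (ZMod p) A0.toSubring := hft
  obtain ⟨K, i1, i2, Fr, ψ, h1, h2, h3⟩ := hF p A0.toSubring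
  exact ⟨A0.toSubring, K, i1, i2, Fr, ψ, Algebra.subset_adjoin, h1, h2, h3⟩

theorem iter_map {A F : Type*} [CommRing A] [Field F] (σ : A →+* F) (f : A[X]) (x : A) (n : ℕ) :
    orb (f.map σ) (σ x) n = σ ((fun z => f.eval z)^[n] x) := orb_hom σ f x n

/-- The local step: both orbits escape at one place. -/
theorem loc_step {p : ℕ} [Fact p.Prime] {M : Type} [Field M] [CharP M p] (A : Subring M)
    {K : Type} [Field K] [CharP K p] (Fr : Frame p K) (ψ : A →+* K) (hψ : Function.Injective ψ)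
    (f g : A[X]) (hd : f.natDegree = g.natDegree) (h2 : 2 ≤ f.natDegree)
    (hpd : ∀ k, f.natDegree ≠ p ^ k)
    (Hl : (Tame p (f.map A.subtype) ∧ Tame p (g.map A.subtype)) ∨ St_Loc)
    (x y : A) (h : MvPolynomial (Fin 2) A) (h0 : h ≠ 0) (τ : Fr.Γ)
    (hx : ∀ B : ℝ, ∃ n, B < Fr.abs τ (orb (f.map ψ) (ψ x) n))
    (hy : ∀ B : ℝ, ∃ n, B < Fr.abs τ (orb (g.map ψ) (ψ y) n)) :
    EP {n | MvPolynomial.eval ![(fun z => f.eval z)^[n] x, (fun z => g.eval z)^[n] y] h = 0} := by
  have hpp : p.Prime := Fact.out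
  have hinjA : Function.Injective A.subtype := Subtype.val_injective
  obtain ⟨n, hn⟩ := hx 1
  obtain ⟨L, _, _, _, _, _, σ, hσv⟩ := place_of_abs p K (Fr.abs τ) (Fr.na τ) ⟨_, hn⟩
  have hθ : Function.Injective (σ.comp ψ) := by
    rw [RingHom.coe_comp]
    exact σ.injective.comp hψ
  have hdf : (f.map (σ.comp ψ)).natDegree = f.natDegree := natDegree_map_eq_of_injective hθ f
  have hdg : (g.map (σ.comp ψ)).natDegree = g.natDegree := natDegree_map_eq_of_injective hθ g
  have ex : ∀ n, ‖orb (f.map (σ.comp ψ)) ((σ.comp ψ) x) n‖ =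
      Fr.abs τ (orb (f.map ψ) (ψ x) n) := by
    intro n
    rw [orb_hom, orb_hom, RingHom.comp_apply, hσv]
  have ey : ∀ n, ‖orb (g.map (σ.comp ψ)) ((σ.comp ψ) y) n‖ =
      Fr.abs τ (orb (g.map ψ) (ψ y) n) := by
    intro n
    rw [orb_hom, orb_hom, RingHom.comp_apply, hσv]
  have hx' : ∀ B : ℝ, ∃ n, B < ‖orb (f.map (σ.comp ψ)) ((σ.comp ψ) x) n‖ := by
    intro B
    obtain ⟨n, hn⟩ := hx B
    exact ⟨n, by rw [ex]; exact hn⟩
  have hy' : ∀ B : ℝ, ∃ n, B < ‖orb (g.map (σ.comp ψ)) ((σ.comp ψ) y) n‖ := by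
    intro B
    obtain ⟨n, hn⟩ := hy B
    exact ⟨n, by rw [ey]; exact hn⟩
  have hne : MvPolynomial.map (σ.comp ψ) h ≠ 0 := by
    intro hz
    exact h0 (MvPolynomial.map_injective _ hθ (by rw [hz, map_zero]))
  rw [← ret_hom (σ.comp ψ) hθ]
  rcases Hl with ⟨hf, hg⟩ | hloc
  · exact local_ep (p := p) _ _ (by rw [hdf, hdg, hd]) (by rw [hdf]; exact h2)
      (by rw [hdf]; exact hpd) (tame_hom p hpp _ hinjA _ hθ _ hf)
      (tame_hom p hpp _ hinjA _ hθ _ hg) _ _ hx' hy' _ hne
  · exact hloc p L _ _ (by rw [hdf, hdg, hd]) (by rw [hdf]; exact h2)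
      (by rw [hdf]; exact hpd) _ _ hx' hy' _ hne

theorem leadY_map {A F : Type*} [CommRing A] [CommRing F] (σ : A →+* F)
    (hσ : Function.Injective σ) (h : MvPolynomial (Fin 2) A) :
    leadY (MvPolynomial.map σ h) = (leadY h).map σ := by
  have e1 : (MvPolynomial.map σ h).support = h.support := MvPolynomial.support_map_of_injective h hσ
  unfold leadY
  rw [Polynomial.map_sum, e1]
  refine Finset.sum_congr rfl fun m _ => ?_
  rw [MvPolynomial.coeff_map, Polynomial.map_mul, Polynomial.map_C, Polynomial.map_pow,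
    Polynomial.map_X]

theorem itc_map {A F : Type*} [CommRing A] [CommRing F] (σ : A →+* F) (g : A[X]) (k : ℕ) :
    (itc g k).map σ = itc (g.map σ) k := by
  induction k with
  | zero => simp [itc]
  | succ k ih => rw [itc_succ, itc_succ, Polynomial.map_comp, ih]

theorem exists_unbounded {p : ℕ} [Fact p.Prime] {M : Type} [Field M] [CharP M p] (A : Subring M)
    {K : Type} [Field K] (Fr : Frame p K) (ψ : A →+* K)
    (hfin : ∀ B : ℝ, {u : A | ∀ τ, Fr.abs τ (ψ u) ≤ B}.Finite) (g : A[X]) (y : A)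
    (hy : ¬ (Set.range (orb (g.map A.subtype) (A.subtype y))).Finite) :
    ∃ τ, ∀ B : ℝ, ∃ n, B < Fr.abs τ (orb (g.map ψ) (ψ y) n) := by
  by_contra hcon
  push Not at hcon
  choose B hB using hcon
  apply hy
  obtain ⟨b, hb⟩ := (Set.finite_range B).bddAbove
  refine ((hfin b).image (fun a : A => (a : M))).subset ?_
  rintro _ ⟨n, rfl⟩
  refine ⟨(fun z => g.eval z)^[n] y, fun τ => ?_, ?_⟩
  · rw [← orb_hom]
    exact (hB τ n).trans (hb ⟨τ, rfl⟩)
  · exact (orb_hom A.subtype g y n).symm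

/-- The case where `g` is not conjugate to `c X ^ d`. -/
theorem main_g (hF : St_F10) (h1 : St_C1) (h5 : St_C5) (p : ℕ) [Fact p.Prime] (M : Type) [Field M]
    [IsAlgClosed M] [CharP M p] (f g : M[X]) (hd : f.natDegree = g.natDegree)
    (h2 : 2 ≤ f.natDegree) (hpd : ∀ k, f.natDegree ≠ p ^ k)
    (Hl : (Tame p f ∧ Tame p g) ∨ St_Loc) (x y : M) (h : MvPolynomial (Fin 2) M) (h0 : h ≠ 0)
    (hx : ¬ (Set.range (orb f x)).Finite) (hy : ¬ (Set.range (orb g y)).Finite)
    (hg : ¬ PL g) : EP (ret f g x y h) := by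
  classical
  have hl0 : leadY h ≠ 0 := leadY_ne_zero h0
  obtain ⟨k, hk⟩ := h1 p M g (leadY h) f.natDegree (h.degreeOf 0) hd.symm h2 hpd hg hl0
  set P := (leadY h).comp (itc g k) with hP
  have hP0 : P ≠ 0 := by
    intro hz
    have h3 : (itc g k).natDegree = g.natDegree ^ k := itc_natDegree g k
    have h4 : 0 < g.natDegree ^ k := pow_pos (by omega) k
    rw [hP, Polynomial.comp_eq_zero_iff] at hz
    rcases hz with hz | ⟨-, hz⟩
    · exact hl0 hz
    · rw [hz, natDegree_C] at h3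
      omega
  have hsp : P = C P.leadingCoeff * (P.roots.map fun β => X - C β).prod :=
    (IsAlgClosed.splits P).eq_prod_roots
  -- the multiplicity bound
  obtain ⟨E, hE1, hE2, hE3⟩ : ∃ E : ℕ, 1 ≤ E ∧ (∀ β, P.roots.count β ≤ E) ∧
      h.degreeOf 0 * E < f.natDegree ^ k := by
    rcases P.roots.toFinset.eq_empty_or_nonempty with he | he
    · have h6 : P.roots = 0 := Multiset.toFinset_eq_empty.1 he
      refine ⟨1, le_rfl, fun β => by simp [h6], ?_⟩
      have h7 := hk 0
      rw [← count_roots, h6] at h7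
      simpa using h7
    · obtain ⟨β, -, hβ⟩ := P.roots.toFinset.exists_max_image (fun β => P.roots.count β) he
      refine ⟨P.roots.count β + 1, by omega, fun β' => ?_, ?_⟩
      · by_cases hb : β' ∈ P.roots
        · exact (hβ β' (Multiset.mem_toFinset.2 hb)).trans (by omega)
        · rw [Multiset.count_eq_zero_of_notMem hb]; omega
      · rw [count_roots]
        exact hk β
  -- the frame
  obtain ⟨A, K, _, _, Fr, ψ, hBA, hψ, hO, hfin⟩ := frame_data hF p M
    (↑f.coeffs ∪ ↑g.coeffs ∪ ↑h.coeffs ∪ {x, y, P.leadingCoeff} ∪ ↑P.roots.toFinset)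
    ((((f.coeffs.finite_toSet.union g.coeffs.finite_toSet).union h.coeffs.finite_toSet).union
      (Set.toFinite _)).union (Finset.finite_toSet _))
  have hfB : (↑f.coeffs : Set M) ⊆ A := fun z hz => hBA (by simp [hz])
  have hgB : (↑g.coeffs : Set M) ⊆ A := fun z hz => hBA (by simp [hz])
  have hhB : (↑h.coeffs : Set M) ⊆ A := fun z hz => hBA (by simp [hz])
  have hxA : x ∈ A := hBA (by simp)
  have hyA : y ∈ A := hBA (by simp)
  have hcA : P.leadingCoeff ∈ A := hBA (by simp)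
  have hrA : ∀ β ∈ P.roots, β ∈ A := fun β hβ => hBA (by
    refine Or.inr ?_
    exact Finset.mem_coe.2 (Multiset.mem_toFinset.2 hβ))
  obtain ⟨f', hf'⟩ := lift_poly A f hfB
  obtain ⟨g', hg'⟩ := lift_poly A g hgB
  obtain ⟨h', hh'⟩ : ∃ h' : MvPolynomial (Fin 2) A, MvPolynomial.map A.subtype h' = h := by
    refine MvPolynomial.mem_range_map_iff_coeffs_subset.2 ?_
    intro z hz
    exact ⟨⟨z, hhB hz⟩, rfl⟩
  have hinjA : Function.Injective A.subtype := Subtype.val_injective
  obtain ⟨s, hs⟩ : ∃ s : Multiset A, s.map A.subtype = P.roots := by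
    refine ⟨P.roots.attach.map fun β => ⟨β.1, hrA _ β.2⟩, ?_⟩
    rw [Multiset.map_map]
    exact Multiset.attach_map_val _
  have hiter : ∀ (F : A[X]) (n : ℕ), (itc F n).map A.subtype = itc (F.map A.subtype) n :=
    fun F n => itc_map _ _ _
  have hPA : (leadY h').comp (itc g' k) = C (⟨P.leadingCoeff, hcA⟩ : A) *
      (s.map fun β => X - C β).prod := by
    apply Polynomial.map_injective A.subtype hinjA
    rw [Polynomial.map_comp, ← leadY_map _ hinjA, hh', itc_map, hg', ← hP, Polynomial.map_mul,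
      Polynomial.map_C, Polynomial.map_multiset_prod, Multiset.map_map]
    have h8 : (fun β : M => (X - C β : M[X])) ∘ A.subtype =
        (Polynomial.map A.subtype) ∘ (fun β : A => (X - C β : A[X])) := by
      funext β
      simp
    rw [← h8, ← Multiset.map_map, hs]
    exact hsp
  have hxA' : A.subtype ⟨x, hxA⟩ = x := rfl
  have hyA' : A.subtype ⟨y, hyA⟩ = y := rfl
  have hd' : f'.natDegree = f.natDegree := by
    rw [← hf', natDegree_map_eq_of_injective hinjA]
  have hdg' : g'.natDegree = f.natDegree := by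
    rw [hd, ← hg', natDegree_map_eq_of_injective hinjA]
  have hret : ret f g x y h = {n | MvPolynomial.eval
      ![(fun z => f'.eval z)^[n] ⟨x, hxA⟩, (fun z => g'.eval z)^[n] ⟨y, hyA⟩] h' = 0} := by
    have h9 := ret_hom A.subtype hinjA f' g' ⟨x, hxA⟩ ⟨y, hyA⟩ h'
    rw [hf', hg', hh'] at h9
    exact h9
  have hh0 : h' ≠ 0 := by
    rintro rfl
    exact h0 (by rw [← hh', map_zero])
  by_cases hcom : ∃ τ, (∀ B : ℝ, ∃ n, B < Fr.abs τ (orb (f'.map ψ) (ψ ⟨x, hxA⟩) n)) ∧
      ∀ B : ℝ, ∃ n, B < Fr.abs τ (orb (g'.map ψ) (ψ ⟨y, hyA⟩) n)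
  · obtain ⟨τ, hτ1, hτ2⟩ := hcom
    rw [hret]
    exact loc_step A Fr ψ hψ f' g' (by rw [hd', hdg']) (by rw [hd']; exact h2)
      (by rw [hd']; exact hpd) (by rw [hf', hg']; exact Hl) _ _ h' hh0 τ hτ1 hτ2
  · refine EP.of_finite ?_
    rw [hret, ← ret_hom ψ hψ]
    have hxψ : ¬ (Set.range (orb (f'.map ψ) (ψ ⟨x, hxA⟩))).Finite := by
      intro hfi
      apply hx
      have h10 : Set.range (orb f x) = (fun a : A => (a : M)) ''
          Set.range (fun n => (fun z => f'.eval z)^[n] ⟨x, hxA⟩) := by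
        rw [← Set.range_comp]
        refine congrArg Set.range (funext fun n => ?_)
        rw [← hf']
        exact orb_hom A.subtype f' ⟨x, hxA⟩ n
      rw [h10]
      refine Set.Finite.image _ ?_
      refine Set.Finite.of_finite_image (f := ψ) ?_ hψ.injOn
      rw [← Set.range_comp]
      refine hfi.subset ?_
      rintro _ ⟨n, rfl⟩
      exact ⟨n, orb_hom ψ f' _ n⟩
    refine h5 p K Fr (f'.map ψ) (g'.map ψ) (fun i => by rw [coeff_map]; exact hO _)
      (fun i => by rw [coeff_map]; exact hO _) f.natDegree ?_ ?_ h2 hpd _ _ (hO _) (hO _)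
      (MvPolynomial.map ψ h') ?_ ?_ hxψ ?_ ?_ k (s.map ψ) ?_ (ψ ⟨P.leadingCoeff, hcA⟩) ?_ ?_ E hE1
      ?_ ?_
    · rw [natDegree_map_eq_of_injective hψ, hd']
    · rw [natDegree_map_eq_of_injective hψ, hdg']
    · intro hz
      exact hh0 (MvPolynomial.map_injective _ hψ (by rw [hz, map_zero]))
    · intro m
      rw [MvPolynomial.coeff_map]
      exact hO _
    · refine exists_unbounded A Fr ψ hfin g' _ ?_
      rw [hg', hyA']
      exact hy
    · intro τ hτ
      exact hcom ⟨τ, hτ⟩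
    · intro β hβ
      obtain ⟨b, -, rfl⟩ := Multiset.mem_map.1 hβ
      exact hO _
    · rw [Ne, map_eq_zero_iff ψ hψ]
      intro hz
      exact hP0 (leadingCoeff_eq_zero.1 (congrArg Subtype.val hz))
    · rw [leadY_map _ hψ, ← itc_map, ← Polynomial.map_comp, hPA, Polynomial.map_mul,
        Polynomial.map_C, Polynomial.map_multiset_prod, Multiset.map_map, Multiset.map_map]
      congr 2
      refine Multiset.map_congr rfl fun β _ => ?_
      simp
    · intro β
      by_cases hβ : β ∈ s.map ψ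
      · obtain ⟨b, -, rfl⟩ := Multiset.mem_map.1 hβ
        rw [Multiset.count_map_eq_count' _ _ hψ, ← Multiset.count_map_eq_count' _ _ hinjA, hs]
        exact hE2 _
      · rw [Multiset.count_eq_zero_of_notMem hβ]; omega
    · have e3 : (MvPolynomial.map ψ h').degreeOf 0 = h.degreeOf 0 := by
        have e1 : (MvPolynomial.map ψ h').support = h'.support :=
          MvPolynomial.support_map_of_injective h' hψ
        have e2 : h.support = h'.support := by
          rw [← hh']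
          exact MvPolynomial.support_map_of_injective h' hinjA
        rw [MvPolynomial.degreeOf_eq_sup, MvPolynomial.degreeOf_eq_sup, e1, e2]
      rw [e3]
      exact hE3

/-- The case where both maps are conjugate to a power map. -/
theorem main_PL (hF : St_F10) (h3 : St_P3) (p : ℕ) [Fact p.Prime] (M : Type) [Field M]
    [CharP M p] (f g : M[X]) (hd : f.natDegree = g.natDegree)
    (h2 : 2 ≤ f.natDegree) (hpd : ∀ k, f.natDegree ≠ p ^ k)
    (x y : M) (h : MvPolynomial (Fin 2) M)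
    (hx : ¬ (Set.range (orb f x)).Finite) (hf : PL f) (hg : PL g) : EP (ret f g x y h) := by
  classical
  obtain ⟨b, c, hbc⟩ := hf
  obtain ⟨b', c', hbc'⟩ := hg
  obtain ⟨A, K, _, _, Fr, ψ, hBA, hψ, hO, hfin⟩ := frame_data hF p M
    (↑f.coeffs ∪ ↑g.coeffs ∪ ↑h.coeffs ∪ {x, y, b, c, b', c'})
    (((f.coeffs.finite_toSet.union g.coeffs.finite_toSet).union h.coeffs.finite_toSet).union
      (Set.toFinite _))
  have hfB : (↑f.coeffs : Set M) ⊆ A := fun z hz => hBA (by simp [hz])
  have hgB : (↑g.coeffs : Set M) ⊆ A := fun z hz => hBA (by simp [hz])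
  have hhB : (↑h.coeffs : Set M) ⊆ A := fun z hz => hBA (by simp [hz])
  have hxA : x ∈ A := hBA (by simp)
  have hyA : y ∈ A := hBA (by simp)
  have hbA : b ∈ A := hBA (by simp)
  have hcA : c ∈ A := hBA (by simp)
  have hbA' : b' ∈ A := hBA (by simp)
  have hcA' : c' ∈ A := hBA (by simp)
  obtain ⟨f', hf'⟩ := lift_poly A f hfB
  obtain ⟨g', hg'⟩ := lift_poly A g hgB
  obtain ⟨h', hh'⟩ : ∃ h' : MvPolynomial (Fin 2) A, MvPolynomial.map A.subtype h' = h := by
    refine MvPolynomial.mem_range_map_iff_coeffs_subset.2 ?_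
    intro z hz
    exact ⟨⟨z, hhB hz⟩, rfl⟩
  have hinjA : Function.Injective A.subtype := Subtype.val_injective
  have hd' : f'.natDegree = f.natDegree := by
    rw [← hf', natDegree_map_eq_of_injective hinjA]
  have hdg' : g'.natDegree = g.natDegree := by
    rw [← hg', natDegree_map_eq_of_injective hinjA]
  have hpf : f' = C (⟨b, hbA⟩ : A) + C (⟨c, hcA⟩ : A) * (X - C (⟨b, hbA⟩ : A)) ^ f.natDegree := by
    apply Polynomial.map_injective A.subtype hinjA
    rw [hf']
    conv_lhs => rw [hbc]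
    simp
  have hpg : g' = C (⟨b', hbA'⟩ : A) +
      C (⟨c', hcA'⟩ : A) * (X - C (⟨b', hbA'⟩ : A)) ^ g.natDegree := by
    apply Polynomial.map_injective A.subtype hinjA
    rw [hg']
    conv_lhs => rw [hbc']
    simp
  have hret : ret f g x y h = {n | MvPolynomial.eval
      ![(fun z => f'.eval z)^[n] ⟨x, hxA⟩, (fun z => g'.eval z)^[n] ⟨y, hyA⟩] h' = 0} := by
    have h9 := ret_hom A.subtype hinjA f' g' ⟨x, hxA⟩ ⟨y, hyA⟩ h'
    rw [hf', hg', hh'] at h9
    exact h9
  obtain ⟨τ, hτ⟩ := exists_unbounded A Fr ψ hfin f' ⟨x, hxA⟩ (by rw [hf']; exact hx)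
  obtain ⟨n, hn⟩ := hτ 1
  obtain ⟨L, _, _, _, _, _, σ, hσv⟩ := place_of_abs p K (Fr.abs τ) (Fr.na τ) ⟨_, hn⟩
  have hθ : Function.Injective (σ.comp ψ) := by
    rw [RingHom.coe_comp]
    exact σ.injective.comp hψ
  have hdf : (f'.map (σ.comp ψ)).natDegree = f.natDegree := by
    rw [natDegree_map_eq_of_injective hθ f', hd']
  have hdg : (g'.map (σ.comp ψ)).natDegree = g.natDegree := by
    rw [natDegree_map_eq_of_injective hθ g', hdg']
  rw [hret, ← ret_hom (σ.comp ψ) hθ]
  refine h3 p L f.natDegree h2 hpd _ _ hdf (hdg.trans hd.symm) ?_ ?_ _ _ ?_ _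
  · refine ⟨(σ.comp ψ) ⟨b, hbA⟩, (σ.comp ψ) ⟨c, hcA⟩, ?_⟩
    rw [hdf]
    conv_lhs => rw [hpf]
    simp
  · refine ⟨(σ.comp ψ) ⟨b', hbA'⟩, (σ.comp ψ) ⟨c', hcA'⟩, ?_⟩
    rw [hdg]
    conv_lhs => rw [hpg]
    simp
  · intro B
    obtain ⟨m, hm⟩ := hτ B
    refine ⟨m, ?_⟩
    rw [orb_hom] at hm
    rw [orb_hom, RingHom.comp_apply, hσv]
    exact hm

/-- All curves, equal degrees which are not a power of `p`. -/
theorem same_deg_all (hF : St_F10) (h1 : St_C1) (h5 : St_C5) (h3 : St_P3) (p : ℕ) [Fact p.Prime]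
    (K : Type) [Field K] [CharP K p] (f g : K[X]) (hd : f.natDegree = g.natDegree)
    (h2 : 2 ≤ f.natDegree) (hpd : ∀ k, f.natDegree ≠ p ^ k)
    (Hl : (Tame p f ∧ Tame p g) ∨ St_Loc) (x y : K) (h : MvPolynomial (Fin 2) K) (h0 : h ≠ 0) :
    EP (ret f g x y h) := by
  have hpp : p.Prime := Fact.out
  let M := AlgebraicClosure K
  let σ : K →+* M := algebraMap K M
  have hσ : Function.Injective σ := σ.injective
  have hid : Function.Injective (RingHom.id K) := fun a b h => h
  haveI : CharP M p := charP_of_injective_algebraMap hσ p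
  by_cases hx : (Set.range (orb f x)).Finite
  · exact ret_ep_of_finite f g x y h hx
  by_cases hy : (Set.range (orb g y)).Finite
  · rw [ret_swap]
    exact ret_ep_of_finite g f y x _ hy
  have hrange : ∀ (F : K[X]) (z : K), ¬ (Set.range (orb F z)).Finite →
      ¬ (Set.range (orb (F.map σ) (σ z))).Finite := by
    intro F z hz hfi
    apply hz
    refine Set.Finite.of_finite_image (f := σ) ?_ hσ.injOn
    rw [← Set.range_comp]
    refine hfi.subset ?_
    rintro _ ⟨n, rfl⟩
    exact ⟨n, orb_map σ F z n⟩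
  have hdf : (f.map σ).natDegree = f.natDegree := natDegree_map_eq_of_injective hσ f
  have hdg : (g.map σ).natDegree = g.natDegree := natDegree_map_eq_of_injective hσ g
  have hret : ret (f.map σ) (g.map σ) (σ x) (σ y) (MvPolynomial.map σ h) = ret f g x y h :=
    ret_hom σ hσ f g x y h
  have hne : MvPolynomial.map σ h ≠ 0 := by
    intro hz
    exact h0 (MvPolynomial.map_injective _ hσ (by rw [hz, map_zero]))
  have Hl' : (Tame p (f.map σ) ∧ Tame p (g.map σ)) ∨ St_Loc := by
    rcases Hl with ⟨hf, hg⟩ | hloc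
    · left
      exact ⟨tame_hom p hpp (RingHom.id K) hid σ hσ f (by rw [Polynomial.map_id]; exact hf),
        tame_hom p hpp (RingHom.id K) hid σ hσ g (by rw [Polynomial.map_id]; exact hg)⟩
    · exact Or.inr hloc
  rw [← hret]
  by_cases hg : PL (g.map σ)
  · by_cases hf : PL (f.map σ)
    · exact main_PL hF h3 p M _ _ (by rw [hdf, hdg, hd]) (by rw [hdf]; exact h2)
        (by rw [hdf]; exact hpd) _ _ _ (hrange f x hx) hf hg
    · rw [ret_swap]
      refine main_g hF h1 h5 p M _ _ (by rw [hdf, hdg, hd]) (by rw [hdg, ← hd]; exact h2)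
        (by rw [hdg, ← hd]; exact hpd) ?_ _ _ _ ?_ (hrange g y hy) (hrange f x hx) hf
      · rcases Hl' with ⟨hf, hg⟩ | hloc
        · exact Or.inl ⟨hg, hf⟩
        · exact Or.inr hloc
      · rw [Ne, map_eq_zero_iff _ (MvPolynomial.rename_injective _
          (Equiv.swap (0 : Fin 2) 1).injective)]
        exact hne
  · exact main_g hF h1 h5 p M _ _ (by rw [hdf, hdg, hd]) (by rw [hdf]; exact h2)
      (by rw [hdf]; exact hpd) Hl' _ _ _ hne (hrange f x hx) (hrange g y hy) hg

end Pool.Agent.Helper79.DN
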