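import Pool.Agent.Helper55.DM.A
import Pool.Agent.Helper11.SP.Dich
import Pool.Agent.Helper71.DM.G

/-!
# Return sets for all degrees which are not a power of `p`: definitions

`Frame p K`: a field of characteristic `p` with finitely many (nonarchimedean, discrete) absolute
values, a ring `O` of integral elements with product formula, such that every `K ^ (p ^ s)`-linear
endomorphism of `K` is bounded for all of them and almost maps `O` to `O`.
-/

set_option autoImplicit false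

namespace Pool.Agent.Helper79.DN

open Polynomial

/-- Places of a function field `K`. -/
structure Frame (p : ℕ) (K : Type) [Field K] where
  /-- the places -/
  Γ : Type
  fin : Fintype Γ
  /-- the absolute values -/
  abs : Γ → AbsoluteValue K ℝ
  na : ∀ τ x y, abs τ (x + y) ≤ max (abs τ x) (abs τ y)
  /-- the integral elements -/
  O : Subring K
  prod : ∀ u ∈ O, u ≠ 0 → 1 ≤ ∏ τ, abs τ u
  root : ∀ u, u ^ p ∈ O → u ∈ O
  /-- all values are powers of `ρ` -/
  ρ : ℝ
  one_lt : 1 < ρ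
  disc : ∀ τ u, u ≠ 0 → ∃ z : ℤ, abs τ u = ρ ^ z
  bd : ∀ (s : ℕ) (φ : K →+ K), (∀ w u, φ (w ^ p ^ s * u) = w ^ p ^ s * φ u) →
    (∃ C : ℝ, ∀ τ u, abs τ (φ u) ≤ C * abs τ u) ∧ ∃ c ∈ O, c ≠ 0 ∧ ∀ u ∈ O, c * φ u ∈ O
  fd : ∀ s : ℕ, ∃ (n : ℕ) (e : Fin n → K), ∀ u, ∃ a : Fin n → K, u = ∑ i, a i ^ p ^ s * e i

attribute [instance] Frame.fin

/-- The height. -/
noncomputable def Frame.H {p : ℕ} {K : Type} [Field K] (Fr : Frame p K) (y : K) : ℝ :=
  ∏ τ, max 1 (Fr.abs τ y)

/-- `u` is a `p ^ s`-th power for all `s`. -/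
def Core (p : ℕ) {K : Type} [Field K] (u : K) : Prop := ∀ s : ℕ, ∃ w, u = w ^ p ^ s

/-- The family `ω` is linearly independent over `K ^ (p ^ s)`. -/
def Ind (p : ℕ) {K : Type} [Field K] {n : ℕ} (s : ℕ) (ω : Fin n → K) : Prop :=
  ∀ a : Fin n → K, ∑ i, a i ^ p ^ s * ω i = 0 → ∀ i, a i = 0

/-- The family `ω` is linearly independent over the intersection of the fields `K ^ (p ^ s)`. -/
def IndCore (p : ℕ) {K : Type} [Field K] {n : ℕ} (ω : Fin n → K) : Prop :=
  ∀ a : Fin n → K, (∀ i, Core p (a i)) → ∑ i, a i * ω i = 0 → ∀ i, a i = 0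

/-- `φ` is linear over `K ^ (p ^ s)`. -/
def Lin (p : ℕ) {K : Type} [Field K] (s : ℕ) (φ : K →+ K) : Prop :=
  ∀ w u, φ (w ^ p ^ s * u) = w ^ p ^ s * φ u

/-- For every place there is an element of `B` at distance at most `δ τ` (relative to `y`). -/
def Close {p : ℕ} {K : Type} [Field K] (Fr : Frame p K) (B : Finset K) (y : K)
    (δ : Fr.Γ → ℝ) : Prop :=
  ∀ τ, ∃ β ∈ B, Fr.abs τ (y - β) ≤ δ τ * max 1 (Fr.abs τ y)

/-- `g` is conjugate to `c X ^ d` by a translation. -/
def PL {K : Type*} [Field K] (g : K[X]) : Prop :=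
  ∃ β c : K, g = C β + C c * (X - C β) ^ g.natDegree

end Pool.Agent.Helper79.DN
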