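import Pool.Agent.Helper79.DN.Asm

/-!
# Degrees which are different or not a power of `p`
-/

set_option autoImplicit false
set_option linter.unusedSectionVars false

namespace Pool.Agent.Helper79.DN

open Polynomial Pool.Agent.Helper79.DM Pool.Agent.Helper11.SP

theorem final_all (hF : St_F10) (h1 : St_C1) (h5 : St_C5) (h3 : St_P3) (hl : St_Loc) (p : ℕ)
    (hp : p.Prime) (K : Type) [Field K] [CharP K p] (f g : K[X]) (x y : K)
    (h : MvPolynomial (Fin 2) K) (h0 : 0 < h.totalDegree)
    (H : f.natDegree ≠ g.natDegree ∨ ∀ k, f.natDegree ≠ p ^ k) :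
    ∃ U : Finset (ℕ × ℕ), ret f g x y h = {n : ℕ | ∃ q ∈ U, ∃ k : ℕ, n = q.1 * k + q.2} := by
  haveI : Fact p.Prime := ⟨hp⟩
  have hne : h ≠ 0 := by
    rintro rfl
    simp at h0
  apply EP.rep
  by_cases hd : f.natDegree = g.natDegree
  · have hpd : ∀ k, f.natDegree ≠ p ^ k := by
      rcases H with H | H
      · exact absurd hd H
      · exact H
    by_cases hf0 : f.natDegree = 0
    · -- constant polynomials: finite orbits
      refine ret_ep_of_finite f g x y h ?_
      obtain ⟨c, hc⟩ : ∃ c, f = C c := ⟨_, eq_C_of_natDegree_eq_zero hf0⟩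
      refine (Set.toFinite ({x, c} : Set K)).subset ?_
      rintro _ ⟨n, rfl⟩
      cases n with
      | zero => exact Or.inl rfl
      | succ n =>
        right
        show orb f x (n + 1) = c
        rw [orb_succ, hc, eval_C]
    · have h2 : f.natDegree ≠ 1 := by
        have := hpd 0
        rwa [pow_zero] at this
      exact same_deg_all hF h1 h5 h3 p K f g hd (by omega) hpd (Or.inr hl) x y h hne
  · exact deg_ne_ep p K f g hd x y h hne

end Pool.Agent.Helper79.DN
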