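import Pool.Agent.Helper79.DN.Defs

/-!
# Statements, block F: existence of frames

`P = F_p[t_1, ..., t_r]`, `F = Frac P`, `G / F` a finite Galois extension with a nonarchimedean
absolute value `v` extending the degree valuation. The places are `u ↦ v (τ u)`, `τ ∈ Gal (G / F)`.
All statements are used with `r > 0` only.
-/

set_option autoImplicit false

namespace Pool.Agent.Helper79.DN

open Polynomial

/-- The ring `F_p[t_1, ..., t_r]`. -/
abbrev PR (p r : ℕ) : Type := MvPolynomial (Fin r) (ZMod p)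

/-- Its field of fractions. -/
abbrev PF (p r : ℕ) [Fact p.Prime] : Type := FractionRing (PR p r)

/-- A finite Galois extension of `F_p(t_1, ..., t_r)` with an absolute value extending the
degree valuation. -/
structure Base (p r : ℕ) [Fact p.Prime] (G : Type) [Field G] [Algebra (PF p r) G] where
  fd : FiniteDimensional (PF p r) G
  gal : IsGalois (PF p r) G
  v : AbsoluteValue G ℝ
  na : ∀ x y, v (x + y) ≤ max (v x) (v y)
  deg : ∀ b : PR p r, b ≠ 0 →
    v (algebraMap (PF p r) G (algebraMap (PR p r) (PF p r) b)) = 2 ^ b.totalDegree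

/-- The map `P → G`. -/
noncomputable def inc (p r : ℕ) [Fact p.Prime] (G : Type) [Field G] [Algebra (PF p r) G] :
    PR p r →+* G :=
  (algebraMap (PF p r) G).comp (algebraMap (PR p r) (PF p r))

/-- `u` is integral over `P`. -/
def Int' (p r : ℕ) [Fact p.Prime] {G : Type} [Field G] [Algebra (PF p r) G] (u : G) : Prop :=
  (inc p r G).IsIntegralElem u

/-- [F1] Decomposition of a polynomial over `F_p` with respect to `q = p ^ s`:
`f = ∑_I b_I ^ q t ^ I`, `0 ≤ I_i < q`, with `q deg b_I ≤ deg f`.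

PROOF. `b_I` is the sum over the `m` in the support of `f` with `m i % q = I i` for all `i`, of
`coeff m f * X ^ (m / q)`. As `c ^ q = c` in `ZMod p`, `b_I ^ q = ∑ coeff m f * X ^ (q (m / q))`
(additivity of the iterated Frobenius), so `b_I ^ q X ^ I` is the part of `f` with exponents
congruent to `I`. Degree: `q * |m / q| ≤ |m| ≤ totalDegree f`. -/
def St_F1 : Prop := ∀ (p : ℕ) [Fact p.Prime] (r s : ℕ) (f : PR p r),
  ∃ b : (Fin r → Fin (p ^ s)) → PR p r,
    f = ∑ I, b I ^ p ^ s * ∏ i, MvPolynomial.X i ^ (I i : ℕ) ∧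
    ∀ I, p ^ s * (b I).totalDegree ≤ f.totalDegree

/-- [F2] Weak approximation for finitely many absolute values which agree on an element `t`
of absolute value `2`.

PROOF. They are nontrivial, and two equivalent ones are equal (`v = w ^ c`, and `v t = w t = 2`
gives `c = 1`; see `AbsoluteValue.isEquiv_iff_exists_rpow_eq`). Index the finite set `I` of all
`v τ'`, distinct members are not equivalent. If `I` has one element take `e = 1`. Otherwise
`AbsoluteValue.exists_one_lt_lt_one_pi_of_not_isEquiv` gives `a` with `v τ a > 1`, `v τ' a < 1` for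
`v τ' ≠ v τ`. Put `e = a / (1 + a)`: `v τ (1 + a) = v τ a` and `v τ' (1 + a) = 1` (nonarchimedean), so
`v τ e = 1` and `v τ' e = v τ' a < 1`. -/
def St_F2 : Prop := ∀ (K Γ : Type) [Field K] [Finite Γ] (v : Γ → AbsoluteValue K ℝ)
  (_ : ∀ τ x y, v τ (x + y) ≤ max (v τ x) (v τ y)) (t : K) (_ : ∀ τ, v τ t = 2) (τ : Γ),
  ∃ e : K, v τ e = 1 ∧ ∀ τ', v τ' ≠ v τ → v τ' e < 1

/-- [F3] Integral elements have bounded coordinates.

PROOF. Let `e_j` be an `F`-basis of `G`, `e*_j` the dual basis for the trace form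
(nondegenerate as `G / F` is separable: `Module.Basis.traceDual` or
`(Algebra.traceForm F G).dualBasis`), so `u = ∑ Tr(u e*_j) e_j`. Multiplying by
nonzero elements of `P` choose `e_j` integral (`θ_j`), and `d ∈ P`, `d ≠ 0` with `d e*_j` integral
for all `j`. For `u` integral `a_j := Tr(u d e*_j) = ∑_τ τ(u d e*_j)` is integral over `P` and lies in
`F`, so `a_j ∈ P` (`P` is a UFD, integrally closed), and `d u = ∑ a_j θ_j`. If `v (τ u) ≤ M` for all `τ`
then `v (a_j) ≤ max_τ v (τ u) v (τ (d e*_j)) ≤ C M` with `C = max` (or the sum) of `v (τ (d e*_j))`. -/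
def St_F3 : Prop := ∀ (p r : ℕ) [Fact p.Prime] (G : Type) [Field G] [Algebra (PF p r) G]
  (B : Base p r G),
  ∃ (n : ℕ) (θ : Fin n → G) (d : PR p r) (C : ℝ), d ≠ 0 ∧ (∀ j, Int' p r (θ j)) ∧
    ∀ u : G, Int' p r u → ∃ a : Fin n → PR p r,
      inc p r G d * u = ∑ j, inc p r G (a j) * θ j ∧
      ∀ M : ℝ, (∀ τ : G ≃ₐ[PF p r] G, B.v (τ u) ≤ M) → ∀ j, B.v (inc p r G (a j)) ≤ C * M

/-- [F4] Every `G ^ q`-linear map `φ : G → G`, `q = p ^ s`, is bounded at every place and maps
integral elements to `1/c` times integral elements.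

PROOF. Take `n, θ, d, C` of F3. `φ (w^q u) = w^q φ u`. For `u` integral put `d u = ∑ a_j θ_j`. Decompose
`d^(q-1) a_j = ∑_I b_jI ^ q t^I` (F1), `2 ^ (q deg b_jI) ≤ v(d)^(q-1) v(a_j)` (`= 0` if `b_jI = 0`).
Then `d^q u = ∑_{j,I} b_jI^q t^I θ_j`, so `d^q φ(u) = ∑ b_jI^q φ(t^I θ_j)`.
(a) Integrality: let `c' ∈ P` nonzero with `c' φ(t^I θ_j)` integral for all `I, j`
(every element of `G` is algebraic over `P`), `c = c' d^q`.
(b) For integral `u` with `v (τ u) ≤ M` for all `τ`: `v (τ φ u) ≤ v(d)^(-q) max v(b_jI)^q v(τ φ(t^I θ_j)) ≤ C'' M`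
for all `τ` (note `v (τ b) = v b` for `b ∈ P`).
(c) Every `u ∈ G` is `w / b^q` with `b ∈ P` nonzero and `w` integral (`u = w'/b`, `w = w' b^(q-1)`),
and `φ u = φ w / b^q`, so (b) holds for all `u ∈ G`.
(d) Fix `τ`. Apply F2 to `v_τ'(u) = v (τ' u)`, `t = t_1` (here `0 < r`), and get `e`. For `u ≠ 0` choose
`N` so large that `v_τ'(e)^(qN) v_τ'(u) ≤ v_τ(u)` for all `τ'` with `v_τ' ≠ v_τ`; then all
`v_τ'(e^(qN) u) ≤ v_τ(u)`. By (c) `v_τ(φ u) = v_τ(e^(qN) φ(u)) = v_τ(φ(e^(qN) u)) ≤ C'' v_τ(u)`. -/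
def St_F4 : Prop := ∀ (p r : ℕ) [Fact p.Prime] (_ : 0 < r) (G : Type) [Field G]
  [Algebra (PF p r) G] (B : Base p r G) (s : ℕ) (φ : G →+ G), Lin p s φ →
    (∃ C : ℝ, ∀ (τ : G ≃ₐ[PF p r] G) (u : G), B.v (τ (φ u)) ≤ C * B.v (τ u)) ∧
    ∃ c : G, Int' p r c ∧ c ≠ 0 ∧ ∀ u, Int' p r u → Int' p r (c * φ u)

/-- [F5] `G` is finite over `G ^ q`. PROOF: by F3 and F1 (see the proof of F4, (a) and (c)) the
elements `t^I θ_j / d^q`, or simply `t^I θ_j` (as `d^q` is a `q`-th power), span: for integral `u`,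
`d^q u = ∑ b_jI^q t^I θ_j`, and every element is `w / b^q` with `w` integral. -/
def St_F5 : Prop := ∀ (p r : ℕ) [Fact p.Prime] (G : Type) [Field G] [Algebra (PF p r) G]
  (_ : Base p r G) (s : ℕ), ∃ (n : ℕ) (e : Fin n → G), ∀ u, ∃ a : Fin n → G,
    u = ∑ i, a i ^ p ^ s * e i

/-- [F6] Discreteness.

PROOF. For `b ∈ F` nonzero, `v b` is a power of `2` with integral exponent. Let `n = [G : F]`,
`u ≠ 0` in `G`. The elements `1, u, ..., u^n` are linearly dependent over `F`: `∑ b_i u^i = 0`, not all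
`b_i = 0`. Two nonzero terms have the same maximal absolute value (a sum with a unique maximal term
is not zero; cf. `Pool.Agent.Helper79.DM.two_max`), so `v(b_i) v(u)^i = v(b_j) v(u)^j` with `i < j ≤ n`, and
`v(u)^(j-i) = 2^z`, hence `v(u)^(n!) = 2^z'`. With `ρ = 2^(1/n!)` (real power) `v(u) = ρ^z'`.
Apply this to `τ u`. -/
def St_F6 : Prop := ∀ (p r : ℕ) [Fact p.Prime] (G : Type) [Field G] [Algebra (PF p r) G]
  (B : Base p r G), ∃ ρ : ℝ, 1 < ρ ∧ ∀ (τ : G ≃ₐ[PF p r] G) (u : G), u ≠ 0 →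
    ∃ z : ℤ, B.v (τ u) = ρ ^ z

/-- [F7] Product formula. PROOF: `∏_τ τ u = N(u)` (`Algebra.norm_eq_prod_automorphisms`) is the
image of an element of `F` integral over `P`, i.e. of a nonzero `b ∈ P`, and `v(b) = 2^(deg b) ≥ 1`. -/
def St_F7 : Prop := ∀ (p r : ℕ) [Fact p.Prime] (G : Type) [Field G] [Algebra (PF p r) G]
  (B : Base p r G) [Fintype (G ≃ₐ[PF p r] G)] (u : G), Int' p r u → u ≠ 0 →
    1 ≤ ∏ τ : G ≃ₐ[PF p r] G, B.v (τ u)

/-- [F8] Northcott. PROOF: `u` is a root of `∏_τ (X - τ u)`, whose coefficients are in `F` and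
integral over `P`, so in `P`, of absolute value at most `max(1, M)^n`, i.e. of bounded total degree:
finitely many polynomials (`Pool.Agent.Helper79.DM.finite_totalDegree_le`), each with finitely many
roots. (Compare `Pool.Agent.Helper79.DM.exists_places_aux`.) Alternatively use F3: `d u = ∑ a_j θ_j`
with `a_j` in the finite set of polynomials of degree bounded by `log_2(C max(M,1))`. -/
def St_F8 : Prop := ∀ (p r : ℕ) [Fact p.Prime] (G : Type) [Field G] [Algebra (PF p r) G]
  (B : Base p r G) (M : ℝ), {u : G | Int' p r u ∧ ∀ τ : G ≃ₐ[PF p r] G, B.v (τ u) ≤ M}.Finite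

/-- [F9] Existence of a base containing (a Frobenius twist of) a given finitely generated domain.

PROOF. Let `R' = R[X]` (so that `r > 0` below). Noether normalization
(`exists_finite_inj_algHom_of_fg (ZMod p) R'`, cf. `Pool.Agent.Helper79.DM.exists_places_aux`): an
injective finite `P = F_p[t_1..t_r] → R'`; `r > 0` since `R'` is infinite. `E = Frac R'` is a finite
extension of `F = Frac P`. Let `S = separableClosure F E`; `E / S` is purely inseparable and finite, so
there is `e` with `u ^ (p ^ e) ∈ S` for all `u ∈ E`. Let `G` be a finite Galois extension of `F` containing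
`S` (the normal closure of `S`, or the splitting field of the separable minimal polynomial of a
primitive element of `S`). `ψ : R → R' → E → S → G`, `u ↦ u ^ (p ^ e)`, an injective ring homomorphism,
with integral values (`R'` is finite over `P`).
Absolute value: `Pool.Agent.Helper79.DM.exists_degField p r` gives `P → L`, `L` algebraically closed
ultrametric normed field, with norm `2 ^ deg`; it extends to `F → L` (fraction field) and to `G → L`
(`IsAlgClosed.lift`, `G / F` algebraic); `v` = norm of the image. -/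
def St_F9 : Prop := ∀ (p : ℕ) [Fact p.Prime] (R : Type) [CommRing R] [IsDomain R]
  [Algebra (ZMod p) R] [Algebra.FiniteType (ZMod p) R],
  ∃ (r : ℕ) (_ : 0 < r) (G : Type) (_ : Field G) (_ : Algebra (PF p r) G) (_ : Base p r G)
    (ψ : R →+* G), Function.Injective ψ ∧ ∀ u, Int' p r (ψ u)

/-- [F10] Existence of frames (assembly of F4-F9). `Γ = Gal (G / F)`, `abs τ u = v (τ u)`, `O` = the
integral closure of `P` in `G`. -/
def St_F10 : Prop := ∀ (p : ℕ) [Fact p.Prime] (R : Type) [CommRing R] [IsDomain R]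
  [Algebra (ZMod p) R] [Algebra.FiniteType (ZMod p) R],
  ∃ (K : Type) (_ : Field K) (_ : CharP K p) (Fr : Frame p K) (ψ : R →+* K),
    Function.Injective ψ ∧ (∀ u, ψ u ∈ Fr.O) ∧
    ∀ M : ℝ, {u : R | ∀ τ, Fr.abs τ (ψ u) ≤ M}.Finite

end Pool.Agent.Helper79.DN
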