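import Pool.Agent.Helper79.DN.Defs

/-!
# Statements, block T: a theorem of Roth type in characteristic `p`

`T9`: if `y` is integral and close to elements of the finite set `B ⊆ K`, with
`∏_τ δ_τ ≤ C H(y) ^ (-Θ)` for a fixed `Θ > 1`, then `H(y)` is bounded or at every place either `|y|` is
bounded or `|y|_τ = ρ ^ (A p^s + B)` with `(A, B)` in a finite set.
-/

set_option autoImplicit false

namespace Pool.Agent.Helper79.DN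

open Polynomial

/-- [T1] PROOF. Induction on `n`; `n = 0` is trivial. For `ω = (ω_0, ..., ω_n)` the first `n` members satisfy
`IndCore`, so `Ind s₀` holds for them, hence `Ind s` for all `s ≥ s₀` (`a^(p^s) = (a^(p^(s-s₀)))^(p^s₀)`).
If `Ind s ω` fails for all `s ≥ s₀`: a nontrivial relation of level `s` has nonzero last coefficient, so
`ω_n = ∑_{i<n} c_{s,i}^(p^s) ω_i`. By `Ind s₀` (and additivity of Frobenius:
`x^(p^(s₀+a)) - y^(p^(s₀+b)) = (x^(p^a) - y^(p^b))^(p^s₀)`) the elements `C_i = c_{s,i}^(p^s)` do not depend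
on `s ≥ s₀`; so `C_i` is a `p^s`-th power for all `s` (for `s ≤ s₀` too), i.e. `Core p C_i`, also
`Core p (-C_i)`, and `ω_n - ∑ C_i ω_i = 0` contradicts `IndCore p ω` (the last coefficient is `1`). -/
def St_T1 : Prop := ∀ (p : ℕ) [Fact p.Prime] (K : Type) [Field K] [CharP K p] (n : ℕ)
  (ω : Fin n → K), IndCore p ω → ∃ s, Ind p s ω

/-- [T2] PROOF. Linear algebra over the subfield `k = (iterateFrobenius K p s).fieldRange`, the set of all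
`w ^ (p ^ s)`. `K` is a finite dimensional `k`-vector space (hypothesis), `ω` is linearly
independent over `k`; extend it to a basis, `φ_i`, `χ_j` are the coordinate functionals with respect to the
`ω_i` and to the other basis vectors (with values in `k ⊆ K`). -/
def St_T2 : Prop := ∀ (p : ℕ) [Fact p.Prime] (K : Type) [Field K] [CharP K p] (s n : ℕ)
  (ω : Fin n → K), Ind p s ω →
  (∃ (m : ℕ) (e : Fin m → K), ∀ u, ∃ a : Fin m → K, u = ∑ i, a i ^ p ^ s * e i) →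
  ∃ (M : ℕ) (φ : Fin n → K →+ K) (χ : Fin M → K →+ K), (∀ i, Lin p s (φ i)) ∧
    (∀ j, Lin p s (χ j)) ∧ (∀ i u, ∃ w, φ i u = w ^ p ^ s) ∧
    (∀ i j, φ i (ω j) = if i = j then 1 else 0) ∧ (∀ j i, χ j (ω i) = 0) ∧
    ∀ u, (∀ j, χ j u = 0) → u = ∑ i, φ i u * ω i

/-- [T3] PROOF. The elements with `Core p` form a subfield `k` of `K` (Frobenius is additive). Take a
`k`-basis `ω` of the (finite dimensional) `k`-span of the `β - β₀`, `β ∈ B`. -/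
def St_T3 : Prop := ∀ (p : ℕ) [Fact p.Prime] (K : Type) [Field K] [CharP K p] (B : Finset K)
  (β₀ : K), ∃ (n : ℕ) (ω : Fin n → K), IndCore p ω ∧
    ∀ β ∈ B, ∃ m : Fin n → K, (∀ i, Core p (m i)) ∧ β - β₀ = ∑ i, m i * ω i

/-- [T4] PROOF. If `|u|_τ = ρ^z` and `u = w^(p^s)`, `|w|_τ = ρ^z'`, then `z = p^s z'` (`ρ > 1`); for all `s`,
so `z = 0`. -/
def St_T4 : Prop := ∀ (p : ℕ) [Fact p.Prime] (K : Type) [Field K] (Fr : Frame p K) (u : K),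
  Core p u → u ≠ 0 → ∀ τ, Fr.abs τ u = 1

/-- [T5] First step. PROOF. Let `C ≥ 0`, `c` be as in `Fr.bd` for `χ`. Put `z = χ(y - β₀)`; `c z ∈ O` since
`y - β₀ ∈ O`. If `z ≠ 0` then `1 ≤ ∏ |c z|_τ` (`Fr.prod`). For every `τ` choose `β ∈ B` with
`|y - β|_τ ≤ δ_τ max(1,|y|_τ)`; `z = χ(y - β)` (as `χ(β - β₀) = 0`), so `|z|_τ ≤ C δ_τ max(1, |y|_τ)`. The product
gives `1 ≤ C' (∏ δ_τ) H(y) ≤ C' C₀ H(y)^(1-Θ)` (`C' = ∏ C |c|_τ`; note `H y ≥ 1`, `δ τ ≥ 0`), so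
`H(y) ≤ (C' C₀)^(1/(Θ-1))`. -/
def St_T5 : Prop := ∀ (p : ℕ) [Fact p.Prime] (K : Type) [Field K] [CharP K p] (Fr : Frame p K)
  (s : ℕ) (χ : K →+ K) (_ : Lin p s χ) (B : Finset K) (β₀ : K) (_ : β₀ ∈ Fr.O)
  (_ : ∀ β ∈ B, χ (β - β₀) = 0) (Θ C₀ : ℝ) (_ : 1 < Θ),
  ∃ C₁ : ℝ, ∀ y ∈ Fr.O, ∀ δ : Fr.Γ → ℝ, Close Fr B y δ → (∏ τ, δ τ) * Fr.H y ^ Θ ≤ C₀ →
    Fr.H y ≤ C₁ ∨ χ (y - β₀) = 0

/-- [T6] Second step. PROOF. By T2 for `s = 1`, `n = 1`, `ω = ![1]` (`Ind p 1 ![1]` is clear; `Fr.fd 1`)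
there are finitely many additive `Δ_j : K → K`, linear over `K^p`, with `Δ_j(w^p) = w^p Δ_j(1) = 0` for all
`w`, and `(∀ j, Δ_j(u) = 0) → u = w^p` for some `w` (T2 is a hypothesis of the theorem to prove). Let
`C ≥ 0`, `c` serve for `φ` and all `Δ_j` in `Fr.bd` (product of the `c`'s, maximum or sum of the `C`'s).
Let `φ(y - β₀) = l^Q`, `Q = p^t`, `l` not a `p`-th power. Choose `j` with `z := Δ_j(l) ≠ 0`.
Integrality: `c l^Q ∈ O` (`y - β₀ ∈ O`), so `(c l)^Q = c^(Q-1) (c l^Q) ∈ O` and `c l ∈ O` (`Fr.root`, `t` times).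
Then `c Δ_j((c)^p l) = c^(p+1) Δ_j(l) ∈ O` (`c^p l = c^(p-1) (c l) ∈ O`). So `c₃ z ∈ O` with
`c₃ = c^(p+1)` fixed, nonzero.
Size: for `τ` take `β` as in `Close`; `φ(β - β₀) = m` with `Core p m`, `m = m''^(p^(t+1)) = m'^Q` with
`m' = m''^p`. `(l - m')^Q = l^Q - m = φ(y - β)`, so `|l - m'|_τ^Q ≤ C δ_τ max(1,|y|_τ)` and
`z = Δ_j(l) - Δ_j(m') = Δ_j(l - m')`, `|z|_τ^Q ≤ C^Q C δ_τ max(1,|y|_τ)`. The product over `τ`:
`1 ≤ ∏ |c₃ z|_τ^Q ≤ C₄^Q C₅ (∏ δ_τ) H(y) ≤ C₄^Q C₅ C₀ H(y)^(1-Θ)`, `C₄ = ∏ C |c₃|_τ`, `C₅ = ∏ C`. Hence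
`H(y)^(Θ-1) ≤ (C₄ max(1, C₅ C₀))^Q` and `H(y) ≤ C₁^Q`, `C₁ = max(1, C₄ max(1, C₅ C₀))^(1/(Θ-1))`. -/
def St_T6 : Prop := ∀ (p : ℕ) [Fact p.Prime] (K : Type) [Field K] [CharP K p] (Fr : Frame p K)
  (s : ℕ) (φ : K →+ K) (_ : Lin p s φ) (B : Finset K) (β₀ : K) (_ : β₀ ∈ Fr.O)
  (_ : ∀ β ∈ B, Core p (φ (β - β₀))) (Θ C₀ : ℝ) (_ : 1 < Θ),
  ∃ C₁ : ℝ, 1 ≤ C₁ ∧ ∀ y ∈ Fr.O, ∀ δ : Fr.Γ → ℝ, Close Fr B y δ →
    (∏ τ, δ τ) * Fr.H y ^ Θ ≤ C₀ → ∀ (t : ℕ) (l : K), φ (y - β₀) = l ^ p ^ t →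
      (¬ ∃ w, l = w ^ p) → Fr.H y ≤ C₁ ^ p ^ t

/-- [T9] The theorem of Roth type. PROOF (assembly of T1-T6, done by helper79 if nobody takes it).
If `B` is empty there is no place (`Close`), `H y = 1`. Otherwise fix `β₀ ∈ B`, so `β₀ ∈ O`.
T3: `ω` and the `m`'s. T1: `s` with `Ind p s ω`. T2 (with `Fr.fd s`): `φ_i`, `χ_j`; `χ_j(β - β₀) = 0` and
`φ_i(β - β₀) = m_i` for `β ∈ B` (both are linear over the core, as its elements are `p^s`-th powers).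
Take `C₁` larger than the constants of T5 for all `χ_j`, and let
`C₂ ≥ 1` be the maximum of the constants of T6 for the `φ_i`. Let `y` be as in the statement, `H y > C₁`. Then
`χ_j(y - β₀) = 0` for all `j`, `y = β₀ + ∑ Λ_i ω_i`, `Λ_i = φ_i(y - β₀)`.
If all `Λ_i` are in the core then `|Λ_i|_τ ≤ 1` (T4), so `|y|_τ ≤ C` for all `τ` and `H y ≤ C^N`; excluded by the
choice of `C₁`. Otherwise every `Λ_i` not in the core is `l_i^(p^t_i)` with `l_i` not a `p`-th power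
(`Nat.find`); let `t` be the smallest `t_i`, `Q = p^t`. T6: `H y ≤ C₂^Q`. All `Λ_i` are `Q`-th powers,
`Λ_i = λ_i^Q`. `|Λ_i|_τ ≤ C |y - β₀|_τ ≤ C' H(y)`, so `|λ_i|_τ ≤ C' C₂ =: C₃`.
Let `|y|_τ > C₁ ≥ |β₀|_τ`. Then `|y|_τ = |∑ λ_i^Q ω_i|_τ`. Let `a` be the maximal integer with
`|λ_i|_τ = ρ^a` for some `i`; `ρ^a ≤ C₃` bounds `a` above. `|y|_τ ≤ C ρ^(aQ)`, and
`ρ^(aQ) = |λ_i^Q|_τ = |φ_i(y - β₀)|_τ ≤ C |y|_τ`. As `|y|_τ = ρ^z`, `z - aQ` is in a fixed finite interval; if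
`C₁` is large (`> C`) then `ρ^(aQ) > 1`, `a > 0`. So `(a, z - aQ)` is in a finite set. -/
def St_T9 : Prop := ∀ (p : ℕ) [Fact p.Prime] (K : Type) [Field K] [CharP K p] (Fr : Frame p K)
  (B : Finset K) (_ : ∀ β ∈ B, β ∈ Fr.O) (Θ C₀ : ℝ) (_ : 1 < Θ),
  ∃ (C₁ : ℝ) (A : Finset (ℤ × ℤ)), (∀ q ∈ A, 0 < q.1) ∧
    ∀ y ∈ Fr.O, ∀ δ : Fr.Γ → ℝ, Close Fr B y δ → (∏ τ, δ τ) * Fr.H y ^ Θ ≤ C₀ →
      Fr.H y ≤ C₁ ∨ ∀ τ, Fr.abs τ y ≤ C₁ ∨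
        ∃ s : ℕ, ∃ q ∈ A, Fr.abs τ y = Fr.ρ ^ (q.1 * (p : ℤ) ^ s + q.2)

end Pool.Agent.Helper79.DN
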