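import Pool.Agent.Helper79.DN.StC

/-!
# Statements, block W: the local theorem for maps which are not tame

`L` is an algebraically closed complete nonarchimedean field of characteristic `p`, `f, g` are monic of degree
`d = q m`, `q = p ^ e`, `m ≥ 2`, `p ∤ m`. `φ` is the Boettcher coordinate near infinity, `φ (f x) = φ x ^ d`; it is
continuous but in general not analytic and not injective.
-/

set_option autoImplicit false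

namespace Pool.Agent.Helper79.DN

open Polynomial Pool.Agent.Helper79.DM Pool.Agent.Helper11.SP

section

variable {L : Type*} [NormedField L]

/-- `φ` is a Boettcher coordinate of `f` near infinity. -/
def IsPhi (d : ℕ) (f : L[X]) (φ : L → L) (R c : ℝ) : Prop :=
  1 < R ∧ 0 < c ∧ (∀ x, R < ‖x‖ → ‖f.eval x‖ = ‖x‖ ^ d ∧ φ (f.eval x) = φ x ^ d ∧
    ‖φ x / x - 1‖ ≤ ‖x‖ ^ (-c)) ∧ ∀ x, ‖x‖ ≤ R → ‖f.eval x‖ ≤ R ^ d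

/-- The roots of `P (x, Y)`. -/
noncomputable def rts (P : L[X][X]) (x : L) : Multiset L := (P.map (evalRingHom x)).roots

/-- The pair `(x, y)` is flat. -/
def Flat (φ ψ : L → L) (R : ℝ) (A B : ℕ) (x y : L) : Prop := R < ‖y‖ ∧ ψ y ^ A = φ x ^ B

open Classical in
/-- The number of flat roots. -/
noncomputable def fc (P : L[X][X]) (φ ψ : L → L) (R : ℝ) (A B : ℕ) (x : L) : ℕ :=
  (rts P x).countP (Flat φ ψ R A B x)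

/-- The relation `ψ y ^ a = φ x ^ b` holds on the curve near the point `(x₀, y₀)`. -/
def LocFlat (P : L[X][X]) (φ ψ : L → L) (a b : ℕ) (x₀ y₀ : L) : Prop :=
  ∃ ε : ℝ, 0 < ε ∧ ∀ x y, ‖x - x₀‖ < ε → ‖y - y₀‖ < ε → ev x y P = 0 → ψ y ^ a = φ x ^ b

/-- `g^N (y) ^ a - f^N (x) ^ b` -/
noncomputable def zz (f g : L[X]) (a b N : ℕ) (x y : L) : L := orb g y N ^ a - orb f x N ^ b

end

/-- Powers of elements close to one. -/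
theorem unit_pow {p : ℕ} [Fact p.Prime] {L : Type*} [NormedField L] [IsUltrametricDist L]
    [CharP L p] (e m : ℕ) (hm : ¬ p ∣ m) {v : L} (hv : ‖v - 1‖ < 1) (k : ℕ) :
    ‖v ^ (p ^ e * m) ^ k - 1‖ = ‖v - 1‖ ^ (p ^ e) ^ k := by
  have hpp : p.Prime := Fact.out
  have h1 : v ^ (p ^ e * m) ^ k - 1 = (v ^ m ^ k - 1) ^ p ^ (e * k) := by
    rw [sub_pow_char_pow, one_pow, ← pow_mul]
    congr 2
    rw [mul_pow, ← pow_mul, mul_comm]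
  rw [h1, norm_pow, close_pow_prime p hv (m ^ k) fun h => hm (hpp.dvd_of_dvd_pow h), pow_mul]

/-- [W0] The resultant. PROOF. See `Helper11.SP.resultant_ne` (`P` stays irreducible over the fraction field
`F` of `L[X]`, `P ∤ E` there, so they are coprime: `A' P + B' E = 1` in `F[Y]`; clear the denominators) or use the
resultant. -/
def St_W0 : Prop := ∀ (L : Type) [Field L] (P E : L[X][X]), Irreducible P → 0 < P.natDegree →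
  ¬ P ∣ E → ∃ (ρ : L[X]) (A B : L[X][X]), ρ ≠ 0 ∧ A * P + B * E = C ρ

/-- [W1] Existence of the Boettcher coordinate.

PROOF. `q = p^e`, `d = q m`. Let `M ≥ 1` be a bound for the norms of the coefficients of `f`. `R > 1`, `R ≥ M^2`. For
`‖x‖ > R`: `f x / x^d = 1 + ε(x)`, `‖ε(x)‖ ≤ M / ‖x‖ ≤ ‖x‖^(-1/2) < 1`, so `‖f x‖ = ‖x‖^d ≥ ‖x‖`. For `‖x‖ ≤ R`:
`‖f x‖ ≤ max(R^d, M R^(d-1)) ≤ R^d`.
(a) `unit_pow`: `‖v^(d^N) - 1‖ = ‖v - 1‖^(q^N)` if `‖v - 1‖ < 1`. So `v^(d^N) = 1`, `‖v - 1‖ < 1` imply `v = 1`. If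
`‖u - 1‖ < 1` there is `v` with `v^(d^N) = u`, `‖v - 1‖ < 1`: `X^(d^N) - u = ∏ (X - v_i)`, evaluate at `1`:
`∏ ‖1 - v_i‖ = ‖1 - u‖ < 1`.
(b) For `‖x‖ > R`: `‖f^N x / x^(d^N) - 1‖ < 1` (induction), hence there is a unique `φ_N(x)` with
`φ_N(x)^(d^N) = f^N x`, `‖φ_N(x) / x - 1‖ < 1`.
(c) `‖φ_(N+1)(x)/φ_N(x) - 1‖^(q^(N+1)) = ‖f^(N+1) x / (f^N x)^d - 1‖ = ‖ε(f^N x)‖ ≤ ‖x‖^(-d^N/2)`, so
`‖φ_(N+1)(x)/φ_N(x) - 1‖ ≤ ‖x‖^(-m^N/(2q))`: Cauchy (ultrametric, `‖φ_N(x)‖ = ‖x‖`), with limit `φ(x)`,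
`‖φ(x)/x - 1‖ ≤ ‖x‖^(-1/(2q))`; `c = 1/(2q)`. Put `φ(x) = 0` if `‖x‖ ≤ R`.
(d) `φ_(N+1)(x)^d = φ_N(f x)` by the uniqueness in (b); let `N → ∞`. -/
def St_W1 : Prop := ∀ (p : ℕ) [Fact p.Prime] (L : Type) [NormedField L] [IsUltrametricDist L]
  [CompleteSpace L] [IsAlgClosed L] [CharP L p] (e m : ℕ) (_ : 2 ≤ m) (_ : ¬ p ∣ m) (f : L[X])
  (_ : f.Monic) (_ : f.natDegree = p ^ e * m), ∃ (φ : L → L) (R c : ℝ), IsPhi (p ^ e * m) f φ R c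

/-- [W2] First properties of the Boettcher coordinate.

PROOF. (1) `‖φ x / x - 1‖ ≤ ‖x‖^(-c) < 1` gives `‖φ x‖ = ‖x‖`; induction on `N` (`‖x‖^(d^N) > R` stays true, as
`d ≥ 1`, `R > 1`); the last inequality is the one for `orb f x N` instead of `x`.
(2) Induction: if `‖x_N‖ ≤ R` then `‖x_(N+1)‖ ≤ R^d ≤ R^(d^(N+1))`; if `‖x_N‖ > R` then
`‖x_(N+1)‖ = ‖x_N‖^d ≤ R^(d^N d)`. -/
def St_W2 : Prop := ∀ (L : Type) [NormedField L] [IsUltrametricDist L] (d : ℕ) (_ : 1 ≤ d)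
  (f : L[X]) (φ : L → L) (R c : ℝ) (_ : IsPhi d f φ R c),
  (∀ x, R < ‖x‖ → ‖φ x‖ = ‖x‖ ∧ ∀ N, ‖orb f x N‖ = ‖x‖ ^ d ^ N ∧
    φ (orb f x N) = φ x ^ d ^ N ∧
    ‖φ x ^ d ^ N / orb f x N - 1‖ ≤ ‖x‖ ^ (-(c * (d : ℝ) ^ N))) ∧
  ∀ x, ‖x‖ ≤ R → ∀ N, ‖orb f x N‖ ≤ R ^ d ^ N

/-- [W3] Continuity of the Boettcher coordinate (use W2).

PROOF. `q = p^e`. Let `‖x‖ > R`, `0 < ε < 1`. For `x'` near `x`: `‖x'‖ = ‖x‖`, `‖x'/x - 1‖ < 1` so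
`v = φ x' / φ x = (φ x'/x') (x'/x) (x/φ x)` satisfies `‖v - 1‖ < 1`, and `‖v - 1‖^(q^N) = ‖v^(d^N) - 1‖` (`unit_pow`),
`v^(d^N) = (φ x'^(d^N)/f^N x') (f^N x'/f^N x) (f^N x/φ x^(d^N))`, so
`‖v - 1‖^(q^N) ≤ max(‖x‖^(-c d^N), ‖f^N x'/f^N x - 1‖)`. Choose `N` with `‖x‖^(-c d^N) ≤ ε^(q^N)` (possible since
`d^N/q^N = m^N → ∞`), and then use the continuity of the polynomial function `f^N` at `x`. -/
def St_W3 : Prop := ∀ (p : ℕ) [Fact p.Prime] (L : Type) [NormedField L] [IsUltrametricDist L]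
  [CharP L p] (e m : ℕ) (_ : 2 ≤ m) (_ : ¬ p ∣ m) (f : L[X]) (φ : L → L) (R c : ℝ)
  (_ : IsPhi (p ^ e * m) f φ R c), ∀ x, R < ‖x‖ → ContinuousAt φ x

/-- [W4] First consequence of infinitely many returns (use W2).

PROOF. `x_n = orb f x n`, `y_n = orb g y n`, `‖x_n‖ = ‖x‖^(d^n)` etc. `ratio` (DM/F2, with `X = ‖x‖`, `Y = ‖y‖`) gives
`a, b` with `‖y‖^a = ‖x‖^b`. Let `K` be the maximum of `a m 0 + b m 1` on the support of `h`, `T_n^a = x_n`,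
`w_n = y_n / T_n^b`, `‖w_n‖ = 1`. `lead_est` (with `M = 1`, `x = T^a`, `y = w T^b` exactly):
`‖T_n‖ ‖leadP(w_n)‖ ≤ C₁` on the return set `S`, `‖T_n‖ = ‖x‖^(d^n/a)`, `leadP ≠ 0` (`leadP_ne_zero`). As in the proof
of `root_limit` (DM/F3) there are `r` and an infinite `S' ⊆ S` with `‖lc‖ ‖w_n - r‖^D ≤ ‖leadP(w_n)‖`, `D` the number of
roots, on `S'`; `D = 0` is impossible (`S'` infinite). So `‖w_n - r‖ ≤ C₂ τ^(d^n)`, `0 < τ < 1`. `w_n^a = y_n^a/x_n^b`,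
`‖w_n^a - r^a‖ ≤ C₃ τ^(d^n)`, and `(φ-values) (ψ y^a/φ x^b)^(d^n) = (y_n^a/x_n^b) (1+α)^a/(1+β)^b` with
`‖α‖ ≤ ‖y‖^(-c d^n)`, `‖β‖ ≤ ‖x‖^(-c d^n)`. Take `w = r^a`. -/
def St_W4 : Prop := ∀ (L : Type) [NormedField L] [IsUltrametricDist L] [IsAlgClosed L] (d : ℕ)
  (_ : 2 ≤ d) (f g : L[X]) (φ ψ : L → L) (R c : ℝ) (_ : IsPhi d f φ R c) (_ : IsPhi d g ψ R c)
  (x y : L) (_ : R < ‖x‖) (_ : R < ‖y‖) (h : MvPolynomial (Fin 2) L) (_ : h ≠ 0)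
  (_ : (ret f g x y h).Infinite), ∃ (a b : ℕ) (w : L) (C θ : ℝ) (S' : Set ℕ), 0 < a ∧ 0 < b ∧
    0 < θ ∧ θ < 1 ∧ ‖ψ y‖ ^ a = ‖φ x‖ ^ b ∧ S'.Infinite ∧
    ∀ n ∈ S', ‖(ψ y ^ a / φ x ^ b) ^ d ^ n - w‖ ≤ C * θ ^ d ^ n

/-- [W5] PROOF. `q = p^e`, `d = q m`. For one large `n ∈ S` the distance is `< 1`, so `‖w‖ = 1`. Remove the small elements from
`S`: `u^(d^n) = w (1 + δ_n)`, `‖δ_n‖ ≤ C θ^(d^n) < 1`. For `n < n'` in `S`, `k = n' - n`: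
`w^(d^k - 1) = (1 + δ_n') / (1 + δ_n)^(d^k)` (*), so `‖w^(d^k-1) - 1‖ ≤ max(‖δ_n'‖, ‖δ_n‖) < 1`. Fix one such pair,
`D₀ = d^(k₀) - 1 ≥ 1`, `w^D₀ = 1 + ω`, `‖ω‖ < 1`. For every pair, `D' = d^k - 1` is prime to `p` (`p ∣ d`),
`‖(w^D₀)^D' - 1‖ = ‖ω‖` (`close_pow_prime`) and `‖(w^D')^D₀ - 1‖ ≤ ‖w^D' - 1‖ ≤ max(‖δ_n'‖, ‖δ_n‖)` (`close_one_pow`),
arbitrarily small: `ω = 0`, `w^D₀ = 1`. Then `‖w^D' - 1‖ = ‖(w^D')^D₀ - 1‖ = 0` for every pair and (*) gives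
`1 + δ_n' = (1 + δ_n)^(d^k)`, `‖δ_n'‖ = ‖δ_n‖^(q^k)` (`unit_pow`). Fix `n`. If `δ_n ≠ 0` then
`‖δ_n‖^(q^k) ≤ C θ^(d^n q^k m^k)` for infinitely many `k`: impossible since `m ≥ 2`. So `u^(d^n) = w`,
`u^(d^n D₀) = 1`. -/
def St_W5 : Prop := ∀ (p : ℕ) [Fact p.Prime] (L : Type) [NormedField L] [IsUltrametricDist L]
  [CharP L p] (e m : ℕ) (_ : 1 ≤ e) (_ : 2 ≤ m) (_ : ¬ p ∣ m) (u w : L) (_ : ‖u‖ = 1) (C θ : ℝ)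
  (_ : 0 < θ) (_ : θ < 1) (S : Set ℕ) (_ : S.Infinite)
  (_ : ∀ n ∈ S, ‖u ^ (p ^ e * m) ^ n - w‖ ≤ C * θ ^ (p ^ e * m) ^ n), ∃ D : ℕ, 0 < D ∧ u ^ D = 1

/-- [W6] The points of the curve on an edge.

PROOF. `h = (toP L).symm P`, `ev_toP`. Let `K` be the maximum of `a m 0 + b m 1` on the support of `h` (`≠ 0`),
`leadP h a b K ≠ 0` (`leadP_ne_zero`). For `(x, y)` as in the statement choose `T^a = x`, `w₀ = y / T^b`, `‖w₀‖ = 1`.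
`lead_est` (`M = 1`): `‖leadP(w₀)‖ ≤ C / ‖T‖`, `leadP = lc ∏ (X - r_i)` (`D` roots), so for one `i`
`‖w₀ - r_i‖^D ≤ C/(‖lc‖ ‖T‖) < 1` for large `‖x‖` (and `D ≠ 0`). So `‖r_i‖ = 1`, `‖w₀^a - r_i^a‖ < 1`,
`w₀^a = y^a/x^b`. `W` = the set of the `r_i^a` with `‖r_i‖ = 1`. -/
def St_W6 : Prop := ∀ (L : Type) [NormedField L] [IsUltrametricDist L] [IsAlgClosed L] (a b : ℕ)
  (_ : 0 < a) (_ : 0 < b) (P : L[X][X]) (_ : P ≠ 0), ∃ (W : Finset L) (R₀ : ℝ), ∀ x y : L,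
    R₀ < ‖x‖ → ‖y‖ ^ a = ‖x‖ ^ b → ev x y P = 0 → ∃ w ∈ W, ‖w‖ = 1 ∧ ‖y ^ a / x ^ b - w‖ < 1

/-- [W7] The Gauss norm of `P (x, Y)` with radius `‖x‖ ^ (b / a)`.

PROOF. `P (x, Y) = lc(x) ∏ (Y - y_i)`, `P = ∑ P_j Y^j`. Multiplicativity of the Gauss norm with radius `σ = ‖x‖^(b/a)`:
`‖lc(x)‖ ∏ max(‖y_i‖, σ) = max_j ‖P_j(x)‖ σ^j`; take the `a`-th power:
`‖lc(x)‖^a ∏ max(‖y_i‖^a, ‖x‖^b) = max_j ‖P_j(x)‖^a ‖x‖^(b j)`. For large `‖x‖` and `P_j ≠ 0`,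
`‖P_j(x)‖ = ‖lc P_j‖ ‖x‖^(deg P_j)`. So the right side is the maximum of finitely many `c_j ‖x‖^(a deg P_j + b j)`,
`c_j > 0`, which for large `‖x‖` is `C ‖x‖^κ`, `κ` the largest exponent and `C` the largest `c_j` among
those with this exponent. (`Polynomial.gaussNorm` is in Mathlib; or prove the upper bound for the coefficients by induction and the
lower bound by choosing the right coefficient.) -/
def St_W7 : Prop := ∀ (L : Type) [NormedField L] [IsUltrametricDist L] [IsAlgClosed L] (a b : ℕ)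
  (_ : 0 < a) (_ : 0 < b) (P : L[X][X]) (_ : P ≠ 0), ∃ (C R₀ : ℝ) (κ : ℕ), 0 < C ∧
    ∀ x : L, R₀ < ‖x‖ → P.leadingCoeff.eval x ≠ 0 ∧
      ‖P.leadingCoeff.eval x‖ ^ a * ((rts P x).map fun y => max (‖y‖ ^ a) (‖x‖ ^ b)).prod =
        C * ‖x‖ ^ κ

/-- [W8] Symmetric functions of the roots.

PROOF. Consider, over the ring `L[X][T]`, the resultant (with respect to `Y`, with the formal degrees
`P.natDegree` and `E`) of `P` and `T - G`. It is a polynomial in `T` with coefficients in `L[X]`; at `x` with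
`lc(x) ≠ 0` it becomes `lc(x)^E ∏ (T - G(x, y_i))` (`resultant_map_map`; the degree of `P` does not drop; resultant
of a split polynomial), whose coefficient of `T^(D-j)`, `D = P.natDegree`, is `(-1)^j lc(x)^E e_j(G(x, y_i))`. For
`j > D` take `Q = 0`. -/
def St_W8 : Prop := ∀ (L : Type) [NormedField L] [IsAlgClosed L] (P G : L[X][X]) (_ : P ≠ 0)
  (E : ℕ) (_ : G.natDegree ≤ E) (j : ℕ), ∃ Q : L[X], ∀ x, P.leadingCoeff.eval x ≠ 0 →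
    Q.eval x = P.leadingCoeff.eval x ^ E * ((rts P x).map fun y => ev x y G).esymm j

/-- [W9] A Schwarz lemma at infinity.

PROOF. `0 ≤ M` (take `x = x₁`). `Q = 0` is clear. `Q ≠ 0`, `n = Q.natDegree`: for large `‖x‖`, `‖Q x‖ = ‖lc‖ ‖x‖^n`, so
the second hypothesis gives `n ≤ δ`. Claim: `‖Q_i‖ ‖x₁‖^i ≤ M` for all `i`. Then for `‖x‖ ≥ ‖x₁‖`:
`‖Q x‖ ≤ max_(i ≤ n) ‖Q_i‖ ‖x‖^i ≤ max_i M (‖x‖/‖x₁‖)^i ≤ M (‖x‖/‖x₁‖)^δ`.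
Claim: put `Q̃(z) = Q(x₁ z)`. `L` contains an algebraic closure of the field with `p` elements: there are
`n + 1` elements `ζ_0, ..., ζ_n` of norm one (roots of `X^(p^k - 1) - 1`) whose differences have norm one (also roots
of unity). By Lagrange interpolation `Q̃ = ∑ Q̃(ζ_i) ∏_(j≠i) (X - ζ_j)/(ζ_i - ζ_j)`, so all coefficients of `Q̃` have
norm at most `max_i ‖Q̃(ζ_i)‖ ≤ M`. -/
def St_W9 : Prop := ∀ (p : ℕ) [Fact p.Prime] (L : Type) [NormedField L] [IsUltrametricDist L]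
  [IsAlgClosed L] [CharP L p] (Q : L[X]) (x₁ : L) (_ : 1 < ‖x₁‖) (M A δ : ℝ)
  (_ : ∀ x, ‖x‖ = ‖x₁‖ → ‖Q.eval x‖ ≤ M)
  (_ : ∀ B : ℝ, ∃ x, B < ‖x‖ ∧ ‖Q.eval x‖ ≤ A * ‖x‖ ^ δ),
  ∀ x, ‖x₁‖ ≤ ‖x‖ → ‖Q.eval x‖ ≤ M * (‖x‖ / ‖x₁‖) ^ δ

/-- [W10] Upper bound for symmetric functions.

PROOF. `esymm j` is the sum over the sub-multisets `t ≤ s` of cardinality `j` (`powersetCard`) of `∏_t z`.
`‖∏_t z‖ ≤ (∏_t B) ε^(countP F t)`, `countP F t ≥ countP F s - k`, and `(∏_t B) β^k ≤ ∏_s B` because `s - t` has `k`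
elements, all with `B ≥ β`. Ultrametric inequality. -/
def St_W10 : Prop := ∀ (L : Type) [NormedField L] [IsUltrametricDist L] (α : Type)
  (s : Multiset α) (z : α → L) (B : α → ℝ) (β ε : ℝ) (_ : 0 < β) (_ : 0 ≤ ε) (_ : ε ≤ 1)
  (F : α → Prop) [DecidablePred F] (_ : ∀ y ∈ s, β ≤ B y ∧ ‖z y‖ ≤ B y)
  (_ : ∀ y ∈ s, F y → B y = β ∧ ‖z y‖ ≤ ε * β) (j k : ℕ) (_ : j + k = Multiset.card s),
  ‖(s.map z).esymm j‖ * β ^ k ≤ (s.map B).prod * ε ^ (s.countP F - k)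

/-- [W11] The dominant term of a symmetric function.

PROOF. `s = s₁ + s₂`, `s₁` = elements with `F`, `s₂` = the others, `k = card s₁`, `j = card s₂`.
`e_j(s) = ∑_i e_i(s₁) e_(j-i)(s₂)` (product of the polynomials `∏ (X + z)`). The term `i = 0` is `∏_(s₂) z`. For `i ≥ 1`
(and `s₁` not empty) `‖e_i(s₁)‖ ≤ u^i`, `u` the maximum on `s₁`, `‖e_(j-i)(s₂)‖ v^i ≤ ∏_(s₂) ‖z‖`, `v > u` the minimum on `s₂`
(`v > 0`): strictly smaller. -/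
def St_W11 : Prop := ∀ (L : Type) [NormedField L] [IsUltrametricDist L] (α : Type)
  (s : Multiset α) (z : α → L) (F : α → Prop) [DecidablePred F]
  (_ : ∀ y ∈ s, ¬ F y → z y ≠ 0 ∧ ∀ y' ∈ s, F y' → ‖z y'‖ < ‖z y‖) (j : ℕ)
  (_ : j + s.countP F = Multiset.card s),
  ‖(s.map z).esymm j‖ = ((s.filter fun y => ¬ F y).map fun y => ‖z y‖).prod

/-- [W12] Flat and not flat roots (use W2, W6). `z_N = zz f g a b N x y`.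

PROOF. `q = p^e`. `W, R₀'` from W6. For `w ∈ W` with `‖w‖ = 1`: if `‖w^(d^N) - 1‖ < 1` for one `N` then this holds for all larger ones.
Choose `N₀` such that it holds for `N₀` if it holds for some `N`, for all `w ∈ W`. `R₀ ≥ R^a, R, R₀'`, `c' = c min(1, b/a)`.
Let `‖x‖ > R₀`, so `‖x‖^b > R^a`.
(1) Upper bound: `‖f^N x‖ = ‖x‖^(d^N)`, `‖g^N y‖ ≤ max(‖y‖, R)^(d^N)`.
(2) If `‖y‖ ≤ R`: not flat and `‖g^N(y)^a‖ ≤ R^(a d^N) < ‖x‖^(b d^N)`, so `‖z_N‖ = ‖x‖^(b d^N)`, and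
`‖y‖^a ≤ ‖x‖^b`; `η = 1`.
(3) If `‖y‖ > R`, `‖y‖^a ≠ ‖x‖^b`: `‖z_N‖` = the maximum; not flat since `‖ψ y‖ = ‖y‖`; `η = 1`.
(4) `‖y‖ > R`, `‖y‖^a = ‖x‖^b`: `V = ψ(y)^a/φ(x)^b`, `‖V‖ = 1`, `z_N = f^N(x)^b (V^(d^N) (1 + δ) - 1)`,
`‖δ‖ ≤ max(‖x‖^(-c d^N), ‖y‖^(-c d^N)) ≤ ‖x‖^(-c' d^N)`. Flat means `V^(d^N₀) = 1`, and then for `N ≥ N₀`
`‖z_N‖ ≤ ‖x‖^(b d^N) ‖x‖^(-c' d^N)`. Let `(x, y)` be not flat. `V` and `y^a/x^b` have distance `< 1`, so there is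
`w ∈ W` with `‖V - w‖ < 1`. If `‖w^(d^N) - 1‖ = 1` for all `N` then `‖V^(d^N) - 1‖ = 1` for all `N` and `‖z_N‖ = ‖x‖^(b d^N)`.
Otherwise `‖w^(d^N₀) - 1‖ < 1`, `‖V^(d^N₀) - 1‖ =: η < 1`, `η > 0`, and `‖V^(d^N) - 1‖ = η^(q^(N-N₀)) ≥ η^(q^N)` for
`N ≥ N₀` (`unit_pow`), which is `> ‖x‖^(-c' d^N)` for large `N`; so `‖z_N‖ = ‖x‖^(b d^N) ‖V^(d^N) - 1‖`. -/
def St_W12 : Prop := ∀ (p : ℕ) [Fact p.Prime] (L : Type) [NormedField L] [IsUltrametricDist L]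
  [IsAlgClosed L] [CharP L p] (e m : ℕ) (_ : 2 ≤ m) (_ : ¬ p ∣ m) (f g : L[X]) (φ ψ : L → L)
  (R c : ℝ) (_ : IsPhi (p ^ e * m) f φ R c) (_ : IsPhi (p ^ e * m) g ψ R c) (a b : ℕ)
  (_ : 0 < a) (_ : 0 < b) (P : L[X][X]) (_ : P ≠ 0), ∃ (N₀ : ℕ) (R₀ c' : ℝ), R ≤ R₀ ∧ 0 < c' ∧
    ∀ x y : L, R₀ < ‖x‖ → ev x y P = 0 →
      (∀ N, ‖zz f g a b N x y‖ ≤ max (‖y‖ ^ a) (‖x‖ ^ b) ^ (p ^ e * m) ^ N) ∧
      (Flat φ ψ R (a * (p ^ e * m) ^ N₀) (b * (p ^ e * m) ^ N₀) x y → ‖y‖ ^ a = ‖x‖ ^ b ∧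
        ∀ N, N₀ ≤ N → ‖zz f g a b N x y‖ ≤
          ‖x‖ ^ (-(c' * ((p ^ e * m : ℕ) : ℝ) ^ N)) * (‖x‖ ^ b) ^ (p ^ e * m) ^ N) ∧
      (¬ Flat φ ψ R (a * (p ^ e * m) ^ N₀) (b * (p ^ e * m) ^ N₀) x y →
        ∃ (η : ℝ) (N₁ : ℕ), 0 < η ∧ η ≤ 1 ∧ ∀ N, N₁ ≤ N →
          η ^ (p ^ e) ^ N * max (‖y‖ ^ a) (‖x‖ ^ b) ^ (p ^ e * m) ^ N ≤ ‖zz f g a b N x y‖)

/-- [W13] The number of flat roots (use W7, W8, W9, W10, W11, W12).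

PROOF. `d = p^e m`, `q = p^e`, `D = P.natDegree`. `N₀, R₀, c'` from W12, `C, κ` from W7 (increase `R₀ ≥ 1`). Choose `x₁` with
`‖x₁‖ > R₀` and put `R₁ = ‖x₁‖`; this is the `R₀` of the statement. Let `r` satisfy the hypothesis, `‖x‖ > R₁`, `k = fc(x)`, and
suppose `k < r`. Note `r ≤ D` and `card (rts P t) = D` for `‖t‖ > R₀`. `j = D - k`. Let `N ≥ N₀` be large. Let `Q` be the
polynomial of W8 for `E = a d^N`, `G = ((itc g N).map C)^a - C ((itc f N)^b)` (`ev t y G = zz f g a b N t y`, `g` is monic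
of degree `d`).
(i) For `‖t‖ > R₀`, W10 with `B y = max(‖y‖^a, ‖t‖^b)^(d^N)`, `β = ‖t‖^(b d^N)`, `F = False`, and W7:
`‖Q t‖ ≤ (C ‖t‖^κ)^(d^N) / ‖t‖^(b k d^N)`. On the circle `‖t‖ = ‖x₁‖` this is `M`.
(ii) If `fc(t) ≥ r` and `‖t‖ > R₀`, W10 with `F = Flat`, `ε = ‖t‖^(-c' d^N)`:
`‖Q t‖ ≤ (C ‖t‖^κ)^(d^N) / ‖t‖^(b k d^N) ‖t‖^(-c' d^N (r-k)) = C^(d^N) ‖t‖^δ`, `δ = (κ - b k - c' (r - k)) d^N`.
(iii) W9: `‖Q x‖ ≤ M (‖x‖/‖x₁‖)^δ = (C ‖x‖^(κ - b k))^(d^N) (‖x₁‖/‖x‖)^(c' (r-k) d^N)`, and `r - k ≥ 1`.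
(iv) W12 for the finitely many roots of `P (x, Y)`: one `η` and one `N₁` for all roots which are not flat. For large `N`,
`‖x‖^(-c' d^N) < η^(q^N)` (`m ≥ 2`), so W11 applies: `‖e_j‖ = ∏_(not flat) ‖z_y‖ ≥ η^(j q^N) ∏_(not flat) B y`, and
`∏_s B = β^k ∏_(not flat) B`; so `‖Q x‖ ≥ (C ‖x‖^κ)^(d^N) / ‖x‖^(b k d^N) η^(j q^N)`.
(v) So `η^(j q^N) ≤ ((‖x₁‖/‖x‖)^c')^(d^N)` for all large `N`: impossible since `m ≥ 2`. -/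
def St_W13 : Prop := ∀ (p : ℕ) [Fact p.Prime] (L : Type) [NormedField L] [IsUltrametricDist L]
  [IsAlgClosed L] [CharP L p] (_ : ∀ B : ℝ, ∃ z : L, B < ‖z‖) (e m : ℕ) (_ : 2 ≤ m)
  (_ : ¬ p ∣ m) (f g : L[X])
  (_ : f.Monic) (_ : f.natDegree = p ^ e * m) (_ : g.Monic) (_ : g.natDegree = p ^ e * m)
  (φ ψ : L → L) (R c : ℝ) (_ : IsPhi (p ^ e * m) f φ R c) (_ : IsPhi (p ^ e * m) g ψ R c)
  (a b : ℕ) (_ : 0 < a) (_ : 0 < b) (P : L[X][X]) (_ : P ≠ 0), ∃ (N₀ : ℕ) (R₀ : ℝ), ∀ r : ℕ,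
    (∀ B : ℝ, ∃ x, B < ‖x‖ ∧
      r ≤ fc P φ ψ R (a * (p ^ e * m) ^ N₀) (b * (p ^ e * m) ^ N₀) x) →
    ∀ x, R₀ < ‖x‖ → r ≤ fc P φ ψ R (a * (p ^ e * m) ^ N₀) (b * (p ^ e * m) ^ N₀) x

/-- [W14] Simple points of the curve.

PROOF. (1) `(x, y) ↦ ev x y Q` is continuous for every `Q`. `P (x, y) - P (x, y') = (y - y') H(x, y, y')`, `H` a polynomial in
three variables (continuous) with `H(x₀, y₀, y₀) = P_Y(x₀, y₀) ≠ 0`, so near this point `‖H‖ = ‖P_Y(x₀, y₀)‖`.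
(2) For `x` near `x₀`: `u = ‖P (x, y₀)‖` is small, `‖P_Y (x, y₀)‖ = ‖P_Y(x₀, y₀)‖ =: v > 0` (so `P (x, Y)` is not constant).
`P (x, Y) = l ∏ (Y - y_i)`, derivative at `y₀`: `P_Y(x, y₀) = l ∑_i ∏_(j≠i) (y₀ - y_j)`, so for one `i`
`v ≤ ‖l ∏_(j≠i) (y₀ - y_j)‖` and `‖y₀ - y_i‖ v ≤ u`. -/
def St_W14 : Prop := ∀ (L : Type) [NormedField L] [IsUltrametricDist L] [IsAlgClosed L]
  (P : L[X][X]) (x₀ y₀ : L) (_ : ev x₀ y₀ P = 0) (_ : ev x₀ y₀ (derivative P) ≠ 0),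
  (∃ ε : ℝ, 0 < ε ∧ ∀ x y y', ‖x - x₀‖ < ε → ‖y - y₀‖ < ε → ‖y' - y₀‖ < ε →
    ev x y (derivative P) ≠ 0 ∧
    ‖ev x y P - ev x y' P‖ = ‖y - y'‖ * ‖ev x₀ y₀ (derivative P)‖) ∧
  ∀ δ : ℝ, 0 < δ → ∃ ε : ℝ, 0 < ε ∧ ∀ x, ‖x - x₀‖ < ε → ∃ y, ‖y - y₀‖ < δ ∧ ev x y P = 0

/-- [W15] The relation near a point where the number of flat roots is minimal (use W14).

PROOF. `A = a D'`, `B = b D'`. Let `y_1, ..., y_D` be the (simple) roots of `P (x₀, Y)`, `D = P.natDegree`, `0 < δ ≤ R` smaller than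
the distances of the `y_i`. (a) By W14 (1) (for small `δ`, `x` near `x₀`) `P (x, Y)` has at most one root in the ball
`‖y - y_i‖ < δ`, and it is simple. (b) For `x` near `x₀` every root `y` of `P (x, Y)` is in one of these balls:
`‖lc(x)‖ = ‖lc(x₀)‖`, so `‖y‖ ≤ C` uniformly, and `‖lc(x₀)‖ ∏ ‖y - y_i‖ = ‖P (x₀, y) - P (x, y)‖ ≤ C' ‖x - x₀‖`. (c) For small
`δ` and `x` near `x₀`: if a flat root `y` of `P (x, Y)` is in the `i`-th ball then `(x₀, y_i)` is flat: `‖y_i‖ ≤ R` would give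
`‖y‖ ≤ R`; and `ψ(y_i)^A ≠ φ(x₀)^B` would give `ψ(y)^A ≠ φ(x)^B` by continuity. (d) So the flat roots of `P (x, Y)` inject into the
flat roots of `P (x₀, Y)`; as `fc(x) ≥ fc(x₀)` this is a bijection, and for flat `y_i` the root of `P (x, Y)` in
the `i`-th ball is flat. (e) `y₀` is flat (`R < ‖y₀‖`, `ψ(y₀)^A = φ(x₀)^B`). So for `(x, y)` near `(x₀, y₀)` on the curve
`ψ(y)^A = φ(x)^B`, `(ψ(y)^a/φ(x)^b)^D' = 1`, and `ψ(y)^a/φ(x)^b` is near `1` (continuity; `φ(x₀) ≠ 0` because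
`‖φ x₀/x₀ - 1‖ < 1`); there are only finitely many `D'`-th roots of unity, so it is `1`. -/
def St_W15 : Prop := ∀ (L : Type) [NormedField L] [IsUltrametricDist L] [IsAlgClosed L]
  (φ ψ : L → L) (R : ℝ) (_ : 1 < R) (_ : ∀ x, R < ‖x‖ → ContinuousAt φ x ∧ φ x ≠ 0)
  (_ : ∀ y, R < ‖y‖ → ContinuousAt ψ y ∧ ψ y ≠ 0) (a b D' : ℕ) (_ : 0 < a) (_ : 0 < b)
  (_ : 0 < D') (P : L[X][X]) (x₀ y₀ : L) (_ : R < ‖x₀‖) (_ : R < ‖y₀‖)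
  (_ : P.leadingCoeff.eval x₀ ≠ 0)
  (_ : ∀ y, ev x₀ y P = 0 → ev x₀ y (derivative P) ≠ 0)
  (_ : ∃ ε : ℝ, 0 < ε ∧ ∀ x, ‖x - x₀‖ < ε →
    fc P φ ψ R (a * D') (b * D') x₀ ≤ fc P φ ψ R (a * D') (b * D') x)
  (_ : ev x₀ y₀ P = 0) (_ : ψ y₀ ^ a = φ x₀ ^ b), LocFlat P φ ψ a b x₀ y₀

/-- [W16] Order of a function at a simple point (use W0, W14).

PROOF. Points on the curve near `(x₀, y₀)`: for every `x` near `x₀` there is one, by W14 (2). If `E(x₀, y₀) ≠ 0` then `μ = 0`.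
Division step: let `E(x₀, y₀) = 0`. `P (x₀, Y) = (Y - y₀) u(Y)`, `u(y₀) = P_Y(x₀, y₀) ≠ 0`, `E (x₀, Y) = (Y - y₀) v(Y)`. The
polynomial `u(Y) E - v(Y) P` vanishes for `x = x₀`, so it is `(X - x₀) E₁`. `P ∤ E₁` (otherwise `P ∣ u E`, `P` is prime, `P ∤ E`,
and `P ∤ u` since `u(y₀) ≠ 0 = P(x₀, y₀)`). Iterate while `E_j(x₀, y₀) = 0`: on the curve `U_j E = (x - x₀)^j E_j`,
`U_j(x₀, y₀) ≠ 0`, `P ∤ E_j`. By W0 `A P + B E = C ρ`, `ρ ≠ 0`, so on the curve `ρ(x) U_j = B U_j E = B (x - x₀)^j E_j`; near the point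
`‖ρ(x)‖ = c ‖x - x₀‖^ν`, `c > 0`, `ν` the multiplicity of `x₀`; as `x → x₀` (`x ≠ x₀`, possible by the first hypothesis:
small nonzero elements exist) this gives `j ≤ ν`. So the iteration stops with `E_j(x₀, y₀) ≠ 0`: `μ = j`,
`C = ‖E_j(x₀, y₀)‖/‖U_j(x₀, y₀)‖`. -/
def St_W16 : Prop := ∀ (L : Type) [NormedField L] [IsUltrametricDist L] [IsAlgClosed L]
  (_ : ∃ z : L, 1 < ‖z‖) (P E : L[X][X]) (_ : Irreducible P) (_ : ¬ P ∣ E) (x₀ y₀ : L)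
  (_ : ev x₀ y₀ P = 0) (_ : ev x₀ y₀ (derivative P) ≠ 0),
  ∃ (μ : ℕ) (C ε : ℝ), 0 < C ∧ 0 < ε ∧ ∀ x y, ‖x - x₀‖ < ε → ‖y - y₀‖ < ε → ev x y P = 0 →
    ‖ev x y E‖ = C * ‖x - x₀‖ ^ μ

/-- [W17] Rigidity.

PROOF. `q = p^e`, `d = q m`. `g(y(1+ρ)) - g(y) = ∑_(j≥1) B_j(y) ρ^j`, `B_j = X^j hasseDeriv_j g`, of degree `≤ d`. The coefficient of
`X^d` in `B_j` is `choose(d, j)`, which is `0` in `L` for `1 ≤ j < q` (`(1+X)^(q m) = (1+X^q)^m`) and `m` for `j = q`, of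
norm one. Choose `R₀ ≥ 1` such that for `‖y‖ = r > R₀`: `‖g(y)‖ = r^d`, `‖B_j(y)‖ =: b_j(r)` depends only on `r`
(`‖lc B_j‖ r^(deg B_j)`, or `0` if `B_j = 0`) for all `j`, `b_q(r) = r^d`, and `b_j(r) ≤ r^d` for all `j > q`.
`F_r(s) = max_(1≤j≤q) (b_j(r)/r^d) s^j ≥ s^q`, strictly increasing for `s > 0`. `T_r` = the set of `s > 0` with
`b_j(r) s^j = b_i(r) s^i ≠ 0` for some `i ≠ j` in `[1, q]`: finite. If `‖ρ‖ = s ∈ (0,1)`, `s ∉ T_r`, then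
`‖g(y(1+ρ))/g(y) - 1‖ = F_r(s)` (the terms with `j > q` are at most `s^(q+1) < s^q ≤ F_r(s)`).
Let `y, ρ` be as in the set, `y_N = orb g y N`, `‖y_N‖ = r_N = r^(d^N)`, `orb g (y(1+ρ)) N = y_N (1 + ρ_N)`, `s_N = ‖ρ_N‖ ≤ r^(-c d^N) < 1`. As long as
`s_i ∉ T_(r_i)` we have `s_(i+1) = F_(r_i)(s_i) ≥ s_i^q`. Choose `J` with `ε^(q^J) > r^(-c d^J)` (`m ≥ 2`). If `s_i ∉ T_(r_i)` for
all `i < J` then `s_J ≥ ε^(q^J) > r^(-c d^J) ≥ s_J`, a contradiction. So there is a smallest `N < J` with `s_N ∈ T_(r_N)`, and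
`s_N = (F_(r_(N-1)) ∘ ... ∘ F_(r_0))(s)`: for every `N < J` only finitely many `s` (injectivity on `s > 0`). -/
def St_W17 : Prop := ∀ (p : ℕ) [Fact p.Prime] (L : Type) [NormedField L] [IsUltrametricDist L]
  [CharP L p] (e m : ℕ) (_ : 2 ≤ m) (_ : ¬ p ∣ m) (g : L[X]) (_ : g.Monic)
  (_ : g.natDegree = p ^ e * m), ∃ R₀ : ℝ, 1 ≤ R₀ ∧ ∀ r : ℝ, R₀ < r → ∀ c ε : ℝ, 0 < c → 0 < ε →
    {s : ℝ | ε ≤ s ∧ s < 1 ∧ ∃ y ρ : L, ‖y‖ = r ∧ ‖ρ‖ = s ∧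
      ∀ N, ‖orb g (y * (1 + ρ)) N / orb g y N - 1‖ ≤
        r ^ (-(c * ((p ^ e * m : ℕ) : ℝ) ^ N))}.Finite

/-- [W18] The curve is periodic (use W2, W3, W14, W16, W17).

PROOF. `d = p^e m`, `R₀ = max(R, R₀(W17))`. Suppose `P ∤ E := tw f g P k`; `ev x y E = ev (f^k x) (g^k y) P` (`ev_tw`). `x₁ = orb f x₀ k`,
`y₁ = orb g y₀ k`, `r = ‖y₁‖ = ‖y₀‖^(d^k) > R₀`. W16: on the curve near `(x₀, y₀)`, `‖ev x y E‖ = C ‖x - x₀‖^μ`, and `μ ≥ 1` since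
`ev x₀ y₀ E = 0`. For `x` near `x₀` let `y` be near `y₀` on the curve (W14 (2)), `x' = f^k x`, `y' = g^k y`, near `x₁, y₁`; let
`y''` be near `y₁` with `P (x', y'') = 0` (W14 (2) at `(x₁, y₁)`). By the two flatness hypotheses and W2,
`ψ(y'')^a = φ(x')^b` and `ψ(y')^a = ψ(y)^(a d^k) = φ(x)^(b d^k) = φ(x')^b`. `(ψ(y')/ψ(y''))^a = 1` and both are near `ψ(y₁) ≠ 0` (W3), so
`ψ(y') = ψ(y'')` (finitely many roots of unity). `y' = y'' (1 + ρ)`, `‖y''‖ = r`, `‖ρ‖ < 1`; by W2 both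
`g^N(y')/ψ(y')^(d^N)` and `g^N(y'')/ψ(y'')^(d^N)` are at distance `≤ r^(-c d^N)` from `1`, so
`‖g^N(y')/g^N(y'') - 1‖ ≤ r^(-c d^N)`. W14 (1) at `(x₁, y₁)`: `‖ev x' y' P‖ = ‖y' - y''‖ v`, `v = ‖P_Y(x₁, y₁)‖`. So
`‖ρ‖ = C' ‖x - x₀‖^μ`, `C' = C/(v r) > 0`, for all `x` near `x₀`. The set of the values `‖x - x₀‖` is dense in `(0, ∞)` (`L` is
algebraically closed, `‖x₀‖ > 1`: `‖x₀‖^(i/j)` are norms), so infinitely many `s = ‖ρ‖` in some interval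
`[ε, 1)`, `ε > 0`, are in the set of W17. Contradiction. -/
def St_W18 : Prop := ∀ (p : ℕ) [Fact p.Prime] (L : Type) [NormedField L] [IsUltrametricDist L]
  [IsAlgClosed L] [CharP L p] (e m : ℕ) (_ : 2 ≤ m) (_ : ¬ p ∣ m) (f g : L[X])
  (_ : f.Monic) (_ : f.natDegree = p ^ e * m) (_ : g.Monic) (_ : g.natDegree = p ^ e * m)
  (φ ψ : L → L) (R c : ℝ) (_ : IsPhi (p ^ e * m) f φ R c) (_ : IsPhi (p ^ e * m) g ψ R c)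
  (a b : ℕ) (_ : 0 < a) (_ : 0 < b), ∃ R₀ : ℝ, ∀ (P : L[X][X]) (_ : Irreducible P) (x₀ y₀ : L)
    (k : ℕ), 0 < k → R₀ < ‖x₀‖ → R₀ < ‖y₀‖ → ev x₀ y₀ P = 0 → ev x₀ y₀ (derivative P) ≠ 0 →
    ev (orb f x₀ k) (orb g y₀ k) P = 0 → ev (orb f x₀ k) (orb g y₀ k) (derivative P) ≠ 0 →
    LocFlat P φ ψ a b x₀ y₀ → LocFlat P φ ψ a b (orb f x₀ k) (orb g y₀ k) → P ∣ tw f g P k

/-- [W19] PROOF. If `derivative (toP L h) = 0` then all exponents of the second variable in `h` are divisible by `p`; the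
other condition says the same for the first variable. Then `h = ∑ c_m X^(p i) Y^(p j) = (∑ c_m^(1/p) X^i Y^j)^p`, not irreducible. -/
def St_W19 : Prop := ∀ (p : ℕ) [Fact p.Prime] (L : Type) [Field L] [IsAlgClosed L] [CharP L p]
  (h : MvPolynomial (Fin 2) L) (_ : Irreducible h), derivative (toP L h) ≠ 0 ∨
    derivative (toP L (MvPolynomial.rename (Equiv.swap (0 : Fin 2) 1) h)) ≠ 0

end Pool.Agent.Helper79.DN
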