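import Pool.Agent.Helper79.DN.StT

/-!
# Module T3: the differences in a basis over the core
-/

set_option autoImplicit false

namespace Pool.Agent.Helper79.DN

open Polynomial

theorem thm_T3 : St_T3 := by
  intro p _ K _ _ B β₀
  classical
  let k : Subfield K := ⨅ s : ℕ, (iterateFrobenius K p s).fieldRange
  have hk : ∀ c : K, c ∈ k ↔ Core p c := by
    intro c
    rw [Subfield.mem_iInf]
    refine forall_congr' fun s => ?_
    constructor
    · rintro ⟨w, hw⟩
      exact ⟨w, hw.symm.trans (iterateFrobenius_def p s w)⟩
    · rintro ⟨w, hw⟩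
      exact ⟨w, (iterateFrobenius_def p s w).trans hw.symm⟩
  let W : Submodule k K := Submodule.span k ((fun β => β - β₀) '' (B : Set K))
  have hfin : Module.Finite k W := FiniteDimensional.span_of_finite k
    (B.finite_toSet.image _)
  let b := Module.finBasis k W
  refine ⟨Module.finrank k W, fun i => (b i : K), ?_, ?_⟩
  · intro a ha h0 i
    have hli := b.linearIndependent
    rw [Fintype.linearIndependent_iff] at hli
    have h1 := hli (fun i => (⟨a i, (hk _).mpr (ha i)⟩ : k)) (by
      apply Subtype.ext
      rw [Submodule.coe_sum]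
      exact h0) i
    exact congrArg (fun z : k => (z : K)) h1
  · intro β hβ
    have hW : β - β₀ ∈ W := Submodule.subset_span ⟨β, hβ, rfl⟩
    refine ⟨fun i => (b.repr ⟨β - β₀, hW⟩ i : K), fun i => (hk _).mp (b.repr _ i).2, ?_⟩
    have h4 := b.sum_repr ⟨β - β₀, hW⟩
    have h5 := congrArg (fun z : W => (z : K)) h4
    simp only [Submodule.coe_sum] at h5
    exact h5.symm

end Pool.Agent.Helper79.DN
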