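import Pool.Agent.Helper79.DN.StW

/-!
# W16: the order of a function at a simple point of the curve
-/

set_option autoImplicit false

namespace Pool.Agent.Helper79.DN

open Polynomial Pool.Agent.Helper79.DM Pool.Agent.Helper11.SP

section

variable {L : Type} [Field L]

/-- `ev` as a ring homomorphism. -/
private noncomputable def w16R (x y : L) : L[X][X] →+* L :=
  (evalRingHom y).comp (mapRingHom (evalRingHom x))

private theorem w16_ev (x y : L) (Q : L[X][X]) : ev x y Q = w16R x y Q := rfl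

private theorem w16_C (x y : L) (q : L[X]) : w16R x y (C q) = q.eval x := ev_C x y q

/-- The state of the iteration. -/
private def W16S (P E : L[X][X]) (x₀ y₀ : L) (j : ℕ) (U E' : L[X][X]) : Prop :=
  ev x₀ y₀ U ≠ 0 ∧ ¬ P ∣ E' ∧ P ∣ U * E - C ((X - C x₀) ^ j) * E'

private theorem w16_bound {P E A B : L[X][X]} {ρ : L[X]} (hP : Irreducible P)
    (hd : 0 < P.natDegree) (hρ : ρ ≠ 0) (hAB : A * P + B * E = C ρ) {x₀ y₀ : L}
    (h0 : ev x₀ y₀ P = 0) {j : ℕ} {U E' : L[X][X]} (hS : W16S P E x₀ y₀ j U E') :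
    j ≤ rootMultiplicity x₀ ρ := by
  by_contra hc
  push Not at hc
  obtain ⟨ρ₁, h1, h2⟩ := exists_eq_pow_rootMultiplicity_mul_and_not_dvd ρ hρ x₀
  obtain ⟨hU, -, S, hS⟩ := hS
  generalize rootMultiplicity x₀ ρ = ν at hc h1
  obtain ⟨i, rfl⟩ := Nat.exists_eq_add_of_lt hc
  have h3 : P ∣ C ((X - C x₀) ^ ν) * (C ρ₁ * U - B * C ((X - C x₀) ^ (i + 1)) * E') := by
    refine ⟨A * U + B * S, ?_⟩
    have e1 : C ρ = C ((X - C x₀) ^ ν) * C ρ₁ := by rw [← C_mul, ← h1]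
    have e2 : C ((X - C x₀) ^ (ν + i + 1)) = C ((X - C x₀) ^ ν) * C ((X - C x₀) ^ (i + 1)) := by
      rw [← C_mul, ← pow_add, add_assoc]
    rw [e2] at hS
    rw [e1] at hAB
    linear_combination (-U) * hAB + B * hS
  rcases hP.prime.dvd_or_dvd h3 with h4 | h4
  · have h5 : C ((X - C x₀) ^ ν) ≠ (0 : L[X][X]) := by
      rw [Ne, C_eq_zero]
      exact pow_ne_zero _ (X_sub_C_ne_zero x₀)
    have h6 := natDegree_le_of_dvd h4 h5
    rw [natDegree_C] at h6
    omega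
  · obtain ⟨T, hT⟩ := h4
    have h5 := congrArg (w16R x₀ y₀) hT
    rw [map_mul, ← w16_ev x₀ y₀ P, h0, zero_mul, map_sub, map_mul, map_mul, map_mul, w16_C,
      w16_C, eval_pow, eval_sub, eval_X, eval_C, sub_self, zero_pow (Nat.succ_ne_zero i),
      mul_zero, zero_mul, sub_zero] at h5
    rcases mul_eq_zero.1 h5 with h6 | h6
    · exact h2 (dvd_iff_isRoot.2 h6)
    · exact hU h6

private theorem w16_step {P E : L[X][X]} (hP : Irreducible P) {x₀ y₀ : L}
    (h0 : ev x₀ y₀ P = 0) (h0' : ev x₀ y₀ (derivative P) ≠ 0) {j : ℕ} {U E' : L[X][X]}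
    (hS : W16S P E x₀ y₀ j U E') (hE : ev x₀ y₀ E' = 0) :
    ∃ U₁ E₁, W16S P E x₀ y₀ (j + 1) U₁ E₁ := by
  obtain ⟨hU, hPE, S, hS⟩ := hS
  obtain ⟨u, hu⟩ : X - C y₀ ∣ P.map (evalRingHom x₀) := dvd_iff_isRoot.2 h0
  obtain ⟨v, hv⟩ : X - C y₀ ∣ E'.map (evalRingHom x₀) := dvd_iff_isRoot.2 hE
  have hu0 : u.eval y₀ ≠ 0 := by
    intro h1
    apply h0'
    unfold ev
    rw [← derivative_map, hu, derivative_mul, eval_add, eval_mul, eval_mul, h1]
    simp
  have hid : (evalRingHom x₀).comp (C : L →+* L[X]) = RingHom.id L := by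
    ext a
    simp
  have hF : (u.map C * E' - v.map C * P).map (evalRingHom x₀) = 0 := by
    rw [Polynomial.map_sub, Polynomial.map_mul, Polynomial.map_mul, Polynomial.map_map,
      Polynomial.map_map, hid, Polynomial.map_id, Polynomial.map_id, hu, hv]
    ring
  obtain ⟨E₁, hE₁⟩ : C (X - C x₀) ∣ (u.map C * E' - v.map C * P) := by
    rw [C_dvd_iff_dvd_coeff]
    intro i
    rw [dvd_iff_isRoot]
    have h1 := congrArg (fun q : L[X] => q.coeff i) hF
    simp only [Polynomial.coeff_map, coeff_zero] at h1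
    exact h1
  have hevu : ev x₀ y₀ (u.map C) = u.eval y₀ := by
    unfold ev
    rw [Polynomial.map_map, hid, Polynomial.map_id]
  refine ⟨u.map C * U, E₁, ?_, ?_, ?_⟩
  · rw [ev_mul, hevu]
    exact mul_ne_zero hu0 hU
  · rintro ⟨T, hT⟩
    have h1 : P ∣ u.map C * E' := by
      refine ⟨C (X - C x₀) * T + v.map C, ?_⟩
      rw [hT] at hE₁
      linear_combination hE₁
    rcases hP.prime.dvd_or_dvd h1 with h2 | h2
    · obtain ⟨T', hT'⟩ := h2
      have h3 : ev x₀ y₀ (u.map C) = ev x₀ y₀ P * ev x₀ y₀ T' := by rw [hT', ev_mul]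
      rw [hevu, h0, zero_mul] at h3
      exact hu0 h3
    · exact hPE h2
  · refine ⟨C ((X - C x₀) ^ j) * v.map C + u.map C * S, ?_⟩
    have e2 : C ((X - C x₀) ^ (j + 1)) = C ((X - C x₀) ^ j) * C (X - C x₀) := by
      rw [← C_mul, ← pow_succ]
    rw [e2]
    linear_combination (u.map C) * hS + C ((X - C x₀) ^ j) * hE₁

end

private theorem w16_cont {L : Type} [NormedField L] (Q : L[X][X]) :
    Continuous fun p : L × L => ev p.1 p.2 Q := by
  have h1 : (fun p : L × L => ev p.1 p.2 Q) =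
      fun p : L × L => ∑ i ∈ Finset.range (Q.natDegree + 1), (Q.coeff i).eval p.1 * p.2 ^ i := by
    funext p
    unfold ev
    rw [eval_map, eval₂_eq_sum_range]
    rfl
  rw [h1]
  refine continuous_finset_sum _ fun i _ => ?_
  exact ((Q.coeff i).continuous.comp continuous_fst).mul (continuous_snd.pow i)

private theorem w16_near {L : Type} [NormedField L] [IsUltrametricDist L] (Q : L[X][X])
    (x₀ y₀ : L) (h : ev x₀ y₀ Q ≠ 0) : ∃ ε : ℝ, 0 < ε ∧ ∀ x y, ‖x - x₀‖ < ε → ‖y - y₀‖ < ε →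
      ‖ev x y Q‖ = ‖ev x₀ y₀ Q‖ := by
  have h1 := (w16_cont Q).continuousAt (x := (x₀, y₀))
  rw [Metric.continuousAt_iff] at h1
  obtain ⟨ε, hε, h2⟩ := h1 _ (norm_pos_iff.2 h)
  refine ⟨ε, hε, fun x y hx hy => ?_⟩
  have h3 := @h2 (x, y) (by
    rw [Prod.dist_eq, dist_eq_norm, dist_eq_norm]
    exact max_lt hx hy)
  rw [dist_eq_norm] at h3
  have h4 : ev x y Q = (ev x y Q - ev x₀ y₀ Q) + ev x₀ y₀ Q := by ring
  rw [h4, IsUltrametricDist.norm_add_eq_max_of_norm_ne_norm h3.ne]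
  exact max_eq_right h3.le

theorem thm_W16 (h0 : St_W0) (h14 : St_W14) : St_W16 := by
  intro L _ _ _ _ P E hP hPE x₀ y₀ hx hx'
  have hd : 0 < P.natDegree := by
    rw [Nat.pos_iff_ne_zero]
    intro h1
    apply hx'
    rw [natDegree_eq_zero] at h1
    obtain ⟨q, rfl⟩ := h1
    rw [derivative_C]
    unfold ev
    simp
  obtain ⟨ρ, A, B, hρ, hAB⟩ := h0 L P E hP hd hPE
  -- the maximal state
  have hmax : ∃ j U E', W16S P E x₀ y₀ j U E' ∧ ∀ U₁ E₁, ¬ W16S P E x₀ y₀ (j + 1) U₁ E₁ := by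
    by_contra hcon
    push Not at hcon
    have h1 : ∀ j : ℕ, ∃ U E', W16S P E x₀ y₀ j U E' := by
      intro j
      induction j with
      | zero =>
        refine ⟨1, E, ?_, hPE, ?_⟩
        · unfold ev
          simp
        · simp
      | succ j ih =>
        obtain ⟨U, E', hS⟩ := ih
        exact hcon j U E' hS
    obtain ⟨U, E', hS⟩ := h1 (rootMultiplicity x₀ ρ + 1)
    have := w16_bound hP hd hρ hAB hx hS
    omega
  obtain ⟨j, U, E', hS, hno⟩ := hmax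
  have hE' : ev x₀ y₀ E' ≠ 0 := by
    intro h1
    obtain ⟨U₁, E₁, h2⟩ := w16_step hP hx hx' hS h1
    exact hno U₁ E₁ h2
  obtain ⟨hU, -, S, hS⟩ := hS
  obtain ⟨ε₁, hε₁, h1⟩ := w16_near U x₀ y₀ hU
  obtain ⟨ε₂, hε₂, h2⟩ := w16_near E' x₀ y₀ hE'
  have hU' : 0 < ‖ev x₀ y₀ U‖ := norm_pos_iff.2 hU
  have hE'' : 0 < ‖ev x₀ y₀ E'‖ := norm_pos_iff.2 hE'
  refine ⟨j, ‖ev x₀ y₀ E'‖ / ‖ev x₀ y₀ U‖, min ε₁ ε₂, div_pos hE'' hU', lt_min hε₁ hε₂, ?_⟩
  intro x y hxn hyn hxy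
  have h3 := h1 x y (lt_of_lt_of_le hxn (min_le_left _ _)) (lt_of_lt_of_le hyn (min_le_left _ _))
  have h4 := h2 x y (lt_of_lt_of_le hxn (min_le_right _ _))
    (lt_of_lt_of_le hyn (min_le_right _ _))
  have h5 : ev x y U * ev x y E = (x - x₀) ^ j * ev x y E' := by
    have h6 := congrArg (w16R x y) hS
    rw [map_sub, map_mul, map_mul, map_mul, w16_C, ← w16_ev x y P, hxy, zero_mul, eval_pow,
      eval_sub, eval_X, eval_C, sub_eq_zero] at h6
    exact h6
  have h7 := congrArg (fun z : L => ‖z‖) h5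
  simp only [norm_mul, norm_pow, h3, h4] at h7
  rw [div_mul_eq_mul_div, eq_div_iff hU'.ne', mul_comm ‖ev x y E‖, h7, mul_comm]

end Pool.Agent.Helper79.DN
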