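import Pool.Agent.Helper79.DN.StW

/-!
# W2: first properties of the Boettcher coordinate (helper59)
-/

set_option autoImplicit false

namespace Pool.Agent.Helper79.DN

open Polynomial Pool.Agent.Helper79.DM Pool.Agent.Helper11.SP

theorem thm_W2 : St_W2 := by
  intro L _ _ d hd f φ R c hφ
  obtain ⟨hR, hc, h1, h2⟩ := hφ
  have hsucc : ∀ x N, orb f x (N + 1) = f.eval (orb f x N) := by
    intro x N
    unfold orb
    rw [Function.iterate_succ_apply']
  have hzero : ∀ x, orb f x 0 = x := fun x => rfl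
  have hφn : ∀ x, R < ‖x‖ → ‖φ x‖ = ‖x‖ := by
    intro x hx
    obtain ⟨-, -, h3⟩ := h1 x hx
    have hx1 : 1 < ‖x‖ := hR.trans hx
    have hx0 : x ≠ 0 := norm_ne_zero_iff.1 (by linarith : ‖x‖ ≠ 0)
    have h4 : ‖x‖ ^ (-c) < 1 := Real.rpow_lt_one_of_one_lt_of_neg hx1 (by linarith)
    have h5 : ‖φ x / x - 1‖ < 1 := h3.trans_lt h4
    have h6 : ‖φ x / x‖ = 1 := by
      have h7 : ‖(φ x / x - 1) + 1‖ = max ‖φ x / x - 1‖ ‖(1 : L)‖ :=
        IsUltrametricDist.norm_add_eq_max_of_norm_ne_norm (by rw [norm_one]; exact h5.ne)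
      rw [sub_add_cancel, norm_one, max_eq_right h5.le] at h7
      exact h7
    rw [norm_div, div_eq_one_iff_eq (norm_ne_zero_iff.2 hx0)] at h6
    exact h6
  have hpw : ∀ (t : ℝ), 1 < t → ∀ n : ℕ, R < t → R < t ^ d ^ n := by
    intro t ht n hRt
    exact hRt.trans_le (le_self_pow₀ ht.le (pow_ne_zero _ (by omega)))
  constructor
  · intro x hx
    have hx1 : 1 < ‖x‖ := hR.trans hx
    have key : ∀ N, ‖orb f x N‖ = ‖x‖ ^ d ^ N ∧ φ (orb f x N) = φ x ^ d ^ N := by
      intro N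
      induction N with
      | zero => rw [hzero, pow_zero, pow_one, pow_one]; exact ⟨rfl, rfl⟩
      | succ N ih =>
        have h3 : R < ‖orb f x N‖ := by
          rw [ih.1]
          exact hpw _ hx1 N hx
        obtain ⟨h4, h5, -⟩ := h1 _ h3
        rw [hsucc]
        refine ⟨?_, ?_⟩
        · rw [h4, ih.1, ← pow_mul, ← pow_succ]
        · rw [h5, ih.2, ← pow_mul, ← pow_succ]
    refine ⟨hφn x hx, fun N => ⟨(key N).1, (key N).2, ?_⟩⟩
    have h3 : R < ‖orb f x N‖ := by
      rw [(key N).1]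
      exact hpw _ hx1 N hx
    obtain ⟨-, -, h6⟩ := h1 _ h3
    rw [(key N).2] at h6
    refine h6.trans (le_of_eq ?_)
    rw [(key N).1, ← Real.rpow_natCast ‖x‖ (d ^ N), ← Real.rpow_mul (norm_nonneg _)]
    congr 1
    push_cast
    ring
  · intro x hx N
    induction N with
    | zero => rw [hzero, pow_zero, pow_one]; exact hx
    | succ N ih =>
      rw [hsucc]
      by_cases h3 : ‖orb f x N‖ ≤ R
      · refine (h2 _ h3).trans ?_
        refine pow_le_pow_right₀ hR.le ?_
        calc d = d ^ 1 := (pow_one d).symm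
          _ ≤ d ^ (N + 1) := Nat.pow_le_pow_right hd (by omega)
      · rw [not_le] at h3
        obtain ⟨h4, -, -⟩ := h1 _ h3
        rw [h4]
        calc ‖orb f x N‖ ^ d ≤ (R ^ d ^ N) ^ d := pow_le_pow_left₀ (norm_nonneg _) ih d
          _ = R ^ d ^ (N + 1) := by rw [← pow_mul, ← pow_succ]

end Pool.Agent.Helper79.DN
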